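import Pool.Agent.Helper52.PrimeSums

/-! SQ/Mert.  Mertens bounds in the form needed.

`Helper52.prod_lower`, `Helper52.prod_upper` give `∏_{q ≤ 2^a} (1 - 1/q)` between `exp(-9)/a` and
`1/(a log 2)`; for `2 ≤ w ≤ Z` put `w` and `Z` between consecutive powers of two and divide.
`mert_log` from `Helper52.mertens1`. -/

set_option autoImplicit false

namespace Pool.Agent.SQ

open Finset
open Helper52 (pr)

private theorem mert_factor {q : ℕ} (hq : q.Prime) :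
    0 < (1 - 1 / (q : ℝ)) ∧ 1 ≤ (1 - 1 / (q : ℝ))⁻¹ := by
  have h2 : (2 : ℝ) ≤ q := by exact_mod_cast hq.two_le
  have h3 : 1 / (q : ℝ) ≤ 1 / 2 := one_div_le_one_div_of_le (by norm_num) h2
  have h4 : 0 < 1 / (q : ℝ) := by positivity
  have h5 : 0 < (1 - 1 / (q : ℝ)) := by linarith
  refine ⟨h5, ?_⟩
  rw [one_le_inv₀ h5]
  linarith

private theorem mert_one_le (a b : ℕ) : 1 ≤ ∏ q ∈ pr a b, (1 - 1 / (q : ℝ))⁻¹ := by
  calc (1 : ℝ) = ∏ _q ∈ pr a b, (1 : ℝ) := by simp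
    _ ≤ _ := Finset.prod_le_prod (fun _ _ => zero_le_one) fun q hq =>
      (mert_factor (Helper52.mem_pr.1 hq).2.2).2

private theorem mert_split {w Z : ℕ} (h : w ≤ Z) :
    (∏ q ∈ pr 0 w, (1 - 1 / (q : ℝ))⁻¹) * ∏ q ∈ pr w Z, (1 - 1 / (q : ℝ))⁻¹ =
      ∏ q ∈ pr 0 Z, (1 - 1 / (q : ℝ))⁻¹ := by
  rw [← Finset.prod_union]
  · congr 1
    ext q
    rw [Finset.mem_union, Helper52.mem_pr, Helper52.mem_pr, Helper52.mem_pr]
    constructor
    · rintro (⟨h1, h2, h3⟩ | ⟨h1, h2, h3⟩)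
      · exact ⟨h1, h2.trans h, h3⟩
      · exact ⟨h3.pos, h2, h3⟩
    · rintro ⟨h1, h2, h3⟩
      rcases Nat.lt_or_ge w q with h4 | h4
      · exact Or.inr ⟨h4, h2, h3⟩
      · exact Or.inl ⟨h1, h4, h3⟩
  · rw [Finset.disjoint_left]
    intro q h1 h2
    rw [Helper52.mem_pr] at h1 h2
    omega

private theorem mert_mono {w Z : ℕ} (h : w ≤ Z) :
    ∏ q ∈ pr 0 w, (1 - 1 / (q : ℝ))⁻¹ ≤ ∏ q ∈ pr 0 Z, (1 - 1 / (q : ℝ))⁻¹ := by
  rw [← mert_split h]
  exact le_mul_of_one_le_right (zero_le_one.trans (mert_one_le 0 w)) (mert_one_le w Z)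

private theorem mert_prod_pos (a b : ℕ) : 0 < ∏ q ∈ pr a b, (1 - 1 / (q : ℝ)) :=
  Finset.prod_pos fun q hq => (mert_factor (Helper52.mem_pr.1 hq).2.2).1

private theorem mert_const : (1 : ℝ) ≤ 2 * Real.exp 9 / Real.log 2 ∧
    (2 : ℝ) ≤ 2 * Real.exp 9 / Real.log 2 := by
  have h1 : 0 < Real.log 2 := Real.log_pos (by norm_num)
  have h2 : Real.log 2 ≤ 1 := by
    have := Real.log_two_lt_d9
    linarith
  have h3 : (1 : ℝ) ≤ Real.exp 9 := Real.one_le_exp (by norm_num)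
  have h4 : (2 : ℝ) ≤ 2 * Real.exp 9 / Real.log 2 := by
    rw [le_div_iff₀ h1]
    nlinarith
  exact ⟨by linarith, h4⟩

/-- the product over all primes up to `z` -/
theorem mert_full : ∃ C : ℝ, 1 ≤ C ∧ ∀ z : ℕ, 2 ≤ z →
    ∏ q ∈ pr 0 z, (1 - 1 / (q : ℝ))⁻¹ ≤ C * Real.log z ∧
    Real.log z ≤ C * ∏ q ∈ pr 0 z, (1 - 1 / (q : ℝ))⁻¹ := by
  refine ⟨2 * Real.exp 9 / Real.log 2, mert_const.1, fun z hz => ?_⟩
  have hl2 : 0 < Real.log 2 := Real.log_pos (by norm_num)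
  set a := Nat.log 2 z with ha
  have ha1 : 1 ≤ a := Nat.log_pos (by norm_num) hz
  have h1 : 2 ^ a ≤ z := Nat.pow_log_le_self 2 (by omega)
  have h2 : z ≤ 2 ^ (a + 1) := (Nat.lt_pow_succ_log_self (by norm_num) z).le
  have har : (1 : ℝ) ≤ a := by exact_mod_cast ha1
  have hlog1 : a * Real.log 2 ≤ Real.log z := by
    rw [← Real.log_pow]
    exact Real.log_le_log (by positivity) (by exact_mod_cast h1)
  have hlog2 : Real.log z ≤ (a + 1) * Real.log 2 := by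
    have h3 : Real.log z ≤ Real.log ((2 : ℝ) ^ (a + 1)) :=
      Real.log_le_log (by positivity) (by exact_mod_cast h2)
    rw [Real.log_pow] at h3
    push_cast at h3
    exact h3
  constructor
  · refine (mert_mono h2).trans ?_
    rw [Finset.prod_inv_distrib]
    have h3 := Helper52.prod_lower (a := a + 1) (by omega)
    have h4 : (∏ q ∈ pr 0 (2 ^ (a + 1)), (1 - 1 / (q : ℝ)))⁻¹ ≤ (a + 1) * Real.exp 9 := by
      have h5 : 0 < Real.exp (-9) / ((a + 1 : ℕ) : ℝ) := by positivity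
      have h6 := inv_anti₀ h5 h3
      refine h6.trans (le_of_eq ?_)
      rw [inv_div, Real.exp_neg, div_inv_eq_mul]
      push_cast
      ring
    refine h4.trans ?_
    have h7 : (a : ℝ) ≤ Real.log z / Real.log 2 := by
      rw [le_div_iff₀ hl2]; exact hlog1
    have h8 : (0 : ℝ) < Real.exp 9 := Real.exp_pos _
    calc ((a : ℝ) + 1) * Real.exp 9 ≤ (2 * (Real.log z / Real.log 2)) * Real.exp 9 := by
          apply mul_le_mul_of_nonneg_right _ h8.le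
          linarith
      _ = _ := by ring
  · have h3 := Helper52.prod_upper (b := a) ha1
    have h4 : (a : ℝ) * Real.log 2 ≤ ∏ q ∈ pr 0 (2 ^ a), (1 - 1 / (q : ℝ))⁻¹ := by
      rw [Finset.prod_inv_distrib]
      have h6 := inv_anti₀ (mert_prod_pos 0 (2 ^ a)) h3
      refine le_trans (le_of_eq ?_) h6
      rw [one_div, inv_inv]
    have h5 := h4.trans (mert_mono h1)
    have h6 : 1 ≤ ∏ q ∈ pr 0 z, (1 - 1 / (q : ℝ))⁻¹ := mert_one_le 0 z
    calc Real.log z ≤ (a + 1) * Real.log 2 := hlog2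
      _ ≤ 2 * (a * Real.log 2) := by nlinarith
      _ ≤ 2 * ∏ q ∈ pr 0 z, (1 - 1 / (q : ℝ))⁻¹ := by linarith
      _ ≤ _ := mul_le_mul_of_nonneg_right mert_const.2 (by linarith)

theorem mert_prod : ∃ C : ℝ, 1 ≤ C ∧ ∀ w Z : ℕ, 2 ≤ w → w ≤ Z →
    ∏ q ∈ pr w Z, (1 - 1 / (q : ℝ))⁻¹ ≤ C * (Real.log Z / Real.log w) ∧
    Real.log Z / Real.log w ≤ C * ∏ q ∈ pr w Z, (1 - 1 / (q : ℝ))⁻¹ := by
  obtain ⟨C, hC, h⟩ := mert_full
  refine ⟨C * C, by nlinarith, fun w Z hw hwZ => ?_⟩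
  obtain ⟨h1, h2⟩ := h w hw
  obtain ⟨h3, h4⟩ := h Z (hw.trans hwZ)
  have hsplit := mert_split hwZ
  set A := ∏ q ∈ pr 0 w, (1 - 1 / (q : ℝ))⁻¹
  set B := ∏ q ∈ pr w Z, (1 - 1 / (q : ℝ))⁻¹
  set D := ∏ q ∈ pr 0 Z, (1 - 1 / (q : ℝ))⁻¹
  have hA : 1 ≤ A := mert_one_le 0 w
  have hB : 1 ≤ B := mert_one_le w Z
  have hlw : 0 < Real.log w := Real.log_pos (by exact_mod_cast hw)
  have hC0 : 0 < C := by linarith
  constructor
  · have h5 : B * Real.log w ≤ C * C * Real.log Z := by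
      calc B * Real.log w ≤ B * (C * A) := mul_le_mul_of_nonneg_left h2 (by linarith)
        _ = C * (A * B) := by ring
        _ = C * D := by rw [hsplit]
        _ ≤ C * (C * Real.log Z) := mul_le_mul_of_nonneg_left h3 hC0.le
        _ = _ := by ring
    rw [mul_div_assoc', le_div_iff₀ hlw]
    exact h5
  · rw [div_le_iff₀ hlw]
    calc Real.log Z ≤ C * D := h4
      _ = C * (A * B) := by rw [hsplit]
      _ = C * B * A := by ring
      _ ≤ C * B * (C * Real.log w) := mul_le_mul_of_nonneg_left h1 (by positivity)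
      _ = _ := by ring

theorem mert_log : ∃ z0 : ℕ, ∀ z : ℕ, z0 ≤ z →
    ∑ q ∈ pr 0 z, Real.log q / q ≤ 2 * Real.log z := by
  refine ⟨4, fun z hz => ?_⟩
  refine (Helper52.mertens1 (n := z) (by omega)).trans ?_
  have h1 : Real.log 4 ≤ Real.log z := Real.log_le_log (by norm_num) (by exact_mod_cast hz)
  linarith

end Pool.Agent.SQ
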