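import Pool.Agent.SQ.Defs

/-! SQ/Err.  The error term of the asymptotic formula is small: `Q ≤ z^(1/8) ≤ t^(1/8)`, so
`40 Q (1 + log t)/√t ≤ 40 (1 + log t) t^(-3/8) → 0`. -/

set_option autoImplicit false

namespace Pool.Agent.SQ

open Finset Filter

theorem err (ε : ℝ) (hε : 0 < ε) : ∃ z0 : ℕ, ∀ z : ℕ, z0 ≤ z → ∀ Q : ℝ, 0 ≤ Q → Q ^ 8 ≤ z →
    ∀ t : ℕ, z ≤ t → 40 * Q * (1 + Real.log t) / √t ≤ ε := by
  refine ⟨max 1 ⌈(320 / ε) ^ 4⌉₊, fun z hz Q hQ hQz t hzt => ?_⟩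
  have hz1 : 1 ≤ z := (le_max_left _ _).trans hz
  have ht1 : (1 : ℝ) ≤ t := by exact_mod_cast hz1.trans hzt
  have hzt' : (z : ℝ) ≤ t := by exact_mod_cast hzt
  have hzε : (320 / ε) ^ 4 ≤ (z : ℝ) :=
    (Nat.le_ceil _).trans (by exact_mod_cast (le_max_right _ _).trans hz)
  obtain ⟨s, hs1, hs⟩ : ∃ s : ℝ, 1 ≤ s ∧ s ^ 8 = t := by
    refine ⟨(t : ℝ) ^ ((1 : ℝ) / 8), Real.one_le_rpow ht1 (by norm_num), ?_⟩
    rw [← Real.rpow_natCast, ← Real.rpow_mul (by linarith)]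
    norm_num
  have hs0 : 0 < s := by linarith
  have hQs : Q ≤ s := by
    refine le_of_pow_le_pow_left₀ (n := 8) (by norm_num) hs0.le ?_
    rw [hs]
    exact hQz.trans hzt'
  have hsq : √(t : ℝ) = s ^ 4 := by
    rw [← hs, show s ^ 8 = (s ^ 4) ^ 2 by ring, Real.sqrt_sq (by positivity)]
  have hlog : 1 + Real.log t ≤ 8 * s := by
    have h1 : Real.log t = 8 * Real.log s := by
      rw [← hs, Real.log_pow]
      norm_num
    have h2 := Real.log_le_sub_one_of_pos hs0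
    rw [h1]
    linarith
  have hlog0 : 0 ≤ 1 + Real.log t := by
    have := Real.log_nonneg ht1
    linarith
  have hε2 : 320 ≤ ε * s ^ 2 := by
    have h1 : 320 / ε ≤ s ^ 2 := by
      refine le_of_pow_le_pow_left₀ (n := 4) (by norm_num) (by positivity) ?_
      rw [show (s ^ 2) ^ 4 = s ^ 8 by ring, hs]
      exact hzε.trans hzt'
    rw [div_le_iff₀ hε] at h1
    linarith
  rw [hsq, div_le_iff₀ (by positivity)]
  calc 40 * Q * (1 + Real.log t) ≤ 40 * s * (8 * s) := by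
        refine mul_le_mul (by linarith) hlog hlog0 (by positivity)
    _ = 320 * s ^ 2 := by ring
    _ ≤ (ε * s ^ 2) * s ^ 2 := by
        refine mul_le_mul_of_nonneg_right hε2 (by positivity)
    _ = ε * s ^ 4 := by ring

end Pool.Agent.SQ
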