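import Pool.Agent.SQ.Rr

/-! SQ/Few.  For `n ≤ w` and a prime `w < p ≤ Z` with `χ p = 1` the number `n p` lies in
`(w, w Z]`, `n, p` are coprime (`p > w ≥ n`), `rr χ (n p) = 2 rr χ n`, and `(n, p)` is determined by
`n p` (`p` is its only prime factor `> w`).  So
`SS χ (w Z) - SS χ w ≥ ∑_{n ≤ w} ∑_p 2 rr χ n/(n p) = 2 SS χ w ∑_p 1/p`. -/

set_option autoImplicit false

namespace Pool.Agent.SQ

open Finset
open Helper52 (pr)

variable {χ : ℕ → ℝ} {Q : ℝ}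

open Classical in
theorem few (h : RC χ Q) (w Z : ℕ) (hw : 1 ≤ w) (hZ : 1 ≤ Z) :
    2 * SS χ w * ∑ p ∈ (pr w Z).filter (fun p => χ p = 1), 1 / (p : ℝ) ≤
      SS χ (w * Z) - SS χ w := by
  set P := (pr w Z).filter (fun p => χ p = 1) with hP
  have hPm : ∀ p ∈ P, w < p ∧ p ≤ Z ∧ p.Prime ∧ χ p = 1 := by
    intro p hp
    rw [hP, mem_filter, Helper52.mem_pr] at hp
    exact ⟨hp.1.1, hp.1.2.1, hp.1.2.2, hp.2⟩
  have hinj : Set.InjOn (fun x : ℕ × ℕ => x.1 * x.2) (((Icc 1 w) ×ˢ P : Finset (ℕ × ℕ)) : Set _) := by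
    rintro ⟨n, p⟩ hx ⟨n', p'⟩ hx' heq
    rw [mem_coe, mem_product, mem_Icc] at hx hx'
    obtain ⟨⟨hn1, hn2⟩, hp⟩ := hx
    obtain ⟨⟨hn1', hn2'⟩, hp'⟩ := hx'
    obtain ⟨h1, h2, h3, h4⟩ := hPm p hp
    obtain ⟨h1', h2', h3', h4'⟩ := hPm p' hp'
    have heq' : n * p = n' * p' := heq
    have hdvd : p ∣ n' * p' := by
      rw [← heq']
      exact dvd_mul_left p n
    have hpp : p = p' := by
      rcases (Nat.Prime.dvd_mul h3).1 hdvd with hd | hd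
      · have := Nat.le_of_dvd (by omega) hd
        omega
      · exact (Nat.prime_dvd_prime_iff_eq h3 h3').1 hd
    subst hpp
    have hnn : n = n' := Nat.eq_of_mul_eq_mul_right h3.pos heq'
    rw [hnn]
  have hleft : 2 * SS χ w * ∑ p ∈ P, 1 / (p : ℝ) =
      ∑ m ∈ ((Icc 1 w) ×ˢ P).image (fun x : ℕ × ℕ => x.1 * x.2), rr χ m / m := by
    have h9 : 2 * SS χ w * ∑ p ∈ P, 1 / (p : ℝ) =
        ∑ n ∈ Icc 1 w, 2 * (rr χ n / n) * ∑ p ∈ P, 1 / (p : ℝ) := by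
      rw [SS, ← sum_mul, ← mul_sum]
    rw [sum_image hinj, sum_product, h9]
    apply sum_congr rfl
    intro n hn
    rw [mem_Icc] at hn
    rw [mul_sum]
    apply sum_congr rfl
    intro p hp
    obtain ⟨h1, h2, h3, h4⟩ := hPm p hp
    have hc : Nat.Coprime n p := by
      rw [Nat.coprime_comm]
      refine (Nat.Prime.coprime_iff_not_dvd h3).2 fun hd => ?_
      have := Nat.le_of_dvd (by omega) hd
      omega
    change 2 * (rr χ n / n) * (1 / (p : ℝ)) = rr χ (n * p) / ((n * p : ℕ) : ℝ)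
    rw [rr_mul h hc, rr_prime h h3, h4, Nat.cast_mul]
    have hn0 : (n : ℝ) ≠ 0 := by
      have : n ≠ 0 := by omega
      exact_mod_cast this
    have hp0 : (p : ℝ) ≠ 0 := by exact_mod_cast h3.ne_zero
    field_simp
    ring
  have hdisj : Disjoint (Icc 1 w) (((Icc 1 w) ×ˢ P).image (fun x : ℕ × ℕ => x.1 * x.2)) := by
    rw [disjoint_left]
    intro m hm hm'
    rw [mem_image] at hm'
    obtain ⟨⟨n, p⟩, hx, rfl⟩ := hm'
    rw [mem_product, mem_Icc] at hx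
    obtain ⟨h1, h2, h3, h4⟩ := hPm p hx.2
    rw [mem_Icc] at hm
    have h5 : n * p ≤ w := hm.2
    have h6 : 1 ≤ n := hx.1.1
    nlinarith
  have hsub : (Icc 1 w) ∪ (((Icc 1 w) ×ˢ P).image (fun x : ℕ × ℕ => x.1 * x.2)) ⊆
      Icc 1 (w * Z) := by
    apply union_subset
    · intro m hm
      rw [mem_Icc] at hm ⊢
      exact ⟨hm.1, by nlinarith [hm.2]⟩
    · intro m hm
      rw [mem_image] at hm
      obtain ⟨⟨n, p⟩, hx, rfl⟩ := hm
      rw [mem_product, mem_Icc] at hx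
      obtain ⟨h1, h2, h3, h4⟩ := hPm p hx.2
      rw [mem_Icc]
      exact ⟨Nat.mul_pos hx.1.1 h3.pos, Nat.mul_le_mul hx.1.2 h2⟩
  have hfin : SS χ w + ∑ m ∈ ((Icc 1 w) ×ˢ P).image (fun x : ℕ × ℕ => x.1 * x.2), rr χ m / m ≤
      SS χ (w * Z) := by
    have h7 : SS χ w = ∑ m ∈ Icc 1 w, rr χ m / m := rfl
    have h8 : SS χ (w * Z) = ∑ m ∈ Icc 1 (w * Z), rr χ m / m := rfl
    rw [h7, h8, ← sum_union hdisj]
    apply sum_le_sum_of_subset_of_nonneg hsub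
    intro m _ _
    exact div_nonneg (rr_nonneg h m) (Nat.cast_nonneg m)
  rw [hleft]
  linarith

end Pool.Agent.SQ
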