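import Pool.Agent.SQ.Euler
import Pool.Agent.SQ.Mert

/-! SQ/Ratio.  Comparison of `EP χ w` and `EP χ Z`, `2 ≤ w ≤ Z`.

`EP χ Z = EP χ w * ∏_{p ∈ pr w Z} (1 - 1/p)⁻¹ (1 - χ p/p)⁻¹`; the local factor is `≥ 1`, `≤ (1-1/p)⁻²`,
equal to `(1-1/p)⁻²` if `χ p = 1`, and in any case `≥ 1 ≥ (1-1/p)⁻² exp(-4/p)`
(`1 - 1/p ≥ exp(-2/p)` for `p ≥ 2`).  Then `mert_prod`. -/

set_option autoImplicit false

namespace Pool.Agent.SQ

open Finset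
open Helper52 (pr)

private noncomputable def lf (χ : ℕ → ℝ) (p : ℕ) : ℝ :=
  (1 - 1 / (p : ℝ))⁻¹ * (1 - χ p / (p : ℝ))⁻¹

private theorem EP_split (χ : ℕ → ℝ) {w Z : ℕ} (hwZ : w ≤ Z) :
    EP χ Z = EP χ w * ∏ p ∈ pr w Z, lf χ p := by
  have hd : Disjoint (pr 0 w) (pr w Z) := by
    rw [Finset.disjoint_left]
    intro q h1 h2
    rw [Helper52.mem_pr] at h1 h2
    omega
  have hu : pr 0 Z = pr 0 w ∪ pr w Z := by
    ext q
    rw [Finset.mem_union, Helper52.mem_pr, Helper52.mem_pr, Helper52.mem_pr]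
    constructor
    · rintro ⟨h1, h2, h3⟩
      rcases Nat.lt_or_ge w q with h | h
      · exact Or.inr ⟨h, h2, h3⟩
      · exact Or.inl ⟨h1, h, h3⟩
    · rintro (⟨h1, h2, h3⟩ | ⟨h1, h2, h3⟩)
      · exact ⟨h1, h2.trans hwZ, h3⟩
      · exact ⟨by omega, h2, h3⟩
  unfold EP lf
  rw [hu, Finset.prod_union hd]

private theorem inv_bd {p : ℕ} (hp : p.Prime) : 0 < 1 / (p : ℝ) ∧ 1 / (p : ℝ) ≤ 1 / 2 := by
  have h2 : (2 : ℝ) ≤ p := by exact_mod_cast hp.two_le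
  exact ⟨by positivity, one_div_le_one_div_of_le (by norm_num) h2⟩

private theorem one_le_lf {χ : ℕ → ℝ} {Q : ℝ} (h : RC χ Q) {p : ℕ} (hp : p.Prime) :
    1 ≤ lf χ p := by
  obtain ⟨h1, h2⟩ := inv_bd hp
  have e : ∀ t : ℝ, t / (p : ℝ) = t * (1 / (p : ℝ)) := fun t => by ring
  unfold lf
  rw [e (χ p), ← mul_inv]
  obtain ⟨x, hx⟩ : ∃ x, x = 1 / (p : ℝ) := ⟨_, rfl⟩
  rw [← hx] at h1 h2 ⊢
  refine (one_le_inv₀ ?_).2 ?_
  · rcases h.val p with h3 | h3 | h3 <;> rw [h3]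
    · exact mul_pos (by linarith) (by linarith)
    · exact mul_pos (by linarith) (by linarith)
    · exact mul_pos (by linarith) (by linarith)
  · rcases h.val p with h3 | h3 | h3 <;> rw [h3] <;> nlinarith

private theorem lf_le {χ : ℕ → ℝ} {Q : ℝ} (h : RC χ Q) {p : ℕ} (hp : p.Prime) :
    lf χ p ≤ ((1 - 1 / (p : ℝ))⁻¹) ^ 2 := by
  obtain ⟨h1, h2⟩ := inv_bd hp
  have e : ∀ t : ℝ, t / (p : ℝ) = t * (1 / (p : ℝ)) := fun t => by ring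
  unfold lf
  rw [e (χ p), sq]
  obtain ⟨x, hx⟩ : ∃ x, x = 1 / (p : ℝ) := ⟨_, rfl⟩
  rw [← hx] at h1 h2 ⊢
  refine mul_le_mul_of_nonneg_left ?_ (inv_nonneg.2 (by linarith))
  refine inv_anti₀ (by linarith) ?_
  rcases h.val p with h3 | h3 | h3 <;> rw [h3] <;> linarith

private theorem exp_le {p : ℕ} (hp : p.Prime) :
    ((1 - 1 / (p : ℝ))⁻¹) ^ 2 * Real.exp (-(4 * (1 / (p : ℝ)))) ≤ 1 := by
  obtain ⟨h1, h2⟩ := inv_bd hp
  obtain ⟨x, hx⟩ : ∃ x, x = 1 / (p : ℝ) := ⟨_, rfl⟩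
  rw [← hx] at h1 h2 ⊢
  have h3 : Real.exp (-(2 * x)) ≤ 1 - x := by
    rw [Real.exp_neg]
    have h4 : 1 + 2 * x ≤ Real.exp (2 * x) := by
      have := Real.add_one_le_exp (2 * x)
      linarith
    refine (inv_anti₀ (by linarith) h4).trans ?_
    rw [inv_le_iff_one_le_mul₀ (by linarith)]
    nlinarith
  have h5 : Real.exp (-(4 * x)) = Real.exp (-(2 * x)) ^ 2 := by
    rw [← Real.exp_nat_mul]
    congr 1
    push_cast
    ring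
  rw [h5, ← mul_pow]
  have h6 : (1 - x)⁻¹ * Real.exp (-(2 * x)) ≤ 1 := by
    rw [inv_mul_le_iff₀ (by linarith), mul_one]
    exact h3
  have h7 : 0 ≤ (1 - x)⁻¹ * Real.exp (-(2 * x)) :=
    mul_nonneg (inv_nonneg.2 (by linarith)) (Real.exp_pos _).le
  exact pow_le_one₀ h7 h6

private theorem prime_of {w Z p : ℕ} (h : p ∈ pr w Z) : p.Prime := (Helper52.mem_pr.1 h).2.2

theorem EP_mono {χ : ℕ → ℝ} {Q : ℝ} (h : RC χ Q) {w Z : ℕ} (hwZ : w ≤ Z) : EP χ w ≤ EP χ Z := by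
  rw [EP_split χ hwZ]
  have h1 : 1 ≤ ∏ p ∈ pr w Z, lf χ p := by
    rw [← Finset.prod_const_one (s := pr w Z)]
    exact Finset.prod_le_prod (fun _ _ => zero_le_one) fun p hp => one_le_lf h (prime_of hp)
  have h2 := one_le_EP h w
  nlinarith

theorem EP_upper : ∃ C : ℝ, 1 ≤ C ∧ ∀ (χ : ℕ → ℝ) (Q : ℝ), RC χ Q → ∀ w Z : ℕ, 2 ≤ w → w ≤ Z →
    EP χ Z ≤ C * (Real.log Z / Real.log w) ^ 2 * EP χ w := by
  obtain ⟨C, hC, hM⟩ := mert_prod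
  refine ⟨C ^ 2, one_le_pow₀ hC, fun χ Q h w Z hw hwZ => ?_⟩
  rw [EP_split χ hwZ]
  have h0 : 0 ≤ ∏ q ∈ pr w Z, (1 - 1 / (q : ℝ))⁻¹ := Finset.prod_nonneg fun q hq => by
    obtain ⟨h1, h2⟩ := inv_bd (prime_of hq)
    exact inv_nonneg.2 (by linarith)
  have h1 : ∏ p ∈ pr w Z, lf χ p ≤ (∏ q ∈ pr w Z, (1 - 1 / (q : ℝ))⁻¹) ^ 2 := by
    rw [← Finset.prod_pow]
    exact Finset.prod_le_prod (fun p hp => zero_le_one.trans (one_le_lf h (prime_of hp)))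
      fun p hp => lf_le h (prime_of hp)
  have h2 : (∏ q ∈ pr w Z, (1 - 1 / (q : ℝ))⁻¹) ^ 2 ≤ (C * (Real.log Z / Real.log w)) ^ 2 :=
    pow_le_pow_left₀ h0 (hM w Z hw hwZ).1 2
  have h3 := one_le_EP h w
  calc EP χ w * ∏ p ∈ pr w Z, lf χ p ≤ EP χ w * (C * (Real.log Z / Real.log w)) ^ 2 :=
        mul_le_mul_of_nonneg_left (h1.trans h2) (by linarith)
    _ = C ^ 2 * (Real.log Z / Real.log w) ^ 2 * EP χ w := by ring

open Classical in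
theorem EP_lower : ∃ c : ℝ, 0 < c ∧ ∀ (χ : ℕ → ℝ) (Q : ℝ), RC χ Q → ∀ w Z : ℕ, 2 ≤ w → w ≤ Z →
    c * (Real.log Z / Real.log w) ^ 2 *
      Real.exp (-(4 * ∑ p ∈ (pr w Z).filter (fun p => χ p ≠ 1), 1 / (p : ℝ))) * EP χ w ≤ EP χ Z := by
  obtain ⟨C, hC, hM⟩ := mert_prod
  have hC0 : 0 < C := by linarith
  refine ⟨(C ^ 2)⁻¹, by positivity, fun χ Q h w Z hw hwZ => ?_⟩
  rw [EP_split χ hwZ]
  have hw1 : (1 : ℝ) < w := by exact_mod_cast hw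
  have hZ1 : (1 : ℝ) < Z := by exact_mod_cast hw.trans hwZ
  have hL : 0 ≤ Real.log Z / Real.log w := div_nonneg (Real.log_nonneg hZ1.le)
    (Real.log_nonneg hw1.le)
  have h1 : (∏ q ∈ pr w Z, (1 - 1 / (q : ℝ))⁻¹) ^ 2 *
      Real.exp (-(4 * ∑ p ∈ (pr w Z).filter (fun p => χ p ≠ 1), 1 / (p : ℝ))) ≤
        ∏ p ∈ pr w Z, lf χ p := by
    have e1 : Real.exp (-(4 * ∑ p ∈ (pr w Z).filter (fun p => χ p ≠ 1), 1 / (p : ℝ))) =
        ∏ p ∈ pr w Z, (if χ p ≠ 1 then Real.exp (-(4 * (1 / (p : ℝ)))) else 1) := by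
      rw [← Finset.prod_filter, ← Real.exp_sum, Finset.sum_neg_distrib, Finset.mul_sum]
    rw [e1, ← Finset.prod_pow, ← Finset.prod_mul_distrib]
    refine Finset.prod_le_prod (fun p _ => ?_) fun p hp => ?_
    · refine mul_nonneg (sq_nonneg _) ?_
      split_ifs
      · exact (Real.exp_pos _).le
      · exact zero_le_one
    · split_ifs with h3
      · exact (exp_le (prime_of hp)).trans (one_le_lf h (prime_of hp))
      · rw [not_not] at h3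
        unfold lf
        rw [h3, mul_one, sq]
  have h2 : (C ^ 2)⁻¹ * (Real.log Z / Real.log w) ^ 2 ≤
      (∏ q ∈ pr w Z, (1 - 1 / (q : ℝ))⁻¹) ^ 2 := by
    rw [inv_mul_le_iff₀ (by positivity), ← mul_pow]
    exact pow_le_pow_left₀ hL (hM w Z hw hwZ).2 2
  have h3 := one_le_EP h w
  calc (C ^ 2)⁻¹ * (Real.log Z / Real.log w) ^ 2 *
      Real.exp (-(4 * ∑ p ∈ (pr w Z).filter (fun p => χ p ≠ 1), 1 / (p : ℝ))) * EP χ w
      ≤ (∏ q ∈ pr w Z, (1 - 1 / (q : ℝ))⁻¹) ^ 2 *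
      Real.exp (-(4 * ∑ p ∈ (pr w Z).filter (fun p => χ p ≠ 1), 1 / (p : ℝ))) * EP χ w := by
        refine mul_le_mul_of_nonneg_right ?_ (by linarith)
        exact mul_le_mul_of_nonneg_right h2 (Real.exp_pos _).le
    _ ≤ (∏ p ∈ pr w Z, lf χ p) * EP χ w := mul_le_mul_of_nonneg_right h1 (by linarith)
    _ = EP χ w * ∏ p ∈ pr w Z, lf χ p := mul_comm _ _

end Pool.Agent.SQ
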