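import Pool.Agent.SQ.Rankin
import Pool.Agent.SQ.Ratio
import Pool.Agent.SQ.Few
import Pool.Agent.SQ.Err

/-! SQ/Both.  Two bad characters are impossible.

`C0, z1` from `rankin`, `C4` from `EP_upper`, `c5` from `EP_lower`.  Let `K ≥ 2 C0` be a natural number
with `8 C0^2 (C4 + 1) e^8 < c5 K` and `c1 = 1/(2K)` (so `c1 C0 ≤ 1/4`).  Suppose
`A_i log z < c1 EP_i z` for `i = 1, 2` and `z ≥ z0`.  `w = z^C0`, `Z = z^K` (`w ≤ Z`), `χ = χ1 χ2`.
The errors are `≤ ε = 1/8` for `t ≥ z`.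
(1) `few`, `As`, `rankin`: `EP_i(z) P_i ≤ 2 SS_i(w) P_i ≤ SS_i(w Z) - SS_i(w) ≤ A_i log Z + 2 ε
 = K A_i log z + 2 ε ≤ (1/2 + 1/4) EP_i(z)`, so `P_i := ∑_{p ∈ pr w Z, χ_i p = 1} 1/p ≤ 1`.
(2) a prime `p > z` with `χ p ≠ 1` has `χ1 p = 1` or `χ2 p = 1` (values `±1`, `hχ`), so
`∑_{p ∈ pr w Z, χ p ≠ 1} 1/p ≤ 2`, and by `EP_lower`
`EP χ Z ≥ c5 (K/C0)^2 e^(-8) EP χ w`.
(3) `rankin` at `Z`: `EP χ Z ≤ 2 SS χ (Z^C0) ≤ 2 (A C0 K log z + B + ε)`;
`A C0 log z = A (log w^2 - log w) ≤ SS χ (w^2) - SS χ w + 2 ε ≤ EP χ (w^2) + 2ε ≤ (4 C4 + 1) EP χ w`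
(`SS_le`, `EP_upper`, `EP ≥ 1`), `B ≤ SS χ w + ε ≤ 2 EP χ w` (`A log w ≥ 0`).  So
`EP χ Z ≤ 2 (K (4 C4 + 1) + 3) EP χ w ≤ 8 K (C4 + 1) EP χ w`.  Contradiction to (2). -/

set_option autoImplicit false

namespace Pool.Agent.SQ

open Finset
open Helper52 (pr)

/-- upper bound for the increment of `SS` -/
private theorem incr {χ : ℕ → ℝ} {Q A B : ℝ} (hA : As χ Q A B) {ε : ℝ} {s t : ℕ} (hs : 1 ≤ s)
    (ht : 1 ≤ t) (es : 40 * Q * (1 + Real.log s) / √(s : ℝ) ≤ ε)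
    (et : 40 * Q * (1 + Real.log t) / √(t : ℝ) ≤ ε) :
    SS χ t - SS χ s ≤ A * (Real.log t - Real.log s) + 2 * ε ∧
      A * (Real.log t - Real.log s) - 2 * ε ≤ SS χ t - SS χ s := by
  have h1 := abs_le.1 ((hA.2 s hs).trans es)
  have h2 := abs_le.1 ((hA.2 t ht).trans et)
  have e : A * (Real.log t - Real.log s) = A * Real.log t - A * Real.log s := by ring
  rw [e]
  constructor <;> linarith [h1.1, h1.2, h2.1, h2.2]

open Classical in
/-- step (1): the primes with `χ p = 1` are rare -/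
private theorem rare {χ : ℕ → ℝ} {Q A B ε c : ℝ} (h : RC χ Q) (hA : As χ Q A B) {z w Z : ℕ}
    (hw : 1 ≤ w) (hZ : 1 ≤ Z) (hrk : EP χ z / 2 ≤ SS χ w)
    (ew : 40 * Q * (1 + Real.log w) / √(w : ℝ) ≤ ε)
    (ewZ : 40 * Q * (1 + Real.log (w * Z : ℕ)) / √((w * Z : ℕ) : ℝ) ≤ ε) (hε : ε ≤ 1 / 8)
    (hc : A * Real.log Z ≤ c * EP χ z) (hc2 : c ≤ 1 / 2) :
    ∑ p ∈ (pr w Z).filter (fun p => χ p = 1), 1 / (p : ℝ) ≤ 1 := by
  have h1 := few h w Z hw hZ
  have hwZ : 1 ≤ w * Z := Nat.one_le_iff_ne_zero.2 (Nat.mul_ne_zero (by omega) (by omega))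
  have h2 := (incr hA hw hwZ ew ewZ).1
  have hlog : Real.log ((w * Z : ℕ) : ℝ) - Real.log w = Real.log Z := by
    push_cast
    rw [Real.log_mul (by positivity) (by positivity)]
    ring
  rw [hlog] at h2
  have h3 := one_le_EP h z
  set P := ∑ p ∈ (pr w Z).filter (fun p => χ p = 1), 1 / (p : ℝ) with hP
  have hP0 : 0 ≤ P := sum_nonneg fun p _ => by positivity
  have h4 : EP χ z * P ≤ 2 * SS χ w * P := by
    apply mul_le_mul_of_nonneg_right _ hP0
    linarith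
  have h5 : c * EP χ z ≤ 1 / 2 * EP χ z := mul_le_mul_of_nonneg_right hc2 (by linarith)
  have h6 : EP χ z * P ≤ EP χ z * 1 := by linarith
  exact le_of_mul_le_mul_left h6 (by linarith)

theorem both : ∃ (C0 : ℕ) (c1 : ℝ) (z0 : ℕ), 1 ≤ C0 ∧ 0 < c1 ∧ c1 * C0 ≤ 1 / 4 ∧
    (∀ z : ℕ, z0 ≤ z → ∀ (χ : ℕ → ℝ) (Q : ℝ), RC χ Q → EP χ z / 2 ≤ SS χ (z ^ C0)) ∧
    ∀ z : ℕ, z0 ≤ z → ∀ (χ₁ χ₂ : ℕ → ℝ) (Q A₁ B₁ A₂ B₂ A B : ℝ),
    RC χ₁ Q → RC χ₂ Q → RC (fun n => χ₁ n * χ₂ n) Q → Q ^ 8 ≤ z →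
    As χ₁ Q A₁ B₁ → As χ₂ Q A₂ B₂ → As (fun n => χ₁ n * χ₂ n) Q A B →
    (∀ p : ℕ, p.Prime → z < p → χ₁ p ≠ 0 ∧ χ₂ p ≠ 0) →
    c1 * EP χ₁ z ≤ A₁ * Real.log z ∨ c1 * EP χ₂ z ≤ A₂ * Real.log z := by
  classical
  obtain ⟨C0, z1, hC0, hrk⟩ := rankin
  obtain ⟨C4, hC4, hup⟩ := EP_upper
  obtain ⟨c5, hc5, hlo⟩ := EP_lower
  obtain ⟨z2, herr⟩ := err (1 / 8) (by norm_num)
  obtain ⟨K0, hK0⟩ := exists_nat_gt (8 * (C0 : ℝ) ^ 2 * (C4 + 1) * Real.exp 8 / c5)
  set K : ℕ := max K0 (2 * C0) with hK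
  have hKC : 2 * C0 ≤ K := le_max_right _ _
  have hK1 : 1 ≤ K := by omega
  have hKR : (0 : ℝ) < K := by exact_mod_cast hK1
  have hC0R : (1 : ℝ) ≤ C0 := by exact_mod_cast hC0
  have hKbig : 8 * (C0 : ℝ) ^ 2 * (C4 + 1) * Real.exp 8 < c5 * K := by
    rw [div_lt_iff₀ hc5] at hK0
    have : (K0 : ℝ) ≤ K := by exact_mod_cast le_max_left _ _
    calc 8 * (C0 : ℝ) ^ 2 * (C4 + 1) * Real.exp 8 < K0 * c5 := hK0
      _ ≤ K * c5 := mul_le_mul_of_nonneg_right this hc5.le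
      _ = c5 * K := mul_comm _ _
  refine ⟨C0, 1 / (2 * K), max (max z1 z2) 3, hC0, by positivity, ?_, ?_, ?_⟩
  · have h1 : (2 : ℝ) * C0 ≤ K := by exact_mod_cast hKC
    rw [div_mul_eq_mul_div, one_mul, div_le_div_iff₀ (by positivity) (by norm_num)]
    linarith
  · intro z hz χ Q h
    exact hrk z (le_trans (le_trans (le_max_left _ _) (le_max_left _ _)) hz) χ Q h
  · intro z hz χ₁ χ₂ Q A₁ B₁ A₂ B₂ A B h1 h2 h hQz hA₁ hA₂ hA hnz
    have hz1 : z1 ≤ z := le_trans (le_trans (le_max_left _ _) (le_max_left _ _)) hz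
    have hz2 : z2 ≤ z := le_trans (le_trans (le_max_right _ _) (le_max_left _ _)) hz
    have hz3 : 3 ≤ z := le_trans (le_max_right _ _) hz
    have hQ0 : 0 ≤ Q := by linarith [h1.one_le]
    have herr' : ∀ t : ℕ, z ≤ t → 40 * Q * (1 + Real.log t) / √(t : ℝ) ≤ 1 / 8 :=
      herr z hz2 Q hQ0 hQz
    by_contra hcon
    push Not at hcon
    obtain ⟨b1, b2⟩ := hcon
    set χ : ℕ → ℝ := fun n => χ₁ n * χ₂ n with hχ
    have hzR : (3 : ℝ) ≤ z := by exact_mod_cast hz3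
    have hl : 0 < Real.log z := Real.log_pos (by linarith)
    set w : ℕ := z ^ C0 with hw
    set Z : ℕ := z ^ K with hZ
    have hzw : z ≤ w := by
      calc z = z ^ 1 := (pow_one z).symm
        _ ≤ z ^ C0 := Nat.pow_le_pow_right (by omega) hC0
    have hwZ : w ≤ Z := Nat.pow_le_pow_right (by omega) (by omega)
    have hzZ : z ≤ Z := hzw.trans hwZ
    have hw1 : 1 ≤ w := by omega
    have hZ1 : 1 ≤ Z := by omega
    have hzwZ : z ≤ w * Z := hzw.trans (Nat.le_mul_of_pos_right w (by omega))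
    have lw : Real.log (w : ℝ) = C0 * Real.log z := by
      rw [hw]; push_cast; rw [Real.log_pow]
    have lZ : Real.log (Z : ℝ) = K * Real.log z := by
      rw [hZ]; push_cast; rw [Real.log_pow]
    -- step (1)
    have hc : ∀ a E : ℝ, a * Real.log z < 1 / (2 * (K : ℝ)) * E →
        a * Real.log Z ≤ 1 / 2 * E := by
      intro a E hh
      rw [lZ]
      have e1 : a * (K * Real.log z) = K * (a * Real.log z) := by ring
      have e2 : 1 / 2 * E = K * (1 / (2 * (K : ℝ)) * E) := by field_simp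
      rw [e1, e2]
      exact mul_le_mul_of_nonneg_left hh.le hKR.le
    have P1 := rare h1 hA₁ (z := z) hw1 hZ1 (hrk z hz1 χ₁ Q h1) (herr' w hzw) (herr' _ hzwZ)
      le_rfl (hc _ _ b1) le_rfl
    have P2 := rare h2 hA₂ (z := z) hw1 hZ1 (hrk z hz1 χ₂ Q h2) (herr' w hzw) (herr' _ hzwZ)
      le_rfl (hc _ _ b2) le_rfl
    -- step (2)
    have P : ∑ p ∈ (pr w Z).filter (fun p => χ p ≠ 1), 1 / (p : ℝ) ≤ 2 := by
      have hsub : (pr w Z).filter (fun p => χ p ≠ 1) ⊆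
          (pr w Z).filter (fun p => χ₁ p = 1) ∪ (pr w Z).filter (fun p => χ₂ p = 1) := by
        intro p hp
        obtain ⟨hp1, hp2⟩ := mem_filter.1 hp
        obtain ⟨hwp, hpZ, hpp⟩ := Helper52.mem_pr.1 hp1
        obtain ⟨n1, n2⟩ := hnz p hpp (by omega)
        rw [mem_union, mem_filter, mem_filter]
        rcases h1.val p with v1 | v1 | v1
        · exact absurd v1 n1
        · exact Or.inl ⟨hp1, v1⟩
        · rcases h2.val p with v2 | v2 | v2
          · exact absurd v2 n2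
          · exact Or.inr ⟨hp1, v2⟩
          · exfalso
            apply hp2
            rw [hχ]
            simp only [v1, v2]
            norm_num
      calc ∑ p ∈ (pr w Z).filter (fun p => χ p ≠ 1), 1 / (p : ℝ)
          ≤ ∑ p ∈ (pr w Z).filter (fun p => χ₁ p = 1) ∪ (pr w Z).filter (fun p => χ₂ p = 1),
            1 / (p : ℝ) :=
            sum_le_sum_of_subset_of_nonneg hsub fun p _ _ => by positivity
        _ ≤ ∑ p ∈ (pr w Z).filter (fun p => χ₁ p = 1), 1 / (p : ℝ) +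
            ∑ p ∈ (pr w Z).filter (fun p => χ₂ p = 1), 1 / (p : ℝ) := by
            rw [← sum_union_inter]
            have : 0 ≤ ∑ p ∈ (pr w Z).filter (fun p => χ₁ p = 1) ∩
              (pr w Z).filter (fun p => χ₂ p = 1), 1 / (p : ℝ) :=
              sum_nonneg fun p _ => by positivity
            linarith
        _ ≤ 2 := by linarith
    have hEw : 1 ≤ EP χ w := one_le_EP h w
    have lower := hlo χ Q h w Z (by omega) hwZ
    have hexp : Real.exp (-8) ≤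
        Real.exp (-(4 * ∑ p ∈ (pr w Z).filter (fun p => χ p ≠ 1), 1 / (p : ℝ))) := by
      apply Real.exp_le_exp.2
      linarith
    have hratio : Real.log Z / Real.log w = K / C0 := by
      rw [lZ, lw]
      have : (C0 : ℝ) ≠ 0 := by positivity
      field_simp
    rw [hratio] at lower
    have lower2 : c5 * ((K : ℝ) / C0) ^ 2 * Real.exp (-8) * EP χ w ≤ EP χ Z := by
      refine le_trans ?_ lower
      apply mul_le_mul_of_nonneg_right _ (by linarith)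
      apply mul_le_mul_of_nonneg_left hexp
      positivity
    -- step (3)
    have hZC : z ≤ Z ^ C0 := by
      calc z ≤ Z := hzZ
        _ = Z ^ 1 := (pow_one Z).symm
        _ ≤ Z ^ C0 := Nat.pow_le_pow_right (by omega) hC0
    have r1 := hrk Z (hz1.trans hzZ) χ Q h
    have a1 := (abs_le.1 ((hA.2 (Z ^ C0) (by omega)).trans (herr' _ hZC))).2
    have lZC : Real.log ((Z ^ C0 : ℕ) : ℝ) = C0 * (K * Real.log z) := by
      push_cast; rw [Real.log_pow, lZ]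
    rw [lZC] at a1
    have hzw2 : z ≤ w ^ 2 := hzw.trans (Nat.le_self_pow (by norm_num) w)
    have a2 := (incr hA hw1 (by omega : 1 ≤ w ^ 2) (herr' w hzw) (herr' _ hzw2)).2
    have lw2 : Real.log ((w ^ 2 : ℕ) : ℝ) = 2 * (C0 * Real.log z) := by
      push_cast; rw [Real.log_pow, lw]; norm_num
    rw [lw2, lw] at a2
    have s1 := SS_le h (w ^ 2)
    have s2 := one_le_SS h hw1
    have u1 := hup χ Q h w (w ^ 2) (by omega) (Nat.le_self_pow (by norm_num) w)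
    have hr2 : Real.log ((w ^ 2 : ℕ) : ℝ) / Real.log w = 2 := by
      rw [lw2, lw]
      have : (C0 : ℝ) ≠ 0 := by positivity
      field_simp
    rw [hr2] at u1
    have a3 : A * (C0 * Real.log z) ≤ 4 * C4 * EP χ w := by
      have e : A * (2 * (C0 * Real.log z) - C0 * Real.log z) = A * (C0 * Real.log z) := by ring
      rw [e] at a2
      have e2 : C4 * 2 ^ 2 * EP χ w = 4 * C4 * EP χ w := by ring
      rw [e2] at u1
      linarith
    have a4 := (abs_le.1 ((hA.2 w hw1).trans (herr' w hzw))).1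
    have s3 := SS_le h w
    have hA0 : 0 ≤ A * Real.log w := mul_nonneg hA.1 (by rw [lw]; positivity)
    have hB : B ≤ EP χ w + 1 / 8 := by linarith
    have upper : EP χ Z ≤ 8 * K * (C4 + 1) * EP χ w := by
      have e1 : A * (C0 * (K * Real.log z)) = K * (A * (C0 * Real.log z)) := by ring
      rw [e1] at a1
      have e2 : (K : ℝ) * (A * (C0 * Real.log z)) ≤ K * (4 * C4 * EP χ w) :=
        mul_le_mul_of_nonneg_left a3 hKR.le
      have hK1R : (1 : ℝ) ≤ K := by exact_mod_cast hK1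
      have e3 : EP χ w ≤ K * EP χ w := by nlinarith
      have e4 : 8 * (K : ℝ) * (C4 + 1) * EP χ w = 2 * (K * (4 * C4 * EP χ w)) + 8 * (K * EP χ w) := by
        ring
      rw [e4]
      linarith
    -- contradiction
    have hfin : c5 * ((K : ℝ) / C0) ^ 2 * Real.exp (-8) ≤ 8 * K * (C4 + 1) :=
      le_of_mul_le_mul_right (lower2.trans upper) (by linarith)
    have hC0p : (0 : ℝ) < C0 := by linarith
    have e8 : Real.exp 8 * Real.exp (-8) = 1 := by
      rw [← Real.exp_add]; simp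
    have key : c5 * K ≤ 8 * (C0 : ℝ) ^ 2 * (C4 + 1) * Real.exp 8 := by
      have m1 : 0 < (C0 : ℝ) ^ 2 * Real.exp 8 / K := by positivity
      have m2 := mul_le_mul_of_nonneg_left hfin m1.le
      have m3 : (C0 : ℝ) ^ 2 * Real.exp 8 / K * (c5 * ((K : ℝ) / C0) ^ 2 * Real.exp (-8))
          = c5 * K * (Real.exp 8 * Real.exp (-8)) := by
        field_simp
      have m4 : (C0 : ℝ) ^ 2 * Real.exp 8 / K * (8 * K * (C4 + 1))
          = 8 * (C0 : ℝ) ^ 2 * (C4 + 1) * Real.exp 8 := by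
        field_simp
      rw [m3, m4, e8, mul_one] at m2
      exact m2
    linarith

end Pool.Agent.SQ
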