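import Mathlib

/-! SQ/Choice.  Choice of residues by averaging.  Prove the weighted form by induction on `P`: for
all `w : α → ℝ`, `w ≥ 0`, there is `c` with `c p < p` for `p ∈ P` and
`∑_{a ∈ F, ∀ p ∈ P, c p ∉ R p a} w a ≤ ∑_{a ∈ F} w a ∏_{p ∈ P} (1 - |R p a|/p)`.
Step `insert q P`: the average over `r < q` of `∑_{a ∈ F, r ∉ R q a} w a ∏_P (...)` is
`∑_a w a ∏_P (...) (1 - |R q a|/q)`; pick such `r`, apply the induction hypothesis with the weight
`w a * 1[r ∉ R q a]`, and put `c q = r` (`Function.update`). -/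

set_option autoImplicit false

namespace Pool.Agent.SQ

open Finset

open Classical in
private theorem choice_w {α : Type} (P : Finset ℕ) (F : Finset α) (R : ℕ → α → Finset ℕ) :
    (∀ p ∈ P, 1 ≤ p) → (∀ p ∈ P, ∀ a, R p a ⊆ range p) →
    ∀ w : α → ℝ, (∀ a, 0 ≤ w a) →
    ∃ c : ℕ → ℕ, (∀ p ∈ P, c p < p) ∧
      ∑ a ∈ F.filter (fun a => ∀ p ∈ P, c p ∉ R p a), w a ≤
        ∑ a ∈ F, w a * ∏ p ∈ P, (1 - ((R p a).card : ℝ) / p) := by
  induction P using Finset.induction_on with
  | empty =>
    intro _ _ w _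
    refine ⟨fun _ => 0, by simp, ?_⟩
    simp
  | insert q P hq ih =>
    intro hP hR w hw
    have hq1 : 1 ≤ q := hP q (mem_insert_self q P)
    have hq0 : (0 : ℝ) < q := by
      have : (1 : ℝ) ≤ q := by exact_mod_cast hq1
      linarith
    have hRq : ∀ a, R q a ⊆ range q := hR q (mem_insert_self q P)
    set g : ℕ → α → ℝ := fun r a => if r ∈ R q a then 0 else w a with hg
    have hg0 : ∀ r a, 0 ≤ g r a := by
      intro r a
      simp only [hg]
      split_ifs
      · exact le_rfl
      · exact hw a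
    -- the average over the residues
    have h1 : ∀ a, ∑ r ∈ range q, g r a = q * (w a * (1 - ((R q a).card : ℝ) / q)) := by
      intro a
      have h2 : ∑ r ∈ range q, g r a = ∑ r ∈ (range q).filter (fun r => r ∉ R q a), w a := by
        rw [sum_filter]
        refine sum_congr rfl fun r _ => ?_
        simp only [hg]
        by_cases hr : r ∈ R q a
        · simp [hr]
        · simp [hr]
      have h3 : ((range q).filter (fun r => r ∉ R q a)).card = q - (R q a).card := by
        have h4 : (range q).filter (fun r => r ∉ R q a) = range q \ R q a := by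
          ext r
          simp [mem_sdiff]
        rw [h4, card_sdiff_of_subset (hRq a), card_range]
      have h5 : (R q a).card ≤ q := by
        have := card_le_card (hRq a)
        rwa [card_range] at this
      rw [h2, sum_const, h3, nsmul_eq_mul, Nat.cast_sub h5]
      field_simp
    have h2 : ∑ r ∈ range q, ∑ a ∈ F, g r a * ∏ p ∈ P, (1 - ((R p a).card : ℝ) / p) =
        ∑ _r ∈ range q, ∑ a ∈ F, w a * ∏ p ∈ insert q P, (1 - ((R p a).card : ℝ) / p) := by
      rw [sum_comm, sum_const, card_range, nsmul_eq_mul, mul_sum]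
      refine sum_congr rfl fun a _ => ?_
      rw [← sum_mul, h1 a, prod_insert hq]
      ring
    obtain ⟨r, hr, hr2⟩ := exists_le_of_sum_le (nonempty_range_iff.2 (by omega)) h2.le
    obtain ⟨c, hc1, hc2⟩ := ih (fun p hp => hP p (mem_insert_of_mem hp))
      (fun p hp => hR p (mem_insert_of_mem hp)) (g r) (hg0 r)
    refine ⟨Function.update c q r, ?_, ?_⟩
    · intro p hp
      rcases mem_insert.1 hp with rfl | hp
      · rw [Function.update_self]
        exact mem_range.1 hr
      · have hpq : p ≠ q := fun h => hq (h ▸ hp)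
        rw [Function.update_of_ne hpq]
        exact hc1 p hp
    · refine le_trans (le_of_eq ?_) (hc2.trans hr2)
      rw [sum_filter, sum_filter]
      refine sum_congr rfl fun a _ => ?_
      have h3 : (∀ p ∈ insert q P, Function.update c q r p ∉ R p a) ↔
          r ∉ R q a ∧ ∀ p ∈ P, c p ∉ R p a := by
        rw [forall_mem_insert, Function.update_self]
        refine and_congr_right fun _ => forall₂_congr fun p hp => ?_
        have hpq : p ≠ q := fun h => hq (h ▸ hp)
        rw [Function.update_of_ne hpq]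
      simp only [h3, hg]
      by_cases h4 : r ∈ R q a
      · simp [h4]
      · simp [h4]

open Classical in
theorem choice {α : Type} (P : Finset ℕ) (hP : ∀ p ∈ P, 1 ≤ p) (F : Finset α)
    (R : ℕ → α → Finset ℕ) (hR : ∀ p ∈ P, ∀ a, R p a ⊆ range p) :
    ∃ c : ℕ → ℕ, (∀ p ∈ P, c p < p) ∧
      ((F.filter (fun a => ∀ p ∈ P, c p ∉ R p a)).card : ℝ) ≤
        ∑ a ∈ F, ∏ p ∈ P, (1 - ((R p a).card : ℝ) / p) := by
  obtain ⟨c, h1, h2⟩ := choice_w P F R hP hR (fun _ => 1) (fun _ => zero_le_one)
  refine ⟨c, h1, ?_⟩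
  simpa using h2

end Pool.Agent.SQ
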