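import Pool.Agent.SQ.EBase

/-! SQ/EChern.  Copy of `Pool/Agent/RS/Chern.lean` with weights and `θ` depending on the element. -/

set_option autoImplicit false

namespace Pool.Agent.SQ

open Finset
open RS (supp cell era put PP)

variable {ι κ : Type} [Fintype ι] [DecidableEq ι] [DecidableEq κ] [Fintype κ]

private theorem chern_rpow {p : ι → ℕ} (hp : ∀ i, 2 ≤ p i) {lam : ℝ} (hlam : 0 ≤ lam)
    (S : Finset ι) : 1 ≤ PP p S ^ lam := by
  exact Real.one_le_rpow (RS.one_le_PP hp S) hlam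

omit [Fintype ι] [DecidableEq ι] in
private theorem chern_ph {f : ι → ℝ} (hf : ∀ i, 1 ≤ f i) (S : Finset ι) : 0 < PF f S :=
  lt_of_lt_of_le one_pos (one_le_PF hf S)

open Classical in
private theorem chern_step {p : ι → ℕ} (hp : ∀ i, 2 ≤ p i) {f : ι → ℝ} (hf : ∀ i, 1 ≤ f i)
    (y : κ → Finset ι → ℝ) (hy0 : ∀ j, y j ∅ = 1)
    {D lam : ℝ} {θ : ℝ} (hlam : 0 ≤ lam) (hθ0 : 0 ≤ θ) (J : Finset κ) (i : κ) (hi : i ∉ J)
    (hθ : ∑ S ∈ (univ : Finset (Finset ι)).filter (fun S => S ≠ ∅),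
      y i S ^ 2 / PF f S * (PP p S ^ lam - 1) ≤ θ) :
    ∑ σ : ι → Option κ, Yd p y D σ ^ 2 * (∏ j ∈ J, PP p (cell σ j) ^ lam) *
        (PP p (cell σ i) ^ lam - 1) / PF f (supp σ) ≤
      θ * ∑ σ : ι → Option κ,
        Yd p y D σ ^ 2 * (∏ j ∈ J, PP p (cell σ j) ^ lam) / PF f (supp σ) := by
  have hprod : ∀ σ : ι → Option κ, 0 ≤ ∏ j ∈ J, PP p (cell σ j) ^ lam := fun σ =>
    prod_nonneg fun j _ => le_trans zero_le_one (chern_rpow hp hlam _)
  obtain ⟨F, hF⟩ : ∃ F : (ι → Option κ) → Finset ι → ℝ,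
      ∀ σ' S, F σ' S = (if PP p S * PP p (supp σ') ≤ D then (y i S * Yt y σ') ^ 2 else 0) *
          (∏ j ∈ J, PP p (cell σ' j) ^ lam) *
          (PP p S ^ lam - 1) / (PF f S * PF f (supp σ')) := ⟨_, fun _ _ => rfl⟩
  have h1 : ∑ σ : ι → Option κ, Yd p y D σ ^ 2 * (∏ j ∈ J, PP p (cell σ j) ^ lam) *
        (PP p (cell σ i) ^ lam - 1) / PF f (supp σ) =
      ∑ σ : ι → Option κ, F (era σ i) (cell σ i) := by
    apply sum_congr rfl
    intro σ _
    have h2 : ∏ j ∈ J, PP p (cell (era σ i) j) ^ lam = ∏ j ∈ J, PP p (cell σ j) ^ lam := by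
      apply prod_congr rfl
      intro j hj
      have hji : j ≠ i := by
        rintro rfl
        exact hi hj
      rw [RS.cell_era_of_ne σ hji]
    have h3 : Yd p y D σ ^ 2 =
        if PP p (cell σ i) * PP p (supp (era σ i)) ≤ D then
          (y i (cell σ i) * Yt y (era σ i)) ^ 2 else 0 := by
      unfold Yd
      rw [RS.PP_supp_split p σ i, Yt_split y hy0 σ i]
      split_ifs
      · rfl
      · exact zero_pow two_ne_zero
    rw [hF, h3, h2, PF_supp_split f σ i]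
  rw [h1, RS.decomp i F, mul_sum]
  refine le_trans (sum_le_sum (g := fun σ : ι → Option κ =>
    θ * (Yd p y D σ ^ 2 * (∏ j ∈ J, PP p (cell σ j) ^ lam) / PF f (supp σ))) ?_) ?_
  · intro σ _
    have hphs := chern_ph hf (supp σ)
    have h2 : ∀ S ∈ (univ \ supp σ).powerset, F σ S ≤
        (Yd p y D σ ^ 2 * (∏ j ∈ J, PP p (cell σ j) ^ lam) / PF f (supp σ)) *
          (y i S ^ 2 / PF f S * (PP p S ^ lam - 1)) := by
      intro S _
      have hph := chern_ph hf S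
      have hpp : (1 : ℝ) ≤ PP p S := RS.one_le_PP hp S
      have hpl : 0 ≤ PP p S ^ lam - 1 := sub_nonneg.mpr (chern_rpow hp hlam S)
      have h3 : (if PP p S * PP p (supp σ) ≤ D then (y i S * Yt y σ) ^ 2 else 0) ≤
          Yd p y D σ ^ 2 * y i S ^ 2 := by
        have hps : (1 : ℝ) ≤ PP p (supp σ) := RS.one_le_PP hp _
        split_ifs with h
        · have h4 : PP p (supp σ) ≤ D := by nlinarith
          unfold Yd
          rw [if_pos h4]
          exact le_of_eq (by ring)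
        · positivity
      have h5 : (Yd p y D σ ^ 2 * (∏ j ∈ J, PP p (cell σ j) ^ lam) / PF f (supp σ)) *
          (y i S ^ 2 / PF f S * (PP p S ^ lam - 1)) =
          (Yd p y D σ ^ 2 * y i S ^ 2) * (∏ j ∈ J, PP p (cell σ j) ^ lam) *
          (PP p S ^ lam - 1) / (PF f S * PF f (supp σ)) := by
        field_simp
      rw [h5, hF]
      apply div_le_div_of_nonneg_right _ (mul_pos hph hphs).le
      apply mul_le_mul_of_nonneg_right _ hpl
      exact mul_le_mul_of_nonneg_right h3 (hprod σ)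
    refine le_trans (sum_le_sum h2) ?_
    rw [← mul_sum, mul_comm θ]
    apply mul_le_mul_of_nonneg_left _
      (div_nonneg (mul_nonneg (sq_nonneg _) (hprod σ)) hphs.le)
    refine le_trans ?_ hθ
    have h6 : ∑ S ∈ (univ \ supp σ).powerset, y i S ^ 2 / PF f S * (PP p S ^ lam - 1) =
        ∑ S ∈ (univ \ supp σ).powerset.filter (fun S => S ≠ ∅),
          y i S ^ 2 / PF f S * (PP p S ^ lam - 1) := by
      symm
      apply sum_filter_of_ne
      intro S _ hS
      rintro rfl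
      apply hS
      rw [RS.PP_empty, Real.one_rpow, sub_self, mul_zero]
    rw [h6]
    apply sum_le_sum_of_subset_of_nonneg
    · intro S hS
      rw [mem_filter] at hS ⊢
      exact ⟨mem_univ _, hS.2⟩
    · intro S _ _
      exact mul_nonneg (div_nonneg (sq_nonneg _) (chern_ph hf S).le)
        (sub_nonneg.mpr (chern_rpow hp hlam S))
  · apply sum_le_sum_of_subset_of_nonneg (filter_subset _ _)
    intro σ _ _
    exact mul_nonneg hθ0 (div_nonneg (mul_nonneg (sq_nonneg _) (hprod σ))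
      (chern_ph hf (supp σ)).le)

open Classical in
theorem chernoff {p : ι → ℕ} (hp : ∀ i, 2 ≤ p i) {f : ι → ℝ} (hf : ∀ i, 1 ≤ f i)
    (y : κ → Finset ι → ℝ) (hy0 : ∀ j, y j ∅ = 1) {D lam : ℝ} {θ : κ → ℝ}
    (hlam : 0 ≤ lam) (hθ0 : ∀ j, 0 ≤ θ j)
    (hθ : ∀ j, ∑ S ∈ (univ : Finset (Finset ι)).filter (fun S => S ≠ ∅),
      y j S ^ 2 / PF f S * (PP p S ^ lam - 1) ≤ θ j) :
    ∑ σ : ι → Option κ, Yd p y D σ ^ 2 * PP p (supp σ) ^ lam / PF f (supp σ) ≤
      (∏ j, (1 + θ j)) * ∑ σ : ι → Option κ, Yd p y D σ ^ 2 / PF f (supp σ) := by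
  have key : ∀ J : Finset κ, ∑ σ : ι → Option κ,
      Yd p y D σ ^ 2 * (∏ j ∈ J, PP p (cell σ j) ^ lam) / PF f (supp σ) ≤
      (∏ j ∈ J, (1 + θ j)) * ∑ σ : ι → Option κ, Yd p y D σ ^ 2 / PF f (supp σ) := by
    intro J
    induction J using Finset.induction_on with
    | empty => simp
    | insert i J hi ih =>
      have h1 : ∑ σ : ι → Option κ,
          Yd p y D σ ^ 2 * (∏ j ∈ insert i J, PP p (cell σ j) ^ lam) / PF f (supp σ) =
          ∑ σ : ι → Option κ, Yd p y D σ ^ 2 * (∏ j ∈ J, PP p (cell σ j) ^ lam) / PF f (supp σ) +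
          ∑ σ : ι → Option κ, Yd p y D σ ^ 2 * (∏ j ∈ J, PP p (cell σ j) ^ lam) *
            (PP p (cell σ i) ^ lam - 1) / PF f (supp σ) := by
        rw [← sum_add_distrib]
        apply sum_congr rfl
        intro σ _
        rw [prod_insert hi]
        ring
      have h2 := chern_step hp hf y hy0 (D := D) hlam (hθ0 i) J i hi (hθ i)
      rw [h1, prod_insert hi]
      have h3 := mul_le_mul_of_nonneg_left ih (by linarith [hθ0 i] : (0 : ℝ) ≤ 1 + θ i)
      linarith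
  have h1 := key univ
  refine le_trans (le_of_eq ?_) h1
  apply sum_congr rfl
  intro σ _
  rw [Real.finsetProd_rpow _ _ (fun j _ => le_trans zero_le_one (RS.one_le_PP hp _)),
    ← RS.PP_supp_eq_prod]

open Classical in
theorem tail {p : ι → ℕ} (hp : ∀ i, 2 ≤ p i) {f : ι → ℝ} (hf : ∀ i, 1 ≤ f i)
    (y : κ → Finset ι → ℝ) (hy0 : ∀ j, y j ∅ = 1)
    {D D2 lam : ℝ} {θ : κ → ℝ} (hD2 : 0 < D2)
    (hlam : 0 ≤ lam) (hθ0 : ∀ j, 0 ≤ θ j)
    (hθ : ∀ j, ∑ S ∈ (univ : Finset (Finset ι)).filter (fun S => S ≠ ∅),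
      y j S ^ 2 / PF f S * (PP p S ^ lam - 1) ≤ θ j) :
    ∑ σ ∈ (univ : Finset (ι → Option κ)).filter (fun σ => D2 < PP p (supp σ)),
        Yd p y D σ ^ 2 / PF f (supp σ) ≤
      D2 ^ (-lam) * Real.exp (∑ j, θ j) *
        ∑ σ : ι → Option κ, Yd p y D σ ^ 2 / PF f (supp σ) := by
  have hZ : 0 ≤ ∑ σ : ι → Option κ, Yd p y D σ ^ 2 / PF f (supp σ) :=
    sum_nonneg fun σ _ => div_nonneg (sq_nonneg _) (chern_ph hf _).le
  have h1 : ∑ σ ∈ (univ : Finset (ι → Option κ)).filter (fun σ => D2 < PP p (supp σ)),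
        Yd p y D σ ^ 2 / PF f (supp σ) ≤
      D2 ^ (-lam) *
        ∑ σ : ι → Option κ, Yd p y D σ ^ 2 * PP p (supp σ) ^ lam / PF f (supp σ) := by
    rw [mul_sum]
    refine le_trans (sum_le_sum (g := fun σ : ι → Option κ => D2 ^ (-lam) *
      (Yd p y D σ ^ 2 * PP p (supp σ) ^ lam / PF f (supp σ))) ?_) ?_
    · intro σ hσ
      rw [mem_filter] at hσ
      have h2 : 1 ≤ D2 ^ (-lam) * PP p (supp σ) ^ lam := by
        rw [Real.rpow_neg hD2.le, ← div_eq_inv_mul,
          one_le_div (Real.rpow_pos_of_pos hD2 lam)]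
        exact Real.rpow_le_rpow hD2.le hσ.2.le hlam
      have h3 : D2 ^ (-lam) * (Yd p y D σ ^ 2 * PP p (supp σ) ^ lam / PF f (supp σ)) =
          (D2 ^ (-lam) * PP p (supp σ) ^ lam) * (Yd p y D σ ^ 2 / PF f (supp σ)) := by ring
      rw [h3]
      exact le_mul_of_one_le_left (div_nonneg (sq_nonneg _) (chern_ph hf _).le) h2
    · apply sum_le_sum_of_subset_of_nonneg (filter_subset _ _)
      intro σ _ _
      exact mul_nonneg (Real.rpow_nonneg hD2.le _) (div_nonneg (mul_nonneg (sq_nonneg _)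
        (le_trans zero_le_one (chern_rpow hp hlam _))) (chern_ph hf _).le)
  refine h1.trans ?_
  rw [mul_assoc]
  apply mul_le_mul_of_nonneg_left _ (Real.rpow_nonneg hD2.le _)
  refine (chernoff hp hf y hy0 hlam hθ0 hθ).trans ?_
  apply mul_le_mul_of_nonneg_right _ hZ
  rw [Real.exp_sum]
  apply prod_le_prod
  · intro j _
    linarith [hθ0 j]
  · intro j _
    rw [add_comm]
    exact Real.add_one_le_exp (θ j)

end Pool.Agent.SQ
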