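import Pool.Agent.SQ.EBase

/-! SQ/ERough.  Copy of `Pool/Agent/RS/Rough.lean` (with `RS.decomp`, `EE_split`, `Yt_split`,
`PF_supp_split`, `RS.PP_supp_split`).  In `rough_id`: if some `i ∈ cell σ m` is not allowed then
`y m (cell σ m) = 0`, otherwise `∏_{i ∈ cell σ m} e i m n = 1 / PF f (cell σ m)`. -/

set_option autoImplicit false

namespace Pool.Agent.SQ

open Finset
open RS (supp cell era put PP)

variable {ι κ : Type} [Fintype ι] [DecidableEq ι] [DecidableEq κ]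

theorem cc_eq_zero {p : ι → ℕ} (hp : ∀ i, 2 ≤ p i) (f : ι → ℝ) (y : Finset ι → ℝ) {D : ℝ}
    {U : Finset ι} (hU : D < PP p U) : cc p f y D U = 0 := by
  classical
  unfold cc
  apply Finset.sum_eq_zero
  intro S _
  rw [if_neg]
  intro h
  have h1 := RS.one_le_PP hp S
  have h2 := RS.one_le_PP hp U
  nlinarith

variable [Fintype κ]

theorem rough_id {p : ι → ℕ} {f : ι → ℝ} {ok : ι → κ → Prop} {e : ι → κ → ℤ → ℝ}
    (hL : Loc p f ok e) (y : κ → Finset ι → ℝ) (hy0 : ∀ j, y j ∅ = 1)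
    (hys : ∀ j S, y j S ≠ 0 → ∀ i ∈ S, ok i j)
    {D : ℝ} (m : κ) (n : ℤ) (hn : ∀ i, ok i m → e i m n = 1 / f i) :
    ∑ σ, Yd p y D σ * EE e σ n = ∑ σ, Zm p f y D m σ * EE e σ n := by
  classical
  have hee : ∀ S : Finset ι, y m S ≠ 0 → ∏ i ∈ S, e i m n = 1 / PF f S := by
    intro S hS
    have h1 : ∀ i ∈ S, e i m n = 1 / f i := fun i hi => hn i (hys m S hS i hi)
    rw [Finset.prod_congr rfl h1, PF, Finset.prod_div_distrib]
    simp
  have hL : ∑ σ, Yd p y D σ * EE e σ n =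
      ∑ σ : ι → Option κ, (fun (s : ι → Option κ) (S : Finset ι) =>
        if PP p S * PP p (supp s) ≤ D then y m S * Yt y s * (1 / PF f S * EE e s n) else 0)
          (era σ m) (cell σ m) := by
    apply Finset.sum_congr rfl
    intro σ _
    unfold Yd
    simp only
    rw [RS.PP_supp_split p σ m]
    by_cases h : PP p (cell σ m) * PP p (supp (era σ m)) ≤ D
    · rw [if_pos h, if_pos h, Yt_split y hy0 σ m, EE_split e σ m n]
      by_cases h0 : y m (cell σ m) = 0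
      · rw [h0]
        ring
      · rw [hee _ h0]
    · rw [if_neg h, if_neg h, zero_mul]
  rw [hL]
  refine (RS.decomp m (fun (s : ι → Option κ) (S : Finset ι) =>
    if PP p S * PP p (supp s) ≤ D then y m S * Yt y s * (1 / PF f S * EE e s n) else 0)).trans ?_
  rw [Finset.sum_filter]
  apply Finset.sum_congr rfl
  intro σ _
  unfold Zm
  by_cases hc : cell σ m = ∅
  · rw [if_pos hc, if_pos hc]
    unfold cc
    rw [Finset.mul_sum, Finset.sum_mul]
    apply Finset.sum_congr rfl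
    intro S _
    by_cases h : PP p S * PP p (supp σ) ≤ D
    · simp only [if_pos h]
      ring
    · simp only [if_neg h]
      ring
  · rw [if_neg hc, if_neg hc, zero_mul]

theorem Zm_supp {p : ι → ℕ} (hp : ∀ i, 2 ≤ p i) {f : ι → ℝ} {y : κ → Finset ι → ℝ} {D : ℝ}
    (m : κ) (σ : ι → Option κ) (h : Zm p f y D m σ ≠ 0) : PP p (supp σ) ≤ D := by
  classical
  by_contra hcon
  apply h
  unfold Zm
  rw [cc_eq_zero hp f (y m) (lt_of_not_ge hcon)]
  simp

theorem Zm_ok {p : ι → ℕ} {f : ι → ℝ} {ok : ι → κ → Prop} {y : κ → Finset ι → ℝ}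
    (hys : ∀ j S, y j S ≠ 0 → ∀ i ∈ S, ok i j) {D : ℝ}
    (m : κ) (σ : ι → Option κ) (h : Zm p f y D m σ ≠ 0) : Ok ok σ := by
  classical
  apply Yt_ok hys
  intro h0
  apply h
  unfold Zm
  rw [h0, zero_mul]
  simp

theorem Zm_abs {p : ι → ℕ} {f : ι → ℝ} {y : κ → Finset ι → ℝ} (hy1 : ∀ j S, |y j S| ≤ 1)
    {D : ℝ} (hc1 : ∀ j U, |cc p f (y j) D U| ≤ 1) (m : κ) (σ : ι → Option κ) :
    |Zm p f y D m σ| ≤ 1 := by
  classical
  unfold Zm
  by_cases hc : cell σ m = ∅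
  · rw [if_pos hc, abs_mul]
    exact mul_le_one₀ (Yt_abs hy1 σ) (abs_nonneg _) (hc1 _ _)
  · rw [if_neg hc]; simp

open Classical in
theorem Zm_sum {p : ι → ℕ} (hp : ∀ i, 2 ≤ p i) {f : ι → ℝ} (hf : ∀ i, 1 ≤ f i)
    {y : κ → Finset ι → ℝ} {D D2 δ τ : ℝ}
    (hc1 : ∀ j U, |cc p f (y j) D U| ≤ 1) (hc2 : ∀ j U, PP p U ≤ D2 → |cc p f (y j) D U| ≤ δ)
    (htail : ∑ σ ∈ (univ : Finset (ι → Option κ)).filter (fun σ => D2 < PP p (supp σ)),
        Yd p y D σ ^ 2 / PF f (supp σ) ≤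
      τ * ∑ σ : ι → Option κ, Yd p y D σ ^ 2 / PF f (supp σ)) (m : κ) :
    ∑ σ, Zm p f y D m σ ^ 2 / PF f (supp σ) ≤
      (δ ^ 2 + τ) * ∑ σ : ι → Option κ, Yd p y D σ ^ 2 / PF f (supp σ) := by
  have hPF : ∀ σ : ι → Option κ, 0 < PF f (supp σ) := fun σ =>
    lt_of_lt_of_le one_pos (one_le_PF hf _)
  have key : ∀ σ : ι → Option κ,
      Zm p f y D m σ ^ 2 ≤ Yd p y D σ ^ 2 * cc p f (y m) D (supp σ) ^ 2 := by
    intro σ
    unfold Zm
    by_cases hc : cell σ m = ∅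
    · rw [if_pos hc]
      by_cases hD : PP p (supp σ) ≤ D
      · unfold Yd
        rw [if_pos hD, mul_pow]
      · rw [cc_eq_zero hp f (y m) (lt_of_not_ge hD)]
        simp
    · rw [if_neg hc]
      have h0 : 0 ≤ Yd p y D σ ^ 2 * cc p f (y m) D (supp σ) ^ 2 :=
        mul_nonneg (sq_nonneg _) (sq_nonneg _)
      simpa using h0
  have hterm : ∀ σ : ι → Option κ, Zm p f y D m σ ^ 2 / PF f (supp σ) ≤
      δ ^ 2 * (Yd p y D σ ^ 2 / PF f (supp σ)) +
        (if D2 < PP p (supp σ) then Yd p y D σ ^ 2 / PF f (supp σ) else 0) := by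
    intro σ
    have hq : 0 ≤ Yd p y D σ ^ 2 / PF f (supp σ) := div_nonneg (sq_nonneg _) (hPF σ).le
    have h1 : Zm p f y D m σ ^ 2 / PF f (supp σ) ≤
        (Yd p y D σ ^ 2 / PF f (supp σ)) * cc p f (y m) D (supp σ) ^ 2 := by
      rw [div_mul_eq_mul_div]
      exact div_le_div_of_nonneg_right (key σ) (hPF σ).le
    by_cases h : D2 < PP p (supp σ)
    · rw [if_pos h]
      have h2 : cc p f (y m) D (supp σ) ^ 2 ≤ 1 := by
        have := hc1 m (supp σ)
        rw [← sq_abs]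
        exact pow_le_one₀ (abs_nonneg _) this
      have h3 : (Yd p y D σ ^ 2 / PF f (supp σ)) * cc p f (y m) D (supp σ) ^ 2 ≤
          Yd p y D σ ^ 2 / PF f (supp σ) := mul_le_of_le_one_right hq h2
      have h4 : 0 ≤ δ ^ 2 * (Yd p y D σ ^ 2 / PF f (supp σ)) := mul_nonneg (sq_nonneg _) hq
      linarith
    · rw [if_neg h]
      have h2 : cc p f (y m) D (supp σ) ^ 2 ≤ δ ^ 2 := by
        have := hc2 m (supp σ) (not_lt.mp h)
        rw [← sq_abs]
        exact pow_le_pow_left₀ (abs_nonneg _) this 2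
      have h3 : (Yd p y D σ ^ 2 / PF f (supp σ)) * cc p f (y m) D (supp σ) ^ 2 ≤
          (Yd p y D σ ^ 2 / PF f (supp σ)) * δ ^ 2 := mul_le_mul_of_nonneg_left h2 hq
      linarith
  calc ∑ σ, Zm p f y D m σ ^ 2 / PF f (supp σ) ≤
      ∑ σ : ι → Option κ, (δ ^ 2 * (Yd p y D σ ^ 2 / PF f (supp σ)) +
        (if D2 < PP p (supp σ) then Yd p y D σ ^ 2 / PF f (supp σ) else 0)) :=
        Finset.sum_le_sum (fun σ _ => hterm σ)
    _ = δ ^ 2 * ∑ σ : ι → Option κ, Yd p y D σ ^ 2 / PF f (supp σ) +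
        ∑ σ ∈ (univ : Finset (ι → Option κ)).filter (fun σ => D2 < PP p (supp σ)),
          Yd p y D σ ^ 2 / PF f (supp σ) := by
        rw [Finset.sum_add_distrib, ← Finset.mul_sum, Finset.sum_filter]
    _ ≤ δ ^ 2 * ∑ σ : ι → Option κ, Yd p y D σ ^ 2 / PF f (supp σ) +
        τ * ∑ σ : ι → Option κ, Yd p y D σ ^ 2 / PF f (supp σ) := by
        gcongr
    _ = _ := by ring

end Pool.Agent.SQ
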