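import Pool.Agent.SQ.EBase

/-! SQ/EWt.  Copy of `Pool/Agent/RS/Wt.lean`: the weights supported on the subsets of `P` (the moduli
allowed for one element), `p i - 1` replaced by `f i ≥ 1`. -/

set_option autoImplicit false

namespace Pool.Agent.SQ

open Finset
open RS (supp cell era put PP)

variable {ι : Type} [Fintype ι] [DecidableEq ι]

open Classical in
/-- the normalising constant -/
noncomputable def H1 (p : ι → ℕ) (f : ι → ℝ) (P : Finset ι) (S1 : ℝ) : ℝ :=
  ∑ S ∈ P.powerset.filter (fun S => S ≠ ∅ ∧ PP p S ≤ S1), 1 / (PF f S * Real.log (PP p S))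

open Classical in
/-- the weights -/
noncomputable def wt (p : ι → ℕ) (f : ι → ℝ) (P : Finset ι) (S1 : ℝ) (S : Finset ι) : ℝ :=
  if S = ∅ then 1 else
    if S ⊆ P ∧ PP p S ≤ S1 then -1 / (H1 p f P S1 * Real.log (PP p S)) else 0

omit [Fintype ι] in
private theorem wtp_one_le {p : ι → ℕ} (hp : ∀ i, 2 ≤ p i) (S : Finset ι) : 1 ≤ PP p S := by
  unfold PP
  induction S using Finset.induction_on with
  | empty => simp
  | insert i S hi ih =>
    rw [Finset.prod_insert hi]
    have h1 : (1 : ℝ) ≤ p i := by exact_mod_cast (le_trans (by norm_num) (hp i))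
    nlinarith

omit [Fintype ι] in
private theorem wtp_mono {p : ι → ℕ} (hp : ∀ i, 2 ≤ p i) {S T : Finset ι} (h : S ⊆ T) :
    PP p S ≤ PP p T := by
  have h1 : PP p (T \ S) * PP p S = PP p T := by
    unfold PP
    exact Finset.prod_sdiff h
  have h2 := wtp_one_le hp (T \ S)
  have h3 := wtp_one_le hp S
  nlinarith

omit [Fintype ι] in
private theorem wtp_mem {p : ι → ℕ} (hp : ∀ i, 2 ≤ p i) {S : Finset ι} {i : ι} (h : i ∈ S) :
    (p i : ℝ) ≤ PP p S := by
  have h1 := wtp_mono hp (Finset.singleton_subset_iff.mpr h)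
  have h2 : PP p {i} = p i := by simp [PP]
  rwa [h2] at h1

omit [Fintype ι] in
private theorem wtp_two_le {p : ι → ℕ} (hp : ∀ i, 2 ≤ p i) {S : Finset ι} (h : S ≠ ∅) :
    2 ≤ PP p S := by
  obtain ⟨i, hi⟩ := Finset.nonempty_iff_ne_empty.mpr h
  have h1 := wtp_mem hp hi
  have h2 : (2 : ℝ) ≤ p i := by exact_mod_cast hp i
  linarith

omit [Fintype ι] [DecidableEq ι] in
private theorem wtp_f_pos {f : ι → ℝ} (hf : ∀ i, 1 ≤ f i) (i : ι) : 0 < f i := by
  have := hf i
  linarith

omit [Fintype ι] [DecidableEq ι] in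
private theorem wtp_PF_pos {f : ι → ℝ} (hf : ∀ i, 1 ≤ f i) (S : Finset ι) : 0 < PF f S :=
  Finset.prod_pos fun i _ => wtp_f_pos hf i

omit [Fintype ι] in
private theorem wtp_PP_empty (p : ι → ℕ) : PP p ∅ = 1 := by simp [PP]

omit [Fintype ι] in
private theorem wtp_log_pos {p : ι → ℕ} (hp : ∀ i, 2 ≤ p i) {S : Finset ι} (h : S ≠ ∅) :
    0 < Real.log (PP p S) := by
  have h1 := wtp_two_le hp h
  exact Real.log_pos (by linarith)

omit [Fintype ι] in
private theorem wtp_pos {p : ι → ℕ} (hp : ∀ i, 2 ≤ p i) {f : ι → ℝ} {P : Finset ι} {S1 : ℝ}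
    {i : ι} (hH : 1 ≤ H1 p f P S1 * Real.log (p i)) : 0 < H1 p f P S1 := by
  have h1 : 0 < Real.log (p i) := Real.log_pos (by exact_mod_cast hp i)
  by_contra h
  have h2 := mul_nonpos_of_nonpos_of_nonneg (not_lt.mp h) h1.le
  linarith

omit [Fintype ι] in
private theorem wtp_eq {p : ι → ℕ} {f : ι → ℝ} {P : Finset ι} {S1 : ℝ} {S : Finset ι}
    (h : S ≠ ∅) (h1 : S ⊆ P ∧ PP p S ≤ S1) :
    wt p f P S1 S = -1 / (H1 p f P S1 * Real.log (PP p S)) := by
  unfold wt
  rw [if_neg h, if_pos h1]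

omit [Fintype ι] in
private theorem wtp_eq0 {p : ι → ℕ} {f : ι → ℝ} {P : Finset ι} {S1 : ℝ} {S : Finset ι}
    (h : S ≠ ∅) (h1 : ¬ (S ⊆ P ∧ PP p S ≤ S1)) : wt p f P S1 S = 0 := by
  unfold wt
  rw [if_neg h, if_neg h1]

omit [Fintype ι] in
private theorem wtp_nonpos {p : ι → ℕ} (hp : ∀ i, 2 ≤ p i) {f : ι → ℝ} (hf : ∀ i, 1 ≤ f i)
    {P : Finset ι} {S1 : ℝ} (hH0 : 0 < H1 p f P S1)
    {S : Finset ι} (h : S ≠ ∅) : wt p f P S1 S / PF f S ≤ 0 := by
  by_cases h1 : S ⊆ P ∧ PP p S ≤ S1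
  · rw [wtp_eq h h1]
    refine div_nonpos_of_nonpos_of_nonneg ?_ (wtp_PF_pos hf S).le
    exact div_nonpos_of_nonpos_of_nonneg (by norm_num)
      (mul_nonneg hH0.le (wtp_log_pos hp h).le)
  · rw [wtp_eq0 h h1, zero_div]

omit [Fintype ι] in
theorem wt_empty (p : ι → ℕ) (f : ι → ℝ) (P : Finset ι) (S1 : ℝ) : wt p f P S1 ∅ = 1 := by
  simp [wt]

omit [Fintype ι] in
theorem wt_supp (p : ι → ℕ) (f : ι → ℝ) (P : Finset ι) (S1 : ℝ) (S : Finset ι)
    (h : wt p f P S1 S ≠ 0) : S ⊆ P := by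
  by_cases h0 : S = ∅
  · rw [h0]
    exact Finset.empty_subset _
  · by_contra h1
    exact h (wtp_eq0 h0 fun h2 => h1 h2.1)

theorem wt_abs {p : ι → ℕ} (hp : ∀ i, 2 ≤ p i) {f : ι → ℝ} (hf : ∀ i, 1 ≤ f i) {P : Finset ι}
    {S1 : ℝ} (hH : ∀ i ∈ P, 1 ≤ H1 p f P S1 * Real.log (p i)) (S : Finset ι) :
    |wt p f P S1 S| ≤ 1 := by
  by_cases h : S = ∅
  · rw [h, wt_empty, abs_one]
  · by_cases h1 : S ⊆ P ∧ PP p S ≤ S1
    · rw [wtp_eq h h1]
      obtain ⟨i, hi⟩ := Finset.nonempty_iff_ne_empty.mpr h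
      have h2 := wtp_pos hp (hH i (h1.1 hi))
      have h3 : 0 < Real.log (p i) := Real.log_pos (by exact_mod_cast hp i)
      have h4 : Real.log (p i) ≤ Real.log (PP p S) := by
        apply Real.log_le_log _ (wtp_mem hp hi)
        have : (2 : ℝ) ≤ p i := by exact_mod_cast hp i
        linarith
      have h5 : 1 ≤ H1 p f P S1 * Real.log (PP p S) :=
        (hH i (h1.1 hi)).trans (mul_le_mul_of_nonneg_left h4 h2.le)
      rw [abs_div, abs_neg, abs_one, abs_of_pos (by linarith), div_le_one (by linarith)]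
      exact h5
    · rw [wtp_eq0 h h1, abs_zero]
      norm_num

open Classical in
private theorem wt_sum {p : ι → ℕ} (hp : ∀ i, 2 ≤ p i) {f : ι → ℝ} (hf : ∀ i, 1 ≤ f i)
    {P : Finset ι} {S1 : ℝ} (hH0 : 0 < H1 p f P S1) :
    ∑ S ∈ (univ : Finset (Finset ι)).filter (fun S => S ≠ ∅), wt p f P S1 S / PF f S = -1 := by
  have h1 : ∑ S ∈ (univ : Finset (Finset ι)).filter (fun S => S ≠ ∅), wt p f P S1 S / PF f S =
      ∑ S ∈ P.powerset.filter (fun S => S ≠ ∅ ∧ PP p S ≤ S1), wt p f P S1 S / PF f S := by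
    symm
    apply Finset.sum_subset
    · intro S hS
      rw [Finset.mem_filter] at hS ⊢
      exact ⟨Finset.mem_univ _, hS.2.1⟩
    · intro S hS hS'
      rw [Finset.mem_filter, Finset.mem_powerset] at hS'
      rw [Finset.mem_filter] at hS
      rw [wtp_eq0 hS.2 (fun h => hS' ⟨h.1, hS.2, h.2⟩), zero_div]
  have h2 : ∑ S ∈ P.powerset.filter (fun S => S ≠ ∅ ∧ PP p S ≤ S1),
        wt p f P S1 S / PF f S = -(1 / H1 p f P S1) * H1 p f P S1 := by
    conv_rhs => rw [H1, Finset.mul_sum]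
    apply Finset.sum_congr rfl
    intro S hS
    rw [Finset.mem_filter, Finset.mem_powerset] at hS
    rw [wtp_eq hS.2.1 ⟨hS.1, hS.2.2⟩]
    have h3 := wtp_PF_pos hf S
    have h4 := wtp_log_pos hp hS.2.1
    show -1 / (H1 p f P S1 * Real.log (PP p S)) / PF f S =
      -(1 / H1 p f P S1) * (1 / (PF f S * Real.log (PP p S)))
    field_simp
  rw [h1, h2]
  field_simp

open Classical in
private theorem wtp_sum_neg {p : ι → ℕ} (hp : ∀ i, 2 ≤ p i) {f : ι → ℝ} (hf : ∀ i, 1 ≤ f i)
    {P : Finset ι} {S1 : ℝ} (hH0 : 0 < H1 p f P S1)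
    (T : Finset (Finset ι)) (hT : ∀ S ∈ T, S ≠ ∅) :
    ∑ S ∈ T, -(wt p f P S1 S / PF f S) ≤ 1 := by
  have h1 := wt_sum hp hf hH0
  have h2 : ∑ S ∈ T, -(wt p f P S1 S / PF f S) ≤
      ∑ S ∈ (univ : Finset (Finset ι)).filter (fun S => S ≠ ∅), -(wt p f P S1 S / PF f S) := by
    apply Finset.sum_le_sum_of_subset_of_nonneg
    · intro S hS
      rw [Finset.mem_filter]
      exact ⟨Finset.mem_univ _, hT S hS⟩
    · intro S hS _
      rw [Finset.mem_filter] at hS
      have := wtp_nonpos hp hf hH0 hS.2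
      linarith
  refine h2.trans ?_
  rw [Finset.sum_neg_distrib, h1]
  norm_num

theorem cc_wt_abs {p : ι → ℕ} (hp : ∀ i, 2 ≤ p i) {f : ι → ℝ} (hf : ∀ i, 1 ≤ f i) {P : Finset ι}
    {S1 : ℝ} (hH0 : 0 < H1 p f P S1) {D : ℝ}
    (U : Finset ι) : |cc p f (wt p f P S1) D U| ≤ 1 := by
  classical
  unfold cc
  by_cases hU : PP p U ≤ D
  · rw [← Finset.add_sum_erase _ _ (Finset.empty_mem_powerset (univ \ U))]
    rw [if_pos (by rw [wtp_PP_empty, one_mul]; exact hU), wt_empty, PF_empty, div_one]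
    have h1 : ∑ S ∈ (univ \ U).powerset.erase ∅,
        (if PP p S * PP p U ≤ D then wt p f P S1 S / PF f S else 0) ≤ 0 := by
      apply Finset.sum_nonpos
      intro S hS
      split_ifs
      · exact wtp_nonpos hp hf hH0 (Finset.ne_of_mem_erase hS)
      · exact le_rfl
    have h2 := wtp_sum_neg hp hf hH0 ((univ \ U).powerset.erase ∅)
      fun S hS => Finset.ne_of_mem_erase hS
    have h3 : ∑ S ∈ (univ \ U).powerset.erase ∅, (wt p f P S1 S / PF f S) ≤
        ∑ S ∈ (univ \ U).powerset.erase ∅,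
        (if PP p S * PP p U ≤ D then wt p f P S1 S / PF f S else 0) := by
      apply Finset.sum_le_sum
      intro S hS
      split_ifs
      · exact le_rfl
      · exact wtp_nonpos hp hf hH0 (Finset.ne_of_mem_erase hS)
    rw [Finset.sum_neg_distrib] at h2
    rw [abs_le]
    constructor <;> linarith
  · rw [Finset.sum_eq_zero, abs_zero]
    · norm_num
    · intro S _
      rw [if_neg]
      have h1 := wtp_one_le hp S
      have h2 := wtp_one_le hp U
      intro h3
      apply hU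
      nlinarith

open Classical in
private theorem wtp_inner {p : ι → ℕ} (hp : ∀ i, 2 ≤ p i) {f : ι → ℝ} (hf : ∀ i, 1 ≤ f i)
    {P : Finset ι} {S1 : ℝ} (hH0 : 0 < H1 p f P S1)
    (hH : ∀ i ∈ P, 1 ≤ H1 p f P S1 * Real.log (p i)) (i : ι) :
    ∑ S ∈ (univ : Finset (Finset ι)).filter (fun S => i ∈ S), -(wt p f P S1 S / PF f S) ≤
      2 / f i := by
  have hpi := wtp_f_pos hf i
  have h1 : ∀ S ∈ (univ : Finset (Finset ι)).filter (fun S => i ∈ S),
      -(wt p f P S1 S / PF f S) ≤ 1 / f i *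
        (if S.erase i = ∅ then 1 else -(wt p f P S1 (S.erase i) / PF f (S.erase i))) := by
    intro S hS
    rw [Finset.mem_filter] at hS
    have hiS := hS.2
    have hS0 : S ≠ ∅ := Finset.nonempty_iff_ne_empty.mp ⟨i, hiS⟩
    have hPH : PF f S = f i * PF f (S.erase i) := by
      unfold PF
      exact (Finset.mul_prod_erase S (fun j => f j) hiS).symm
    have hPH' := wtp_PF_pos hf (S.erase i)
    by_cases he : S.erase i = ∅
    · rw [if_pos he, hPH, he, PF_empty, mul_one, mul_one, ← neg_div]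
      have h2 := wt_abs hp hf hH S
      rw [abs_le] at h2
      gcongr
      linarith
    · rw [if_neg he]
      by_cases h2 : S ⊆ P ∧ PP p S ≤ S1
      · have h3 : PP p (S.erase i) ≤ PP p S := wtp_mono hp (Finset.erase_subset i S)
        rw [wtp_eq hS0 h2, wtp_eq he ⟨(Finset.erase_subset i S).trans h2.1, h3.trans h2.2⟩, hPH]
        have h4 := wtp_log_pos hp he
        have h5 : Real.log (PP p (S.erase i)) ≤ Real.log (PP p S) :=
          Real.log_le_log (by have := wtp_one_le hp (S.erase i); linarith) h3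
        have h6 := h4.trans_le h5
        have h7 : -(-1 / (H1 p f P S1 * Real.log (PP p S)) / (f i * PF f (S.erase i))) =
            1 / f i * (1 / (H1 p f P S1 * PF f (S.erase i)) *
              (1 / Real.log (PP p S))) := by
          field_simp
        have h8 : -(-1 / (H1 p f P S1 * Real.log (PP p (S.erase i))) / PF f (S.erase i)) =
            1 / (H1 p f P S1 * PF f (S.erase i)) * (1 / Real.log (PP p (S.erase i))) := by
          field_simp
        rw [h7, h8]
        gcongr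
      · rw [wtp_eq0 hS0 h2, zero_div, neg_zero]
        refine mul_nonneg (by positivity) ?_
        have := wtp_nonpos hp hf hH0 he
        linarith
  refine (Finset.sum_le_sum h1).trans ?_
  rw [← Finset.mul_sum]
  have h2 : ∑ S ∈ (univ : Finset (Finset ι)).filter (fun S => i ∈ S),
      (if S.erase i = ∅ then 1 else -(wt p f P S1 (S.erase i) / PF f (S.erase i))) ≤
      ∑ S : Finset ι, (if S = ∅ then 1 else -(wt p f P S1 S / PF f S)) := by
    rw [← Finset.sum_image (s := (univ : Finset (Finset ι)).filter (fun S => i ∈ S))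
      (g := fun S => S.erase i) (f := fun S => if S = ∅ then 1 else -(wt p f P S1 S / PF f S))]
    · apply Finset.sum_le_sum_of_subset_of_nonneg (Finset.subset_univ _)
      intro S _ _
      split_ifs with h
      · norm_num
      · have := wtp_nonpos hp hf hH0 h
        linarith
    · intro S hS T hT hST
      have hS' := (Finset.mem_filter.mp (Finset.mem_coe.mp hS)).2
      have hT' := (Finset.mem_filter.mp (Finset.mem_coe.mp hT)).2
      rw [← Finset.insert_erase hS', ← Finset.insert_erase hT']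
      exact congrArg (insert i) hST
  have h3 : ∑ S : Finset ι, (if S = ∅ then 1 else -(wt p f P S1 S / PF f S)) ≤ 2 := by
    rw [← Finset.add_sum_erase _ _ (Finset.mem_univ (∅ : Finset ι)), if_pos rfl]
    have h4 := wtp_sum_neg hp hf hH0 ((univ : Finset (Finset ι)).erase ∅)
      fun S hS => Finset.ne_of_mem_erase hS
    have h5 : ∑ S ∈ (univ : Finset (Finset ι)).erase ∅,
        (if S = ∅ then 1 else -(wt p f P S1 S / PF f S)) =
        ∑ S ∈ (univ : Finset (Finset ι)).erase ∅, -(wt p f P S1 S / PF f S) := by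
      apply Finset.sum_congr rfl
      intro S hS
      rw [if_neg (Finset.ne_of_mem_erase hS)]
    rw [h5]
    linarith
  calc 1 / f i * ∑ S ∈ (univ : Finset (Finset ι)).filter (fun S => i ∈ S),
      (if S.erase i = ∅ then 1 else -(wt p f P S1 (S.erase i) / PF f (S.erase i)))
      ≤ 1 / f i * 2 := by
        apply mul_le_mul_of_nonneg_left (h2.trans h3) (by positivity)
    _ = 2 / f i := by ring

theorem cc_wt_small {p : ι → ℕ} (hp : ∀ i, 2 ≤ p i) {f : ι → ℝ} (hf : ∀ i, 1 ≤ f i) {P : Finset ι}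
    {S1 : ℝ} (hH0 : 0 < H1 p f P S1)
    (hH : ∀ i ∈ P, 1 ≤ H1 p f P S1 * Real.log (p i)) {D : ℝ} (U : Finset ι)
    (hU : PP p U * S1 ≤ D) :
    |cc p f (wt p f P S1) D U| ≤ ∑ i ∈ U, 2 / f i := by
  classical
  have hPU := wtp_one_le hp U
  have hS1 : 1 ≤ S1 := by
    by_contra h
    have h1 : H1 p f P S1 = 0 := by
      unfold H1
      apply Finset.sum_eq_zero
      intro S hS
      rw [Finset.mem_filter] at hS
      have := wtp_one_le hp S
      exact absurd (this.trans hS.2.2) h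
    rw [h1] at hH0
    exact lt_irrefl _ hH0
  have h1 : cc p f (wt p f P S1) D U =
      1 + ∑ S ∈ (univ \ U).powerset.erase ∅, wt p f P S1 S / PF f S := by
    unfold cc
    rw [← Finset.add_sum_erase _ _ (Finset.empty_mem_powerset (univ \ U))]
    rw [if_pos (by rw [wtp_PP_empty, one_mul]; nlinarith), wt_empty, PF_empty, div_one]
    congr 1
    apply Finset.sum_congr rfl
    intro S hS
    have hS0 := Finset.ne_of_mem_erase hS
    by_cases h2 : S ⊆ P ∧ PP p S ≤ S1
    · rw [if_pos]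
      calc PP p S * PP p U ≤ S1 * PP p U := mul_le_mul_of_nonneg_right h2.2 (by linarith)
        _ ≤ D := by rw [mul_comm]; exact hU
    · rw [wtp_eq0 hS0 h2, zero_div, ite_self]
  have h2 : ∑ S ∈ (univ : Finset (Finset ι)).filter (fun S => S ≠ ∅), wt p f P S1 S / PF f S =
      ∑ S ∈ (univ \ U).powerset.erase ∅, wt p f P S1 S / PF f S +
      ∑ S ∈ (univ : Finset (Finset ι)).filter (fun S => ∃ i ∈ U, i ∈ S),
        wt p f P S1 S / PF f S := by
    rw [← Finset.sum_union]
    · apply Finset.sum_congr _ fun _ _ => rfl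
      ext S
      rw [Finset.mem_union, Finset.mem_filter, Finset.mem_filter, Finset.mem_erase,
        Finset.mem_powerset]
      constructor
      · rintro ⟨_, h3⟩
        by_cases h4 : ∃ i ∈ U, i ∈ S
        · exact Or.inr ⟨Finset.mem_univ _, h4⟩
        · left
          refine ⟨h3, fun i hi => ?_⟩
          rw [Finset.mem_sdiff]
          exact ⟨Finset.mem_univ _, fun h5 => h4 ⟨i, h5, hi⟩⟩
      · rintro (⟨h3, _⟩ | ⟨_, i, _, h4⟩)
        · exact ⟨Finset.mem_univ _, h3⟩
        · exact ⟨Finset.mem_univ _, Finset.nonempty_iff_ne_empty.mp ⟨i, h4⟩⟩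
    · rw [Finset.disjoint_left]
      intro S hS hS'
      rw [Finset.mem_erase, Finset.mem_powerset] at hS
      obtain ⟨_, i, hi, hi'⟩ := Finset.mem_filter.mp hS'
      exact (Finset.mem_sdiff.mp (hS.2 hi')).2 hi
  have h3 := wt_sum hp hf hH0
  rw [h3] at h2
  have h4 : cc p f (wt p f P S1) D U =
      ∑ S ∈ (univ : Finset (Finset ι)).filter (fun S => ∃ i ∈ U, i ∈ S),
        -(wt p f P S1 S / PF f S) := by
    rw [h1, Finset.sum_neg_distrib]
    linarith
  have h5 : 0 ≤ cc p f (wt p f P S1) D U := by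
    rw [h4]
    apply Finset.sum_nonneg
    intro S hS
    obtain ⟨_, i, _, hi'⟩ := Finset.mem_filter.mp hS
    have := wtp_nonpos hp hf hH0 (Finset.nonempty_iff_ne_empty.mp ⟨i, hi'⟩)
    linarith
  rw [abs_of_nonneg h5, h4]
  calc ∑ S ∈ (univ : Finset (Finset ι)).filter (fun S => ∃ i ∈ U, i ∈ S),
        -(wt p f P S1 S / PF f S)
      ≤ ∑ S : Finset ι, ∑ i ∈ U, (if i ∈ S then -(wt p f P S1 S / PF f S) else 0) := by
        have hnn : ∀ (S : Finset ι), ∀ i ∈ U,
            0 ≤ (if i ∈ S then -(wt p f P S1 S / PF f S) else 0) := by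
          intro S i _
          split_ifs with h
          · have := wtp_nonpos hp hf hH0 (Finset.nonempty_iff_ne_empty.mp ⟨i, h⟩)
            linarith
          · exact le_rfl
        rw [Finset.sum_filter]
        apply Finset.sum_le_sum
        intro S _
        split_ifs with h
        · obtain ⟨i, hi, hi'⟩ := h
          have h6 := Finset.single_le_sum (hnn S) hi
          rwa [if_pos hi'] at h6
        · exact Finset.sum_nonneg (hnn S)
    _ = ∑ i ∈ U, ∑ S : Finset ι, (if i ∈ S then -(wt p f P S1 S / PF f S) else 0) :=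
        Finset.sum_comm
    _ ≤ ∑ i ∈ U, 2 / f i := by
        apply Finset.sum_le_sum
        intro i _
        have h6 := wtp_inner hp hf hH0 hH i
        rwa [Finset.sum_filter] at h6

open Classical in
theorem wt_theta {p : ι → ℕ} (hp : ∀ i, 2 ≤ p i) {f : ι → ℝ} (hf : ∀ i, 1 ≤ f i) {P : Finset ι}
    {S1 : ℝ} (hS1 : 1 < S1) (hH0 : 0 < H1 p f P S1) :
    ∑ S ∈ (univ : Finset (Finset ι)).filter (fun S => S ≠ ∅),
      wt p f P S1 S ^ 2 / PF f S * (PP p S ^ (1 / Real.log S1) - 1) ≤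
        2 / (H1 p f P S1 * Real.log S1) := by
  have hL := Real.log_pos hS1
  have h1 : ∑ S ∈ (univ : Finset (Finset ι)).filter (fun S => S ≠ ∅),
      wt p f P S1 S ^ 2 / PF f S * (PP p S ^ (1 / Real.log S1) - 1) ≤
      ∑ S ∈ (univ : Finset (Finset ι)).filter (fun S => S ≠ ∅),
        -(wt p f P S1 S / PF f S) * (2 / (H1 p f P S1 * Real.log S1)) := by
    apply Finset.sum_le_sum
    intro S hS
    rw [Finset.mem_filter] at hS
    have hS0 := hS.2
    by_cases h2 : S ⊆ P ∧ PP p S ≤ S1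
    · have h3 := wtp_log_pos hp hS0
      have h4 := wtp_PF_pos hf S
      have h5 := wtp_two_le hp hS0
      have h6 : Real.log (PP p S) ≤ Real.log S1 := Real.log_le_log (by linarith) h2.2
      have h7 : PP p S ^ (1 / Real.log S1) - 1 ≤ 2 * (Real.log (PP p S) / Real.log S1) := by
        rw [Real.rpow_def_of_pos (by linarith), mul_one_div]
        have h8 : 0 ≤ Real.log (PP p S) / Real.log S1 := by positivity
        have h9 : Real.log (PP p S) / Real.log S1 ≤ 1 := (div_le_one hL).mpr h6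
        generalize Real.log (PP p S) / Real.log S1 = u at h8 h9
        have h10 := Real.abs_exp_sub_one_sub_id_le (x := u) (by rw [abs_of_nonneg h8]; exact h9)
        have h11 := (abs_le.mp h10).2
        nlinarith
      rw [wtp_eq hS0 h2]
      have h12 : -(-1 / (H1 p f P S1 * Real.log (PP p S)) / PF f S) *
          (2 / (H1 p f P S1 * Real.log S1)) =
          (-1 / (H1 p f P S1 * Real.log (PP p S))) ^ 2 / PF f S *
            (2 * (Real.log (PP p S) / Real.log S1)) := by
        field_simp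
      rw [h12]
      exact mul_le_mul_of_nonneg_left h7 (by positivity)
    · rw [wtp_eq0 hS0 h2]
      simp
  refine h1.trans ?_
  rw [← Finset.sum_mul, Finset.sum_neg_distrib, wt_sum hp hf hH0, neg_neg, one_mul]

end Pool.Agent.SQ
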