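import Pool.Agent.SQ.ENear
import Pool.Agent.SQ.EChern
import Pool.Agent.SQ.ERough
import Pool.Agent.SQ.EWt

/-! SQ/EAbs.  Copies of `Pool/Agent/RS/Abs.lean` and `Pool/Agent/RS/Abs2.lean`.
`sieve2`: `y j = wt p f (P j) S1` (`P j` consists of allowed moduli), `θ j = 2/(H1_j log S1)`. -/

set_option autoImplicit false

namespace Pool.Agent.SQ

open Finset
open RS (supp cell era put PP)

variable {ι κ : Type} [Fintype ι] [DecidableEq ι] [DecidableEq κ] [Fintype κ]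

open Classical in
theorem abstract_sieve {p : ι → ℕ} {f : ι → ℝ} {ok : ι → κ → Prop} {e : ι → κ → ℤ → ℝ}
    (hL : Loc p f ok e) {M : ℕ}
    (hc : ∀ i j, i ≠ j → Nat.Coprime (p i) (p j)) (hM : ∀ i, Nat.Coprime M (p i)) (n0 : ℤ)
    (hk : ∑ i, (Fintype.card κ : ℝ) / (p i : ℝ) ^ 2 ≤ 1 / 2)
    {D D2 δ τ : ℝ} (hD : 1 ≤ D)
    (hN : ∀ S : Finset ι, PP p S ≤ D → ∑ i ∈ S, (Fintype.card κ : ℝ) / f i ≤ 1 / 6)
    (y : κ → Finset ι → ℝ) (hy0 : ∀ j, y j ∅ = 1) (hy1 : ∀ j S, |y j S| ≤ 1)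
    (hys : ∀ j S, y j S ≠ 0 → ∀ i ∈ S, ok i j)
    (hc1 : ∀ j U, |cc p f (y j) D U| ≤ 1) (hc2 : ∀ j U, PP p U ≤ D2 → |cc p f (y j) D U| ≤ δ)
    (htail : ∑ σ ∈ (univ : Finset (ι → Option κ)).filter (fun σ => D2 < PP p (supp σ)),
        Yd p y D σ ^ 2 / PF f (supp σ) ≤
      τ * ∑ σ : ι → Option κ, Yd p y D σ ^ 2 / PF f (supp σ))
    (hnum : (Fintype.card κ : ℝ) * (δ ^ 2 + τ) ≤ 1 / 2)
    {T : ℕ} (hT : ((Fintype.card κ : ℝ) + 1) * (8 * D ^ 6) ≤ T / 10) :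
    ∃ t < T, ∀ j, ∃ i, ok i j ∧ e i j (n0 + M * (t : ℕ)) ≠ 1 / f i := by
  by_contra hcon
  push Not at hcon
  have hp := hL.two
  have hf := hL.one
  have hPP1 : ∀ S : Finset ι, 1 ≤ PP p S := RS.one_le_PP hp
  have hPH1 : ∀ S : Finset ι, 1 ≤ PF f S := one_le_PF hf
  have hD0 : 0 ≤ D := by linarith
  set ZZ : ℝ := ∑ σ : ι → Option κ, Yd p y D σ ^ 2 / PF f (supp σ) with hZZ
  have hD6 : 1 ≤ D ^ 6 := one_le_pow₀ hD
  have hk0 : (0 : ℝ) ≤ Fintype.card κ := Nat.cast_nonneg _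
  have hT0 : (0 : ℝ) < T := by
    have h1 : (0 : ℝ) < ((Fintype.card κ : ℝ) + 1) * (8 * D ^ 6) := by positivity
    linarith
  -- the trivial assignment
  have hs0 : supp (fun _ : ι => (none : Option κ)) = ∅ := by
    ext i
    simp [RS.mem_supp]
  have hc0 : ∀ j : κ, cell (fun _ : ι => (none : Option κ)) j = ∅ := by
    intro j
    ext i
    simp [RS.mem_cell]
  have hYd0 : Yd p y D (fun _ : ι => (none : Option κ)) = 1 := by
    unfold Yd
    rw [hs0, RS.PP_empty, if_pos hD]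
    unfold Yt
    simp only [hc0, hy0, Finset.prod_const_one]
  have hZZ1 : 1 ≤ ZZ := by
    have h1 : Yd p y D (fun _ : ι => (none : Option κ)) ^ 2 /
        PF f (supp (fun _ : ι => (none : Option κ))) ≤ ZZ := by
      rw [hZZ]
      exact Finset.single_le_sum
        (f := fun σ : ι → Option κ => Yd p y D σ ^ 2 / PF f (supp σ))
        (fun σ _ => div_nonneg (sq_nonneg _) (by linarith [hPH1 (supp σ)])) (Finset.mem_univ _)
    rw [hYd0, hs0, PF_empty] at h1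
    linarith
  have hYd1 : ∀ σ : ι → Option κ, |Yd p y D σ| ≤ 1 := by
    intro σ
    unfold Yd
    split_ifs
    · exact Yt_abs hy1 σ
    · simp
  have hYds : ∀ σ : ι → Option κ, Yd p y D σ ≠ 0 → PP p (supp σ) ≤ D ∧ Ok ok σ := by
    intro σ h
    unfold Yd at h
    by_cases h2 : PP p (supp σ) ≤ D
    · rw [if_pos h2] at h
      exact ⟨h2, Yt_ok hys h⟩
    · rw [if_neg h2] at h
      exact absurd rfl h
  have hA := near_orth hL hc hM n0 hk hD0 hN (Yd p y D) hYd1 hYds T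
  have hB : ∀ m : κ, _ := fun m => near_orth hL hc hM n0 hk hD0 hN (Zm p f y D m)
    (Zm_abs hy1 hc1 m) (fun σ h => ⟨Zm_supp hp m σ h, Zm_ok hys m σ h⟩) T
  have hZs := fun m : κ => Zm_sum hp hf hc1 hc2 htail m
  rw [← hZZ] at hA
  have hpt : ∀ t ∈ range T, (∑ σ, Yd p y D σ * EE e σ (n0 + M * (t : ℕ))) ^ 2 ≤
      ∑ m : κ, (∑ σ, Zm p f y D m σ * EE e σ (n0 + M * (t : ℕ))) ^ 2 := by
    intro t ht
    obtain ⟨m, hm⟩ := hcon t (Finset.mem_range.mp ht)
    rw [rough_id hL y hy0 hys m (n0 + M * (t : ℕ)) hm]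
    exact Finset.single_le_sum
      (f := fun m : κ => (∑ σ, Zm p f y D m σ * EE e σ (n0 + M * (t : ℕ))) ^ 2)
      (fun m _ => sq_nonneg _) (Finset.mem_univ m)
  have hsum : ∑ t ∈ range T, (∑ σ, Yd p y D σ * EE e σ (n0 + M * (t : ℕ))) ^ 2 ≤
      ∑ m : κ, ∑ t ∈ range T, (∑ σ, Zm p f y D m σ * EE e σ (n0 + M * (t : ℕ))) ^ 2 := by
    rw [Finset.sum_comm]
    exact Finset.sum_le_sum hpt
  have hm : ∀ m ∈ (univ : Finset κ),
      ∑ t ∈ range T, (∑ σ, Zm p f y D m σ * EE e σ (n0 + M * (t : ℕ))) ^ 2 ≤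
        6 / 5 * (T * ((δ ^ 2 + τ) * ZZ)) + 8 * D ^ 6 := by
    intro m _
    have h1 := (abs_le.mp (hB m)).2
    have h2 := hZs m
    rw [← hZZ] at h2
    have h3 : (T : ℝ) * ∑ σ, Zm p f y D m σ ^ 2 / PF f (supp σ) ≤ T * ((δ ^ 2 + τ) * ZZ) :=
      mul_le_mul_of_nonneg_left h2 hT0.le
    linarith
  have hm2 := Finset.sum_le_sum hm
  rw [Finset.sum_const, Finset.card_univ, nsmul_eq_mul] at hm2
  have h1 := (abs_le.mp hA).1
  have h4 : (Fintype.card κ : ℝ) * (6 / 5 * (T * ((δ ^ 2 + τ) * ZZ)) + 8 * D ^ 6) =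
      6 / 5 * (T * ZZ * ((Fintype.card κ : ℝ) * (δ ^ 2 + τ))) +
        (Fintype.card κ : ℝ) * (8 * D ^ 6) := by ring
  have h5 : (T * ZZ : ℝ) * ((Fintype.card κ : ℝ) * (δ ^ 2 + τ)) ≤ T * ZZ * (1 / 2) :=
    mul_le_mul_of_nonneg_left hnum (by positivity)
  have h6 : (T : ℝ) ≤ T * ZZ := le_mul_of_one_le_right hT0.le hZZ1
  rw [h4] at hm2
  have h7 : ((Fintype.card κ : ℝ) + 1) * (8 * D ^ 6) =
      (Fintype.card κ : ℝ) * (8 * D ^ 6) + 8 * D ^ 6 := by ring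
  rw [h7] at hT
  linarith

theorem sieve2 {p : ι → ℕ} {f : ι → ℝ} {ok : ι → κ → Prop} {e : ι → κ → ℤ → ℝ}
    (hL : Loc p f ok e) {M : ℕ}
    (hc : ∀ i j, i ≠ j → Nat.Coprime (p i) (p j)) (hM : ∀ i, Nat.Coprime M (p i)) (n0 : ℤ)
    (hk : ∑ i, (Fintype.card κ : ℝ) / (p i : ℝ) ^ 2 ≤ 1 / 2)
    {D S1 : ℝ} (hS1 : 1 < S1) (hD : 1 ≤ D)
    (hN : ∀ S : Finset ι, PP p S ≤ D → ∑ i ∈ S, (Fintype.card κ : ℝ) / f i ≤ 1 / 6)
    (P : κ → Finset ι) (hP : ∀ j, ∀ i ∈ P j, ok i j)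
    (hH0 : ∀ j, 0 < H1 p f (P j) S1) (hH : ∀ j, ∀ i ∈ P j, 1 ≤ H1 p f (P j) S1 * Real.log (p i))
    (hHk : ∑ j, 2 / H1 p f (P j) S1 ≤ Real.log D / 4)
    (hS1D : Real.log S1 ≤ Real.log D / 4)
    (hnum : (Fintype.card κ : ℝ) * Real.exp (-(Real.log D / (2 * Real.log S1))) ≤ 1 / 3)
    {T : ℕ} (hT : ((Fintype.card κ : ℝ) + 1) * (8 * D ^ 6) ≤ T / 10) :
    ∃ t < T, ∀ j, ∃ i, ok i j ∧ e i j (n0 + M * (t : ℕ)) ≠ 1 / f i := by
  classical
  have hp := hL.two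
  have hf := hL.one
  have hlS : 0 < Real.log S1 := Real.log_pos hS1
  have hS10 : (0 : ℝ) < S1 := by linarith
  have hD0 : (0 : ℝ) < D := by linarith
  rcases Nat.eq_zero_or_pos (Fintype.card κ) with h0 | hkpos
  · have hE : IsEmpty κ := Fintype.card_eq_zero_iff.1 h0
    refine ⟨0, ?_, fun j => hE.elim j⟩
    have h1 : (1 : ℝ) ≤ D ^ 6 := one_le_pow₀ hD
    rw [h0] at hT
    have h2 : (0 : ℝ) < (T : ℝ) := by
      have : ((0 : ℕ) : ℝ) = 0 := by norm_num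
      rw [this] at hT
      linarith
    exact_mod_cast h2
  · have hk1 : (1 : ℝ) ≤ (Fintype.card κ : ℝ) := by exact_mod_cast hkpos
    have hk0 : (0 : ℝ) < (Fintype.card κ : ℝ) := by linarith
    have hD2 : (0 : ℝ) < D / S1 := div_pos hD0 hS10
    have hlam : (0 : ℝ) ≤ 1 / Real.log S1 := by positivity
    have hθ0 : ∀ j : κ, (0 : ℝ) ≤ 2 / (H1 p f (P j) S1 * Real.log S1) := by
      intro j
      have := hH0 j
      positivity
    have htail := tail (κ := κ) hp hf (fun j => wt p f (P j) S1) (fun j => wt_empty p f (P j) S1)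
      (D := D) (D2 := D / S1) (θ := fun j => 2 / (H1 p f (P j) S1 * Real.log S1)) hD2 hlam hθ0
      (fun j => wt_theta hp hf hS1 (hH0 j))
    have hDS : D / S1 ≤ D := div_le_self hD0.le hS1.le
    have hsθ : ∑ j, 2 / (H1 p f (P j) S1 * Real.log S1) =
        (∑ j, 2 / H1 p f (P j) S1) / Real.log S1 := by
      rw [Finset.sum_div]
      refine Finset.sum_congr rfl fun j _ => ?_
      rw [div_div]
    have hτ : (D / S1) ^ (-(1 / Real.log S1)) *
        Real.exp (∑ j, 2 / (H1 p f (P j) S1 * Real.log S1)) ≤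
        Real.exp (-(Real.log D / (2 * Real.log S1))) := by
      rw [Real.rpow_def_of_pos hD2, ← Real.exp_add, Real.log_div hD0.ne' hS10.ne', hsθ]
      apply Real.exp_le_exp.2
      have e1 : (Real.log D - Real.log S1) * (-(1 / Real.log S1)) +
          (∑ j, 2 / H1 p f (P j) S1) / Real.log S1 =
          ((∑ j, 2 / H1 p f (P j) S1) - Real.log D + Real.log S1) / Real.log S1 := by
        field_simp
        ring
      have e2 : -(Real.log D / (2 * Real.log S1)) = (-(Real.log D / 2)) / Real.log S1 := by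
        field_simp
      rw [e1, e2]
      apply div_le_div_of_nonneg_right _ hlS.le
      linarith
    refine abstract_sieve hL hc hM n0 hk (D := D) (D2 := D / S1)
      (δ := 1 / (3 * (Fintype.card κ : ℝ)))
      (τ := (D / S1) ^ (-(1 / Real.log S1)) *
        Real.exp (∑ j, 2 / (H1 p f (P j) S1 * Real.log S1)))
      hD hN (fun j => wt p f (P j) S1) (fun j => wt_empty p f (P j) S1)
      (fun j => wt_abs hp hf (hH j)) ?_ (fun j => cc_wt_abs hp hf (hH0 j)) ?_ ?_ ?_ hT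
    · intro j S hS i hi
      exact hP j i (wt_supp p f (P j) S1 S hS hi)
    · intro j U hU
      have h1 : PP p U * S1 ≤ D := by
        have := mul_le_mul_of_nonneg_right hU hS10.le
        rwa [div_mul_cancel₀ _ hS10.ne'] at this
      refine (cc_wt_small hp hf (hH0 j) (hH j) U h1).trans ?_
      have h2 := hN U (hU.trans hDS)
      have h3 : ∑ i ∈ U, 2 / f i =
          2 / (Fintype.card κ : ℝ) * ∑ i ∈ U, (Fintype.card κ : ℝ) / f i := by
        rw [Finset.mul_sum]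
        refine Finset.sum_congr rfl fun i _ => ?_
        have hp1 : f i ≠ 0 := by
          have := hf i
          positivity
        field_simp
      rw [h3]
      have h4 : 2 / (Fintype.card κ : ℝ) * (1 / 6) = 1 / (3 * (Fintype.card κ : ℝ)) := by
        field_simp
        norm_num
      rw [← h4]
      exact mul_le_mul_of_nonneg_left h2 (by positivity)
    · exact htail
    · have h1 : (Fintype.card κ : ℝ) * (1 / (3 * (Fintype.card κ : ℝ))) ^ 2 ≤ 1 / 9 := by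
        have : (Fintype.card κ : ℝ) * (1 / (3 * (Fintype.card κ : ℝ))) ^ 2 =
            1 / (9 * (Fintype.card κ : ℝ)) := by
          field_simp
          norm_num
        rw [this]
        apply div_le_div_of_nonneg_left (by norm_num) (by norm_num)
        linarith
      have h2 : (Fintype.card κ : ℝ) * ((D / S1) ^ (-(1 / Real.log S1)) *
          Real.exp (∑ j, 2 / (H1 p f (P j) S1 * Real.log S1))) ≤ 1 / 3 :=
        (mul_le_mul_of_nonneg_left hτ hk0.le).trans hnum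
      rw [mul_add]
      linarith

end Pool.Agent.SQ
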