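import Pool.Agent.SQ.Defs

/-! SQ/Rt.  Square roots of `a` modulo a prime and the local functions.

`card_rt`: number of `r < p` with `r^2 ≡ a mod p` is `1 + (a/p)` (`legendreSym.card_sqrts`,
`jacobiSym.legendreSym.to_jacobiSym`), also for `p = 2` where `ch a 2 = 0`.
`lf p a n = -1` if `p ∣ n^2 - a`, `2/(p-2)` otherwise; for `ch a p = 1` exactly two residues `u` have
`lf = -1`: `∑ lf = -2 + (p-2) 2/(p-2) = 0`, `∑ lf^2 = 2 + (p-2) 4/(p-2)^2 = 2p/(p-2)`; for
`a ≢ b` the two pairs of residues are disjoint: `∑ lf_a lf_b = -4 * 2/(p-2) + (p-4) 4/(p-2)^2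
 = -4 p/(p-2)^2 = - p / ((p-2)/2)^2`. -/

set_option autoImplicit false

namespace Pool.Agent.SQ

open Finset

open Classical in
/-- the residues `r < p` with `p ∣ r ^ 2 - a` -/
noncomputable def rt (p : ℕ) (a : ℤ) : Finset ℕ :=
  (range p).filter (fun r => (p : ℤ) ∣ (r : ℤ) ^ 2 - a)

open Classical in
/-- the local function -/
noncomputable def lf (p : ℕ) (a : ℤ) (n : ℤ) : ℝ :=
  if (p : ℤ) ∣ n ^ 2 - a then -1 else 2 / ((p : ℝ) - 2)

theorem mem_rt {p : ℕ} {a : ℤ} {r : ℕ} : r ∈ rt p a ↔ r < p ∧ (p : ℤ) ∣ (r : ℤ) ^ 2 - a := by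
  unfold rt
  rw [mem_filter, mem_range]

private theorem dvd_iff' (p : ℕ) (n a : ℤ) :
    (p : ℤ) ∣ n ^ 2 - a ↔ ((n : ℤ) : ZMod p) ^ 2 = (a : ZMod p) := by
  rw [← ZMod.intCast_zmod_eq_zero_iff_dvd]
  push_cast
  rw [sub_eq_zero]

theorem card_rt {p : ℕ} (hp : p.Prime) (a : ℤ) : ((rt p a).card : ℝ) = 1 + ch a p := by
  haveI := Fact.mk hp
  have h1 : (rt p a).card = {x : ZMod p | x ^ 2 = a}.toFinset.card := by
    apply Finset.card_nbij' (fun r : ℕ => (r : ZMod p)) (fun x => x.val)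
    · intro r hr
      have h := (mem_rt.mp (Finset.mem_coe.mp hr)).2
      rw [dvd_iff'] at h
      simpa using h
    · intro x hx
      have hx' : x ^ 2 = (a : ZMod p) := by simpa using hx
      refine Finset.mem_coe.mpr (mem_rt.mpr ⟨ZMod.val_lt x, ?_⟩)
      rw [dvd_iff']
      have : ((((x.val : ℕ) : ℤ)) : ZMod p) = x := by
        rw [Int.cast_natCast]; exact ZMod.natCast_zmod_val x
      rw [this]; exact hx'
    · intro r hr
      exact ZMod.val_cast_of_lt (mem_rt.mp (Finset.mem_coe.mp hr)).1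
    · intro x hx
      exact ZMod.natCast_zmod_val x
  rcases hp.eq_two_or_odd with h2 | hodd
  · subst h2
    have hch : ch a 2 = 0 := by unfold ch; norm_num
    rw [hch]
    have : (rt 2 a).card = 1 := by
      rcases Int.even_or_odd a with he | ho
      · have : rt 2 a = {0} := by
          ext r
          rw [mem_rt, mem_singleton]
          constructor
          · rintro ⟨hr, hd⟩
            interval_cases r
            · rfl
            · exfalso
              obtain ⟨k, hk⟩ := he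
              push_cast at hd
              omega
          · rintro rfl
            obtain ⟨k, hk⟩ := he
            refine ⟨by norm_num, ?_⟩
            push_cast
            omega
        rw [this]; simp
      · have : rt 2 a = {1} := by
          ext r
          rw [mem_rt, mem_singleton]
          constructor
          · rintro ⟨hr, hd⟩
            interval_cases r
            · exfalso
              obtain ⟨k, hk⟩ := ho
              push_cast at hd
              omega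
            · rfl
          · rintro rfl
            obtain ⟨k, hk⟩ := ho
            refine ⟨by norm_num, ?_⟩
            push_cast
            omega
        rw [this]; simp
    rw [this]; norm_num
  · have hne : p ≠ 2 := by rintro rfl; norm_num at hodd
    have h2 := legendreSym.card_sqrts p hne a
    rw [← h1] at h2
    have h3 : ch a p = ((legendreSym p a : ℤ) : ℝ) := by
      unfold ch
      rw [if_pos hodd, jacobiSym.legendreSym.to_jacobiSym]
    rw [h3]
    have h4 : (((rt p a).card : ℤ) : ℝ) = ((legendreSym p a + 1 : ℤ) : ℝ) := by rw [h2]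
    push_cast at h4
    linarith

theorem lf_per (p : ℕ) (a n : ℤ) : lf p a (n + p) = lf p a n := by
  have h : (p : ℤ) ∣ (n + p) ^ 2 - a ↔ (p : ℤ) ∣ n ^ 2 - a := by
    rw [dvd_iff', dvd_iff']
    push_cast
    simp
  unfold lf
  by_cases h1 : (p : ℤ) ∣ n ^ 2 - a
  · rw [if_pos (h.mpr h1), if_pos h1]
  · rw [if_neg (fun h2 => h1 (h.mp h2)), if_neg h1]

theorem lf_le1 {p : ℕ} (hp : 4 ≤ p) (a n : ℤ) : |lf p a n| ≤ 1 := by
  have h4 : (4 : ℝ) ≤ p := by exact_mod_cast hp
  unfold lf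
  split_ifs
  · norm_num
  · rw [abs_of_nonneg (by apply div_nonneg <;> linarith), div_le_one (by linarith)]
    linarith

theorem lf_ne {p : ℕ} (hp : 4 ≤ p) {a n : ℤ} (h : lf p a n ≠ 1 / (((p : ℝ) - 2) / 2)) :
    (p : ℤ) ∣ n ^ 2 - a := by
  by_contra hcon
  apply h
  unfold lf
  rw [if_neg hcon, one_div_div]

private theorem sum_rt {p : ℕ} (a : ℤ) (f g : ℝ) :
    ∑ u ∈ range p, (if (p : ℤ) ∣ (u : ℤ) ^ 2 - a then f else g) =
      ((rt p a).card : ℝ) * f + ((p : ℝ) - (rt p a).card) * g := by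
  classical
  have h1 : ∀ u ∈ range p, (if (p : ℤ) ∣ (u : ℤ) ^ 2 - a then f else g) =
      (if u ∈ rt p a then f - g else 0) + g := by
    intro u hu
    have : u ∈ rt p a ↔ (p : ℤ) ∣ (u : ℤ) ^ 2 - a := by
      rw [mem_rt]; exact ⟨fun h => h.2, fun h => ⟨mem_range.mp hu, h⟩⟩
    by_cases h : (p : ℤ) ∣ (u : ℤ) ^ 2 - a
    · rw [if_pos h, if_pos (this.mpr h)]; ring
    · rw [if_neg h, if_neg (fun h' => h (this.mp h'))]; ring
  rw [sum_congr rfl h1, sum_add_distrib, ← sum_filter]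
  have h2 : (range p).filter (fun u => u ∈ rt p a) = rt p a := by
    ext u
    rw [mem_filter, mem_range]
    exact ⟨fun h => h.2, fun h => ⟨(mem_rt.mp h).1, h⟩⟩
  rw [h2, sum_const, sum_const, card_range, nsmul_eq_mul, nsmul_eq_mul]
  ring

private theorem card_two {p : ℕ} (hp : p.Prime) {a : ℤ} (ha : ch a p = 1) :
    ((rt p a).card : ℝ) = 2 := by
  rw [card_rt hp, ha]; norm_num

theorem lf_mean {p : ℕ} (hp : p.Prime) (h4 : 4 ≤ p) {a : ℤ} (ha : ch a p = 1) :
    ∑ u ∈ range p, lf p a (u : ℤ) = 0 := by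
  have h4' : (4 : ℝ) ≤ p := by exact_mod_cast h4
  unfold lf
  rw [sum_rt, card_two hp ha]
  have : (p : ℝ) - 2 ≠ 0 := by linarith
  field_simp
  ring

theorem lf_sq {p : ℕ} (hp : p.Prime) (h4 : 4 ≤ p) {a : ℤ} (ha : ch a p = 1) :
    ∑ u ∈ range p, lf p a (u : ℤ) ^ 2 = p / (((p : ℝ) - 2) / 2) := by
  have h4' : (4 : ℝ) ≤ p := by exact_mod_cast h4
  have h1 : ∀ u ∈ range p, lf p a (u : ℤ) ^ 2 =
      (if (p : ℤ) ∣ (u : ℤ) ^ 2 - a then (1 : ℝ) else (2 / ((p : ℝ) - 2)) ^ 2) := by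
    intro u _
    unfold lf
    split_ifs
    · norm_num
    · rfl
  rw [sum_congr rfl h1, sum_rt, card_two hp ha]
  have : (p : ℝ) - 2 ≠ 0 := by linarith
  field_simp
  ring

theorem lf_cor {p : ℕ} (hp : p.Prime) (h4 : 4 ≤ p) {a b : ℤ} (ha : ch a p = 1) (hb : ch b p = 1)
    (hab : ¬ (p : ℤ) ∣ a - b) :
    |∑ u ∈ range p, lf p a (u : ℤ) * lf p b (u : ℤ)| ≤ p / (((p : ℝ) - 2) / 2) ^ 2 := by
  have h4' : (4 : ℝ) ≤ p := by exact_mod_cast h4
  set c : ℝ := 2 / ((p : ℝ) - 2) with hc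
  have h1 : ∀ u ∈ range p, lf p a (u : ℤ) * lf p b (u : ℤ) =
      (if (p : ℤ) ∣ (u : ℤ) ^ 2 - a then (-(1 + c) * c) else 0) +
      ((if (p : ℤ) ∣ (u : ℤ) ^ 2 - b then (-(1 + c) * c) else 0) + c ^ 2) := by
    intro u _
    unfold lf
    by_cases hA : (p : ℤ) ∣ (u : ℤ) ^ 2 - a
    · by_cases hB : (p : ℤ) ∣ (u : ℤ) ^ 2 - b
      · exfalso
        apply hab
        have := dvd_sub hB hA
        have e : (u : ℤ) ^ 2 - b - ((u : ℤ) ^ 2 - a) = a - b := by ring
        rwa [e] at this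
      · rw [if_pos hA, if_neg hB, if_pos hA, if_neg hB]
        ring
    · by_cases hB : (p : ℤ) ∣ (u : ℤ) ^ 2 - b
      · rw [if_neg hA, if_pos hB, if_neg hA, if_pos hB]
        ring
      · rw [if_neg hA, if_neg hB, if_neg hA, if_neg hB]
        ring
  rw [sum_congr rfl h1, sum_add_distrib, sum_add_distrib, sum_rt, sum_rt, card_two hp ha,
    card_two hp hb, sum_const, card_range, nsmul_eq_mul]
  have hne : (p : ℝ) - 2 ≠ 0 := by linarith
  have e : 2 * (-(1 + c) * c) + ((p : ℝ) - 2) * 0 + (2 * (-(1 + c) * c) + ((p : ℝ) - 2) * 0 +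
      (p : ℝ) * c ^ 2) = - ((p : ℝ) / (((p : ℝ) - 2) / 2) ^ 2) := by
    rw [hc]
    field_simp
    ring
  rw [e, abs_neg, abs_of_nonneg (by positivity)]

end Pool.Agent.SQ
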