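import Pool.Agent.SQ.H1Low
import Pool.Agent.SQ.EAbs
import Pool.Agent.SQ.Rt

/-! SQ/CoreS.  The core theorem for squares; compare `Pool/Agent/RS/CoreD.lean` (here `L = d = k`).

`z = k^40`, `w = 2^k`, `D = 2^k`, `lam = Nat.log 2 k`, `s = k/(4 lam)`, `S1 = 2^s`,
`ι = {q // q ∈ pr z w}`, `κ = {b // b ∈ B}`, `p = coe`, `f i = (i-2)/2`, `ok i b := ch b i = 1`,
`e i b n = lf i b n`; `Loc` from SQ/Rt (`lf_cor` needs `i ∤ b - b'`: `0 < |b - b'| ≤ 2 k^2 < z < i`).
`V = min (c2/2) (1/(C0+1)) / (40 log k)` (`log z = 40 log k`), `J = lam/2`: `2^J/V ≤ log S1` for `k`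
large, so `H1 ≥ h0 > 0` with `h0` depending on `C0, c2` only (`J - 1 ≥ lam/4`, `log k ≤ lam + 1`).
* `hk`: `B.card * ∑_{q > z} 1/q^2 ≤ k (1/z) ≤ 1/2`;
* `hN`: `PP S ≤ 2^k` gives `|S| ≤ k`, `∑ card/f ≤ k * k * 4/z ≤ 1/6`;
* `hH`: `H1 log q ≥ h0 * 40 log k ≥ 1`; `hHk`: `2 card/h0 ≤ 2 c k/h0 ≤ k log 2/4`;
* `hnum`, `hS1D`, `hT` as in RS/CoreD (`8 D^6 (k+1) ≤ 2^(8k)/10`).
Conclusion from `lf_ne`.  For `B = ∅` take `t = 0`. -/

set_option autoImplicit false

namespace Pool.Agent.SQ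

open Finset
open RS (PP)
open Helper52 (pr)

private theorem grow (C : ℝ) : ∃ m0 : ℕ, ∀ m : ℕ, m0 ≤ m → C * ((m : ℝ) + 1) ^ 2 ≤ 2 ^ m := by
  have h := tendsto_pow_const_div_const_pow_of_one_lt 2 (r := (2 : ℝ)) (by norm_num)
  have h2 : Filter.Tendsto (fun m : ℕ => |C| * 2 * (((m + 1 : ℕ) : ℝ) ^ 2 / 2 ^ (m + 1)))
      Filter.atTop (nhds (|C| * 2 * 0)) :=
    Filter.Tendsto.const_mul _ ((Filter.tendsto_add_atTop_iff_nat 1).2 h)
  rw [mul_zero] at h2
  obtain ⟨m0, hm0⟩ := Filter.eventually_atTop.1 (h2.eventually_le_const (show (0 : ℝ) < 1 by norm_num))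
  refine ⟨m0, fun m hm => ?_⟩
  have h3 := hm0 m hm
  have h4 : (0 : ℝ) < 2 ^ m := by positivity
  have h5 : |C| * ((m : ℝ) + 1) ^ 2 / 2 ^ m ≤ 1 := by
    refine le_trans (le_of_eq ?_) h3
    push_cast
    field_simp
    ring
  rw [div_le_one h4] at h5
  have h6 : C * ((m : ℝ) + 1) ^ 2 ≤ |C| * ((m : ℝ) + 1) ^ 2 :=
    mul_le_mul_of_nonneg_right (le_abs_self C) (by positivity)
  linarith

private theorem log_le_lam {k : ℕ} (hk : 1 ≤ k) : Real.log k ≤ (Nat.log 2 k : ℝ) + 1 := by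
  have h1 : (k : ℝ) ≤ 2 ^ (Nat.log 2 k + 1) := by
    exact_mod_cast (Nat.lt_pow_succ_log_self (by norm_num : 1 < 2) k).le
  have h2 := Real.log_le_log (by exact_mod_cast hk) h1
  rw [Real.log_pow] at h2
  push_cast at h2
  have h3 : Real.log 2 ≤ 1 := by
    have := Real.log_two_lt_d9
    linarith
  have h4 : (0 : ℝ) ≤ (Nat.log 2 k : ℝ) + 1 := by positivity
  nlinarith

private theorem lam_le_log {k : ℕ} (hk : 1 ≤ k) : (Nat.log 2 k : ℝ) * Real.log 2 ≤ Real.log k := by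
  have h4 : (2 : ℝ) ^ Nat.log 2 k ≤ k := by
    exact_mod_cast Nat.pow_log_le_self 2 (x := k) (by omega)
  have h5 := Real.log_le_log (by positivity) h4
  rwa [Real.log_pow] at h5

/-- arithmetic of the parameters -/
private theorem paramsS {m : ℝ} (hm : 0 < m) : ∃ k0 : ℕ, ∀ k : ℕ, k0 ≤ k →
    10 ≤ Nat.log 2 k ∧ 1280 / m ≤ (Nat.log 2 k : ℝ) ∧
    (2 : ℝ) ^ (Nat.log 2 k / 2) / (m / (40 * Real.log k)) ≤
      ((k / (4 * Nat.log 2 k) : ℕ) : ℝ) * Real.log 2 ∧
    ((k : ℝ) + 1) * (8 * ((2 : ℝ) ^ k) ^ 6) ≤ (2 : ℝ) ^ (8 * k) / 10 := by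
  obtain ⟨m1, hm1⟩ := grow (16 * (160 / m + 1))
  obtain ⟨m2, hm2⟩ := grow (8 * 10)
  obtain ⟨m3, hm3⟩ := exists_nat_ge (1280 / m)
  refine ⟨2 ^ (2 * m1 + m3 + 16) + m2, fun k hk => ?_⟩
  set lam := Nat.log 2 k with hlam
  have hpp : 0 < 2 ^ (2 * m1 + m3 + 16) := by positivity
  have hk2 : 2 ^ (2 * m1 + m3 + 16) ≤ k := le_trans (Nat.le_add_right _ _) hk
  have hk2' : m2 ≤ k := le_trans (Nat.le_add_left _ _) hk
  have hlam0 : 2 * m1 + m3 + 16 ≤ lam := Nat.le_log_of_pow_le (by norm_num) hk2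
  have hkpos : k ≠ 0 := by omega
  have hpow : 2 ^ lam ≤ k := Nat.pow_log_le_self 2 hkpos
  have hk1 : 1 ≤ k := Nat.one_le_iff_ne_zero.2 hkpos
  refine ⟨by omega, ?_, ?_, ?_⟩
  · have : (m3 : ℝ) ≤ (lam : ℝ) := by exact_mod_cast (by omega : m3 ≤ lam)
    linarith
  · set J := lam / 2 with hJ
    have hJ1 : m1 ≤ J := by omega
    have h1 := hm1 J hJ1
    have hlamJ : lam + 1 ≤ 2 * (J + 1) := by omega
    have hlamr : (lam : ℝ) + 1 ≤ 2 * ((J : ℝ) + 1) := by exact_mod_cast hlamJ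
    have hlam1 : (1 : ℝ) ≤ lam := by exact_mod_cast (by omega : 1 ≤ lam)
    have hJpos : (0 : ℝ) ≤ (J : ℝ) := Nat.cast_nonneg _
    have hlogk := log_le_lam hk1
    rw [← hlam] at hlogk
    have hlogk0 : 0 < Real.log k := by
      have h2 := lam_le_log hk1
      rw [← hlam] at h2
      have h3 : 0 < Real.log 2 := Real.log_pos (by norm_num)
      have h4 : 0 < (lam : ℝ) * Real.log 2 := by positivity
      linarith
    -- lower bound of k
    have hklow : 2 ^ J * 2 ^ J ≤ k := by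
      refine le_trans ?_ hpow
      rw [← pow_add]
      exact Nat.pow_le_pow_right (by norm_num) (by omega)
    -- lower bound of s
    have hs : (k : ℝ) ≤ 4 * lam * (((k / (4 * lam) : ℕ) : ℝ) + 1) := by
      have hb : k < 4 * lam * (k / (4 * lam) + 1) := Nat.lt_mul_div_succ k (by omega)
      exact_mod_cast hb.le
    have hlog2 : (1 / 2 : ℝ) ≤ Real.log 2 := by
      have := Real.log_two_gt_d9
      linarith
    set s : ℝ := ((k / (4 * lam) : ℕ) : ℝ) with hsdef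
    set P : ℝ := (2 : ℝ) ^ J with hP
    have hPpos : 0 < P := by positivity
    have hP1 : 1 ≤ P := one_le_pow₀ (by norm_num)
    have hkr : P * P ≤ (k : ℝ) := by
      have h2 : ((2 ^ J * 2 ^ J : ℕ) : ℝ) ≤ (k : ℝ) := Nat.cast_le.2 hklow
      push_cast at h2
      exact h2
    have hdiv : P / (m / (40 * Real.log k)) ≤ P * (40 * ((lam : ℝ) + 1) / m) := by
      rw [div_div_eq_mul_div, mul_div_assoc]
      apply mul_le_mul_of_nonneg_left _ hPpos.le
      apply div_le_div_of_nonneg_right _ hm.le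
      linarith
    refine hdiv.trans ?_
    set X : ℝ := 40 * ((lam : ℝ) + 1) / m with hX
    have hX0 : 0 ≤ X := by positivity
    have hXle : 2 * X ≤ 160 / m * ((J : ℝ) + 1) := by
      rw [hX]
      have : 160 / m * ((J : ℝ) + 1) = (160 * ((J : ℝ) + 1)) / m := by ring
      rw [this, ← mul_div_assoc]
      apply div_le_div_of_nonneg_right _ hm.le
      linarith
    -- (2 X + 1) * 4 lam ≤ P
    have hkey : (2 * X + 1) * (4 * (lam : ℝ)) ≤ P := by
      refine le_trans ?_ h1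
      have e1 : 2 * X + 1 ≤ (160 / m + 1) * ((J : ℝ) + 1) := by
        have : (160 / m + 1) * ((J : ℝ) + 1) = 160 / m * ((J : ℝ) + 1) + ((J : ℝ) + 1) := by ring
        linarith
      have e2 : 4 * (lam : ℝ) ≤ 8 * ((J : ℝ) + 1) := by linarith
      calc (2 * X + 1) * (4 * (lam : ℝ))
          ≤ ((160 / m + 1) * ((J : ℝ) + 1)) * (8 * ((J : ℝ) + 1)) := by
            apply mul_le_mul e1 e2 (by positivity) (by positivity)
        _ = 8 * (160 / m + 1) * ((J : ℝ) + 1) ^ 2 := by ring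
        _ ≤ 16 * (160 / m + 1) * ((J : ℝ) + 1) ^ 2 := by
            apply mul_le_mul_of_nonneg_right _ (by positivity)
            have : 0 < 160 / m + 1 := by positivity
            linarith
    have h7 : 4 * (lam : ℝ) * (P * (2 * X + 1)) ≤ 4 * (lam : ℝ) * (s + 1) := by
      calc 4 * (lam : ℝ) * (P * (2 * X + 1))
          = P * ((2 * X + 1) * (4 * (lam : ℝ))) := by ring
        _ ≤ P * P := mul_le_mul_of_nonneg_left hkey hPpos.le
        _ ≤ (k : ℝ) := hkr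
        _ ≤ _ := hs
    have h4l : (0 : ℝ) < 4 * (lam : ℝ) := by linarith
    have h8 : P * (2 * X + 1) ≤ s + 1 := le_of_mul_le_mul_left h7 h4l
    have h8' : P * (2 * X + 1) = 2 * (P * X) + P := by ring
    have h9 : 2 * (P * X) ≤ s := by linarith
    have hs0 : 0 ≤ s := Nat.cast_nonneg _
    have h10 : s * (1 / 2) ≤ s * Real.log 2 := mul_le_mul_of_nonneg_left hlog2 hs0
    linarith
  · have h2 := hm2 k hk2'
    have hA : ((k : ℝ) + 1) * 8 * 10 ≤ 2 ^ (2 * k) := by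
      have h3 : (2 : ℝ) ^ k ≤ 2 ^ (2 * k) := pow_le_pow_right₀ (by norm_num) (by omega)
      have h4 : (0 : ℝ) ≤ (k : ℝ) := Nat.cast_nonneg _
      nlinarith
    rw [le_div_iff₀ (by norm_num : (0 : ℝ) < 10)]
    calc ((k : ℝ) + 1) * (8 * ((2 : ℝ) ^ k) ^ 6) * 10
        = (((k : ℝ) + 1) * 8 * 10) * ((2 : ℝ) ^ k) ^ 6 := by ring
      _ ≤ 2 ^ (2 * k) * ((2 : ℝ) ^ k) ^ 6 := mul_le_mul_of_nonneg_right hA (by positivity)
      _ = 2 ^ (8 * k) := by
          rw [← pow_mul, ← pow_add]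
          congr 1
          ring

private theorem sum_inv_sq (z w : ℕ) (hz : z ≠ 0) : ∑ q ∈ pr z w, 1 / (q : ℝ) ^ 2 ≤ 1 / (z : ℝ) := by
  have h1 : ∑ q ∈ pr z w, 1 / (q : ℝ) ^ 2 ≤ ∑ q ∈ Ioc z w, 1 / (q : ℝ) ^ 2 :=
    Finset.sum_le_sum_of_subset_of_nonneg (Finset.filter_subset _ _) (fun q _ _ => by positivity)
  refine h1.trans ?_
  by_cases h : z ≤ w
  · have h2 := sum_Ioc_inv_sq_le_sub (α := ℝ) hz h
    have h3 : ∑ q ∈ Ioc z w, 1 / (q : ℝ) ^ 2 = ∑ q ∈ Ioc z w, ((q : ℝ) ^ 2)⁻¹ :=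
      Finset.sum_congr rfl (fun q _ => by rw [one_div])
    rw [h3, one_div]
    have h4 : (0 : ℝ) ≤ ((w : ℝ))⁻¹ := by positivity
    linarith
  · rw [Finset.Ioc_eq_empty (by omega)]
    simp

theorem coreS (C0 : ℕ) (c2 : ℝ) (hC0 : 1 ≤ C0) (hc2 : 0 < c2) : ∃ c : ℝ, 0 < c ∧ ∃ k0 : ℕ,
    ∀ k : ℕ, k0 ≤ k → ∀ (M : ℕ) (n0 : ℤ) (B : Finset ℤ) (T : ℕ),
    (∀ q : ℕ, q.Prime → k ^ 40 < q → Nat.Coprime M q) →
    (∀ b ∈ B, |b| ≤ (k : ℤ) ^ 2 ∧ Good C0 c2 (ch b) (k ^ 40)) →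
    (B.card : ℝ) ≤ c * k → 2 ^ (8 * k) ≤ T →
    ∃ t < T, ∀ b ∈ B, ∃ q : ℕ, q.Prime ∧ k ^ 40 < q ∧ q ≤ 2 ^ k ∧
      (q : ℤ) ∣ (n0 + M * (t : ℕ)) ^ 2 - b := by
  classical
  set m : ℝ := min (c2 / 2) (1 / ((C0 : ℝ) + 1)) with hm
  have hC0r : (1 : ℝ) ≤ (C0 : ℝ) := by exact_mod_cast hC0
  have hmpos : 0 < m := lt_min (by positivity) (by positivity)
  have hm1 : m ≤ c2 / 2 := min_le_left _ _
  have hm2 : m ≤ 1 / ((C0 : ℝ) + 1) := min_le_right _ _
  have hm3 : m ≤ 1 / 2 := by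
    refine hm2.trans ?_
    exact one_div_le_one_div_of_le (by norm_num) (by linarith)
  have hm4 : m * ((C0 : ℝ) + 1) ≤ 1 := by
    rwa [le_div_iff₀ (by positivity)] at hm2
  obtain ⟨k0, hk0⟩ := paramsS hmpos
  set h0 : ℝ := m / 1280 with hh0
  have hh0pos : 0 < h0 := by positivity
  have hh0le : h0 ≤ 1 := by rw [hh0]; linarith
  refine ⟨h0 / 600, by positivity, k0, ?_⟩
  intro k hk M n0 B T hM hB hcard hT
  obtain ⟨hlam10, hlamE, hJ, hnumT⟩ := hk0 k hk
  set lam := Nat.log 2 k with hlam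
  set s := k / (4 * lam) with hs
  have hk4 : 2 ^ 10 ≤ k := by
    have h := Nat.pow_log_le_self 2 (x := k) (by rintro rfl; simp [hlam] at hlam10)
    exact (Nat.pow_le_pow_right (by norm_num) hlam10).trans h
  have hk1 : 1 ≤ k := le_trans (by norm_num) hk4
  have hkr : (1024 : ℝ) ≤ k := by exact_mod_cast hk4
  have hk0r : (0 : ℝ) ≤ (k : ℝ) := Nat.cast_nonneg _
  have hcardk : (B.card : ℝ) ≤ k := by
    refine hcard.trans ?_
    have : h0 / 600 ≤ 1 := by
      rw [div_le_one (by norm_num)]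
      linarith
    nlinarith
  have hlamr : (10 : ℝ) ≤ lam := by exact_mod_cast hlam10
  obtain ⟨z, hz⟩ : ∃ z : ℕ, z = k ^ 40 := ⟨_, rfl⟩
  obtain ⟨w, hw⟩ : ∃ w : ℕ, w = 2 ^ k := ⟨_, rfl⟩
  rw [← hz] at hM hB
  rw [← hz, ← hw]
  have hkz : k ≤ z := by
    rw [hz]
    calc k = k ^ 1 := (pow_one k).symm
      _ ≤ k ^ 40 := Nat.pow_le_pow_right hk1 (by norm_num)
  have hz4 : 4 ≤ z := le_trans (le_trans (by norm_num) hk4) hkz
  have hzr : (z : ℝ) = (k : ℝ) ^ 40 := by rw [hz]; push_cast; rfl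
  have hwr : (w : ℝ) = (2 : ℝ) ^ k := by rw [hw]; push_cast; rfl
  -- the primes
  have hQ : ∀ i : {q // q ∈ pr z w}, z < (i : ℕ) ∧ (i : ℕ) ≤ w ∧
      (i : ℕ).Prime := fun i => Helper52.mem_pr.1 i.2
  have hQ4 : ∀ i : {q // q ∈ pr z w}, 4 ≤ (i : ℕ) := fun i =>
    hz4.trans (hQ i).1.le
  have hQr : ∀ i : {q // q ∈ pr z w}, (k : ℝ) ^ 40 + 1 ≤ ((i : ℕ) : ℝ) := by
    intro i
    have h1 : z + 1 ≤ (i : ℕ) := (hQ i).1
    rw [← hzr]
    exact_mod_cast h1
  have hk40r : (4 : ℝ) ≤ (k : ℝ) ^ 40 := by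
    rw [← hzr]
    exact_mod_cast hz4
  -- the local functions
  have hL : Loc (ι := {q // q ∈ pr z w}) (κ := {b // b ∈ B}) (fun i => (i : ℕ))
      (fun i => (((i : ℕ) : ℝ) - 2) / 2) (fun i b => ch (b : ℤ) (i : ℕ) = 1)
      (fun i b n => lf (i : ℕ) (b : ℤ) n) := by
    refine ⟨fun i => (hQ i).2.2.two_le, ?_, fun i j n => lf_per _ _ _, fun i j n =>
      lf_le1 (hQ4 i) _ _, fun i j h => lf_mean (hQ i).2.2 (hQ4 i) h,
      fun i j h => lf_sq (hQ i).2.2 (hQ4 i) h, ?_⟩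
    · intro i
      have h1 := hQr i
      linarith
    · intro i j j' h h' hjj
      refine lf_cor (hQ i).2.2 (hQ4 i) h h' ?_
      intro hd
      have hb := (hB j j.2).1
      have hb' := (hB j' j'.2).1
      have h2 : |(j : ℤ) - (j' : ℤ)| < ((i : ℕ) : ℤ) := by
        have h3 : |(j : ℤ) - (j' : ℤ)| ≤ 2 * (k : ℤ) ^ 2 := by
          have := abs_sub (j : ℤ) (j' : ℤ)
          linarith
        have h4 : 2 * k ^ 2 ≤ z := by
          rw [hz]
          calc 2 * k ^ 2 ≤ k * k ^ 2 := Nat.mul_le_mul_right _ (le_trans (by norm_num) hk4)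
            _ = k ^ 3 := by ring
            _ ≤ k ^ 40 := Nat.pow_le_pow_right hk1 (by norm_num)
        have h5 : 2 * k ^ 2 < (i : ℕ) := lt_of_le_of_lt h4 (hQ i).1
        have h6 : 2 * (k : ℤ) ^ 2 < ((i : ℕ) : ℤ) := by exact_mod_cast h5
        linarith
      have h3 := Int.eq_zero_of_abs_lt_dvd hd h2
      exact hjj (Subtype.ext (sub_eq_zero.1 h3))
  have hsk : 4 * lam * s ≤ k := Nat.mul_div_le k (4 * lam)
  have hskle : s ≤ k := by
    have : s ≤ 4 * lam * s := Nat.le_mul_of_pos_left _ (by omega)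
    omega
  have hlog2 : (0 : ℝ) < Real.log 2 := Real.log_pos (by norm_num)
  have hlog2' : (0.69 : ℝ) ≤ Real.log 2 := by
    have := Real.log_two_gt_d9
    linarith
  have hlogk1 := log_le_lam hk1
  have hlogk2 := lam_le_log hk1
  rw [← hlam] at hlogk1 hlogk2
  have hlogk0 : 0 < Real.log k := by
    have h4 : 0 < (lam : ℝ) * Real.log 2 := by positivity
    linarith
  have hlogz : Real.log (z : ℝ) = 40 * Real.log k := by
    rw [hzr, Real.log_pow]
    norm_num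
  have hspos : 1 ≤ s := by
    by_contra h
    have hs0 : s = 0 := Nat.lt_one_iff.1 (not_le.1 h)
    rw [hs0] at hJ
    have : (0 : ℝ) < (2 : ℝ) ^ (lam / 2) / (m / (40 * Real.log k)) := by
      positivity
    simp at hJ
    linarith
  -- H1
  have hH1 : ∀ b : {b // b ∈ B}, h0 ≤ H1 (fun q : {q // q ∈ pr z w} => (q : ℕ))
      (fun i => (((i : ℕ) : ℝ) - 2) / 2)
      (univ.filter (fun i : {q // q ∈ pr z w} => ch (b : ℤ) (i : ℕ) = 1))
      ((2 : ℝ) ^ s) := by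
    intro b
    have hV : 0 < m / (40 * Real.log k) := by positivity
    have hV' : m / (40 * Real.log k) * (40 * Real.log k) = m :=
      div_mul_cancel₀ _ (by positivity)
    have h := H1_low (z := z) (w := w) hC0 (by omega) (hB b b.2).2 hV
      (by rw [hlogz, hV']; exact hm1)
      (by
        rw [hlogz]
        calc m / (40 * Real.log k) * (((C0 : ℝ) + 1) * (40 * Real.log k))
            = (m / (40 * Real.log k) * (40 * Real.log k)) * ((C0 : ℝ) + 1) := by ring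
          _ ≤ 1 := by rw [hV']; exact hm4)
      (S1 := (2 : ℝ) ^ s) (one_lt_pow₀ (by norm_num) (by omega))
      (by rw [hwr]; exact pow_le_pow_right₀ (by norm_num) hskle) (lam / 2)
      (by rw [Real.log_pow]; exact hJ)
    refine le_trans ?_ h
    have hJr : ((lam : ℝ) - 1) / 2 ≤ ((lam / 2 : ℕ) : ℝ) := by
      have : lam ≤ 2 * (lam / 2) + 1 := by omega
      have h2 : (lam : ℝ) ≤ 2 * ((lam / 2 : ℕ) : ℝ) + 1 := by exact_mod_cast this
      linarith
    have h3 : (lam : ℝ) + 1 ≤ 8 * (((lam / 2 : ℕ) : ℝ) - 1) := by linarith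
    rw [hh0, div_mul_eq_mul_div, div_div, div_le_div_iff₀ (by norm_num) (by positivity)]
    have h4 : m * (40 * Real.log k * 4) ≤ m * (160 * (8 * (((lam / 2 : ℕ) : ℝ) - 1))) := by
      apply mul_le_mul_of_nonneg_left _ hmpos.le
      linarith
    calc m * (40 * Real.log k * 4) ≤ m * (160 * (8 * (((lam / 2 : ℕ) : ℝ) - 1))) := h4
      _ = m * (((lam / 2 : ℕ) : ℝ) - 1) * 1280 := by ring
  have hH1pos : ∀ b : {b // b ∈ B}, 0 < H1 (fun q : {q // q ∈ pr z w} => (q : ℕ))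
      (fun i => (((i : ℕ) : ℝ) - 2) / 2)
      (univ.filter (fun i : {q // q ∈ pr z w} => ch (b : ℤ) (i : ℕ) = 1))
      ((2 : ℝ) ^ s) := fun b => lt_of_lt_of_le hh0pos (hH1 b)
  have hD : (1 : ℝ) ≤ 2 ^ k := one_le_pow₀ (by norm_num)
  have hcardB : (Fintype.card {b // b ∈ B} : ℝ) = B.card := by simp
  have hres := sieve2 hL (M := M)
    (fun i j hij => (Nat.coprime_primes (hQ i).2.2 (hQ j).2.2).2 (fun h => hij (Subtype.ext h)))
    (fun i => hM i (hQ i).2.2 (hQ i).1) n0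
    (by
      rw [hcardB]
      have h1 := sum_inv_sq z w (by omega)
      have h2 : ∑ i : {q // q ∈ pr z w}, (B.card : ℝ) / ((i : ℕ) : ℝ) ^ 2 =
          (B.card : ℝ) * ∑ q ∈ pr z w, 1 / (q : ℝ) ^ 2 := by
        rw [Finset.mul_sum, ← Finset.sum_coe_sort (pr z w)
          (fun q => (B.card : ℝ) * (1 / (q : ℝ) ^ 2))]
        exact Finset.sum_congr rfl (fun i _ => by ring)
      rw [h2]
      rw [hzr] at h1
      have h3 : (B.card : ℝ) * ∑ q ∈ pr z w, 1 / (q : ℝ) ^ 2 ≤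
          k * (1 / (k : ℝ) ^ 40) :=
        mul_le_mul hcardk h1 (Finset.sum_nonneg (fun q _ => by positivity)) (by positivity)
      refine h3.trans ?_
      have hk6 : (0 : ℝ) < (k : ℝ) ^ 40 := by positivity
      rw [mul_one_div, div_le_div_iff₀ hk6 (by norm_num)]
      have : (k : ℝ) ^ 2 ≤ (k : ℝ) ^ 40 := pow_le_pow_right₀ (by linarith) (by norm_num)
      nlinarith)
    (D := (2 : ℝ) ^ k) (S1 := (2 : ℝ) ^ s)
    (one_lt_pow₀ (by norm_num) (by omega)) hD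
    (by
      intro S hS
      rw [hcardB]
      have hScard : S.card ≤ k := by
        have h1 : (2 : ℝ) ^ S.card ≤
            PP (fun q : {q // q ∈ pr z w} => (q : ℕ)) S := by
          unfold RS.PP
          rw [← Finset.prod_const]
          exact Finset.prod_le_prod (fun _ _ => by norm_num)
            (fun i _ => by exact_mod_cast (hQ i).2.2.two_le)
        have h2 : (2 : ℝ) ^ S.card ≤ 2 ^ k := h1.trans hS
        exact (pow_le_pow_iff_right₀ (by norm_num : (1 : ℝ) < 2)).1 h2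
      have h1 : ∑ i ∈ S, (B.card : ℝ) / ((((i : ℕ) : ℝ) - 2) / 2) ≤
          ∑ i ∈ S, (k : ℝ) / ((k : ℝ) ^ 40 / 4) := by
        refine Finset.sum_le_sum (fun i _ => ?_)
        have h3 := hQr i
        exact div_le_div₀ (by positivity) hcardk (by positivity) (by linarith)
      refine h1.trans ?_
      rw [Finset.sum_const, nsmul_eq_mul]
      have h5 : (S.card : ℝ) ≤ k := by exact_mod_cast hScard
      have hk6 : (0 : ℝ) < (k : ℝ) ^ 40 := by positivity
      calc (S.card : ℝ) * ((k : ℝ) / ((k : ℝ) ^ 40 / 4)) ≤ k * ((k : ℝ) / ((k : ℝ) ^ 40 / 4)) :=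
            mul_le_mul_of_nonneg_right h5 (by positivity)
        _ = (4 * (k : ℝ) ^ 2) / (k : ℝ) ^ 40 := by
            field_simp
        _ ≤ 1 / 6 := by
            rw [div_le_div_iff₀ hk6 (by norm_num)]
            have : (k : ℝ) ^ 3 ≤ (k : ℝ) ^ 40 := pow_le_pow_right₀ (by linarith) (by norm_num)
            nlinarith [sq_nonneg (k : ℝ)])
    (fun b => univ.filter (fun i : {q // q ∈ pr z w} => ch (b : ℤ) (i : ℕ) = 1))
    (fun j i hi => (Finset.mem_filter.1 hi).2)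
    hH1pos
    (by
      intro j i _
      have h1 : 40 * Real.log (k : ℝ) ≤ Real.log ((i : ℕ) : ℝ) := by
        rw [← hlogz]
        exact Real.log_le_log (by rw [hzr]; positivity) (by exact_mod_cast (hQ i).1.le)
      have h7 : h0 * (40 * (lam * 0.69)) ≤
          H1 (fun q : {q // q ∈ pr z w} => (q : ℕ))
            (fun i => (((i : ℕ) : ℝ) - 2) / 2)
            (univ.filter (fun i : {q // q ∈ pr z w} =>
              ch (j : ℤ) (i : ℕ) = 1)) ((2 : ℝ) ^ s) * Real.log ((i : ℕ) : ℝ) := by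
        apply mul_le_mul (hH1 j) _ (by positivity) (hH1pos j).le
        have : (lam : ℝ) * 0.69 ≤ lam * Real.log 2 :=
          mul_le_mul_of_nonneg_left hlog2' (by positivity)
        linarith
      refine le_trans ?_ h7
      have h8 : 1280 ≤ lam * m := by rwa [div_le_iff₀ hmpos] at hlamE
      rw [hh0]
      nlinarith)
    (by
      have h1 : ∀ b ∈ (univ : Finset {b // b ∈ B}),
          2 / H1 (fun q : {q // q ∈ pr z w} => (q : ℕ))
            (fun i => (((i : ℕ) : ℝ) - 2) / 2)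
            (univ.filter (fun i : {q // q ∈ pr z w} =>
              ch (b : ℤ) (i : ℕ) = 1)) ((2 : ℝ) ^ s) ≤ 2 / h0 := fun b _ =>
        div_le_div_of_nonneg_left (by norm_num) hh0pos (hH1 b)
      refine (Finset.sum_le_sum h1).trans ?_
      rw [Finset.sum_const, Finset.card_univ, nsmul_eq_mul, hcardB, Real.log_pow]
      have h2 : (B.card : ℝ) * (2 / h0) ≤ (h0 / 600 * k) * (2 / h0) :=
        mul_le_mul_of_nonneg_right hcard (by positivity)
      refine h2.trans ?_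
      have h3 : (h0 / 600 * k) * (2 / h0) = (k : ℝ) / 300 := by
        field_simp
        norm_num
      rw [h3]
      nlinarith)
    (by
      rw [Real.log_pow, Real.log_pow]
      have h1 : 4 * s ≤ k := by
        have : 4 * s ≤ 4 * lam * s := Nat.mul_le_mul_right s (by omega)
        omega
      have h2 : 4 * (s : ℝ) ≤ k := by exact_mod_cast h1
      nlinarith)
    (by
      rw [hcardB, Real.log_pow, Real.log_pow]
      have hspos' : (0 : ℝ) < (s : ℝ) := by exact_mod_cast hspos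
      have h1 : 2 * (lam : ℝ) ≤ (k : ℝ) * Real.log 2 / (2 * ((s : ℝ) * Real.log 2)) := by
        rw [le_div_iff₀ (by positivity)]
        have h2 : 4 * (lam : ℝ) * s ≤ k := by exact_mod_cast hsk
        nlinarith
      have h2 : Real.exp (-((k : ℝ) * Real.log 2 / (2 * ((s : ℝ) * Real.log 2)))) ≤
          Real.exp (-(2 * (lam : ℝ))) := Real.exp_le_exp.2 (by linarith)
      have h3 : (B.card : ℝ) ≤ 2 ^ (lam + 1) := by
        refine hcardk.trans ?_
        exact_mod_cast (Nat.lt_pow_succ_log_self (by norm_num : 1 < 2) k).le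
      have h4 : Real.exp (-(2 * (lam : ℝ))) ≤ (1 / 4 : ℝ) ^ lam := by
        have h5 : Real.exp (-2) ≤ 1 / 4 := by
          have h6 : (4 : ℝ) ≤ Real.exp 2 := by
            have := Real.exp_one_gt_d9
            have h7 : Real.exp 2 = Real.exp 1 * Real.exp 1 := by rw [← Real.exp_add]; norm_num
            rw [h7]
            nlinarith
          rw [Real.exp_neg, ← one_div]
          exact one_div_le_one_div_of_le (by norm_num) h6
        have h8 : Real.exp (-(2 * (lam : ℝ))) = Real.exp (-2) ^ lam := by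
          rw [← Real.exp_nat_mul]
          congr 1
          ring
        rw [h8]
        exact pow_le_pow_left₀ (Real.exp_pos _).le h5 _
      calc (B.card : ℝ) * Real.exp (-((k : ℝ) * Real.log 2 / (2 * ((s : ℝ) * Real.log 2))))
          ≤ 2 ^ (lam + 1) * (1 / 4 : ℝ) ^ lam :=
            mul_le_mul h3 (h2.trans h4) (Real.exp_pos _).le (by positivity)
        _ = 2 * (1 / 2 : ℝ) ^ lam := by
            rw [pow_succ, mul_assoc, mul_comm (2 : ℝ) ((1 / 4 : ℝ) ^ lam), ← mul_assoc, ← mul_pow]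
            norm_num
            ring
        _ ≤ 2 * (1 / 2 : ℝ) ^ 10 := by
            apply mul_le_mul_of_nonneg_left _ (by norm_num)
            exact pow_le_pow_of_le_one (by norm_num) (by norm_num) hlam10
        _ ≤ 1 / 3 := by norm_num)
    (T := T)
    (by
      rw [hcardB]
      have hTr : (2 : ℝ) ^ (8 * k) ≤ T := by exact_mod_cast hT
      have h1 : ((B.card : ℝ) + 1) * (8 * ((2 : ℝ) ^ k) ^ 6) ≤
          ((k : ℝ) + 1) * (8 * ((2 : ℝ) ^ k) ^ 6) :=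
        mul_le_mul_of_nonneg_right (by linarith) (by positivity)
      refine h1.trans (hnumT.trans ?_)
      linarith)
  obtain ⟨t, htT, ht⟩ := hres
  refine ⟨t, htT, fun b hb => ?_⟩
  obtain ⟨i, _, hi⟩ := ht ⟨b, hb⟩
  exact ⟨i, (hQ i).2.2, (hQ i).1, (hQ i).2.1, lf_ne (hQ4 i) hi⟩

end Pool.Agent.SQ
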