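import Pool.Agent.SQ.SumF
import Pool.Agent.SQ.Choice

/-! SQ/Cover.  The residue class.

`M = primorial k * q` (`primorial_le_four_pow`).  `P` = primes `≤ 2^b` different from `q`.  By
`choice` (`F = Fre k (2^b) H`, `R = rt`, `mem_rt`) and `loc_bound` there is `c` with
`#{a ∈ F : ∀ p ∈ P, c p ∉ rt p a} ≤ 2 ∏_{p∈P} (1 - 1/p) ∑_{a∈F} gg P a`, and
`∏_{p ∈ P} (1 - 1/p) ≤ 2 ∏_{p ≤ 2^b} (1 - 1/p) ≤ 2/(b log 2) ≤ 1024 l2/(l l3)` (`Helper52.prod_upper`,
`bl`); with `sumF` the count is `≤ 2048 C H l2^2/(l^2 l3)`.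
`n0` by the Chinese remainder theorem (`Nat.chineseRemainderOfFinset` or
`Ideal`-free induction): `n0 ≡ c p` mod `p ∈ P`, `n0 ≡ 0` mod `q` and mod the primes in `(2^b, k]`.
A prime divisor `p` of `M` is `≤ k` or `q`.  If `a` survives (no `p ∣ M` divides `n0^2 - a`) then no
`p ∈ (2^b, k]` divides `a` and `q ∤ a` (as `p ∣ n0`), and `c p ∉ rt p a` for `p ∈ P`
(`n0 ≡ c p`), so `a` is counted above.  `2^b ≤ k` (`PS.facts`). -/

set_option autoImplicit false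

namespace Pool.Agent.SQ

open Finset

open Helper52 (pr)

private theorem dvd_primorial' {p k : ℕ} (hp : p.Prime) (hk : p ≤ k) : p ∣ primorial k := by
  unfold primorial
  apply dvd_prod_of_mem
  rw [mem_filter, mem_range]
  exact ⟨by omega, hp⟩

private theorem le_of_dvd_primorial {p k : ℕ} (hp : p.Prime) (h : p ∣ primorial k) : p ≤ k := by
  unfold primorial at h
  rw [Prime.dvd_finsetProd_iff hp.prime] at h
  obtain ⟨r, hr, hpr⟩ := h
  rw [mem_filter, mem_range] at hr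
  have := (Nat.prime_dvd_prime_iff_eq hp hr.2).1 hpr
  omega

private theorem sq_dvd {p n c : ℕ} {a : ℤ} (h : n ≡ c [MOD p]) (h2 : (p : ℤ) ∣ (c : ℤ) ^ 2 - a) :
    (p : ℤ) ∣ (n : ℤ) ^ 2 - a := by
  have h1 : (p : ℤ) ∣ (c : ℤ) - n := (Nat.modEq_iff_dvd).1 h
  have h3 : (n : ℤ) ^ 2 - a = ((c : ℤ) ^ 2 - a) - ((c : ℤ) - n) * (c + n) := by ring
  rw [h3]
  exact dvd_sub h2 (Dvd.dvd.mul_right h1 _)

private theorem prodP {b q : ℕ} (hb : 1 ≤ b) :
    ∏ p ∈ (pr 0 (2 ^ b)).erase q, (1 - 1 / (p : ℝ)) ≤ 2 * (1 / (b * Real.log 2)) := by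
  have h1 := Helper52.prod_upper hb
  have h0 : ∀ p ∈ pr 0 (2 ^ b), 1 / 2 ≤ 1 - 1 / (p : ℝ) := by
    intro p hp
    rw [Helper52.mem_pr] at hp
    have h2 : (2 : ℝ) ≤ p := by exact_mod_cast hp.2.2.two_le
    have h3 : 1 / (p : ℝ) ≤ 1 / 2 := one_div_le_one_div_of_le (by norm_num) h2
    linarith
  have hnn : 0 ≤ ∏ p ∈ (pr 0 (2 ^ b)).erase q, (1 - 1 / (p : ℝ)) := by
    apply prod_nonneg
    intro p hp
    have := h0 p (mem_of_mem_erase hp)
    linarith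
  by_cases hq : q ∈ pr 0 (2 ^ b)
  · rw [← mul_prod_erase _ _ hq] at h1
    have h2 := h0 q hq
    have h3 := mul_le_mul_of_nonneg_right h2 hnn
    linarith
  · rw [erase_eq_of_notMem hq] at hnn ⊢
    linarith

open Classical in
theorem cover : ∃ C : ℝ, 0 < C ∧ ∃ k0 : ℕ, ∀ k : ℕ, k0 ≤ k → ∀ (l l2 l3 : ℝ) (b : ℕ),
    PS k l l2 l3 b → ∀ H : ℕ, k ≤ H → (H : ℝ) ≤ k * l ^ 2 → ∀ q : ℕ, q.Prime → q ≤ H →
    ∃ M n0 : ℕ, 0 < M ∧ M ≤ 4 ^ k * H ∧ (∀ p : ℕ, p.Prime → p ∣ M → p ≤ k ∨ p = q) ∧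
      q ∣ M ∧ q ∣ n0 ∧
      (((Icc (-(H : ℤ)) H).filter (fun a : ℤ => a ≠ 0 ∧
        ∀ p : ℕ, p.Prime → p ∣ M → ¬ (p : ℤ) ∣ (n0 : ℤ) ^ 2 - a)).card : ℝ) ≤
      C * (H * l2 ^ 2 / (l ^ 2 * l3)) := by
  obtain ⟨C, hC, k0, hk0⟩ := sumF
  refine ⟨2048 * C, by positivity, k0, ?_⟩
  intro k hk l l2 l3 b hPS H hkH hH q hq hqH
  have hfac := hPS.facts
  have h2bk : 2 ^ b ≤ k := hfac.2.2.2.2.2.2.2.2.2
  set P := (pr 0 (2 ^ b)).erase q with hP
  have hPp : ∀ p ∈ P, p.Prime ∧ p ≤ 2 ^ b := by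
    intro p hp
    have h1 := mem_of_mem_erase hp
    rw [Helper52.mem_pr] at h1
    exact ⟨h1.2.2, h1.2.1⟩
  obtain ⟨c, hc1, hc2⟩ := choice P (fun p hp => (hPp p hp).1.one_lt.le) (Fre k (2 ^ b) H) rt
    (fun p _ a => by unfold rt; exact filter_subset _ _)
  have hcrt := Nat.chineseRemainderOfFinset (fun p => if p ∈ P then c p else 0) (fun p => p)
    (insert q (pr 0 k))
    (by
      intro p hp
      rw [mem_insert] at hp
      rcases hp with rfl | hp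
      · exact hq.ne_zero
      · rw [Helper52.mem_pr] at hp
        exact hp.2.2.ne_zero)
    (by
      have hpp : ∀ p ∈ insert q (pr 0 k), p.Prime := by
        intro p hp
        rw [mem_insert] at hp
        rcases hp with rfl | hp
        · exact hq
        · rw [Helper52.mem_pr] at hp
          exact hp.2.2
      intro p hp r hr hne
      exact (Nat.coprime_primes (hpp p hp) (hpp r hr)).2 hne)
  obtain ⟨n0, hn0⟩ := hcrt
  have hn1 : ∀ p ∈ P, n0 ≡ c p [MOD p] := by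
    intro p hp
    have h1 := hn0 p (by
      rw [mem_insert, Helper52.mem_pr]
      right
      have := hPp p hp
      exact ⟨this.1.pos, this.2.trans h2bk, this.1⟩)
    simpa [hp] using h1
  have hn2 : ∀ p ∈ insert q (pr 0 k), p ∉ P → p ∣ n0 := by
    intro p hp hpP
    have h1 := hn0 p hp
    simp only [hpP, if_false] at h1
    exact (Nat.modEq_zero_iff_dvd).1 h1
  refine ⟨primorial k * q, n0, Nat.mul_pos (primorial_pos k) hq.pos, ?_, ?_, Dvd.intro_left _ rfl,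
    hn2 q (mem_insert_self _ _) (notMem_erase _ _), ?_⟩
  · exact Nat.mul_le_mul (primorial_le_four_pow k) hqH
  · intro p hp hpM
    rcases (Nat.Prime.dvd_mul hp).1 hpM with h | h
    · left
      exact le_of_dvd_primorial hp h
    · right
      exact (Nat.prime_dvd_prime_iff_eq hp hq).1 h
  · -- counting
    have hsub : (Icc (-(H : ℤ)) H).filter (fun a : ℤ => a ≠ 0 ∧
        ∀ p : ℕ, p.Prime → p ∣ primorial k * q → ¬ (p : ℤ) ∣ (n0 : ℤ) ^ 2 - a) ⊆
        (Fre k (2 ^ b) H).filter (fun a => ∀ p ∈ P, c p ∉ rt p a) := by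
      intro a ha
      rw [mem_filter] at ha
      obtain ⟨ha1, ha2, ha3⟩ := ha
      rw [mem_filter]
      constructor
      · unfold Fre
        rw [mem_filter]
        refine ⟨ha1, ha2, ?_⟩
        intro p hp hp1 hp2 hpa
        apply ha3 p hp (Dvd.dvd.mul_right (dvd_primorial' hp hp2) q)
        have h1 : p ∣ n0 := by
          apply hn2 p
          · rw [mem_insert, Helper52.mem_pr]
            right
            exact ⟨hp.pos, hp2, hp⟩
          · intro hpP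
            have := (hPp p hpP).2
            omega
        have h2 : (p : ℤ) ∣ (n0 : ℤ) := Int.natCast_dvd_natCast.2 h1
        exact dvd_sub (Dvd.dvd.pow h2 (by norm_num)) hpa
      · intro p hp hcp
        rw [mem_rt] at hcp
        apply ha3 p (hPp p hp).1
          (Dvd.dvd.mul_right (dvd_primorial' (hPp p hp).1 ((hPp p hp).2.trans h2bk)) q)
        exact sq_dvd (hn1 p hp) hcp.2
    have h1 : (((Icc (-(H : ℤ)) H).filter (fun a : ℤ => a ≠ 0 ∧
        ∀ p : ℕ, p.Prime → p ∣ primorial k * q → ¬ (p : ℤ) ∣ (n0 : ℤ) ^ 2 - a)).card : ℝ) ≤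
        (((Fre k (2 ^ b) H).filter (fun a => ∀ p ∈ P, c p ∉ rt p a)).card : ℝ) := by
      exact_mod_cast card_le_card hsub
    refine h1.trans (hc2.trans ?_)
    have h2 : ∑ a ∈ Fre k (2 ^ b) H, ∏ p ∈ P, (1 - ((rt p a).card : ℝ) / p) ≤
        ∑ a ∈ Fre k (2 ^ b) H, 2 * (∏ p ∈ P, (1 - 1 / (p : ℝ))) * gg P a :=
      sum_le_sum (fun a _ => loc_bound (fun p hp => (hPp p hp).1) a)
    refine h2.trans ?_
    rw [← mul_sum]
    have h3 := hk0 k hk l l2 l3 b hPS H hkH hH P hPp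
    have h4 : ∏ p ∈ P, (1 - 1 / (p : ℝ)) ≤ 2 * (1 / (b * Real.log 2)) := prodP hPS.b1
    have hl := hPS.lpos
    have hl2 := hPS.l2pos
    have hl3 : 0 < l3 := by linarith [hPS.h3]
    have h5 : 1 / ((b : ℝ) * Real.log 2) ≤ 512 * l2 / (l * l3) := by
      have h6 := hPS.bl
      have h7 : 0 < l * l3 / (512 * l2) := by positivity
      have h8 := one_div_le_one_div_of_le h7 h6
      refine h8.trans (le_of_eq ?_)
      field_simp
    have h6 : 2 * ∏ p ∈ P, (1 - 1 / (p : ℝ)) ≤ 2048 * l2 / (l * l3) := by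
      have : 2048 * l2 / (l * l3) = 2 * (2 * (512 * l2 / (l * l3))) := by ring
      rw [this]
      linarith
    have hHn : (0 : ℝ) ≤ H := Nat.cast_nonneg H
    have h7 : 0 ≤ ∑ a ∈ Fre k (2 ^ b) H, gg P a :=
      sum_nonneg (fun a _ => gg_nonneg (fun p hp => (hPp p hp).1) a)
    calc (2 * ∏ p ∈ P, (1 - 1 / (p : ℝ))) * ∑ a ∈ Fre k (2 ^ b) H, gg P a ≤
        2048 * l2 / (l * l3) * (C * (H * l2 / l)) :=
          mul_le_mul h6 h3 h7 (by positivity)
      _ = 2048 * C * (H * l2 ^ 2 / (l ^ 2 * l3)) := by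
          field_simp

end Pool.Agent.SQ
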