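import Mathlib
import Pool.Agent.Helper52.PrimeSums

/-!
# SQ: integers far from all square roots of primes.  Definitions

`RC χ Q`: a completely multiplicative function with values `0, 1, -1` and all partial sums `≤ Q` in
absolute value (a real nonprincipal character).  `rr χ = 1 * χ`.
-/

set_option autoImplicit false

namespace Pool.Agent.SQ

open Finset
open Helper52 (pr)

/-- real character with partial sums bounded by `Q` -/
structure RC (χ : ℕ → ℝ) (Q : ℝ) : Prop where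
  zero : χ 0 = 0
  one : χ 1 = 1
  mul : ∀ m n, χ (m * n) = χ m * χ n
  val : ∀ n, χ n = 0 ∨ χ n = 1 ∨ χ n = -1
  sum : ∀ N, |∑ n ∈ range N, χ n| ≤ Q

/-- `(1 * χ)(n)` -/
noncomputable def rr (χ : ℕ → ℝ) (n : ℕ) : ℝ := ∑ d ∈ n.divisors, χ d

/-- `∑_{n ≤ t} (1 * χ)(n) / n` -/
noncomputable def SS (χ : ℕ → ℝ) (t : ℕ) : ℝ := ∑ n ∈ Icc 1 t, rr χ n / n

/-- `∑_{n ≤ t} χ(n) / n` -/
noncomputable def XX (χ : ℕ → ℝ) (t : ℕ) : ℝ := ∑ n ∈ Icc 1 t, χ n / n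

/-- the Euler product of `∑ (1 * χ)(n)/n` over the primes `≤ z` -/
noncomputable def EP (χ : ℕ → ℝ) (z : ℕ) : ℝ :=
  ∏ p ∈ pr 0 z, ((1 - 1 / (p : ℝ))⁻¹ * (1 - χ p / (p : ℝ))⁻¹)

/-- `∑ (1 * χ)(n)/n` over the `n ≤ t` all of whose prime factors are `> z` -/
noncomputable def RZ (χ : ℕ → ℝ) (z t : ℕ) : ℝ :=
  ∑ n ∈ (Icc 1 t).filter (fun n : ℕ => ∀ q ∈ n.primeFactors, z < q), rr χ n / n

open Classical in
/-- the squarefree version with the local factors `2/(p-2)` at the primes with `χ p = 1` -/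
noncomputable def NZ (χ : ℕ → ℝ) (z t : ℕ) : ℝ :=
  ∑ S ∈ ((pr z t).filter (fun p => χ p = 1)).powerset.filter (fun S => ∏ p ∈ S, p ≤ t),
    ∏ p ∈ S, (2 / ((p : ℝ) - 2))

/-- `χ` is good at `z`: linear growth of `NZ` from `z ^ C0` on -/
def Good (C0 : ℕ) (c : ℝ) (χ : ℕ → ℝ) (z : ℕ) : Prop :=
  ∀ t : ℕ, z ^ C0 ≤ t → c * (Real.log t / Real.log z) ≤ NZ χ z t

/-- the asymptotic formula -/
def As (χ : ℕ → ℝ) (Q A B : ℝ) : Prop :=
  0 ≤ A ∧ ∀ t : ℕ, 1 ≤ t → |SS χ t - (A * Real.log t + B)| ≤ 40 * Q * (1 + Real.log t) / √t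

/-- the character `n ↦ (a/n)` (Jacobi symbol), zero for even `n` -/
noncomputable def ch (a : ℤ) (n : ℕ) : ℝ := if n % 2 = 1 then ((jacobiSym a n : ℤ) : ℝ) else 0

theorem RC.one_le {χ : ℕ → ℝ} {Q : ℝ} (h : RC χ Q) : 1 ≤ Q := by
  have h1 := h.sum 2
  simp [sum_range_succ, h.zero, h.one] at h1
  exact h1

theorem RC.abs_le {χ : ℕ → ℝ} {Q : ℝ} (h : RC χ Q) (n : ℕ) : |χ n| ≤ 1 := by
  rcases h.val n with h1 | h1 | h1 <;> rw [h1] <;> norm_num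

end Pool.Agent.SQ
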