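import Pool.Agent.SQ.Rr

/-! SQ/Sqf.  From `RZ` to the squarefree sum `NZ`.

All primes `p > z` have `χ p = 1` or `-1`.  For `n ≤ t` with all prime factors `> z` and
`rr χ n ≠ 0` every prime `p` with `χ p = -1` divides `n` to an even power, so `n = m * w^2` with `m`
composed of primes with `χ p = 1` and `w` of primes with `χ p = -1`; `rr χ n = rr χ m` and
`1/n = (1/m) (1/w^2)`.  `∑_{w ≤ t} 1/w^2 ≤ 2`.  For fixed radical `S` (a set of primes in `(z, t]`
with `χ p = 1`, product `≤ m ≤ t`):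
`∑_{m : primeFactors m = S, m ≤ t} rr χ m / m ≤ ∏_{p ∈ S} ∑_{e ≥ 1} (e + 1)/p^e
 = ∏_{p ∈ S} ((1 - 1/p)^(-2) - 1) ≤ ∏_{p ∈ S} 2/(p - 2)` as
`(1-1/p)^(-2) - 1 = (2p-1)/(p-1)^2` and `(2p-1)(p-2) ≤ 2 (p-1)^2` (`p ≥ 3` since `z ≥ 2`).
Finite version of the inner sum: the `m` with `primeFactors m = S`, `m ≤ t`, inject into
`∏_{p∈S} {1,...,t}` (exponents), `Finset.prod_univ_sum` / `Finset.prod_sum`.  Alternatively prove the
inequality by induction over the primes. -/

set_option autoImplicit false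

namespace Pool.Agent.SQ

open Finset
open Helper52 (pr)

variable {χ : ℕ → ℝ} {Q : ℝ}

private lemma geo_two {x : ℝ} (h0 : 0 ≤ x) (h1 : x < 1) (n : ℕ) :
    ∑ k ∈ range n, ((k : ℝ) + 1) * x ^ k ≤ 1 / (1 - x) ^ 2 := by
  have hid : ∀ n : ℕ, (∑ k ∈ range n, ((k : ℝ) + 1) * x ^ k) * (1 - x) ^ 2 =
      1 - ((n : ℝ) + 1) * x ^ n + n * x ^ (n + 1) := by
    intro n
    induction n with
    | zero => simp
    | succ n ih =>
      rw [sum_range_succ, add_mul, ih]
      push_cast
      ring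
  have hpos : 0 < (1 - x) ^ 2 := by
    have : 0 < 1 - x := by linarith
    positivity
  rw [le_div_iff₀ hpos, hid n]
  have hxn : 0 ≤ x ^ n := pow_nonneg h0 n
  have : (n : ℝ) * x ^ (n + 1) ≤ (n : ℝ) * x ^ n := by
    apply mul_le_mul_of_nonneg_left _ (Nat.cast_nonneg n)
    rw [pow_succ]
    nlinarith
  nlinarith

/-- sum over the numbers `≤ t` with all prime factors in `P` -/
private noncomputable def Rf (χ : ℕ → ℝ) (P : Finset ℕ) (t : ℕ) : ℝ :=
  ∑ n ∈ (Icc 1 t).filter (fun n : ℕ => n.primeFactors ⊆ P), rr χ n / n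

/-- the squarefree sum -/
private noncomputable def Nf (P : Finset ℕ) (t : ℕ) : ℝ :=
  ∑ S ∈ P.powerset.filter (fun S => ∏ p ∈ S, p ≤ t), ∏ p ∈ S, (2 / ((p : ℝ) - 2))

private lemma Rf_nonneg (h : RC χ Q) (P : Finset ℕ) (t : ℕ) : 0 ≤ Rf χ P t :=
  Finset.sum_nonneg (fun n _ => div_nonneg (rr_nonneg h n) (Nat.cast_nonneg n))

private lemma Rf_mono (h : RC χ Q) (P : Finset ℕ) {s t : ℕ} (hst : s ≤ t) :
    Rf χ P s ≤ Rf χ P t := by
  apply Finset.sum_le_sum_of_subset_of_nonneg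
  · intro n hn
    rw [Finset.mem_filter, Finset.mem_Icc] at hn ⊢
    exact ⟨⟨hn.1.1, hn.1.2.trans hst⟩, hn.2⟩
  · intro n _ _
    exact div_nonneg (rr_nonneg h n) (Nat.cast_nonneg n)

private lemma Nf_nonneg {P : Finset ℕ} (hP : ∀ p ∈ P, 3 ≤ p) (t : ℕ) : 0 ≤ Nf P t := by
  apply Finset.sum_nonneg
  intro S hS
  apply Finset.prod_nonneg
  intro p hp
  have := hP p (Finset.mem_powerset.1 (Finset.mem_filter.1 hS).1 hp)
  have h3 : (3 : ℝ) ≤ p := by exact_mod_cast this
  exact div_nonneg (by norm_num) (by linarith)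

private lemma step (h : RC χ Q) (P : Finset ℕ) {p : ℕ} (hp : p.Prime) (hpP : p ∉ P) (t : ℕ) :
    Rf χ (insert p P) t ≤
      ∑ k ∈ range (t + 1), rr χ (p ^ k) / (p : ℝ) ^ k * Rf χ P (t / p ^ k) := by
  classical
  set A := (Icc 1 t).filter (fun n : ℕ => n.primeFactors ⊆ insert p P) with hA
  have hmaps : ∀ n ∈ A, n.factorization p ∈ range (t + 1) := by
    intro n hn
    rw [hA, Finset.mem_filter, Finset.mem_Icc] at hn
    rw [Finset.mem_range]
    have h1 : n.factorization p < n := Nat.factorization_lt p (by omega)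
    omega
  rw [Rf, ← hA, ← Finset.sum_fiberwise_of_maps_to hmaps]
  apply Finset.sum_le_sum
  intro k _
  set B := (Icc 1 (t / p ^ k)).filter (fun n : ℕ => n.primeFactors ⊆ P) with hB
  have hpk : 0 < p ^ k := pow_pos hp.pos k
  have hdat : ∀ n ∈ A.filter (fun n => n.factorization p = k),
      p ^ k * (n / p ^ k) = n ∧ Nat.Coprime (p ^ k) (n / p ^ k) ∧ n / p ^ k ∈ B := by
    intro n hn
    rw [Finset.mem_filter, hA, Finset.mem_filter, Finset.mem_Icc] at hn
    obtain ⟨⟨⟨hn1, hnt⟩, hnP⟩, hnk⟩ := hn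
    have hn0 : n ≠ 0 := by omega
    have e1 : p ^ k * (n / p ^ k) = n := by
      rw [← hnk]; exact Nat.ordProj_mul_ordCompl_eq_self n p
    have hc : Nat.Coprime p (n / p ^ k) := by
      rw [← hnk]; exact Nat.coprime_ordCompl hp hn0
    refine ⟨e1, hc.pow_left k, ?_⟩
    rw [hB, Finset.mem_filter, Finset.mem_Icc]
    have hne : n / p ^ k ≠ 0 := by
      intro h0; rw [h0, mul_zero] at e1; exact hn0 e1.symm
    refine ⟨⟨Nat.one_le_iff_ne_zero.2 hne, Nat.div_le_div_right hnt⟩, ?_⟩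
    intro q hq
    have hqn : q ∈ n.primeFactors := by
      rw [Nat.mem_primeFactors] at hq ⊢
      exact ⟨hq.1, hq.2.1.trans ⟨p ^ k, by rw [mul_comm]; exact e1.symm⟩, hn0⟩
    rcases Finset.mem_insert.1 (hnP hqn) with h2 | h2
    · exfalso
      rw [Nat.mem_primeFactors] at hq
      subst h2
      exact (Nat.Prime.coprime_iff_not_dvd hp).1 hc hq.2.1
    · exact h2
  have hval : ∀ n ∈ A.filter (fun n => n.factorization p = k), rr χ n / n =
      rr χ (p ^ k) / (p : ℝ) ^ k * (rr χ (n / p ^ k) / ((n / p ^ k : ℕ) : ℝ)) := by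
    intro n hn
    obtain ⟨e1, hc, hmem⟩ := hdat n hn
    have hne : ((n / p ^ k : ℕ) : ℝ) ≠ 0 := by
      rw [hB, Finset.mem_filter, Finset.mem_Icc] at hmem
      have : n / p ^ k ≠ 0 := by omega
      exact_mod_cast this
    have hpk' : ((p : ℝ) ^ k) ≠ 0 := by
      exact pow_ne_zero k (by exact_mod_cast hp.ne_zero)
    conv_lhs => rw [← e1, rr_mul h hc]
    push_cast
    field_simp
  rw [Finset.sum_congr rfl hval, ← Finset.mul_sum]
  apply mul_le_mul_of_nonneg_left _
    (div_nonneg (rr_nonneg h _) (pow_nonneg (Nat.cast_nonneg p) k))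
  have himg : ∑ n ∈ A.filter (fun n => n.factorization p = k),
      rr χ (n / p ^ k) / ((n / p ^ k : ℕ) : ℝ) =
      ∑ m ∈ (A.filter (fun n => n.factorization p = k)).image (fun n => n / p ^ k),
        rr χ m / (m : ℝ) := by
    rw [Finset.sum_image]
    intro n hn n' hn' he
    have e1 := (hdat n hn).1
    have e2 := (hdat n' hn').1
    simp only at he
    rw [← e1, ← e2, he]
  rw [himg, Rf, ← hB]
  apply Finset.sum_le_sum_of_subset_of_nonneg
  · intro m hm
    rw [Finset.mem_image] at hm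
    obtain ⟨n, hn, rfl⟩ := hm
    exact (hdat n hn).2.2
  · intro m _ _
    exact div_nonneg (rr_nonneg h m) (Nat.cast_nonneg m)

private lemma rr_neg (h : RC χ Q) {p : ℕ} (hp : p.Prime) (hc : χ p = -1) (n : ℕ) :
    ∑ k ∈ range n, rr χ (p ^ k) / (p : ℝ) ^ k ≤ (1 - 1 / (p : ℝ) ^ 2)⁻¹ := by
  have hp2 : (2 : ℝ) ≤ p := by exact_mod_cast hp.two_le
  have hp0 : (0 : ℝ) < p := by linarith
  set x : ℝ := 1 / (p : ℝ) ^ 2 with hx
  have hx0 : 0 ≤ x := by positivity
  have hx1 : x < 1 := by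
    rw [hx, div_lt_one (by positivity)]; nlinarith
  have hval : ∀ k, rr χ (p ^ k) = if Even k then 1 else 0 := by
    intro k
    rw [rr_pow h hp, hc]
    induction k with
    | zero => simp
    | succ k ih =>
      rw [sum_range_succ, ih]
      rcases Nat.even_or_odd k with he | ho
      · have h1 : ¬ Even (k + 1) := by
          rw [Nat.not_even_iff_odd]; exact he.add_one
        rw [if_pos he, if_neg h1, Odd.neg_one_pow he.add_one]; ring
      · have h1 : ¬ Even k := by rwa [Nat.not_even_iff_odd]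
        rw [if_neg h1, if_pos ho.add_one, Even.neg_one_pow ho.add_one]; ring
  have hsub : ∑ k ∈ range n, rr χ (p ^ k) / (p : ℝ) ^ k ≤
      ∑ k ∈ range (2 * n), rr χ (p ^ k) / (p : ℝ) ^ k := by
    apply Finset.sum_le_sum_of_subset_of_nonneg
    · intro k hk; rw [mem_range] at hk ⊢; omega
    · intro k _ _
      exact div_nonneg (rr_nonneg h _) (by positivity)
  refine hsub.trans ?_
  have hdbl : ∀ n : ℕ, ∑ k ∈ range (2 * n), rr χ (p ^ k) / (p : ℝ) ^ k =
      ∑ j ∈ range n, x ^ j := by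
    intro n
    induction n with
    | zero => simp
    | succ n ih =>
      have e : 2 * (n + 1) = 2 * n + 1 + 1 := by ring
      rw [e, sum_range_succ, sum_range_succ, ih, sum_range_succ, hval, hval,
        if_pos (even_two_mul n), if_neg (by rw [Nat.not_even_iff_odd]; exact (even_two_mul n).add_one),
        hx, div_pow, one_pow, ← pow_mul]
      ring
  rw [hdbl, geom_sum_eq hx1.ne]
  rw [← neg_div_neg_eq, inv_eq_one_div]
  have h1x : 0 < 1 - x := by linarith
  rw [show -(x - 1) = 1 - x by ring]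
  apply div_le_div_of_nonneg_right _ h1x.le
  have := pow_nonneg hx0 n
  linarith

private lemma rr_posi (h : RC χ Q) {p : ℕ} (hp : p.Prime) (hp3 : 3 ≤ p) (hc : χ p = 1) (n : ℕ) :
    ∑ k ∈ range n, rr χ (p ^ (k + 1)) / (p : ℝ) ^ (k + 1) ≤ 2 / ((p : ℝ) - 2) := by
  have hp3' : (3 : ℝ) ≤ p := by exact_mod_cast hp3
  have hp0 : (0 : ℝ) < p := by linarith
  have hval : ∀ k : ℕ, rr χ (p ^ k) = (k : ℝ) + 1 := by
    intro k
    rw [rr_pow h hp, hc]
    simp
  have h1 := geo_two (x := 1 / (p : ℝ)) (by positivity)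
    (by rw [div_lt_one hp0]; linarith) (n + 1)
  rw [sum_range_succ'] at h1
  have h2 : ∑ k ∈ range n, rr χ (p ^ (k + 1)) / (p : ℝ) ^ (k + 1) =
      ∑ k ∈ range n, (((k + 1 : ℕ) : ℝ) + 1) * (1 / (p : ℝ)) ^ (k + 1) := by
    apply Finset.sum_congr rfl
    intro k _
    rw [hval, div_pow, one_pow]
    ring
  rw [h2]
  have h3 : 1 / (1 - 1 / (p : ℝ)) ^ 2 ≤ 2 / ((p : ℝ) - 2) + 1 := by
    have e1 : (1 - 1 / (p : ℝ)) ^ 2 = ((p : ℝ) - 1) ^ 2 / (p : ℝ) ^ 2 := by
      field_simp
    have e2 : 2 / ((p : ℝ) - 2) + 1 = (p : ℝ) / ((p : ℝ) - 2) := by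
      have : (p : ℝ) - 2 ≠ 0 := by linarith
      field_simp
      ring
    rw [e1, one_div_div, e2, div_le_div_iff₀ (by nlinarith) (by linarith)]
    nlinarith [mul_pos hp0 hp0]
  norm_num at h1 ⊢
  norm_num at h3
  linarith

private lemma Nf_insert {P : Finset ℕ} (_hP : ∀ p ∈ P, 3 ≤ p) {p : ℕ} (hp : 3 ≤ p) (hpP : p ∉ P)
    (t : ℕ) : Nf P t + 2 / ((p : ℝ) - 2) * Nf P (t / p) ≤ Nf (insert p P) t := by
  classical
  set A := P.powerset.filter (fun S => ∏ p ∈ S, p ≤ t) with hA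
  set B0 := P.powerset.filter (fun S => ∏ p ∈ S, p ≤ t / p) with hB0
  have hB : 2 / ((p : ℝ) - 2) * Nf P (t / p) =
      ∑ S ∈ B0.image (insert p), ∏ q ∈ S, (2 / ((q : ℝ) - 2)) := by
    rw [Nf, ← hB0, Finset.mul_sum, Finset.sum_image]
    · apply Finset.sum_congr rfl
      intro S hS
      rw [hB0, Finset.mem_filter, Finset.mem_powerset] at hS
      rw [Finset.prod_insert (fun hm => hpP (hS.1 hm))]
    · intro S hS S' hS' he
      rw [hB0, Finset.coe_filter, Set.mem_ofPred_eq, Finset.mem_powerset] at hS hS'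
      have h1 : p ∉ S := fun hm => hpP (hS.1 hm)
      have h2 : p ∉ S' := fun hm => hpP (hS'.1 hm)
      rw [← Finset.erase_insert h1, ← Finset.erase_insert h2, he]
  have hdis : Disjoint A (B0.image (insert p)) := by
    rw [Finset.disjoint_left]
    intro S hS hS'
    rw [hA, Finset.mem_filter, Finset.mem_powerset] at hS
    rw [Finset.mem_image] at hS'
    obtain ⟨S', -, rfl⟩ := hS'
    exact hpP (hS.1 (Finset.mem_insert_self p S'))
  rw [hB, Nf, ← hA, ← Finset.sum_union hdis, Nf]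
  apply Finset.sum_le_sum_of_subset_of_nonneg
  · intro S hS
    rw [Finset.mem_filter, Finset.mem_powerset]
    rcases Finset.mem_union.1 hS with h1 | h1
    · rw [hA, Finset.mem_filter, Finset.mem_powerset] at h1
      exact ⟨h1.1.trans (Finset.subset_insert p P), h1.2⟩
    · rw [Finset.mem_image] at h1
      obtain ⟨S', hS', rfl⟩ := h1
      rw [hB0, Finset.mem_filter, Finset.mem_powerset] at hS'
      refine ⟨Finset.insert_subset_insert p hS'.1, ?_⟩
      rw [Finset.prod_insert (fun hm => hpP (hS'.1 hm))]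
      calc p * ∏ q ∈ S', q ≤ p * (t / p) := Nat.mul_le_mul_left p hS'.2
        _ ≤ t := Nat.mul_div_le t p
  · intro S hS _
    apply Finset.prod_nonneg
    intro q hq
    have h3 : 3 ≤ q := by
      rcases Finset.mem_insert.1 (Finset.mem_powerset.1 (Finset.mem_filter.1 hS).1 hq) with h | h
      · rw [h]; exact hp
      · exact _hP q h
    have h3' : (3 : ℝ) ≤ q := by exact_mod_cast h3
    exact div_nonneg (by norm_num) (by linarith)

private lemma fac_ge {p : ℕ} (hp : 2 ≤ p) : 1 ≤ (1 - 1 / (p : ℝ) ^ 2)⁻¹ := by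
  have hp2 : (2 : ℝ) ≤ p := by exact_mod_cast hp
  have h1 : 0 < 1 / (p : ℝ) ^ 2 := by positivity
  have h2 : 1 / (p : ℝ) ^ 2 < 1 := by
    rw [div_lt_one (by positivity)]; nlinarith
  rw [one_le_inv₀ (by linarith)]
  linarith

private lemma main_ind (h : RC χ Q) (P : Finset ℕ) (hP : ∀ p ∈ P, p.Prime ∧ 3 ≤ p ∧ χ p ≠ 0) :
    ∀ t : ℕ, Rf χ P t ≤ (∏ p ∈ P, (1 - 1 / (p : ℝ) ^ 2)⁻¹) *
      Nf (P.filter (fun p => χ p = 1)) t := by
  classical
  induction P using Finset.induction_on with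
  | empty =>
    intro t
    rcases Nat.eq_zero_or_pos t with rfl | ht
    · have e1 : Rf χ ∅ 0 = 0 := by simp [Rf]
      rw [e1, Finset.prod_empty, one_mul]
      exact Nf_nonneg (fun q hq => absurd (Finset.mem_filter.1 hq).1 (Finset.notMem_empty q)) 0
    · have e1 : (Icc 1 t).filter (fun n : ℕ => n.primeFactors ⊆ (∅ : Finset ℕ)) = {1} := by
        ext n
        rw [Finset.mem_filter, Finset.mem_Icc, Finset.mem_singleton, Finset.subset_empty,
          Nat.primeFactors_eq_empty]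
        omega
      rw [Rf, e1, Finset.sum_singleton, rr_one h]
      have e2 : ((∅ : Finset ℕ).filter (fun p => χ p = 1)) = ∅ := by simp
      rw [e2, Nf]
      have e3 : (∅ : Finset ℕ).powerset.filter (fun S => ∏ p ∈ S, p ≤ t) = {∅} := by
        ext S
        rw [Finset.mem_filter, Finset.mem_powerset, Finset.subset_empty, Finset.mem_singleton]
        constructor
        · exact fun h => h.1
        · rintro rfl; exact ⟨rfl, by rw [Finset.prod_empty]; exact ht⟩
      rw [e3]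
      simp
  | insert p P hpP ih =>
    intro t
    have hP' : ∀ q ∈ P, q.Prime ∧ 3 ≤ q ∧ χ q ≠ 0 := fun q hq => hP q (Finset.mem_insert_of_mem hq)
    obtain ⟨hpp, hp3, hpc⟩ := hP p (Finset.mem_insert_self p P)
    have ih' := ih hP'
    set c := ∏ p ∈ P, (1 - 1 / (p : ℝ) ^ 2)⁻¹ with hc
    have hc1 : 0 ≤ c := Finset.prod_nonneg (fun q hq =>
      le_trans zero_le_one (fac_ge (by have := (hP' q hq).2.1; omega)))
    have hst := step h P hpp hpP t
    rw [Finset.prod_insert hpP, ← hc]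
    have hfac := fac_ge (p := p) (by omega)
    have hQ3 : ∀ q ∈ P.filter (fun p => χ p = 1), 3 ≤ q :=
      fun q hq => (hP' q (Finset.mem_filter.1 hq).1).2.1
    rcases h.val p with h0 | h1 | h1
    · exact absurd h0 hpc
    · -- `χ p = 1`
      have hfil : (insert p P).filter (fun p => χ p = 1) =
          insert p (P.filter (fun p => χ p = 1)) := by
        rw [Finset.filter_insert, if_pos h1]
      have hnot : p ∉ P.filter (fun p => χ p = 1) := fun hm => hpP (Finset.mem_filter.1 hm).1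
      have hins := Nf_insert hQ3 hp3 hnot t
      rw [← hfil] at hins
      have hb : Rf χ (insert p P) t ≤ Rf χ P t + 2 / ((p : ℝ) - 2) * Rf χ P (t / p) := by
        refine hst.trans ?_
        rw [sum_range_succ', add_comm]
        apply add_le_add
        · simp [rr_one h]
        · calc ∑ k ∈ range t, rr χ (p ^ (k + 1)) / (p : ℝ) ^ (k + 1) * Rf χ P (t / p ^ (k + 1))
              ≤ ∑ k ∈ range t, rr χ (p ^ (k + 1)) / (p : ℝ) ^ (k + 1) * Rf χ P (t / p) := by
                apply Finset.sum_le_sum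
                intro k _
                apply mul_le_mul_of_nonneg_left _
                  (div_nonneg (rr_nonneg h _) (pow_nonneg (Nat.cast_nonneg p) _))
                apply Rf_mono h
                apply Nat.div_le_div_left _ hpp.pos
                exact Nat.le_self_pow (by omega) p
            _ = (∑ k ∈ range t, rr χ (p ^ (k + 1)) / (p : ℝ) ^ (k + 1)) * Rf χ P (t / p) := by
                rw [Finset.sum_mul]
            _ ≤ _ := mul_le_mul_of_nonneg_right (rr_posi h hpp hp3 h1 t) (Rf_nonneg h _ _)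
      have hp2 : (0 : ℝ) ≤ 2 / ((p : ℝ) - 2) := by
        have : (3 : ℝ) ≤ p := by exact_mod_cast hp3
        exact div_nonneg (by norm_num) (by linarith)
      calc Rf χ (insert p P) t ≤ Rf χ P t + 2 / ((p : ℝ) - 2) * Rf χ P (t / p) := hb
        _ ≤ c * Nf (P.filter (fun p => χ p = 1)) t +
            2 / ((p : ℝ) - 2) * (c * Nf (P.filter (fun p => χ p = 1)) (t / p)) :=
          add_le_add (ih' t) (mul_le_mul_of_nonneg_left (ih' (t / p)) hp2)
        _ = c * (Nf (P.filter (fun p => χ p = 1)) t +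
            2 / ((p : ℝ) - 2) * Nf (P.filter (fun p => χ p = 1)) (t / p)) := by ring
        _ ≤ c * Nf ((insert p P).filter (fun p => χ p = 1)) t :=
          mul_le_mul_of_nonneg_left hins hc1
        _ ≤ (1 - 1 / (p : ℝ) ^ 2)⁻¹ * c * Nf ((insert p P).filter (fun p => χ p = 1)) t := by
          apply mul_le_mul_of_nonneg_right
          · nlinarith
          · apply Nf_nonneg
            intro q hq
            have := (Finset.mem_filter.1 hq).1
            exact (hP q this).2.1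
    · -- `χ p = -1`
      have hfil : (insert p P).filter (fun p => χ p = 1) = P.filter (fun p => χ p = 1) := by
        rw [Finset.filter_insert, if_neg (by rw [h1]; norm_num)]
      rw [hfil]
      calc Rf χ (insert p P) t ≤
          ∑ k ∈ range (t + 1), rr χ (p ^ k) / (p : ℝ) ^ k * Rf χ P (t / p ^ k) := hst
        _ ≤ ∑ k ∈ range (t + 1), rr χ (p ^ k) / (p : ℝ) ^ k * Rf χ P t := by
          apply Finset.sum_le_sum
          intro k _
          apply mul_le_mul_of_nonneg_left _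
            (div_nonneg (rr_nonneg h _) (pow_nonneg (Nat.cast_nonneg p) _))
          exact Rf_mono h _ (Nat.div_le_self _ _)
        _ = (∑ k ∈ range (t + 1), rr χ (p ^ k) / (p : ℝ) ^ k) * Rf χ P t := by
          rw [Finset.sum_mul]
        _ ≤ (1 - 1 / (p : ℝ) ^ 2)⁻¹ * Rf χ P t :=
          mul_le_mul_of_nonneg_right (rr_neg h hpp h1 _) (Rf_nonneg h _ _)
        _ ≤ (1 - 1 / (p : ℝ) ^ 2)⁻¹ * (c * Nf (P.filter (fun p => χ p = 1)) t) :=
          mul_le_mul_of_nonneg_left (ih' t) (by linarith)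
        _ = (1 - 1 / (p : ℝ) ^ 2)⁻¹ * c * Nf (P.filter (fun p => χ p = 1)) t := by ring

private lemma prod_two (N : ℕ) :
    ∏ n ∈ Icc 2 (N + 1), (1 - 1 / (n : ℝ) ^ 2)⁻¹ = 2 * ((N : ℝ) + 1) / ((N : ℝ) + 2) := by
  induction N with
  | zero => norm_num
  | succ N ih =>
    have e : Icc 2 (N + 1 + 1) = insert (N + 2) (Icc 2 (N + 1)) := by
      ext x; simp only [Finset.mem_insert, Finset.mem_Icc]; omega
    rw [e, Finset.prod_insert (by simp), ih]
    push_cast
    have h1 : (1 : ℝ) - 1 / ((N : ℝ) + 2) ^ 2 = ((N : ℝ) + 1) * (N + 3) / ((N : ℝ) + 2) ^ 2 := by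
      have : (N : ℝ) + 2 ≠ 0 := by positivity
      field_simp
      ring
    rw [h1, inv_div]
    have h2 : (N : ℝ) + 2 ≠ 0 := by positivity
    have h3 : (N : ℝ) + 1 ≠ 0 := by positivity
    have h4 : (N : ℝ) + 3 ≠ 0 := by positivity
    have h5 : (N : ℝ) + 1 + 2 ≠ 0 := by positivity
    field_simp
    ring

theorem sqf (h : RC χ Q) {z : ℕ} (hz : 2 ≤ z) (hχ : ∀ p : ℕ, p.Prime → z < p → χ p ≠ 0) (t : ℕ) :
    RZ χ z t ≤ 2 * NZ χ z t := by
  classical
  have hPP : ∀ p ∈ pr z t, p.Prime ∧ 3 ≤ p ∧ χ p ≠ 0 := by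
    intro p hp
    obtain ⟨h1, h2, h3⟩ := Helper52.mem_pr.1 hp
    exact ⟨h3, by omega, hχ p h3 h1⟩
  have hR : RZ χ z t = Rf χ (pr z t) t := by
    rw [RZ, Rf]
    apply Finset.sum_congr _ (fun _ _ => rfl)
    apply Finset.filter_congr
    intro n hn
    rw [Finset.mem_Icc] at hn
    constructor
    · intro hq q hqn
      have h1 := Nat.mem_primeFactors.1 hqn
      exact Helper52.mem_pr.2 ⟨hq q hqn, (Nat.le_of_dvd (by omega) h1.2.1).trans hn.2, h1.1⟩
    · intro hs q hqn
      exact (Helper52.mem_pr.1 (hs hqn)).1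
  have hN : NZ χ z t = Nf ((pr z t).filter (fun p => χ p = 1)) t := by
    rw [NZ, Nf]
  rw [hR, hN]
  refine (main_ind h (pr z t) hPP t).trans ?_
  apply mul_le_mul_of_nonneg_right
  · have hsub : pr z t ⊆ Icc 2 (t + 1) := by
      intro p hp
      have h3 := (hPP p hp).2.1
      have h4 : p ≤ t := (Helper52.mem_pr.1 hp).2.1
      rw [Finset.mem_Icc]; omega
    have h1 : ∏ p ∈ pr z t, (1 - 1 / (p : ℝ) ^ 2)⁻¹ ≤ ∏ n ∈ Icc 2 (t + 1), (1 - 1 / (n : ℝ) ^ 2)⁻¹ := by
      rw [← Finset.prod_sdiff hsub]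
      have h2 : 1 ≤ ∏ n ∈ Icc 2 (t + 1) \ pr z t, (1 - 1 / (n : ℝ) ^ 2)⁻¹ := by
        have : ∏ n ∈ Icc 2 (t + 1) \ pr z t, (1 : ℝ) ≤
            ∏ n ∈ Icc 2 (t + 1) \ pr z t, (1 - 1 / (n : ℝ) ^ 2)⁻¹ := by
          apply Finset.prod_le_prod (fun _ _ => zero_le_one)
          intro n hn
          rw [Finset.mem_sdiff, Finset.mem_Icc] at hn
          exact fac_ge hn.1.1
        simpa using this
      have h3 : 0 ≤ ∏ p ∈ pr z t, (1 - 1 / (p : ℝ) ^ 2)⁻¹ := Finset.prod_nonneg (fun q hq =>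
        le_trans zero_le_one (fac_ge (by have := (hPP q hq).2.1; omega)))
      nlinarith
    refine h1.trans ?_
    rw [prod_two, div_le_iff₀ (by positivity)]
    linarith
  · apply Nf_nonneg
    intro q hq
    exact (hPP q (Finset.mem_filter.1 hq).1).2.1

end Pool.Agent.SQ
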