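import Pool.Agent.SQ.Split
import Pool.Agent.SQ.Sqf
import Pool.Agent.SQ.Err

/-! SQ/GoodC.  The good case.  `w = z ^ C0`, `t ≥ w`, `τ = log t/log z ≥ C0`, `E = EP χ z ≥ 1`.
`SS t ≥ A log t + B - err ≥ SS w + A (log t - log w) - 2 err ≥ E/2 + c1 E (τ - C0) - E/4 ≥ c1 τ E`
(`err ≤ 1/8 ≤ E/8` by `err` for `z` large, `t ≥ w ≥ z`; `c1 C0 ≤ 1/4`, `A log z ≥ c1 E`).
`split`: `c1 τ E ≤ E RZ`, and `sqf`: `RZ ≤ 2 NZ`.  So `(c1/2) τ ≤ NZ`. -/

set_option autoImplicit false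

namespace Pool.Agent.SQ

open Finset
open Helper52 (pr)

theorem good_case : ∃ z0 : ℕ, 2 ≤ z0 ∧ ∀ z : ℕ, z0 ≤ z → ∀ (C0 : ℕ) (c1 : ℝ) (χ : ℕ → ℝ) (Q A B : ℝ),
    1 ≤ C0 → 0 < c1 → c1 * C0 ≤ 1 / 4 → RC χ Q → Q ^ 8 ≤ z → As χ Q A B →
    (∀ p : ℕ, p.Prime → z < p → χ p ≠ 0) →
    EP χ z / 2 ≤ SS χ (z ^ C0) → c1 * EP χ z ≤ A * Real.log z → Good C0 (c1 / 2) χ z := by
  obtain ⟨z1, hz1⟩ := err (1 / 8) (by norm_num)
  refine ⟨max z1 3, le_trans (by norm_num) (le_max_right _ _), ?_⟩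
  intro z hz C0 c1 χ Q A B hC0 hc1 hcC h hQ hAs hχ hS hA t ht
  have hzz1 : z1 ≤ z := le_trans (le_max_left _ _) hz
  have hz3 : 3 ≤ z := le_trans (le_max_right _ _) hz
  have hz2 : 2 ≤ z := by omega
  have hQ0 : 0 ≤ Q := le_trans zero_le_one h.one_le
  have hzw : z ≤ z ^ C0 := Nat.le_self_pow (by omega) z
  have hzt : z ≤ t := le_trans hzw ht
  have hz1r : (1 : ℝ) < z := by exact_mod_cast (by omega : 1 < z)
  have hlz : 0 < Real.log z := Real.log_pos hz1r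
  have ew := hz1 z hzz1 Q hQ0 hQ (z ^ C0) hzw
  have et := hz1 z hzz1 Q hQ0 hQ t hzt
  have aw := hAs.2 (z ^ C0) (le_trans (by omega) hzw)
  have at' := hAs.2 t (le_trans (by omega) hzt)
  have aw' := abs_le.1 (le_trans aw ew)
  have at2 := abs_le.1 (le_trans at' et)
  have hE := one_le_EP h z
  set E := EP χ z with hEdef
  set τ := Real.log t / Real.log z with hτ
  have hlt : Real.log t = τ * Real.log z := by
    rw [hτ]
    field_simp
  have hlw : Real.log ((z ^ C0 : ℕ) : ℝ) = C0 * Real.log z := by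
    push_cast
    rw [Real.log_pow]
  have hτC : (C0 : ℝ) ≤ τ := by
    rw [hτ, le_div_iff₀ hlz, ← hlw]
    apply Real.log_le_log
    · have : 0 < z ^ C0 := by positivity
      exact_mod_cast this
    · exact_mod_cast ht
  have h1 : A * (Real.log t - Real.log ((z ^ C0 : ℕ) : ℝ)) = (A * Real.log z) * (τ - C0) := by
    rw [hlt, hlw]
    ring
  have h2 : c1 * E * (τ - C0) ≤ (A * Real.log z) * (τ - C0) :=
    mul_le_mul_of_nonneg_right hA (by linarith)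
  have h3 : c1 * C0 * E ≤ 1 / 4 * E := mul_le_mul_of_nonneg_right hcC (by linarith)
  have h4 : c1 * τ * E ≤ SS χ t := by
    have h5 : A * Real.log t - A * Real.log ((z ^ C0 : ℕ) : ℝ) =
      A * (Real.log t - Real.log ((z ^ C0 : ℕ) : ℝ)) := by ring
    nlinarith [aw'.1, aw'.2, at2.1, at2.2]
  have h5 := split h z t
  have h6 : c1 * τ * E ≤ E * RZ χ z t := le_trans h4 h5
  have h7 : c1 * τ ≤ RZ χ z t := by
    have h8 : E * (c1 * τ) ≤ E * RZ χ z t := by linarith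
    exact le_of_mul_le_mul_left h8 (by linarith)
  have h9 := sqf h hz2 hχ t
  linarith

end Pool.Agent.SQ
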