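import Mathlib

/-! SQ/Part.  Partial summation against a sequence with bounded partial sums.

`part_sum`: Abel summation.  `part_lim`: the partial sums are Cauchy, the limit inherits the
bound. -/

set_option autoImplicit false

namespace Pool.Agent.SQ

open Finset Filter

private theorem part_abel (χ g : ℕ → ℝ) {M N : ℕ} (hMN : M ≤ N) :
    ∑ n ∈ Ico M N, χ n * g n =
      (∑ n ∈ range N, χ n - ∑ n ∈ range M, χ n) * g N +
        ∑ n ∈ Ico M N, (∑ m ∈ range (n + 1), χ m - ∑ m ∈ range M, χ m) * (g n - g (n + 1)) := by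
  induction N, hMN using Nat.le_induction with
  | base => simp
  | succ N hMN ih =>
    rw [sum_Ico_succ_top hMN, sum_Ico_succ_top hMN, ih, sum_range_succ]
    ring

private theorem part_tele (g : ℕ → ℝ) {M N : ℕ} (hMN : M ≤ N) :
    ∑ n ∈ Ico M N, (g n - g (n + 1)) = g M - g N := by
  induction N, hMN using Nat.le_induction with
  | base => simp
  | succ N hMN ih =>
    rw [sum_Ico_succ_top hMN, ih]
    ring

theorem part_sum {χ g : ℕ → ℝ} {Q : ℝ} (h : ∀ N, |∑ n ∈ range N, χ n| ≤ Q) {M N : ℕ} (hMN : M ≤ N)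
    (hg : ∀ n, M ≤ n → 0 ≤ g n) (hg2 : ∀ n, M ≤ n → g (n + 1) ≤ g n) :
    |∑ n ∈ Ico M N, χ n * g n| ≤ 2 * Q * g M := by
  have hS : ∀ a b : ℕ, |∑ n ∈ range a, χ n - ∑ n ∈ range b, χ n| ≤ 2 * Q := by
    intro a b
    have h1 := abs_sub (∑ n ∈ range a, χ n) (∑ n ∈ range b, χ n)
    have h2 := h a
    have h3 := h b
    linarith
  rw [part_abel χ g hMN]
  refine (abs_add_le _ _).trans ?_
  have h1 : |(∑ n ∈ range N, χ n - ∑ n ∈ range M, χ n) * g N| ≤ 2 * Q * g N := by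
    rw [abs_mul, abs_of_nonneg (hg N hMN)]
    exact mul_le_mul_of_nonneg_right (hS N M) (hg N hMN)
  have h2 : |∑ n ∈ Ico M N, (∑ m ∈ range (n + 1), χ m - ∑ m ∈ range M, χ m) * (g n - g (n + 1))| ≤
      ∑ n ∈ Ico M N, 2 * Q * (g n - g (n + 1)) := by
    refine (abs_sum_le_sum_abs _ _).trans (sum_le_sum fun n hn => ?_)
    have hn1 : M ≤ n := (mem_Ico.1 hn).1
    have h3 : 0 ≤ g n - g (n + 1) := by linarith [hg2 n hn1]
    rw [abs_mul, abs_of_nonneg h3]
    exact mul_le_mul_of_nonneg_right (hS (n + 1) M) h3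
  rw [← mul_sum, part_tele g hMN] at h2
  calc _ ≤ 2 * Q * g N + 2 * Q * (g M - g N) := add_le_add h1 h2
    _ = 2 * Q * g M := by ring

theorem part_lim {χ g : ℕ → ℝ} {Q : ℝ} (h : ∀ N, |∑ n ∈ range N, χ n| ≤ Q) (M0 : ℕ)
    (hg : ∀ n, M0 ≤ n → 0 ≤ g n) (hg2 : ∀ n, M0 ≤ n → g (n + 1) ≤ g n)
    (hg0 : Tendsto g atTop (nhds 0)) :
    ∃ A : ℝ, ∀ M, M0 ≤ M → |A - ∑ n ∈ range M, χ n * g n| ≤ 2 * Q * g M := by
  have hd : ∀ M, M0 ≤ M → ∀ N, M ≤ N →
      |∑ n ∈ range N, χ n * g n - ∑ n ∈ range M, χ n * g n| ≤ 2 * Q * g M := by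
    intro M hM N hMN
    rw [← sum_Ico_eq_sub _ hMN]
    exact part_sum h hMN (fun n hn => hg n (hM.trans hn)) fun n hn => hg2 n (hM.trans hn)
  have hQ : 0 ≤ Q := (abs_nonneg _).trans (h 0)
  have hc : CauchySeq fun N => ∑ n ∈ range N, χ n * g n := by
    rw [Metric.cauchySeq_iff']
    intro ε hε
    have h1 : Tendsto (fun n => 2 * Q * g n) atTop (nhds 0) := by
      have := hg0.const_mul (2 * Q)
      rwa [mul_zero] at this
    obtain ⟨M, hM⟩ := ((h1.eventually_lt_const hε).and (eventually_ge_atTop M0)).exists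
    refine ⟨M, fun N hN => ?_⟩
    rw [Real.dist_eq]
    exact (hd M hM.2 N hN).trans_lt hM.1
  obtain ⟨A, hA⟩ := cauchySeq_tendsto_of_complete hc
  refine ⟨A, fun M hM => ?_⟩
  have h1 : Tendsto (fun N => |∑ n ∈ range N, χ n * g n - ∑ n ∈ range M, χ n * g n|) atTop
      (nhds |A - ∑ n ∈ range M, χ n * g n|) := (hA.sub_const _).abs
  exact le_of_tendsto h1 ((eventually_ge_atTop M).mono fun N hN => hd M hM N hN)

end Pool.Agent.SQ
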