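import Pool.Agent.SQ.Rr
import Pool.Agent.SQ.Part

/-! SQ/Hyper.  The hyperbola method.

`A = lim ∑ χ(n)/n`, `A' = lim ∑ χ(n) log n / n` (`part_lim` with `g n = 1/n`, `M0 = 1`, resp.
`g n = log n / n`, `M0 = 3`; `g 0 = 0` in Mathlib, `χ 0 = 0`).  Let `s = Nat.sqrt t`
(`s ≤ √t < s + 1 ≤ 2 s`).  Every `n ≤ t` and `d * m = n` has `d ≤ s` or (`d > s` and `m ≤ s`,
since `(s+1)^2 > t`):
`SS χ t = ∑_{d ≤ s} χ(d)/d ∑_{m ≤ t/d} 1/m + ∑_{m ≤ s} (1/m) (XX (t/m) - XX s)`
(natural division).  Harmonic sums: `|∑_{m ≤ M} 1/m - log M - γ| ≤ 1/M`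
(`Real.eulerMascheroniSeq`, `Real.eulerMascheroniSeq'` bounds in Mathlib, or any constant `γ`), and
`log (t/d : ℕ) = log (t/d) + O(2 d/t)`.  First sum:
`∑_{d ≤ s} χ(d)/d (log t - log d + γ) + O(∑_{d ≤ s} (1/d) (3 d/t)) =
(log t + γ) (A + O(2Q/s)) - A' + O(2 Q log s/s) + O(3/√t)`; second sum:
`|XX (t/m) - XX s| ≤ 4 Q/s` for `m ≤ s` (`t/m ≥ s`), total `≤ (1 + log s) 4Q/s`.
With `1/s ≤ 2/√t` everything is `≤ 40 Q (1 + log t)/√t` (`B = γ A - A'`; small `t`, for instance
`s < 3`, separately or by the same bounds; `Q ≥ 1`; if the constant 40 is too small for you in the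
range of small `t` handle it by the trivial bounds).  `0 ≤ A`: otherwise `A log t + B + error → -∞`
but `SS ≥ 0` (`rr_nonneg`). -/

set_option autoImplicit false

namespace Pool.Agent.SQ

open Finset Filter

variable {χ : ℕ → ℝ} {Q : ℝ}

/-- harmonic sum -/
private noncomputable def HH (M : ℕ) : ℝ := ∑ m ∈ Icc 1 M, 1 / (m : ℝ)

private theorem HH_eq (M : ℕ) : HH M = ((harmonic M : ℚ) : ℝ) := by
  unfold HH
  rw [harmonic_eq_sum_Icc]
  push_cast
  apply sum_congr rfl
  intro m _
  rw [one_div]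

private theorem HH_bound {M : ℕ} (hM : 1 ≤ M) :
    0 ≤ HH M - Real.log M - Real.eulerMascheroniConstant ∧
      HH M - Real.log M - Real.eulerMascheroniConstant ≤ 1 / (M : ℝ) := by
  have h1 := Real.eulerMascheroniSeq_lt_eulerMascheroniConstant M
  have h2 := Real.eulerMascheroniConstant_lt_eulerMascheroniSeq' M
  unfold Real.eulerMascheroniSeq at h1
  unfold Real.eulerMascheroniSeq' at h2
  have hM0 : M ≠ 0 := by omega
  simp only [hM0, if_false] at h2
  have hMr : (0 : ℝ) < M := by exact_mod_cast hM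
  have h3 : Real.log ((M : ℝ) + 1) - Real.log M ≤ 1 / (M : ℝ) := by
    rw [← Real.log_div (by positivity) (by positivity)]
    have h4 := Real.log_le_sub_one_of_pos (x := ((M : ℝ) + 1) / M) (by positivity)
    have h5 : ((M : ℝ) + 1) / M - 1 = 1 / M := by
      field_simp
      ring
    linarith
  rw [HH_eq]
  constructor
  · linarith
  · linarith

private theorem HH_div {t d : ℕ} (hd : 1 ≤ d) (hdt : d ≤ t) :
    |HH (t / d) - (Real.log t - Real.log d) - Real.eulerMascheroniConstant| ≤ 2 * d / t := by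
  have hM : 1 ≤ t / d := (Nat.one_le_div_iff (by omega)).2 hdt
  have hdm := Nat.div_add_mod t d
  have hml := Nat.mod_lt t (show 0 < d by omega)
  generalize t / d = M at *
  have h1 := HH_bound hM
  have hMr : (0 : ℝ) < M := by exact_mod_cast hM
  have hM1 : (1 : ℝ) ≤ M := by exact_mod_cast hM
  have hdr : (0 : ℝ) < d := by exact_mod_cast hd
  have htr : (0 : ℝ) < t := by
    have : 1 ≤ t := by omega
    exact_mod_cast this
  have h2 : (M : ℝ) * d ≤ t := by
    have : M * d ≤ t := by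
      rw [mul_comm]
      omega
    exact_mod_cast this
  have h3 : (t : ℝ) < (M + 1) * d := by
    have : t < (M + 1) * d := by nlinarith
    exact_mod_cast this
  have h4 : 0 ≤ Real.log t - Real.log d - Real.log M := by
    have := Real.log_le_log (by positivity) h2
    rw [Real.log_mul (by positivity) (by positivity)] at this
    linarith
  have h5 : Real.log t - Real.log d - Real.log M ≤ 1 / M := by
    have h6 : Real.log t ≤ Real.log ((M + 1) * d) := Real.log_le_log htr h3.le
    rw [Real.log_mul (by positivity) (by positivity)] at h6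
    have h7 : Real.log ((M : ℝ) + 1) - Real.log M ≤ 1 / (M : ℝ) := by
      rw [← Real.log_div (by positivity) (by positivity)]
      have h4 := Real.log_le_sub_one_of_pos (x := ((M : ℝ) + 1) / M) (by positivity)
      have h5 : ((M : ℝ) + 1) / M - 1 = 1 / M := by
        field_simp
        ring
      linarith
    linarith
  have h8 : 1 / (M : ℝ) ≤ 2 * d / t := by
    rw [div_le_div_iff₀ hMr htr]
    nlinarith
  rw [abs_le]
  constructor
  · linarith [h1.1, h1.2]
  · linarith [h1.1, h1.2]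

/-- Dirichlet sums as double sums -/
private theorem SS_eq (χ : ℕ → ℝ) (t : ℕ) :
    SS χ t = ∑ d ∈ Icc 1 t, ∑ m ∈ Icc 1 (t / d), χ d / d * (1 / (m : ℝ)) := by
  unfold SS rr
  have h1 : ∀ n ∈ Icc 1 t, (∑ d ∈ n.divisors, χ d) / (n : ℝ) =
      ∑ d ∈ n.divisors, χ d / d * (1 / ((n / d : ℕ) : ℝ)) := by
    intro n hn
    rw [mem_Icc] at hn
    rw [sum_div]
    apply sum_congr rfl
    intro d hd
    rw [Nat.mem_divisors] at hd
    have hd0 : d ≠ 0 := by
      rintro rfl
      exact hd.2 (zero_dvd_iff.1 hd.1)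
    rw [Nat.cast_div hd.1 (by exact_mod_cast hd0)]
    have : (d : ℝ) ≠ 0 := by exact_mod_cast hd0
    have : (n : ℝ) ≠ 0 := by exact_mod_cast hd.2
    field_simp
  rw [sum_congr rfl h1]
  rw [sum_comm' (s' := fun d => (Icc 1 t).filter (fun n => d ∣ n)) (t' := Icc 1 t)]
  · apply sum_congr rfl
    intro d hd
    rw [mem_Icc] at hd
    symm
    apply sum_bij' (fun m _ => d * m) (fun n _ => n / d)
    · intro m hm
      rw [mem_Icc] at hm
      rw [mem_filter, mem_Icc]
      refine ⟨⟨?_, ?_⟩, Dvd.intro m rfl⟩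
      · exact Nat.mul_pos hd.1 hm.1
      · calc d * m ≤ d * (t / d) := Nat.mul_le_mul_left d hm.2
          _ ≤ t := Nat.mul_div_le t d
    · intro n hn
      rw [mem_filter, mem_Icc] at hn
      rw [mem_Icc]
      refine ⟨?_, Nat.div_le_div_right hn.1.2⟩
      exact Nat.div_pos (Nat.le_of_dvd (by omega) hn.2) (by omega)
    · intro m _
      exact Nat.mul_div_cancel_left m (by omega)
    · intro n hn
      rw [mem_filter] at hn
      exact Nat.mul_div_cancel' hn.2
    · intro m _
      rw [Nat.mul_div_cancel_left m (by omega)]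
  · intro n d
    rw [mem_Icc, Nat.mem_divisors, mem_filter, mem_Icc]
    constructor
    · rintro ⟨h1, h2, h3⟩
      refine ⟨⟨h1, h2⟩, ?_⟩
      rw [mem_Icc]
      exact ⟨Nat.pos_of_dvd_of_pos h2 (by omega), (Nat.le_of_dvd (by omega) h2).trans h1.2⟩
    · rintro ⟨⟨h1, h2⟩, h3⟩
      exact ⟨h1, h2, by omega⟩

private theorem split (χ : ℕ → ℝ) (t : ℕ) :
    SS χ t = ∑ d ∈ Icc 1 (Nat.sqrt t), χ d / d * HH (t / d) +
      ∑ m ∈ Icc 1 (Nat.sqrt t), 1 / (m : ℝ) * (XX χ (t / m) - XX χ (Nat.sqrt t)) := by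
  have hs1 : Nat.sqrt t * Nat.sqrt t ≤ t := Nat.sqrt_le t
  have hs2 : t < (Nat.sqrt t + 1) * (Nat.sqrt t + 1) := Nat.lt_succ_sqrt t
  have hs3 : Nat.sqrt t ≤ t := Nat.sqrt_le_self t
  generalize Nat.sqrt t = s at *
  rw [SS_eq]
  have h1 : Icc 1 t = Icc 1 s ∪ Ioc s t := by
    ext d
    rw [mem_union, mem_Icc, mem_Icc, mem_Ioc]
    omega
  have h2 : Disjoint (Icc 1 s) (Ioc s t) := by
    rw [disjoint_left]
    intro d hd hd2
    rw [mem_Icc] at hd
    rw [mem_Ioc] at hd2
    omega
  rw [h1, sum_union h2]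
  congr 1
  · apply sum_congr rfl
    intro d _
    rw [← mul_sum]
    rfl
  · rw [sum_comm' (s' := fun m => Ioc s (t / m)) (t' := Icc 1 s)]
    · apply sum_congr rfl
      intro m hm
      rw [mem_Icc] at hm
      have h3 : s ≤ t / m := by
        rw [Nat.le_div_iff_mul_le (by omega)]
        nlinarith
      have h4 : XX χ (t / m) = XX χ s + ∑ d ∈ Ioc s (t / m), χ d / d := by
        unfold XX
        have h1 : Icc 1 (t / m) = Icc 1 s ∪ Ioc s (t / m) := by
          ext d
          rw [mem_union, mem_Icc, mem_Icc, mem_Ioc]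
          omega
        have h2 : Disjoint (Icc 1 s) (Ioc s (t / m)) := by
          rw [disjoint_left]
          intro d hd hd2
          rw [mem_Icc] at hd
          rw [mem_Ioc] at hd2
          omega
        rw [h1, sum_union h2]
      rw [h4, add_sub_cancel_left, mul_sum]
      apply sum_congr rfl
      intro d _
      ring
    · intro d m
      rw [mem_Ioc, mem_Icc, mem_Ioc, mem_Icc]
      constructor
      · rintro ⟨⟨h3, h4⟩, h5, h6⟩
        rw [Nat.le_div_iff_mul_le (by omega)] at h6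
        refine ⟨⟨h3, ?_⟩, h5, ?_⟩
        · rw [Nat.le_div_iff_mul_le (by omega)]
          nlinarith
        · by_contra h7
          have h8 : s + 1 ≤ m := by omega
          have h9 : s + 1 ≤ d := by omega
          have := Nat.mul_le_mul h8 h9
          omega
      · rintro ⟨⟨h3, h4⟩, h5, h6⟩
        rw [Nat.le_div_iff_mul_le (by omega)] at h4
        refine ⟨⟨h3, ?_⟩, h5, ?_⟩
        · nlinarith
        · rw [Nat.le_div_iff_mul_le (by omega)]
          nlinarith

private theorem range_eq (h : RC χ Q) (g : ℕ → ℝ) (D : ℕ) :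
    ∑ n ∈ Icc 1 D, χ n * g n = ∑ n ∈ range (D + 1), χ n * g n := by
  apply sum_subset
  · intro n hn
    rw [mem_Icc] at hn
    rw [mem_range]
    omega
  · intro n hn hn2
    rw [mem_range] at hn
    rw [mem_Icc] at hn2
    have : n = 0 := by omega
    rw [this, h.zero, zero_mul]

private theorem XX_eq (h : RC χ Q) (D : ℕ) :
    XX χ D = ∑ n ∈ range (D + 1), χ n * (1 / (n : ℝ)) := by
  rw [← range_eq h]
  unfold XX
  apply sum_congr rfl
  intro n _
  ring

private theorem HH_le (s : ℕ) : HH s ≤ 1 + Real.log s := by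
  rw [HH_eq]
  exact harmonic_le_one_add_log s

private theorem lim1 (h : RC χ Q) : ∃ A : ℝ, ∀ D : ℕ, |A - XX χ D| ≤ 2 * Q / (D + 1) := by
  obtain ⟨A, hA⟩ := part_lim (χ := χ) (g := fun n => 1 / (n : ℝ)) h.sum 1
    (fun n _ => by positivity)
    (fun n hn => by
      have : (0 : ℝ) < n := by exact_mod_cast hn
      apply one_div_le_one_div_of_le this
      push_cast
      linarith)
    tendsto_one_div_atTop_nhds_zero_nat
  refine ⟨A, fun D => ?_⟩
  have h1 := hA (D + 1) (by omega)
  rw [XX_eq h]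
  refine h1.trans (le_of_eq ?_)
  push_cast
  ring

private theorem lim2 (h : RC χ Q) : ∃ A' : ℝ, ∀ D : ℕ, 2 ≤ D →
    |A' - ∑ n ∈ Icc 1 D, χ n * (Real.log n / n)| ≤ 2 * Q * (Real.log (D + 1) / (D + 1)) := by
  obtain ⟨A, hA⟩ := part_lim (χ := χ) (g := fun n => Real.log n / (n : ℝ)) h.sum 3
    (fun n _ => by
      apply div_nonneg (Real.log_natCast_nonneg n) (Nat.cast_nonneg n))
    (fun n hn => by
      have hn3 : (3 : ℝ) ≤ n := by exact_mod_cast hn
      have he : Real.exp 1 ≤ 3 := by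
        have := Real.exp_one_lt_d9
        linarith
      have := Real.log_div_self_antitoneOn (a := (n : ℝ)) (b := ((n + 1 : ℕ) : ℝ))
        (Set.mem_ofPred_eq ▸ he.trans hn3)
        (Set.mem_ofPred_eq ▸ (by push_cast; linarith)) (by push_cast; linarith)
      exact this)
    (by
      have h1 := (Real.isLittleO_log_id_atTop).tendsto_div_nhds_zero
      exact h1.comp tendsto_natCast_atTop_atTop)
  refine ⟨A, fun D hD => ?_⟩
  have h1 := hA (D + 1) (by omega)
  rw [range_eq h]
  refine h1.trans (le_of_eq ?_)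
  push_cast
  ring

/-- the tail of `∑ χ(n) log n / n` -/
private theorem tail2 (h : RC χ Q) {A' : ℝ} (hA' : ∀ D : ℕ, 2 ≤ D →
    |A' - ∑ n ∈ Icc 1 D, χ n * (Real.log n / n)| ≤ 2 * Q * (Real.log (D + 1) / (D + 1)))
    {t : ℕ} (ht : 1 ≤ t) :
    |A' - ∑ n ∈ Icc 1 (Nat.sqrt t), χ n * (Real.log n / n)| ≤
      6 * Q * (1 + Real.log t) / √t := by
  have hQ := h.one_le
  have htr : (1 : ℝ) ≤ t := by exact_mod_cast ht
  have hL : 0 ≤ Real.log t := Real.log_nonneg htr
  have hr1 : (1 : ℝ) ≤ √t := by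
    rw [Real.one_le_sqrt]
    exact htr
  have hr2 : √(t : ℝ) < Nat.sqrt t + 1 := Real.real_sqrt_lt_nat_sqrt_succ
  have hs0 : 1 ≤ Nat.sqrt t := by
    rw [Nat.one_le_iff_ne_zero]
    intro h0
    rw [Nat.sqrt_eq_zero] at h0
    omega
  have hst : (Nat.sqrt t : ℝ) ≤ t := by exact_mod_cast Nat.sqrt_le_self t
  generalize Nat.sqrt t = s at *
  rcases Nat.lt_or_ge s 2 with hs | hs
  · have hs1 : s = 1 := by omega
    subst hs1
    have h2 := hA' 2 le_rfl
    have h3 : ∑ n ∈ Icc 1 2, χ n * (Real.log n / n) = χ 2 * (Real.log 2 / 2) := by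
      rw [show Icc 1 2 = ({1, 2} : Finset ℕ) from rfl]
      rw [sum_pair (by norm_num)]
      simp
    rw [h3] at h2
    have h4 : ∑ n ∈ Icc 1 1, χ n * (Real.log n / n) = 0 := by simp
    rw [h4, sub_zero]
    have h5 : |χ 2 * (Real.log 2 / 2)| ≤ 1 := by
      rw [abs_mul]
      have h6 := h.abs_le 2
      have h7 : |Real.log 2 / 2| ≤ 1 := by
        have h70 : 0 < Real.log 2 := Real.log_pos (by norm_num)
        rw [abs_of_nonneg (by positivity)]
        have := Real.log_two_lt_d9
        linarith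
      calc |χ 2| * |Real.log 2 / 2| ≤ 1 * 1 :=
            mul_le_mul h6 h7 (abs_nonneg _) (by norm_num)
        _ = 1 := by norm_num
    have h8 : Real.log (((2 : ℕ) : ℝ) + 1) / (((2 : ℕ) : ℝ) + 1) ≤ 1 := by
      rw [div_le_one (by norm_num)]
      have := Real.log_le_sub_one_of_pos (x := ((2 : ℕ) : ℝ) + 1) (by norm_num)
      linarith
    have h9 : |A'| ≤ 3 * Q := by
      have h10 : |A'| ≤ |A' - χ 2 * (Real.log 2 / 2)| + |χ 2 * (Real.log 2 / 2)| := by
        have := abs_add_le (A' - χ 2 * (Real.log 2 / 2)) (χ 2 * (Real.log 2 / 2))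
        simpa using this
      have h11 : 2 * Q * (Real.log (((2 : ℕ) : ℝ) + 1) / (((2 : ℕ) : ℝ) + 1)) ≤ 2 * Q * 1 :=
        mul_le_mul_of_nonneg_left h8 (by linarith)
      linarith
    refine h9.trans ?_
    rw [le_div_iff₀ (by linarith)]
    push_cast at hr2
    have h12 : √(t : ℝ) ≤ 2 := by linarith
    have h13 : 3 * Q * √(t : ℝ) ≤ 3 * Q * 2 := mul_le_mul_of_nonneg_left h12 (by linarith)
    have h14 : 0 ≤ Q * Real.log t := mul_nonneg (by linarith) hL
    nlinarith
  · refine (hA' s hs).trans ?_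
    have hs0r : (1 : ℝ) ≤ s := by exact_mod_cast hs0
    have h1 : Real.log ((s : ℝ) + 1) ≤ 1 + Real.log t := by
      have h2 : Real.log ((s : ℝ) + 1) ≤ Real.log (2 * t) :=
        Real.log_le_log (by linarith) (by linarith)
      rw [Real.log_mul (by norm_num) (by linarith)] at h2
      have := Real.log_two_lt_d9
      linarith
    have h2 : Real.log ((s : ℝ) + 1) / ((s : ℝ) + 1) ≤ (1 + Real.log t) / √t :=
      div_le_div₀ (by linarith) h1 (by linarith) hr2.le
    calc 2 * Q * (Real.log ((s : ℝ) + 1) / ((s : ℝ) + 1)) ≤ 2 * Q * ((1 + Real.log t) / √t) :=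
          mul_le_mul_of_nonneg_left h2 (by linarith)
      _ ≤ 6 * Q * ((1 + Real.log t) / √t) := by
          apply mul_le_mul_of_nonneg_right (by linarith)
          apply div_nonneg <;> linarith
      _ = 6 * Q * (1 + Real.log t) / √t := by ring

/-- the asymptotic formula with explicit error -/
private theorem mainEst (h : RC χ Q) {A A' : ℝ} (hA : ∀ D : ℕ, |A - XX χ D| ≤ 2 * Q / (D + 1))
    (hA' : ∀ D : ℕ, 2 ≤ D →
    |A' - ∑ n ∈ Icc 1 D, χ n * (Real.log n / n)| ≤ 2 * Q * (Real.log (D + 1) / (D + 1)))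
    {t : ℕ} (ht : 1 ≤ t) :
    |SS χ t - (A * Real.log t + (Real.eulerMascheroniConstant * A - A'))| ≤
      40 * Q * (1 + Real.log t) / √t := by
  have hQ := h.one_le
  have htr : (1 : ℝ) ≤ t := by exact_mod_cast ht
  have hL : 0 ≤ Real.log t := Real.log_nonneg htr
  have hr1 : (1 : ℝ) ≤ √t := by
    rw [Real.one_le_sqrt]
    exact htr
  have hr0 : (0 : ℝ) < √t := by linarith
  have h3 := tail2 h hA' ht
  have hsp := split χ t
  have hss : (Nat.sqrt t : ℝ) ≤ √t := Real.nat_sqrt_le_real_sqrt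
  have hr2 : √(t : ℝ) < Nat.sqrt t + 1 := Real.real_sqrt_lt_nat_sqrt_succ
  have hsq : Nat.sqrt t * Nat.sqrt t ≤ t := Nat.sqrt_le t
  have hst' : Nat.sqrt t ≤ t := Nat.sqrt_le_self t
  have hst : (Nat.sqrt t : ℝ) ≤ t := by exact_mod_cast hst'
  have hs0 : 1 ≤ Nat.sqrt t := by
    rw [Nat.one_le_iff_ne_zero]
    intro h0
    rw [Nat.sqrt_eq_zero] at h0
    omega
  generalize Nat.sqrt t = s at *
  have hs0r : (1 : ℝ) ≤ s := by exact_mod_cast hs0
  set γ := Real.eulerMascheroniConstant with hγ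
  have hγ0 : 0 < γ := by
    have := Real.one_half_lt_eulerMascheroniConstant
    rw [← hγ] at this
    linarith
  have hγ1 : γ < 1 := by
    have := Real.eulerMascheroniConstant_lt_two_thirds
    rw [← hγ] at this
    linarith
  set Y := ∑ n ∈ Icc 1 s, χ n * (Real.log n / n) with hY
  -- first sum
  have h1 : |∑ d ∈ Icc 1 s, χ d / d * HH (t / d) - ((Real.log t + γ) * XX χ s - Y)| ≤
      2 / √(t : ℝ) := by
    have h4 : (Real.log t + γ) * XX χ s - Y =
        ∑ d ∈ Icc 1 s, χ d / d * (Real.log t - Real.log d + γ) := by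
      unfold XX
      rw [hY, mul_sum, ← sum_sub_distrib]
      apply sum_congr rfl
      intro d _
      ring
    rw [h4, ← sum_sub_distrib]
    refine (abs_sum_le_sum_abs _ _).trans ?_
    have h5 : ∀ d ∈ Icc 1 s, |χ d / d * HH (t / d) - χ d / d * (Real.log t - Real.log d + γ)| ≤
        2 / (t : ℝ) := by
      intro d hd
      rw [mem_Icc] at hd
      have hd0 : (0 : ℝ) < d := by exact_mod_cast hd.1
      have h6 := HH_div hd.1 (hd.2.trans hst')
      rw [← hγ] at h6
      rw [← mul_sub, abs_mul, abs_div, abs_of_pos hd0]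
      have h7 : HH (t / d) - (Real.log t - Real.log d + γ) =
          HH (t / d) - (Real.log t - Real.log d) - γ := by ring
      rw [h7]
      calc |χ d| / d * |HH (t / d) - (Real.log t - Real.log d) - γ| ≤ 1 / d * (2 * d / t) := by
            apply mul_le_mul _ h6 (abs_nonneg _) (by positivity)
            exact div_le_div_of_nonneg_right (h.abs_le d) hd0.le
        _ = 2 / t := by
            field_simp
    refine (sum_le_sum h5).trans ?_
    rw [sum_const, nsmul_eq_mul, Nat.card_Icc]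
    have h8 : ((s + 1 - 1 : ℕ) : ℝ) = s := by simp
    rw [h8]
    have h9 : (t : ℝ) = √t * √t := (Real.mul_self_sqrt (by linarith)).symm
    calc (s : ℝ) * (2 / t) ≤ √t * (2 / t) := by
          apply mul_le_mul_of_nonneg_right hss
          apply div_nonneg <;> linarith
      _ = √t * (2 / (√t * √t)) := by rw [← h9]
      _ = 2 / √t := by field_simp
  -- XX s
  have h2 : |A - XX χ s| ≤ 2 * Q / √t := by
    refine (hA s).trans ?_
    apply div_le_div_of_nonneg_left (by linarith) hr0 hr2.le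
  -- second sum
  have h4 : |∑ m ∈ Icc 1 s, 1 / (m : ℝ) * (XX χ (t / m) - XX χ s)| ≤
      (1 + Real.log t) * (4 * Q / √t) := by
    refine (abs_sum_le_sum_abs _ _).trans ?_
    have h5 : ∀ m ∈ Icc 1 s, |1 / (m : ℝ) * (XX χ (t / m) - XX χ s)| ≤
        1 / (m : ℝ) * (4 * Q / √t) := by
      intro m hm
      rw [mem_Icc] at hm
      have hm0 : (0 : ℝ) < m := by exact_mod_cast hm.1
      rw [abs_mul, abs_of_pos (by positivity)]
      apply mul_le_mul_of_nonneg_left _ (by positivity)
      have h6 : s ≤ t / m := by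
        rw [Nat.le_div_iff_mul_le (by omega)]
        calc s * m ≤ s * s := Nat.mul_le_mul_left s hm.2
          _ ≤ t := hsq
      have h7 : |A - XX χ (t / m)| ≤ 2 * Q / √t := by
        refine (hA (t / m)).trans ?_
        have h8 : (s : ℝ) ≤ ((t / m : ℕ) : ℝ) := by exact_mod_cast h6
        apply div_le_div_of_nonneg_left (by linarith) hr0 (by linarith)
      have h8 : XX χ (t / m) - XX χ s = (A - XX χ s) - (A - XX χ (t / m)) := by ring
      rw [h8]
      have h9 := abs_sub (A - XX χ s) (A - XX χ (t / m))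
      have h10 : 4 * Q / √t = 2 * Q / √t + 2 * Q / √t := by ring
      rw [h10]
      linarith
    refine (sum_le_sum h5).trans ?_
    rw [← sum_mul]
    apply mul_le_mul_of_nonneg_right
    · have h6 := HH_le s
      unfold HH at h6
      have h7 : Real.log s ≤ Real.log t := Real.log_le_log (by linarith) hst
      linarith
    · apply div_nonneg <;> linarith
  -- assembly
  rw [hsp]
  have h5 : |(Real.log t + γ) * (XX χ s - A)| ≤ (1 + Real.log t) * (2 * Q / √t) := by
    rw [abs_mul, abs_of_nonneg (by linarith), abs_sub_comm]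
    apply mul_le_mul _ h2 (abs_nonneg _) (by linarith)
    linarith
  have h6 : 2 / √(t : ℝ) ≤ 2 * (Q * (1 + Real.log t) / √t) := by
    rw [← mul_div_assoc]
    apply div_le_div_of_nonneg_right _ hr0.le
    have : 0 ≤ Q * Real.log t := mul_nonneg (by linarith) hL
    nlinarith
  have h7 : 40 * Q * (1 + Real.log t) / √(t : ℝ) = 40 * (Q * (1 + Real.log t) / √t) := by ring
  have h8 : 0 ≤ Q * (1 + Real.log t) / √(t : ℝ) := by
    apply div_nonneg _ hr0.le
    apply mul_nonneg <;> linarith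
  have h9 : 6 * Q * (1 + Real.log t) / √(t : ℝ) = 6 * (Q * (1 + Real.log t) / √t) := by ring
  have h10 : (1 + Real.log t) * (2 * Q / √(t : ℝ)) = 2 * (Q * (1 + Real.log t) / √t) := by ring
  have h11 : (1 + Real.log t) * (4 * Q / √(t : ℝ)) = 4 * (Q * (1 + Real.log t) / √t) := by ring
  rw [h7]
  rw [h9] at h3
  rw [h10] at h5
  rw [h11] at h4
  have h12 : ∑ d ∈ Icc 1 s, χ d / d * HH (t / d) +
      ∑ m ∈ Icc 1 s, 1 / (m : ℝ) * (XX χ (t / m) - XX χ s) - (A * Real.log t + (γ * A - A')) =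
      (∑ d ∈ Icc 1 s, χ d / d * HH (t / d) - ((Real.log t + γ) * XX χ s - Y)) +
      (Real.log t + γ) * (XX χ s - A) + (A' - Y) +
      ∑ m ∈ Icc 1 s, 1 / (m : ℝ) * (XX χ (t / m) - XX χ s) := by ring
  rw [h12]
  rw [abs_le] at h1 h3 h4 h5 ⊢
  constructor
  · linarith [h1.1, h3.1, h4.1, h5.1]
  · linarith [h1.2, h3.2, h4.2, h5.2]

theorem hyper (h : RC χ Q) : ∃ A B : ℝ, As χ Q A B ∧
    ∀ D : ℕ, 1 ≤ D → |A - XX χ D| ≤ 2 * Q / D := by
  have hQ := h.one_le
  obtain ⟨A, hA⟩ := lim1 h
  obtain ⟨A', hA'⟩ := lim2 h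
  refine ⟨A, Real.eulerMascheroniConstant * A - A', ⟨?_, fun t ht => mainEst h hA hA' ht⟩, ?_⟩
  · by_contra hneg
    push Not at hneg
    set B := Real.eulerMascheroniConstant * A - A' with hB
    have h1 : ∀ t : ℕ, 1 ≤ t → 0 ≤ A * Real.log t + B + 80 * Q := by
      intro t ht
      have htr : (1 : ℝ) ≤ t := by exact_mod_cast ht
      have h2 := mainEst h hA hA' ht
      rw [abs_le] at h2
      have h3 : 0 ≤ SS χ t := by
        unfold SS
        apply sum_nonneg
        intro n _
        exact div_nonneg (rr_nonneg h n) (Nat.cast_nonneg n)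
      have h4 : 40 * Q * (1 + Real.log t) / √(t : ℝ) ≤ 80 * Q := by
        have hr1 : (1 : ℝ) ≤ √t := by
          rw [Real.one_le_sqrt]
          exact htr
        rw [div_le_iff₀ (by linarith)]
        have h5 := Real.log_le_sub_one_of_pos (x := √(t : ℝ)) (by linarith)
        rw [Real.log_sqrt (by linarith)] at h5
        have h6 : 1 + Real.log t ≤ 2 * √(t : ℝ) := by linarith
        nlinarith
      linarith [h2.2]
    have h2 : Tendsto (fun t : ℕ => Real.log (t : ℝ)) atTop atTop :=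
      Real.tendsto_log_atTop.comp tendsto_natCast_atTop_atTop
    have h3 := (h2.eventually_gt_atTop ((B + 80 * Q) / (-A))).and (eventually_ge_atTop 1)
    obtain ⟨t, ht1, ht2⟩ := h3.exists
    have h4 := h1 t ht2
    rw [div_lt_iff₀ (by linarith)] at ht1
    nlinarith
  · intro D hD
    refine (hA D).trans ?_
    have hD0 : (0 : ℝ) < D := by exact_mod_cast hD
    apply div_le_div_of_nonneg_left (by linarith) hD0 (by linarith)

end Pool.Agent.SQ
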