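import Pool.Agent.SQ.Both
import Pool.Agent.SQ.GoodC
import Pool.Agent.SQ.Hyper

/-! SQ/Dich.  The dichotomy (first part: of two characters with product nonprincipal one is good) and
the case of a fixed character with `L(1,χ) > 0` (second part).

First part: `hyper` for `χ₁, χ₂, χ₁χ₂`, `both`, `good_case`; `c2 = c1/2`.
Second part: `A, B` from `hyper χ`, `A ≥ XX χ D - 2Q/D > 0`; for `z` large
`EP χ z ≤ 2 SS χ (z^C0) ≤ 2 (A C0 log z + B + 1) ≤ 4 A C0 log z`, hence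
`c1 EP χ z ≤ 4 c1 C0 A log z ≤ A log z`, `good_case`. -/

set_option autoImplicit false

namespace Pool.Agent.SQ

open Finset
open Helper52 (pr)

theorem dich : ∃ (C0 : ℕ) (c2 : ℝ) (z0 : ℕ), 1 ≤ C0 ∧ 0 < c2 ∧
    (∀ z : ℕ, z0 ≤ z → ∀ (χ₁ χ₂ : ℕ → ℝ) (Q : ℝ),
      RC χ₁ Q → RC χ₂ Q → RC (fun n => χ₁ n * χ₂ n) Q → Q ^ 8 ≤ z →
      (∀ p : ℕ, p.Prime → z < p → χ₁ p ≠ 0 ∧ χ₂ p ≠ 0) → Good C0 c2 χ₁ z ∨ Good C0 c2 χ₂ z) ∧
    (∀ (χ : ℕ → ℝ) (Q : ℝ) (D : ℕ), RC χ Q → 1 ≤ D → 2 * Q / D < XX χ D →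
      ∃ z1 : ℕ, ∀ z : ℕ, z1 ≤ z → (∀ p : ℕ, p.Prime → z < p → χ p ≠ 0) → Good C0 c2 χ z) := by
  obtain ⟨C0, c1, z0, hC0, hc1, hc1C, hrank, hboth⟩ := both
  obtain ⟨zg, hzg, hgood⟩ := good_case
  refine ⟨C0, c1 / 2, max z0 zg, hC0, by positivity, ?_, ?_⟩
  · intro z hz χ₁ χ₂ Q h1 h2 h12 hQ hne
    obtain ⟨A₁, B₁, as1, -⟩ := hyper h1
    obtain ⟨A₂, B₂, as2, -⟩ := hyper h2
    obtain ⟨A, B, as12, -⟩ := hyper h12
    have hz0 : z0 ≤ z := (le_max_left _ _).trans hz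
    have hzg' : zg ≤ z := (le_max_right _ _).trans hz
    rcases hboth z hz0 χ₁ χ₂ Q A₁ B₁ A₂ B₂ A B h1 h2 h12 hQ as1 as2 as12 hne with hc | hc
    · exact Or.inl (hgood z hzg' C0 c1 χ₁ Q A₁ B₁ hC0 hc1 hc1C h1 hQ as1
        (fun p hp hzp => (hne p hp hzp).1) (hrank z hz0 χ₁ Q h1) hc)
    · exact Or.inr (hgood z hzg' C0 c1 χ₂ Q A₂ B₂ hC0 hc1 hc1C h2 hQ as2
        (fun p hp hzp => (hne p hp hzp).2) (hrank z hz0 χ₂ Q h2) hc)
  · intro χ Q D h hD hlt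
    obtain ⟨A, B, has, hAD⟩ := hyper h
    have hA : 0 < A := by
      have h1 := (abs_le.1 (hAD D hD)).1
      linarith
    obtain ⟨ze, hze⟩ := err 1 one_pos
    have hQ0 : (0 : ℝ) ≤ Q := le_trans zero_le_one h.one_le
    refine ⟨max (max z0 zg) (max ze (max ⌈Q ^ 8⌉₊ (max 1
      ⌈Real.exp (4 * c1 * (|B| + 1) / A)⌉₊))), fun z hz hne => ?_⟩
    have hz0 : z0 ≤ z := ((le_max_left _ _).trans (le_max_left _ _)).trans hz
    have hzg' : zg ≤ z := ((le_max_right _ _).trans (le_max_left _ _)).trans hz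
    have hzm : max ze (max ⌈Q ^ 8⌉₊ (max 1 ⌈Real.exp (4 * c1 * (|B| + 1) / A)⌉₊)) ≤ z :=
      (le_max_right _ _).trans hz
    have hze' : ze ≤ z := (le_max_left _ _).trans hzm
    have hzm2 := (le_max_right _ _).trans hzm
    have hQz : Q ^ 8 ≤ z := (Nat.le_ceil _).trans (by
      exact_mod_cast (le_max_left _ _).trans hzm2)
    have hzm3 := (le_max_right _ _).trans hzm2
    have hz1 : 1 ≤ z := (le_max_left _ _).trans hzm3
    have hez : Real.exp (4 * c1 * (|B| + 1) / A) ≤ z := (Nat.le_ceil _).trans (by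
      exact_mod_cast (le_max_right _ _).trans hzm3)
    have hzpos : (0 : ℝ) < z := by exact_mod_cast hz1
    have hlog : 4 * c1 * (|B| + 1) / A ≤ Real.log z := by
      rw [Real.le_log_iff_exp_le hzpos]
      exact hez
    have hlog' : 4 * c1 * (|B| + 1) ≤ A * Real.log z := by
      rw [div_le_iff₀ hA] at hlog
      linarith
    have hzt : z ≤ z ^ C0 := Nat.le_self_pow (by omega) z
    have h1 := (abs_le.1 (has.2 (z ^ C0) (hz1.trans hzt))).2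
    have h2 := hze z hze' Q hQ0 hQz (z ^ C0) hzt
    have h3 := hrank z hz0 χ Q h
    have h4 : Real.log ((z ^ C0 : ℕ) : ℝ) = C0 * Real.log z := by
      push_cast
      rw [Real.log_pow]
    have h5 : EP χ z / 2 ≤ A * (C0 * Real.log z) + B + 1 := by
      rw [← h4]
      linarith
    have hl0 : 0 ≤ Real.log z := Real.log_nonneg (by exact_mod_cast hz1)
    have h6 : c1 * (C0 * (A * Real.log z)) ≤ 1 / 4 * (A * Real.log z) := by
      rw [← mul_assoc]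
      exact mul_le_mul_of_nonneg_right hc1C (mul_nonneg hA.le hl0)
    have h7 : c1 * B ≤ c1 * |B| := mul_le_mul_of_nonneg_left (le_abs_self B) hc1.le
    have h8 : c1 * (EP χ z / 2) ≤ c1 * (A * (C0 * Real.log z) + B + 1) :=
      mul_le_mul_of_nonneg_left h5 hc1.le
    refine hgood z hzg' C0 c1 χ Q A B hC0 hc1 hc1C h hQz has hne h3 ?_
    nlinarith [h6, h7, h8, hlog']

end Pool.Agent.SQ
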