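import Pool.Agent.RS.Rough

/-!
# SQ/EBase.  The repelling sieve with general local functions and weights depending on the element

`ι`: the moduli `p i` (primes), `κ`: the elements to be killed, `ok i j`: the modulus `i` may be used
for the element `j`, `e i j : ℤ → ℝ`: a `p i`-periodic function with mean `0`, second moment `1/f i`,
correlations `≤ 1/f i ^ 2`.  Assignments `σ : ι → Option κ` as in RS (`supp`, `cell`, `era`, `put`,
`PP` are those of RS).
-/

set_option autoImplicit false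

namespace Pool.Agent.SQ

open Finset
open RS (supp cell era put PP)

variable {ι κ : Type} [Fintype ι] [DecidableEq ι] [DecidableEq κ]

/-- product of `f` over `S` -/
noncomputable def PF (f : ι → ℝ) (S : Finset ι) : ℝ := ∏ i ∈ S, f i

/-- `1` on `none`, `e j n` on `some j` -/
noncomputable def eo (e : κ → ℤ → ℝ) (n : ℤ) : Option κ → ℝ
  | none => 1
  | some j => e j n

/-- `e_σ(n)` -/
noncomputable def EE (e : ι → κ → ℤ → ℝ) (σ : ι → Option κ) (n : ℤ) : ℝ :=
  ∏ i, eo (e i) n (σ i)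

/-- assignments using only allowed pairs -/
def Ok (ok : ι → κ → Prop) (σ : ι → Option κ) : Prop := ∀ i j, σ i = some j → ok i j

/-- the conditions on the local functions -/
structure Loc (p : ι → ℕ) (f : ι → ℝ) (ok : ι → κ → Prop) (e : ι → κ → ℤ → ℝ) : Prop where
  two : ∀ i, 2 ≤ p i
  one : ∀ i, 1 ≤ f i
  per : ∀ i j n, e i j (n + p i) = e i j n
  le1 : ∀ i j n, |e i j n| ≤ 1
  mean : ∀ i j, ok i j → ∑ u ∈ range (p i), e i j (u : ℤ) = 0
  sq : ∀ i j, ok i j → ∑ u ∈ range (p i), e i j (u : ℤ) ^ 2 = p i / f i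
  cor : ∀ i j j', ok i j → ok i j' → j ≠ j' →
    |∑ u ∈ range (p i), e i j (u : ℤ) * e i j' (u : ℤ)| ≤ p i / f i ^ 2

open Classical in
/-- the Gram matrix at `i`, extended to the pairs that are not allowed -/
noncomputable def GG (p : ι → ℕ) (f : ι → ℝ) (ok : ι → κ → Prop) (e : ι → κ → ℤ → ℝ) (i : ι) :
    Option κ → Option κ → ℝ
  | none, none => 1
  | none, some _ => 0
  | some _, none => 0
  | some j, some j' => if j = j' then 1 / f i else
      if ok i j ∧ ok i j' then (∑ u ∈ range (p i), e i j (u : ℤ) * e i j' (u : ℤ)) / p i else 0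

section weights

variable [Fintype κ]

/-- the untruncated weight `∏_j y j (cell j)` -/
noncomputable def Yt (y : κ → Finset ι → ℝ) (σ : ι → Option κ) : ℝ := ∏ j, y j (cell σ j)

open Classical in
/-- the truncated weight -/
noncomputable def Yd (p : ι → ℕ) (y : κ → Finset ι → ℝ) (D : ℝ) (σ : ι → Option κ) : ℝ :=
  if PP p (supp σ) ≤ D then Yt y σ else 0

open Classical in
/-- `c(U) = ∑_{S ∩ U = ∅, Π(S) Π(U) ≤ D} y(S)/f(S)` -/
noncomputable def cc (p : ι → ℕ) (f : ι → ℝ) (y : Finset ι → ℝ) (D : ℝ) (U : Finset ι) : ℝ :=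
  ∑ S ∈ (univ \ U).powerset, if PP p S * PP p U ≤ D then y S / PF f S else 0

open Classical in
/-- coefficients of `F_m` (only assignments avoiding `m`) -/
noncomputable def Zm (p : ι → ℕ) (f : ι → ℝ) (y : κ → Finset ι → ℝ) (D : ℝ) (m : κ)
    (σ : ι → Option κ) : ℝ :=
  if cell σ m = ∅ then Yt y σ * cc p f (y m) D (supp σ) else 0

end weights

/-! ### elementary facts -/

omit [Fintype ι] [DecidableEq ι] in
theorem PF_empty (f : ι → ℝ) : PF f ∅ = 1 := by simp [PF]

omit [Fintype ι] [DecidableEq ι] in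
theorem one_le_PF {f : ι → ℝ} (hf : ∀ i, 1 ≤ f i) (S : Finset ι) : 1 ≤ PF f S := by
  have h : ∏ i ∈ S, (1 : ℝ) ≤ ∏ i ∈ S, f i :=
    Finset.prod_le_prod (fun i _ => zero_le_one) (fun i _ => hf i)
  simpa [PF] using h

omit [DecidableEq ι] in
theorem prod_split (g : ι → ℝ) (σ : ι → Option κ) (m : κ) :
    ∏ i ∈ supp σ, g i = (∏ i ∈ cell σ m, g i) * ∏ i ∈ supp (era σ m), g i := by
  unfold supp cell
  rw [prod_filter, prod_filter, prod_filter, ← prod_mul_distrib]
  refine prod_congr rfl fun i _ => ?_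
  simp only [era]
  by_cases h : σ i = some m
  · simp [h]
  · simp [h]

omit [DecidableEq ι] in
theorem prod_cells [Fintype κ] (g : ι → ℝ) (σ : ι → Option κ) :
    ∏ i ∈ supp σ, g i = ∏ j, ∏ i ∈ cell σ j, g i := by
  unfold supp cell
  simp only [prod_filter]
  rw [prod_comm]
  refine prod_congr rfl fun i _ => ?_
  cases h : σ i with
  | none => simp
  | some j0 => simp

omit [DecidableEq ι] in
theorem PF_supp_split (f : ι → ℝ) (σ : ι → Option κ) (m : κ) :
    PF f (supp σ) = PF f (cell σ m) * PF f (supp (era σ m)) := prod_split _ σ m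

omit [DecidableEq ι] in
theorem PF_supp_eq_prod [Fintype κ] (f : ι → ℝ) (σ : ι → Option κ) :
    PF f (supp σ) = ∏ j, PF f (cell σ j) := prod_cells _ σ

omit [DecidableEq ι] in
theorem EE_split (e : ι → κ → ℤ → ℝ) (σ : ι → Option κ) (m : κ) (n : ℤ) :
    EE e σ n = (∏ i ∈ cell σ m, e i m n) * EE e (era σ m) n := by
  unfold EE cell
  rw [prod_filter, ← prod_mul_distrib]
  refine prod_congr rfl fun i _ => ?_
  simp only [era]
  by_cases h : σ i = some m
  · simp [h, eo]
  · simp [h]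

theorem Yt_split [Fintype κ] (y : κ → Finset ι → ℝ) (hy0 : ∀ j, y j ∅ = 1) (σ : ι → Option κ)
    (m : κ) : Yt y σ = y m (cell σ m) * Yt y (era σ m) := by
  unfold Yt
  rw [← mul_prod_erase univ _ (mem_univ m), ← mul_prod_erase univ (fun j => y j (cell (era σ m) j))
    (mem_univ m), RS.cell_era_self, hy0, one_mul]
  congr 1
  refine prod_congr rfl fun j hj => ?_
  rw [RS.cell_era_of_ne σ (mem_erase.mp hj).1]

theorem Yt_abs [Fintype κ] {y : κ → Finset ι → ℝ} (hy1 : ∀ j S, |y j S| ≤ 1) (σ : ι → Option κ) :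
    |Yt y σ| ≤ 1 := by
  unfold Yt
  rw [Finset.abs_prod]
  exact Finset.prod_le_one (fun j _ => abs_nonneg _) (fun j _ => hy1 j _)

theorem Yt_ok [Fintype κ] {ok : ι → κ → Prop} {y : κ → Finset ι → ℝ}
    (hys : ∀ j S, y j S ≠ 0 → ∀ i ∈ S, ok i j) {σ : ι → Option κ} (h : Yt y σ ≠ 0) : Ok ok σ := by
  intro i j hij
  unfold Yt at h
  rw [Finset.prod_ne_zero_iff] at h
  exact hys j _ (h j (mem_univ j)) i (RS.mem_cell.2 hij)

end Pool.Agent.SQ
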