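import Pool.Agent.SQ.EBase
import Pool.Agent.RS.Avg

/-! SQ/EGram.  Correlation of two allowed assignments (compare `Pool/Agent/RS/Gram.lean`). -/

set_option autoImplicit false

namespace Pool.Agent.SQ

open Finset
open RS (supp cell era put PP)

variable {ι κ : Type} [Fintype ι] [DecidableEq ι] [DecidableEq κ]

private theorem eg_per {q : ℕ} {F : ℤ → ℝ} (hF : ∀ n, F (n + q) = F n) (k n : ℤ) :
    F (n + k * q) = F n := by
  have h : Function.Periodic F (q : ℤ) := hF
  exact h.int_mul k n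

private theorem eg_sum {q M : ℕ} (hq : 2 ≤ q) (hM : Nat.Coprime M q) {F : ℤ → ℝ}
    (hF : ∀ n, F (n + q) = F n) (n0 : ℤ) :
    ∑ u ∈ range q, F (n0 + M * (u : ℕ)) = ∑ u ∈ range q, F ((u : ℕ) : ℤ) := by
  have ne : NeZero q := ⟨by omega⟩
  have hH : ∀ n : ℤ, F (((n : ZMod q).val : ℕ) : ℤ) = F n := by
    intro n
    rw [ZMod.val_intCast]
    have h1 : n = n % q + (n / q) * q := by
      have := Int.emod_add_mul_ediv n q
      rw [mul_comm] at this
      exact this.symm
    conv_rhs => rw [h1]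
    exact (eg_per hF _ _).symm
  have h1 := RW.sum_period (fun y : ZMod q => F ((y.val : ℕ) : ℤ)) hM n0
  have h2 := RW.sum_period (fun y : ZMod q => F ((y.val : ℕ) : ℤ)) (Nat.coprime_one_left q) 0
  simp only [hH] at h1 h2
  rw [h1, ← h2]
  refine sum_congr rfl fun u _ => ?_
  congr 1
  push_cast
  ring

private theorem eg_abs {κ : Type} {e : κ → ℤ → ℝ} (h : ∀ j n, |e j n| ≤ 1) (n : ℤ) (o : Option κ) :
    |eo e n o| ≤ 1 := by
  cases o with
  | none => simp [eo]
  | some j => exact h j n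

private theorem eg_eo_per {κ : Type} {q : ℕ} {e : κ → ℤ → ℝ} (h : ∀ j n, e j (n + q) = e j n)
    (k n : ℤ) (o : Option κ) : eo e (n + k * q) o = eo e n o := by
  cases o with
  | none => rfl
  | some j => exact eg_per (h j) k n

omit [Fintype ι] [DecidableEq ι] in
theorem gram_avg {p : ι → ℕ} {f : ι → ℝ} {ok : ι → κ → Prop} {e : ι → κ → ℤ → ℝ}
    (hL : Loc p f ok e) {M : ℕ} (i : ι) (hM : Nat.Coprime M (p i)) (n0 : ℤ) (o o' : Option κ)
    (ho : ∀ j, o = some j → ok i j) (ho' : ∀ j, o' = some j → ok i j) :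
    (∑ u ∈ range (p i), eo (e i) (n0 + M * (u : ℕ)) o * eo (e i) (n0 + M * (u : ℕ)) o') / p i =
      GG p f ok e i o o' := by
  have hp0 : (p i : ℝ) ≠ 0 := by
    have := hL.two i
    exact_mod_cast (by omega : p i ≠ 0)
  have h1 := eg_sum (hL.two i) hM (F := fun n => eo (e i) n o * eo (e i) n o') (by
    intro n
    have h2 := eg_eo_per (hL.per i) 1 n o
    have h3 := eg_eo_per (hL.per i) 1 n o'
    rw [one_mul] at h2 h3
    show eo (e i) (n + p i) o * eo (e i) (n + p i) o' = _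
    rw [h2, h3]) n0
  rw [h1]
  cases o with
  | none =>
    cases o' with
    | none =>
      simp only [eo, GG, one_mul, sum_const, card_range, nsmul_eq_mul, mul_one]
      exact div_self hp0
    | some j =>
      simp only [eo, GG, one_mul]
      rw [hL.mean i j (ho' j rfl), zero_div]
  | some j =>
    cases o' with
    | none =>
      simp only [eo, GG, mul_one]
      rw [hL.mean i j (ho j rfl), zero_div]
    | some j' =>
      simp only [eo, GG]
      by_cases hjj : j = j'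
      · subst hjj
        rw [if_pos rfl]
        have h2 := hL.sq i j (ho j rfl)
        simp only [sq] at h2
        rw [h2]
        have hf0 : f i ≠ 0 := by
          have := hL.one i
          intro h0
          rw [h0] at this
          norm_num at this
        field_simp
      · rw [if_neg hjj, if_pos ⟨ho j rfl, ho' j' rfl⟩]

theorem corr {p : ι → ℕ} {f : ι → ℝ} {ok : ι → κ → Prop} {e : ι → κ → ℤ → ℝ}
    (hL : Loc p f ok e) {M : ℕ}
    (hc : ∀ i j, i ≠ j → Nat.Coprime (p i) (p j)) (hM : ∀ i, Nat.Coprime M (p i)) (n0 : ℤ)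
    (T : ℕ) (σ σ' : ι → Option κ) (hσ : Ok ok σ) (hσ' : Ok ok σ') :
    |∑ t ∈ range T, EE e σ (n0 + M * (t : ℕ)) * EE e σ' (n0 + M * (t : ℕ)) -
        T * ∏ i, GG p f ok e i (σ i) (σ' i)| ≤ 2 * (PP p (supp σ) * PP p (supp σ')) := by
  have hper : ∀ i, ∀ o : Option κ, ∀ t : ℕ, eo (e i) (n0 + M * ((t + p i : ℕ) : ℤ)) o =
      eo (e i) (n0 + M * (t : ℤ)) o := by
    intro i o t
    have h1 := eg_eo_per (hL.per i) (M : ℤ) (n0 + M * (t : ℤ)) o
    rw [← h1]
    congr 1
    push_cast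
    ring
  have h1 := RS.avg_prod (supp σ ∪ supp σ') p (fun i _ => by have := hL.two i; omega)
    (fun i _ j _ hij => hc i j hij)
    (fun i t => eo (e i) (n0 + M * (t : ℤ)) (σ i) * eo (e i) (n0 + M * (t : ℤ)) (σ' i))
    (by
      intro i _ t
      show eo (e i) (n0 + M * ((t + p i : ℕ) : ℤ)) (σ i) *
        eo (e i) (n0 + M * ((t + p i : ℕ) : ℤ)) (σ' i) = _
      rw [hper, hper])
    (by
      intro i _ t
      rw [abs_mul]
      exact mul_le_one₀ (eg_abs (hL.le1 i) _ _) (abs_nonneg _) (eg_abs (hL.le1 i) _ _)) T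
  have hout : ∀ i, i ∉ supp σ ∪ supp σ' → σ i = none ∧ σ' i = none := by
    intro i hi
    rw [mem_union, RS.mem_supp, RS.mem_supp, not_or, not_not, not_not] at hi
    exact hi
  have e1 : ∀ t : ℕ, ∏ i ∈ supp σ ∪ supp σ', (eo (e i) (n0 + M * (t : ℤ)) (σ i) *
      eo (e i) (n0 + M * (t : ℤ)) (σ' i)) =
      EE e σ (n0 + M * t) * EE e σ' (n0 + M * t) := by
    intro t
    unfold EE
    rw [← prod_mul_distrib]
    refine prod_subset (subset_univ _) ?_
    intro i _ hi
    obtain ⟨h2, h3⟩ := hout i hi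
    rw [h2, h3]
    simp [eo]
  have e2 : ∏ i ∈ supp σ ∪ supp σ', ((∑ u ∈ range (p i), eo (e i) (n0 + M * (u : ℤ)) (σ i) *
      eo (e i) (n0 + M * (u : ℤ)) (σ' i)) / p i) = ∏ i, GG p f ok e i (σ i) (σ' i) := by
    rw [prod_congr rfl fun i _ => gram_avg hL i (hM i) n0 (σ i) (σ' i) (hσ i) (hσ' i)]
    refine prod_subset (subset_univ _) ?_
    intro i _ hi
    obtain ⟨h2, h3⟩ := hout i hi
    rw [h2, h3]
    rfl
  rw [sum_congr rfl fun t _ => e1 t, e2] at h1
  refine h1.trans ?_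
  refine mul_le_mul_of_nonneg_left ?_ (by norm_num)
  have h2 : ∀ S : Finset ι, (1 : ℝ) ≤ PP p S := by
    intro S
    unfold PP
    have : ∀ i ∈ S, (1 : ℝ) ≤ (p i : ℝ) := by
      intro i _
      have := hL.two i
      exact_mod_cast (by omega : 1 ≤ p i)
    calc (1 : ℝ) = ∏ _i ∈ S, (1 : ℝ) := by simp
      _ ≤ _ := prod_le_prod (fun _ _ => by norm_num) this
  have h3 : PP p (supp σ ∪ supp σ') * PP p (supp σ ∩ supp σ') =
      PP p (supp σ) * PP p (supp σ') := prod_union_inter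
  rw [← h3]
  show PP p (supp σ ∪ supp σ') ≤ _
  exact le_mul_of_one_le_right ((by norm_num : (0 : ℝ) ≤ 1).trans (h2 _)) (h2 _)

end Pool.Agent.SQ
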