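import Pool.Agent.SQ.EBase

/-! SQ/ESchur.  Schur test for the Gram form: copy of `Pool/Agent/RS/Schur.lean` with `p i - 1`
replaced by `f i`.  `GG` is symmetric, `GG none none = 1`, `GG none some = 0`, diagonal `1/f i`,
off-diagonal entries at most `1/f i ^ 2` in absolute value (`hL.cor`, or `0`). Row sums:
`∑_o |GG i (some j) o| ≤ 1/f i * (1 + (k-1)/f i) ≤ (1/f i) exp (k/f i)`. -/

set_option autoImplicit false

namespace Pool.Agent.SQ

open Finset
open RS (supp cell era put PP)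

variable {ι κ : Type} [Fintype ι] [DecidableEq ι] [DecidableEq κ] [Fintype κ]

/-- Schur test -/
private theorem quad {α : Type*} [Fintype α] [DecidableEq α] (A : α → α → ℝ)
    (hA : ∀ i j, A i j = A j i)
    (Y d : α → ℝ) (hd0 : ∀ i, 0 ≤ d i) (hd : ∀ i, A i i = d i) {ε : ℝ}
    (hrow : ∀ i, Y i ≠ 0 → ∑ j, |A i j| ≤ (1 + ε) * d i) :
    |∑ i, ∑ j, Y i * Y j * A i j - ∑ i, Y i ^ 2 * d i| ≤ ε * ∑ i, Y i ^ 2 * d i := by
  have h1 : ∀ i, ∑ j, Y i * Y j * A i j =
      Y i ^ 2 * d i + ∑ j ∈ univ.erase i, Y i * Y j * A i j := by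
    intro i
    rw [← Finset.add_sum_erase univ (fun j => Y i * Y j * A i j) (mem_univ i), hd i]
    ring
  have h2 : ∑ i, ∑ j, Y i * Y j * A i j - ∑ i, Y i ^ 2 * d i =
      ∑ i, ∑ j ∈ univ.erase i, Y i * Y j * A i j := by
    rw [sum_congr rfl fun i _ => h1 i, sum_add_distrib]
    ring
  rw [h2]
  have h3 : |∑ i, ∑ j ∈ univ.erase i, Y i * Y j * A i j| ≤
      ∑ i, ∑ j ∈ univ.erase i, (|A i j| * Y i ^ 2 / 2 + |A i j| * Y j ^ 2 / 2) := by
    refine (abs_sum_le_sum_abs _ _).trans (sum_le_sum fun i _ => ?_)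
    refine (abs_sum_le_sum_abs _ _).trans (sum_le_sum fun j _ => ?_)
    rw [abs_mul, abs_mul]
    have h4 : |Y i| * |Y j| ≤ (Y i ^ 2 + Y j ^ 2) / 2 := by
      nlinarith [sq_nonneg (|Y i| - |Y j|), sq_abs (Y i), sq_abs (Y j)]
    have h5 : 0 ≤ |A i j| := abs_nonneg _
    nlinarith
  have h6 : ∀ f : α → α → ℝ, ∑ i, ∑ j ∈ univ.erase i, f i j =
      ∑ i, ∑ j ∈ univ.erase i, f j i := by
    intro f
    rw [Finset.sum_sigma', Finset.sum_sigma']
    refine sum_bij (fun x _ => ⟨x.2, x.1⟩) ?_ ?_ ?_ ?_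
    · rintro ⟨i, j⟩ h
      simp only [mem_sigma, mem_univ, mem_erase, ne_eq, true_and, and_true] at h ⊢
      exact fun h' => h h'.symm
    · rintro ⟨i, j⟩ _ ⟨i', j'⟩ _ h
      simp only [Sigma.mk.injEq, heq_eq_eq] at h
      rw [h.1, h.2]
    · rintro ⟨i, j⟩ h
      refine ⟨⟨j, i⟩, ?_, rfl⟩
      simp only [mem_sigma, mem_univ, mem_erase, ne_eq, true_and, and_true] at h ⊢
      exact fun h' => h h'.symm
    · rintro ⟨i, j⟩ _
      rfl
  have h7 : ∑ i, ∑ j ∈ univ.erase i, (|A i j| * Y i ^ 2 / 2 + |A i j| * Y j ^ 2 / 2) =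
      ∑ i, Y i ^ 2 * ∑ j ∈ univ.erase i, |A i j| := by
    have h8 : ∑ i, ∑ j ∈ univ.erase i, |A i j| * Y j ^ 2 / 2 =
        ∑ i, ∑ j ∈ univ.erase i, |A i j| * Y i ^ 2 / 2 := by
      rw [h6 fun i j => |A i j| * Y j ^ 2 / 2]
      refine sum_congr rfl fun i _ => sum_congr rfl fun j _ => ?_
      rw [hA j i]
    simp only [sum_add_distrib]
    rw [h8, ← sum_add_distrib]
    refine sum_congr rfl fun i _ => ?_
    rw [← sum_add_distrib, mul_sum]
    refine sum_congr rfl fun j _ => ?_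
    ring
  refine h3.trans ?_
  rw [h7, mul_sum]
  refine sum_le_sum fun i _ => ?_
  by_cases hi : Y i = 0
  · rw [hi]
    simp
  · have h9 := hrow i hi
    rw [← Finset.add_sum_erase univ (fun j => |A i j|) (mem_univ i), hd i,
      abs_of_nonneg (hd0 i)] at h9
    have h10 : ∑ j ∈ univ.erase i, |A i j| ≤ ε * d i := by linarith
    calc Y i ^ 2 * ∑ j ∈ univ.erase i, |A i j| ≤ Y i ^ 2 * (ε * d i) :=
          mul_le_mul_of_nonneg_left h10 (sq_nonneg _)
      _ = ε * (Y i ^ 2 * d i) := by ring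

omit [Fintype ι] [DecidableEq ι] [Fintype κ] in
private theorem GG_symm (p : ι → ℕ) (f : ι → ℝ) (ok : ι → κ → Prop) (e : ι → κ → ℤ → ℝ) (i : ι)
    (o o' : Option κ) : GG p f ok e i o o' = GG p f ok e i o' o := by
  cases o with
  | none => cases o' <;> rfl
  | some a =>
    cases o' with
    | none => rfl
    | some b =>
      simp only [GG]
      by_cases h : a = b
      · rw [if_pos h, if_pos h.symm]
      · rw [if_neg h, if_neg (fun h' : b = a => h h'.symm)]
        by_cases h2 : ok i a ∧ ok i b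
        · rw [if_pos h2, if_pos h2.symm]
          congr 1
          exact sum_congr rfl fun u _ => mul_comm _ _
        · rw [if_neg h2, if_neg fun h3 : ok i b ∧ ok i a => h2 h3.symm]

omit [Fintype ι] [DecidableEq ι] in
private theorem sum_abs_GG {p : ι → ℕ} {f : ι → ℝ} {ok : ι → κ → Prop} {e : ι → κ → ℤ → ℝ}
    (hL : Loc p f ok e) (i : ι) (o : Option κ) :
    ∑ o' : Option κ, |GG p f ok e i o o'| ≤
      o.elim 1 (fun _ => 1 / f i * (1 + ((Fintype.card κ : ℝ) - 1) / f i)) := by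
  have h1 : (0 : ℝ) < f i := by
    have := hL.one i
    linarith
  have hp : (0 : ℝ) < p i := by
    have h2 := hL.two i
    have : (2 : ℝ) ≤ p i := by exact_mod_cast h2
    linarith
  rw [Fintype.sum_option]
  cases o with
  | none => simp [GG]
  | some a =>
    have h2 : ∀ b ∈ univ.erase a, |GG p f ok e i (some a) (some b)| ≤ 1 / f i ^ 2 := by
      intro b hb
      have hab : a ≠ b := (ne_of_mem_erase hb).symm
      simp only [GG]
      rw [if_neg hab]
      split_ifs with h3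
      · have h4 := hL.cor i a b h3.1 h3.2 hab
        rw [abs_div, abs_of_pos hp, div_le_iff₀ hp]
        calc _ ≤ (p i : ℝ) / f i ^ 2 := h4
          _ = 1 / f i ^ 2 * p i := by ring
      · rw [abs_zero]
        positivity
    have h5 := sum_le_sum h2
    rw [sum_const, card_erase_of_mem (mem_univ a), card_univ, nsmul_eq_mul] at h5
    have hk : 1 ≤ Fintype.card κ := Fintype.card_pos_iff.2 ⟨a⟩
    rw [Nat.cast_sub hk, Nat.cast_one] at h5
    have h6 : 1 / f i * (1 + ((Fintype.card κ : ℝ) - 1) / f i) =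
        1 / f i + ((Fintype.card κ : ℝ) - 1) * (1 / f i ^ 2) := by
      field_simp
    have h7 : |GG p f ok e i (some a) none| = 0 := by simp [GG]
    have h8 : |GG p f ok e i (some a) (some a)| = 1 / f i := by
      have h9 : GG p f ok e i (some a) (some a) = 1 / f i := by simp [GG]
      rw [h9, abs_of_nonneg (by positivity)]
    rw [← Finset.add_sum_erase univ _ (mem_univ a), h7, h8, zero_add]
    simp only [Option.elim]
    rw [h6]
    linarith

theorem quad_bound {p : ι → ℕ} {f : ι → ℝ} {ok : ι → κ → Prop} {e : ι → κ → ℤ → ℝ}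
    (hL : Loc p f ok e) (Y : (ι → Option κ) → ℝ)
    (hN : ∀ σ, Y σ ≠ 0 → ∑ i ∈ supp σ, (Fintype.card κ : ℝ) / f i ≤ 1 / 6) :
    |∑ σ, ∑ σ', Y σ * Y σ' * ∏ i, GG p f ok e i (σ i) (σ' i) - ∑ σ, Y σ ^ 2 / PF f (supp σ)| ≤
      1 / 5 * ∑ σ, Y σ ^ 2 / PF f (supp σ) := by
  have hp1 : ∀ i, (0 : ℝ) < f i := by
    intro i
    have := hL.one i
    linarith
  have hPF : ∀ S : Finset ι, 0 < PF f S := fun S => prod_pos fun i _ => hp1 i
  have hel : ∀ (σ : ι → Option κ) (g : ι → ℝ),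
      ∏ i, (σ i).elim 1 (fun _ => g i) = ∏ i ∈ supp σ, g i := by
    intro σ g
    symm
    have h1 : ∏ i ∈ supp σ, g i = ∏ i ∈ supp σ, (σ i).elim 1 (fun _ => g i) := by
      refine prod_congr rfl fun i hi => ?_
      rw [RS.mem_supp] at hi
      obtain ⟨j, hj⟩ := Option.ne_none_iff_exists'.1 hi
      rw [hj]
      rfl
    rw [h1]
    refine prod_subset (subset_univ _) ?_
    intro i _ hi
    rw [RS.mem_supp, not_not] at hi
    rw [hi]
    rfl
  have hdiag : ∀ σ : ι → Option κ, ∏ i, GG p f ok e i (σ i) (σ i) = 1 / PF f (supp σ) := by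
    intro σ
    unfold PF
    rw [← hel σ, one_div, ← prod_inv_distrib]
    refine prod_congr rfl fun i _ => ?_
    cases σ i with
    | none => simp [GG]
    | some j => simp [GG]
  have hrow : ∀ σ, Y σ ≠ 0 → ∑ σ' : ι → Option κ, |∏ i, GG p f ok e i (σ i) (σ' i)| ≤
      (1 + 1 / 5) * (1 / PF f (supp σ)) := by
    intro σ hσ
    have h1 : ∑ σ' : ι → Option κ, |∏ i, GG p f ok e i (σ i) (σ' i)| =
        ∏ i, ∑ o' : Option κ, |GG p f ok e i (σ i) o'| := by
      rw [Finset.prod_univ_sum, Fintype.piFinset_univ]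
      refine sum_congr rfl fun σ' _ => ?_
      rw [abs_prod]
    have h2 : ∏ i, ∑ o' : Option κ, |GG p f ok e i (σ i) o'| ≤
        (1 / PF f (supp σ)) * ∏ i ∈ supp σ, (1 + ((Fintype.card κ : ℝ) - 1) / f i) := by
      refine (prod_le_prod (fun i _ => sum_nonneg fun o _ => abs_nonneg _)
        fun i _ => sum_abs_GG hL i (σ i)).trans (le_of_eq ?_)
      unfold PF
      rw [← hel σ, ← hel σ, one_div, ← prod_inv_distrib, ← prod_mul_distrib]
      refine prod_congr rfl fun i _ => ?_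
      cases σ i with
      | none => simp
      | some j => simp
    have h3 : ∏ i ∈ supp σ, (1 + ((Fintype.card κ : ℝ) - 1) / f i) ≤ 1 + 1 / 5 := by
      have h4 : ∀ i ∈ supp σ, (1 + ((Fintype.card κ : ℝ) - 1) / f i) ≤
          Real.exp ((Fintype.card κ : ℝ) / f i) := by
        intro i _
        have h5 := Real.add_one_le_exp ((Fintype.card κ : ℝ) / f i)
        have h6 : ((Fintype.card κ : ℝ) - 1) / f i ≤ (Fintype.card κ : ℝ) / f i :=
          div_le_div_of_nonneg_right (by linarith) (hp1 i).le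
        linarith
      have h0 : ∀ i ∈ supp σ, 0 ≤ (1 + ((Fintype.card κ : ℝ) - 1) / f i) := by
        intro i hi
        rw [RS.mem_supp] at hi
        obtain ⟨j, _⟩ := Option.ne_none_iff_exists'.1 hi
        have hk : 1 ≤ Fintype.card κ := Fintype.card_pos_iff.2 ⟨j⟩
        have hk' : (1 : ℝ) ≤ Fintype.card κ := by exact_mod_cast hk
        have h7 : 0 ≤ ((Fintype.card κ : ℝ) - 1) / f i := div_nonneg (by linarith) (hp1 i).le
        linarith
      refine (prod_le_prod h0 h4).trans ?_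
      rw [← Real.exp_sum]
      refine (Real.exp_le_exp.2 (hN σ hσ)).trans ?_
      have h8 := Real.one_sub_le_exp_neg (1 / 6 : ℝ)
      rw [Real.exp_neg] at h8
      have h9 := Real.exp_pos (1 / 6 : ℝ)
      have h10 : (1 - 1 / 6) * Real.exp (1 / 6) ≤ (Real.exp (1 / 6))⁻¹ * Real.exp (1 / 6) :=
        mul_le_mul_of_nonneg_right h8 h9.le
      rw [inv_mul_cancel₀ h9.ne'] at h10
      linarith
    rw [h1, mul_comm (1 + 1 / 5 : ℝ)]
    exact h2.trans (mul_le_mul_of_nonneg_left h3 (by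
      have := hPF (supp σ)
      positivity))
  have hq := quad (fun σ σ' : ι → Option κ => ∏ i, GG p f ok e i (σ i) (σ' i))
    (fun σ σ' => prod_congr rfl fun i _ => GG_symm _ _ _ _ _ _ _) Y (fun σ => 1 / PF f (supp σ))
    (fun σ => by
      have := hPF (supp σ)
      positivity) hdiag hrow
  have hsum : ∑ σ, Y σ ^ 2 * (1 / PF f (supp σ)) = ∑ σ, Y σ ^ 2 / PF f (supp σ) :=
    sum_congr rfl fun σ _ => by ring
  rw [hsum] at hq
  exact hq

end Pool.Agent.SQ
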