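import Pool.Agent.SQ.EGram
import Pool.Agent.SQ.ESchur
import Pool.Agent.RS.Count

/-! SQ/ENear.  Near-orthogonality: copy of `Pool/Agent/RS/Near.lean` (`corr` is used only for pairs
with `Y σ ≠ 0`, `Y σ' ≠ 0`, which are allowed by `hYs`). -/

set_option autoImplicit false

namespace Pool.Agent.SQ

open Finset
open RS (supp cell era put PP)

variable {ι κ : Type} [Fintype ι] [DecidableEq ι] [DecidableEq κ] [Fintype κ]

theorem near_orth {p : ι → ℕ} {f : ι → ℝ} {ok : ι → κ → Prop} {e : ι → κ → ℤ → ℝ}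
    (hL : Loc p f ok e) {M : ℕ}
    (hc : ∀ i j, i ≠ j → Nat.Coprime (p i) (p j)) (hM : ∀ i, Nat.Coprime M (p i)) (n0 : ℤ)
    (hk : ∑ i, (Fintype.card κ : ℝ) / (p i : ℝ) ^ 2 ≤ 1 / 2) {D : ℝ} (hD : 0 ≤ D)
    (hN : ∀ S : Finset ι, PP p S ≤ D → ∑ i ∈ S, (Fintype.card κ : ℝ) / f i ≤ 1 / 6)
    (Y : (ι → Option κ) → ℝ) (hY1 : ∀ σ, |Y σ| ≤ 1)
    (hYs : ∀ σ, Y σ ≠ 0 → PP p (supp σ) ≤ D ∧ Ok ok σ) (T : ℕ) :
    |∑ t ∈ range T, (∑ σ, Y σ * EE e σ (n0 + M * (t : ℕ))) ^ 2 -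
        T * ∑ σ, Y σ ^ 2 / PF f (supp σ)| ≤
      1 / 5 * (T * ∑ σ, Y σ ^ 2 / PF f (supp σ)) + 8 * D ^ 6 := by
  classical
  set A : (ι → Option κ) → (ι → Option κ) → ℝ := fun σ σ' =>
    ∏ i, GG p f ok e i (σ i) (σ' i) with hAdef
  have hcnt := RS.count_le (κ := κ) hL.two hk hD
  set N : ℝ := (((univ : Finset (ι → Option κ)).filter
    (fun σ => PP p (supp σ) ≤ D)).card : ℝ) with hNdef
  have hN0 : 0 ≤ N := Nat.cast_nonneg _
  have hp0 : ∀ i, (0 : ℝ) < (p i : ℝ) := by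
    intro i
    have : (2 : ℝ) ≤ p i := by exact_mod_cast hL.two i
    linarith
  have hPP : ∀ S : Finset ι, 0 < PP p S := fun S => prod_pos fun i _ => hp0 i
  have hq := quad_bound hL Y (fun σ hσ => hN _ (hYs σ hσ).1)
  -- expansion of the square
  have hexp : ∑ t ∈ range T, (∑ σ, Y σ * EE e σ (n0 + M * (t : ℕ))) ^ 2 =
      ∑ σ, ∑ σ', Y σ * Y σ' * ∑ t ∈ range T,
        EE e σ (n0 + M * (t : ℕ)) * EE e σ' (n0 + M * (t : ℕ)) := by
    have h1 : ∀ t ∈ range T, (∑ σ, Y σ * EE e σ (n0 + M * (t : ℕ))) ^ 2 =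
        ∑ σ, ∑ σ', Y σ * Y σ' * (EE e σ (n0 + M * (t : ℕ)) * EE e σ' (n0 + M * (t : ℕ))) := by
      intro t _
      rw [sq, sum_mul_sum]
      refine sum_congr rfl fun σ _ => sum_congr rfl fun σ' _ => ?_
      ring
    rw [sum_congr rfl h1, sum_comm]
    refine sum_congr rfl fun σ _ => ?_
    rw [sum_comm]
    refine sum_congr rfl fun σ' _ => ?_
    rw [← mul_sum]
  have herr : |∑ σ, ∑ σ', Y σ * Y σ' * ∑ t ∈ range T,
        EE e σ (n0 + M * (t : ℕ)) * EE e σ' (n0 + M * (t : ℕ)) -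
      T * ∑ σ, ∑ σ', Y σ * Y σ' * A σ σ'| ≤ N * (N * (2 * D ^ 2)) := by
    rw [mul_sum, ← sum_sub_distrib]
    have h1 : ∀ σ, ∑ σ', Y σ * Y σ' * ∑ t ∈ range T,
        EE e σ (n0 + M * (t : ℕ)) * EE e σ' (n0 + M * (t : ℕ)) - T * ∑ σ', Y σ * Y σ' * A σ σ' =
        ∑ σ', Y σ * Y σ' * (∑ t ∈ range T,
        EE e σ (n0 + M * (t : ℕ)) * EE e σ' (n0 + M * (t : ℕ)) - T * A σ σ') := by
      intro σ
      rw [mul_sum, ← sum_sub_distrib]
      refine sum_congr rfl fun σ' _ => ?_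
      ring
    rw [sum_congr rfl fun σ _ => h1 σ]
    refine (abs_sum_le_sum_abs _ _).trans ?_
    have h2 : ∀ σ ∈ (univ : Finset (ι → Option κ)),
        |∑ σ', Y σ * Y σ' * (∑ t ∈ range T,
        EE e σ (n0 + M * (t : ℕ)) * EE e σ' (n0 + M * (t : ℕ)) - T * A σ σ')| ≤
        (if PP p (supp σ) ≤ D then N * (2 * D ^ 2) else 0) := by
      intro σ _
      refine (abs_sum_le_sum_abs _ _).trans ?_
      by_cases hσ : PP p (supp σ) ≤ D
      · rw [if_pos hσ]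
        have h3 : ∀ σ' ∈ (univ : Finset (ι → Option κ)),
            |Y σ * Y σ' * (∑ t ∈ range T,
            EE e σ (n0 + M * (t : ℕ)) * EE e σ' (n0 + M * (t : ℕ)) - T * A σ σ')| ≤
            (if PP p (supp σ') ≤ D then 2 * D ^ 2 else 0) := by
          intro σ' _
          by_cases hz : Y σ = 0
          · rw [hz]
            simp only [zero_mul, abs_zero]
            split_ifs <;> positivity
          by_cases hz' : Y σ' = 0
          · rw [hz']
            simp only [zero_mul, mul_zero, abs_zero]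
            split_ifs <;> positivity
          by_cases hσ' : PP p (supp σ') ≤ D
          · rw [if_pos hσ', abs_mul, abs_mul]
            have h4 := corr hL hc hM n0 T σ σ' (hYs σ hz).2 (hYs σ' hz').2
            have h5 : |Y σ| * |Y σ'| ≤ 1 := mul_le_one₀ (hY1 σ) (abs_nonneg _) (hY1 σ')
            have h6 : (2 : ℝ) * (PP p (supp σ) * PP p (supp σ')) ≤ 2 * D ^ 2 := by
              have h7 : PP p (supp σ) * PP p (supp σ') ≤ D * D :=
                mul_le_mul hσ hσ' (hPP _).le hD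
              nlinarith
            calc |Y σ| * |Y σ'| * |∑ t ∈ range T,
                EE e σ (n0 + M * (t : ℕ)) * EE e σ' (n0 + M * (t : ℕ)) - T * A σ σ'|
                ≤ 1 * (2 * (PP p (supp σ) * PP p (supp σ'))) :=
                  mul_le_mul h5 h4 (abs_nonneg _) zero_le_one
              _ ≤ 2 * D ^ 2 := by linarith
          · rw [if_neg hσ']
            have h4 : Y σ' = 0 := by
              by_contra h
              exact hσ' (hYs σ' h).1
            rw [h4]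
            simp
        refine (sum_le_sum h3).trans ?_
        rw [← sum_filter, sum_const, nsmul_eq_mul]
      · rw [if_neg hσ]
        have h4 : Y σ = 0 := by
          by_contra h
          exact hσ (hYs σ h).1
        rw [h4]
        simp
    refine (sum_le_sum h2).trans ?_
    rw [← sum_filter, sum_const, nsmul_eq_mul]
  have herr2 : N * (N * (2 * D ^ 2)) ≤ 8 * D ^ 6 := by
    have h1 : N * N ≤ (2 * D ^ 2) * (2 * D ^ 2) := mul_le_mul hcnt hcnt hN0 (by positivity)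
    have h2 : N * N * (2 * D ^ 2) ≤ (2 * D ^ 2) * (2 * D ^ 2) * (2 * D ^ 2) :=
      mul_le_mul_of_nonneg_right h1 (by positivity)
    nlinarith
  have hT0 : (0 : ℝ) ≤ T := Nat.cast_nonneg T
  have hq' : |T * ∑ σ, ∑ σ', Y σ * Y σ' * A σ σ' - T * ∑ σ, Y σ ^ 2 / PF f (supp σ)| ≤
      1 / 5 * (T * ∑ σ, Y σ ^ 2 / PF f (supp σ)) := by
    rw [← mul_sub, abs_mul, abs_of_nonneg hT0]
    calc (T : ℝ) * |∑ σ, ∑ σ', Y σ * Y σ' * A σ σ' - ∑ σ, Y σ ^ 2 / PF f (supp σ)| ≤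
          T * (1 / 5 * ∑ σ, Y σ ^ 2 / PF f (supp σ)) := mul_le_mul_of_nonneg_left hq hT0
      _ = _ := by ring
  rw [hexp]
  calc _ = |(∑ σ, ∑ σ', Y σ * Y σ' * ∑ t ∈ range T,
        EE e σ (n0 + M * (t : ℕ)) * EE e σ' (n0 + M * (t : ℕ)) -
      T * ∑ σ, ∑ σ', Y σ * Y σ' * A σ σ') + (T * ∑ σ, ∑ σ', Y σ * Y σ' * A σ σ' -
        T * ∑ σ, Y σ ^ 2 / PF f (supp σ))| := by
        congr 1
        ring
    _ ≤ _ := abs_add_le _ _
    _ ≤ 8 * D ^ 6 + 1 / 5 * (T * ∑ σ, Y σ ^ 2 / PF f (supp σ)) :=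
        add_le_add (herr.trans herr2) hq'
    _ = _ := by ring

end Pool.Agent.SQ
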