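import Pool.Agent.SQ.Rr

/-! SQ/Euler.  Euler products over the primes `≤ z`.

`euler`: for `s > 0` the sum of `rr χ n / n^s` over the numbers all of whose prime factors are `≤ z`
converges to the product.  Use Mathlib's
`EulerProduct.summable_and_hasSum_smoothNumbers_prod_primesBelow_tsum` /
`..._factoredNumbers_prod_filter_prime_tsum` (`f n = rr χ n * (n:ℝ)^(-s)`, multiplicative on coprime
arguments, norm-summable on prime powers as `rr χ (p^k) ≤ k + 1`), local factor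
`∑_k rr χ (p^k) x^k = (1 - x)⁻¹ (1 - χ p x)⁻¹`, `x = p^(-s) < 1` (`χ p ∈ {0, 1, -1}`; e.g. Cauchy
product of two geometric series, `rr_pow`).  (`Nat.smoothNumbers N` = prime factors `< N`.)
`smooth_le` is the case `s = 1` for a finite set of smooth numbers (terms are `≥ 0`).
`SS_le`: all `n ≤ t` are `t`-smooth.  `EP_pos`, `one_le_EP`: each factor is `≥ 1`
(`χ p = -1`: `(1 - 1/p^2)⁻¹`). -/

set_option autoImplicit false

namespace Pool.Agent.SQ

open Finset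
open Helper52 (pr)

variable {χ : ℕ → ℝ} {Q : ℝ}

private theorem primesBelow_eq (z : ℕ) : (z + 1).primesBelow = pr 0 z := by
  ext p
  rw [Nat.mem_primesBelow, Helper52.mem_pr]
  constructor
  · rintro ⟨h1, h2⟩
    exact ⟨h2.pos, by omega, h2⟩
  · rintro ⟨-, h1, h2⟩
    exact ⟨by omega, h2⟩

private theorem local_factor {x c : ℝ} (hx0 : 0 ≤ x) (hx1 : x < 1) (hc : |c| ≤ 1) :
    HasSum (fun k : ℕ => (∑ i ∈ range (k + 1), c ^ i) * x ^ k) ((1 - x)⁻¹ * (1 - c * x)⁻¹) := by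
  have hcx : |c * x| < 1 := by
    rw [abs_mul, abs_of_nonneg hx0]
    calc |c| * x ≤ 1 * x := mul_le_mul_of_nonneg_right hc hx0
      _ = x := one_mul x
      _ < 1 := hx1
  have hxa : |x| < 1 := by rwa [abs_of_nonneg hx0]
  have h1 : HasSum (fun n : ℕ => (c * x) ^ n) (1 - c * x)⁻¹ := hasSum_geometric_of_abs_lt_one hcx
  have h2 : HasSum (fun n : ℕ => x ^ n) (1 - x)⁻¹ := hasSum_geometric_of_abs_lt_one hxa
  have h3 := hasSum_sum_range_mul_of_summable_norm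
    (f := fun n : ℕ => (c * x) ^ n) (g := fun n : ℕ => x ^ n)
    (summable_norm_iff.2 h1.summable) (summable_norm_iff.2 h2.summable)
  rw [h1.tsum_eq, h2.tsum_eq, mul_comm (1 - c * x)⁻¹] at h3
  have h4 : (fun k : ℕ => (∑ i ∈ range (k + 1), c ^ i) * x ^ k) =
      fun n : ℕ => ∑ k ∈ range (n + 1), (c * x) ^ k * x ^ (n - k) := by
    funext n
    rw [sum_mul]
    refine sum_congr rfl fun i hi => ?_
    have hi' : i ≤ n := by
      have := mem_range.1 hi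
      omega
    rw [mul_pow, mul_assoc, ← pow_add, Nat.add_sub_cancel' hi']
  rw [h4]
  exact h3

private theorem rr_pow_term (h : RC χ Q) {s : ℝ} {p : ℕ} (hp : p.Prime) (k : ℕ) :
    rr χ (p ^ k) * ((p ^ k : ℕ) : ℝ) ^ (-s) =
      (∑ i ∈ range (k + 1), χ p ^ i) * ((p : ℝ) ^ (-s)) ^ k := by
  rw [rr_pow h hp]
  congr 1
  push_cast
  rw [← Real.rpow_natCast, ← Real.rpow_natCast, ← Real.rpow_mul (Nat.cast_nonneg p),
    ← Real.rpow_mul (Nat.cast_nonneg p), mul_comm]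

theorem euler (h : RC χ Q) {s : ℝ} (hs : 0 < s) (z : ℕ) :
    HasSum (fun n : Nat.smoothNumbers (z + 1) => rr χ (n : ℕ) * ((n : ℕ) : ℝ) ^ (-s))
      (∏ p ∈ pr 0 z, ((1 - (p : ℝ) ^ (-s))⁻¹ * (1 - χ p * (p : ℝ) ^ (-s))⁻¹)) := by
  have hloc : ∀ {p : ℕ}, p.Prime → HasSum (fun k : ℕ => rr χ (p ^ k) * ((p ^ k : ℕ) : ℝ) ^ (-s))
      ((1 - (p : ℝ) ^ (-s))⁻¹ * (1 - χ p * (p : ℝ) ^ (-s))⁻¹) := by
    intro p hp
    have hp1 : (1 : ℝ) < p := by exact_mod_cast hp.one_lt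
    have h1 : (p : ℝ) ^ (-s) < 1 := Real.rpow_lt_one_of_one_lt_of_neg hp1 (by linarith)
    have h2 := local_factor (Real.rpow_nonneg (Nat.cast_nonneg p) (-s)) h1 (h.abs_le p)
    simpa only [rr_pow_term h hp] using h2
  have h1 := EulerProduct.summable_and_hasSum_smoothNumbers_prod_primesBelow_tsum
    (f := fun n : ℕ => rr χ n * (n : ℝ) ^ (-s)) (by simp [rr_one h])
    (by
      intro m n hmn
      rw [rr_mul h hmn, Nat.cast_mul, Real.mul_rpow (Nat.cast_nonneg m) (Nat.cast_nonneg n)]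
      ring)
    (by
      intro p hp
      exact summable_norm_iff.2 (hloc hp).summable) (z + 1)
  have h2 := h1.2
  rw [primesBelow_eq] at h2
  have h3 : (∏ p ∈ pr 0 z, ∑' n : ℕ, rr χ (p ^ n) * ((p ^ n : ℕ) : ℝ) ^ (-s)) =
      ∏ p ∈ pr 0 z, ((1 - (p : ℝ) ^ (-s))⁻¹ * (1 - χ p * (p : ℝ) ^ (-s))⁻¹) := by
    refine prod_congr rfl fun p hp => ?_
    exact (hloc (Helper52.mem_pr.1 hp).2.2).tsum_eq
  rw [h3] at h2
  exact h2

theorem euler_one (h : RC χ Q) (z : ℕ) :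
    HasSum (fun n : Nat.smoothNumbers (z + 1) => rr χ (n : ℕ) / ((n : ℕ) : ℝ)) (EP χ z) := by
  have h1 := euler h one_pos z
  have h2 : (∏ p ∈ pr 0 z, ((1 - (p : ℝ) ^ (-1 : ℝ))⁻¹ * (1 - χ p * (p : ℝ) ^ (-1 : ℝ))⁻¹)) =
      EP χ z := by
    refine prod_congr rfl fun p _ => ?_
    rw [Real.rpow_neg_one, one_div, div_eq_mul_inv]
  rw [h2] at h1
  simpa only [Real.rpow_neg_one, div_eq_mul_inv] using h1

theorem smooth_le (h : RC χ Q) (z : ℕ) (F : Finset ℕ)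
    (hF : ∀ n ∈ F, n ≠ 0 ∧ ∀ q ∈ n.primeFactors, q ≤ z) :
    ∑ n ∈ F, rr χ n / n ≤ EP χ z := by
  have h1 := euler_one h z
  have h2 : HasSum ((Nat.smoothNumbers (z + 1)).indicator fun n : ℕ => rr χ n / (n : ℝ))
      (EP χ z) := hasSum_subtype_iff_indicator.1 h1
  have h3 := sum_le_hasSum F (fun n _ => Set.indicator_nonneg
    (fun n _ => div_nonneg (rr_nonneg h n) (Nat.cast_nonneg n)) n) h2
  refine le_trans (le_of_eq (sum_congr rfl fun n hn => ?_)) h3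
  rw [Set.indicator_of_mem]
  rw [Nat.mem_smoothNumbers]
  refine ⟨(hF n hn).1, fun q hq => ?_⟩
  have h4 := (hF n hn).2 q (Nat.mem_primeFactors_iff_mem_primeFactorsList.2 hq)
  omega

theorem SS_le (h : RC χ Q) (t : ℕ) : SS χ t ≤ EP χ t := by
  refine smooth_le h t (Icc 1 t) fun n hn => ?_
  rw [mem_Icc] at hn
  exact ⟨by omega, fun q hq => (Nat.le_of_mem_primeFactors hq).trans hn.2⟩

theorem one_le_EP (h : RC χ Q) (z : ℕ) : 1 ≤ EP χ z := by
  have h1 := smooth_le h z {1} (by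
    intro n hn
    rw [mem_singleton.1 hn]
    exact ⟨one_ne_zero, by simp⟩)
  simpa [rr_one h] using h1

end Pool.Agent.SQ
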