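import Pool.Agent.SQ.NegSq
import Pool.Agent.SQ.Dich

/-! SQ/Exc.  The exceptional prime.

`C0, c2` from `dich`.  `H^16 4^8 ≤ z` gives `H < z`, so no prime `> z` divides a nonzero `a`,
`|a| ≤ H` (`ch_ne_zero`, `z ≥ 2`).  Call `a` (nonzero, not a square, `|a| ≤ H`) bad if it is not
`Good`.  No bad `a`: take `q = 2`.  Otherwise fix a bad `a₀`.
(1) For every bad `a`, `a a₀` is a square: otherwise `RC_ch` for `a, a₀, a a₀` (`Q = 4 H^2`,
`ch_mul_left`) and `dich` give `Good`.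
(2) `-a₀` is not a square: `NZ_neg_sq` and the second part of `dich` for `ch (-1)` (`D = 20`, `Q = 4`,
`XX_neg_one`, `RC_ch`; `-1` is not a square).  `a₀` is not a square.  So `|a₀| = m^2 c` with `c ≠ 1`
squarefree (`Nat.sq_mul_squarefree`); let `q` be a prime divisor of `c`: the exponent of `q` in `a₀` is
odd, `q ≤ |a₀| ≤ H`.
(3) For bad `a` the exponent of `q` in the square `a a₀` is even, so it is odd in `a`: `q ∣ a`. -/

set_option autoImplicit false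

namespace Pool.Agent.SQ

open Finset

private theorem not_dvd_of_large {a : ℤ} {H z p : ℕ} (ha0 : a ≠ 0) (haH : |a| ≤ H) (hHz : H ≤ z)
    (hp : z < p) : ¬ (p : ℤ) ∣ a := by
  intro h
  have h1 := Int.le_of_dvd (abs_pos.2 ha0) ((dvd_abs _ _).2 h)
  have h2 : (H : ℤ) ≤ z := by exact_mod_cast hHz
  have h3 : (z : ℤ) < p := by exact_mod_cast hp
  omega

private theorem good_of_neg_sq {C0 : ℕ} {c2 : ℝ} {z : ℕ} (hz2 : 2 ≤ z)
    (hg : Good C0 c2 (ch (-1)) z) {a₀ : ℤ} {H : ℕ} (h0 : a₀ ≠ 0) (hH : |a₀| ≤ H) (hHz : H ≤ z)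
    (hs : IsSquare (-a₀)) : Good C0 c2 (ch a₀) z := by
  obtain ⟨r, hr⟩ := hs
  have ha : a₀ = -((r.natAbs : ℕ) : ℤ) ^ 2 := by
    rw [Int.natCast_natAbs, sq_abs, sq]
    omega
  have hr0 : r.natAbs ≠ 0 := by
    intro h
    rw [h] at ha
    simp at ha
    exact h0 ha
  have h1 : ((r.natAbs ^ 2 : ℕ) : ℤ) ≤ H := by
    have : |a₀| = ((r.natAbs ^ 2 : ℕ) : ℤ) := by
      rw [ha, abs_neg]
      push_cast
      exact abs_of_nonneg (sq_nonneg _)
    rw [← this]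
    exact hH
  have h2 : r.natAbs ^ 2 ≤ H := by exact_mod_cast h1
  have h3 : r.natAbs ≤ r.natAbs ^ 2 := Nat.le_self_pow (by norm_num) _
  intro t ht
  rw [NZ_neg_sq hr0 ((h3.trans h2).trans hHz) hz2 ha t]
  exact hg t ht

private theorem odd_prime_factor {a₀ : ℤ} (h0 : a₀ ≠ 0) (hs : ¬ IsSquare a₀)
    (hs' : ¬ IsSquare (-a₀)) : ∃ q : ℕ, q.Prime ∧ (q : ℤ) ≤ |a₀| ∧
      ∀ a : ℤ, a ≠ 0 → IsSquare (a * a₀) → (q : ℤ) ∣ a := by
  obtain ⟨c, m, hmc, hc⟩ := Nat.sq_mul_squarefree a₀.natAbs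
  have hn0 : a₀.natAbs ≠ 0 := Int.natAbs_ne_zero.2 h0
  have hc0 : c ≠ 0 := by
    rintro rfl
    simp at hmc
    exact hn0 hmc.symm
  have hm0 : m ≠ 0 := by
    rintro rfl
    simp at hmc
    exact hn0 hmc.symm
  have hc1 : c ≠ 1 := by
    rintro rfl
    rw [mul_one] at hmc
    rcases Int.natAbs_eq a₀ with h | h
    · exact hs ⟨(m : ℤ), by rw [h, ← hmc]; push_cast; ring⟩
    · exact hs' ⟨(m : ℤ), by rw [h, ← hmc]; push_cast; ring⟩
  obtain ⟨q, hq, hqc⟩ := Nat.exists_prime_and_dvd hc1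
  refine ⟨q, hq, ?_, fun a ha hsq => ?_⟩
  · have h1 : q ∣ a₀.natAbs := by
      rw [← hmc]
      exact hqc.mul_left _
    have h2 := Nat.le_of_dvd (Nat.pos_of_ne_zero hn0) h1
    rw [← Int.natCast_natAbs]
    exact_mod_cast h2
  · by_contra hqa
    have hqa' : ¬ q ∣ a.natAbs := fun h => hqa (Int.natCast_dvd.2 h)
    obtain ⟨r, hr⟩ := hsq
    have h1 : a.natAbs * (m ^ 2 * c) = r.natAbs ^ 2 := by
      rw [hmc, ← Int.natAbs_mul, hr, Int.natAbs_mul, sq]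
    have ha' : a.natAbs ≠ 0 := Int.natAbs_ne_zero.2 ha
    have h2 := congrArg (fun n : ℕ => n.factorization q) h1
    rw [Nat.factorization_mul ha' (mul_ne_zero (pow_ne_zero 2 hm0) hc0),
      Nat.factorization_mul (pow_ne_zero 2 hm0) hc0, Nat.factorization_pow,
      Nat.factorization_pow] at h2
    simp only [Finsupp.add_apply, Finsupp.smul_apply, smul_eq_mul] at h2
    have h3 : a.natAbs.factorization q = 0 := Nat.factorization_eq_zero_of_not_dvd hqa'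
    have h4 : c.factorization q ≤ 1 := hc.natFactorization_le_one q
    have h5 : 0 < c.factorization q := hq.factorization_pos_of_dvd hc0 hqc
    omega

theorem exc : ∃ (C0 : ℕ) (c2 : ℝ) (z0 : ℕ), 1 ≤ C0 ∧ 0 < c2 ∧
    ∀ z : ℕ, z0 ≤ z → ∀ H : ℕ, 2 ≤ H → (4 * (H : ℝ) ^ 2) ^ 8 ≤ z →
    ∃ q : ℕ, q.Prime ∧ q ≤ H ∧ ∀ a : ℤ, a ≠ 0 → |a| ≤ H → ¬ IsSquare a → ¬ (q : ℤ) ∣ a →
      Good C0 c2 (ch a) z := by
  obtain ⟨C0, c2, z0, hC0, hc2, hd1, hd2⟩ := dich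
  have hm1 : ¬ IsSquare (-1 : ℤ) := by
    rintro ⟨r, hr⟩
    nlinarith [mul_self_nonneg r]
  obtain ⟨z1, hz1⟩ := hd2 (ch (-1)) 4 20
    (RC_ch (by norm_num) hm1 (by norm_num)) (by norm_num) XX_neg_one
  refine ⟨C0, c2, max z0 (max z1 2), hC0, hc2, fun z hz H hH hHz => ?_⟩
  have hz0 : z0 ≤ z := (le_max_left _ _).trans hz
  have hz1' : z1 ≤ z := ((le_max_left _ _).trans (le_max_right _ _)).trans hz
  have hz2 : 2 ≤ z := ((le_max_right _ _).trans (le_max_right _ _)).trans hz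
  have hH1 : (1 : ℝ) ≤ H := by exact_mod_cast (by omega : 1 ≤ H)
  have hHz' : H ≤ z := by
    have h1 : (H : ℝ) ≤ 4 * (H : ℝ) ^ 2 := by nlinarith
    have h2 : (1 : ℝ) ≤ 4 * (H : ℝ) ^ 2 := by nlinarith
    have h3 : (4 * (H : ℝ) ^ 2) ^ 1 ≤ (4 * (H : ℝ) ^ 2) ^ 8 := pow_le_pow_right₀ h2 (by norm_num)
    rw [pow_one] at h3
    exact_mod_cast (h1.trans h3).trans hHz
  have hgm : Good C0 c2 (ch (-1)) z := by
    refine hz1 z hz1' fun p hp hzp => ch_ne_zero hp (by omega) ?_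
    exact not_dvd_of_large (H := 1) (by norm_num) (by norm_num) (by omega) hzp
  by_cases hbad : ∃ a₀ : ℤ, a₀ ≠ 0 ∧ |a₀| ≤ H ∧ ¬ IsSquare a₀ ∧ ¬ Good C0 c2 (ch a₀) z
  · obtain ⟨a₀, h0, h0H, h0s, h0g⟩ := hbad
    have hs' : ¬ IsSquare (-a₀) := fun h => h0g (good_of_neg_sq hz2 hgm h0 h0H hHz' h)
    obtain ⟨q, hq, hqa, hqall⟩ := odd_prime_factor h0 h0s hs'
    refine ⟨q, hq, by exact_mod_cast hqa.trans h0H, fun a ha haH has hqa' => ?_⟩
    by_contra hg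
    apply hqa'
    apply hqall a ha
    by_contra hsq
    have habs : ∀ b : ℤ, |b| ≤ H → 4 * |(b : ℝ)| ≤ 4 * (H : ℝ) ^ 2 := by
      intro b hb
      have h1 : |(b : ℝ)| ≤ H := by exact_mod_cast hb
      nlinarith
    have hab : 4 * |((a * a₀ : ℤ) : ℝ)| ≤ 4 * (H : ℝ) ^ 2 := by
      have h1 : |(a : ℝ)| ≤ H := by exact_mod_cast haH
      have h2 : |(a₀ : ℝ)| ≤ H := by exact_mod_cast h0H
      push_cast
      rw [abs_mul]
      have := mul_le_mul h1 h2 (abs_nonneg _) (by linarith)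
      nlinarith
    have h12 : RC (fun n => ch a n * ch a₀ n) (4 * (H : ℝ) ^ 2) := by
      have h1 := RC_ch (mul_ne_zero ha h0) hsq hab
      have h2 : ch (a * a₀) = fun n => ch a n * ch a₀ n := funext fun n => ch_mul_left a a₀ n
      rwa [h2] at h1
    rcases hd1 z hz0 (ch a) (ch a₀) (4 * (H : ℝ) ^ 2) (RC_ch ha has (habs a haH))
      (RC_ch h0 h0s (habs a₀ h0H)) h12 hHz (fun p hp hzp =>
        ⟨ch_ne_zero hp (by omega) (not_dvd_of_large ha haH hHz' hzp),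
          ch_ne_zero hp (by omega) (not_dvd_of_large h0 h0H hHz' hzp)⟩) with h | h
    · exact hg h
    · exact h0g h
  · refine ⟨2, Nat.prime_two, hH, fun a ha haH has _ => ?_⟩
    by_contra hg
    exact hbad ⟨a, ha, haH, has, hg⟩

end Pool.Agent.SQ
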