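import Pool.Agent.SQ.StepS
import Pool.Agent.Helper83.RWR.Fin2

/-!
# SQ/FinS.  Integers far from all square roots of primes, in short intervals
-/

set_option autoImplicit false

namespace Pool.Agent.SQ

open Finset Filter
open Helper83.RWR (rho rho_le rho_comp p)

/-- the interval form with constant `c` -/
theorem shortS : ∃ c : ℝ, 0 < c ∧ ∀ᶠ y : ℝ in atTop, 0 < Real.log y ∧ 0 < rho y ∧
    ∀ x : ℝ, y ≤ x → ∃ N : ℕ, x ≤ N ∧ (N : ℝ) ≤ x + y ∧ 2 ≤ N ∧
      ∀ q : ℕ, q.Prime → c * (Real.log y * rho y) ≤ |(q : ℝ) - (N : ℝ) ^ 2| ∧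
        c * (Real.log y * rho y) / N ≤ |√(q : ℝ) - N| := by
  obtain ⟨c, hc, K, hK⟩ := stepS
  refine ⟨c / 1536, by positivity, ?_⟩
  filter_upwards [eventually_ge_atTop ((2 : ℝ) ^ (13 * K + 100))] with y hy
  have hy0 : 0 < y := lt_of_lt_of_le (by positivity) hy
  have hlog2 := Real.log_two_lt_d9
  have hlog2' := Real.log_two_gt_d9
  set e := Nat.log 2 ⌊y⌋₊ with he
  have hy1 : (1 : ℝ) ≤ y := (one_le_pow₀ (by norm_num)).trans hy
  have hfy : 1 ≤ ⌊y⌋₊ := Nat.le_floor (by push_cast; linarith)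
  have he1 : (2 : ℝ) ^ e ≤ y := by
    have h1 : 2 ^ e ≤ ⌊y⌋₊ := Nat.pow_log_le_self 2 (by omega)
    have h2 : ((2 ^ e : ℕ) : ℝ) ≤ (⌊y⌋₊ : ℝ) := by exact_mod_cast h1
    push_cast at h2
    exact h2.trans (Nat.floor_le (by linarith))
  have he2 : y < (2 : ℝ) ^ (e + 1) := by
    have h1 : ⌊y⌋₊ + 1 ≤ 2 ^ (e + 1) := Nat.lt_pow_succ_log_self (by norm_num) _
    have h2 : ((⌊y⌋₊ + 1 : ℕ) : ℝ) ≤ ((2 ^ (e + 1) : ℕ) : ℝ) := by exact_mod_cast h1
    push_cast at h2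
    have h3 := Nat.lt_floor_add_one y
    linarith
  have heK : 13 * K + 99 ≤ e := by
    have h1 : (2 : ℝ) ^ (13 * K + 100) < (2 : ℝ) ^ (e + 1) := lt_of_le_of_lt hy he2
    have h2 := (pow_lt_pow_iff_right₀ (by norm_num : (1 : ℝ) < 2)).1 h1
    omega
  set k := e / 13 with hk
  have hkK : K ≤ k := by omega
  have hk7 : 7 ≤ k := by omega
  have hlogy2 : Real.log y ≤ ((e : ℝ) + 1) * Real.log 2 := by
    have h1 := Real.log_le_log hy0 he2.le
    rw [Real.log_pow] at h1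
    push_cast at h1
    exact h1
  have hlogy1 : (e : ℝ) * Real.log 2 ≤ Real.log y := by
    have h2 := Real.log_le_log (by positivity) he1
    rw [Real.log_pow] at h2
    exact h2
  have hke : (e : ℝ) ≤ 13 * k + 12 := by
    have : e ≤ 13 * k + 12 := by omega
    exact_mod_cast this
  have hke2 : 13 * (k : ℝ) ≤ e := by
    have : 13 * k ≤ e := by omega
    exact_mod_cast this
  have hk0 : (7 : ℝ) ≤ k := by exact_mod_cast hk7
  have hky : (k : ℝ) ≤ Real.log y := by nlinarith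
  have hyk : Real.log y ≤ 64 * k := by nlinarith
  obtain ⟨k1, k2, k3, k4, -⟩ := hK k hkK (2 ^ k) le_rfl
  obtain ⟨r1, r2, r3⟩ := rho_le (t := y) rfl rfl rfl (by linarith) hky hyk k2 k3 k4
  refine ⟨r2, r3, fun x hyx => ?_⟩
  have hx0 : 0 < x := by linarith
  set n1 := ⌈x⌉₊ with hn1
  have hxn : x ≤ n1 := Nat.le_ceil x
  have hnx : (n1 : ℝ) < x + 1 := Nat.ceil_lt_add_one hx0.le
  have hkn : 2 ^ k ≤ n1 := by
    have h3 : 2 ^ k ≤ 2 ^ e := Nat.pow_le_pow_right (by norm_num) (by omega)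
    have h4 : ((2 ^ e : ℕ) : ℝ) ≤ n1 := by push_cast; linarith
    have h5 : 2 ^ e ≤ n1 := by exact_mod_cast h4
    omega
  obtain ⟨-, -, -, -, N, H, hN1, hN2, hN3, hN4⟩ := hK k hkK n1 hkn
  have hN2' : (2 : ℕ) ≤ N := by
    have h1 : 2 ^ 1 ≤ 2 ^ k := Nat.pow_le_pow_right (by norm_num) (by omega)
    omega
  have hN2r : (2 : ℝ) ≤ N := by exact_mod_cast hN2'
  have hNpos : (0 : ℝ) < N := by linarith
  -- `H` in terms of `y`
  have hH : c / 1536 * (Real.log y * rho y) ≤ (H : ℝ) / 3 := by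
    calc c / 1536 * (Real.log y * rho y) ≤ c / 1536 * (512 * _) :=
          mul_le_mul_of_nonneg_left r1 (by positivity)
      _ = (c * _) / 3 := by ring
      _ ≤ _ := div_le_div_of_nonneg_right hN4 (by norm_num)
  have hreal : ∀ q : ℕ, q.Prime → (H : ℝ) ≤ |(q : ℝ) - (N : ℝ) ^ 2| := by
    intro q hq
    have h1 := (hN3 q hq).le
    have h2 : ((H : ℤ) : ℝ) ≤ ((|(q : ℤ) - (N : ℤ) ^ 2| : ℤ) : ℝ) := by exact_mod_cast h1
    push_cast at h2
    exact h2
  have hHN : (H : ℝ) ≤ (N : ℝ) ^ 2 := by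
    have h1 := hreal 2 Nat.prime_two
    have h2 : |((2 : ℕ) : ℝ) - (N : ℝ) ^ 2| ≤ (N : ℝ) ^ 2 := by
      rw [abs_le]
      push_cast
      constructor
      · nlinarith
      · nlinarith
    exact h1.trans h2
  have hH0 : (0 : ℝ) ≤ H := Nat.cast_nonneg H
  refine ⟨N, ?_, ?_, hN2', fun q hq => ⟨?_, ?_⟩⟩
  · have : (n1 : ℝ) ≤ N := by exact_mod_cast hN1
    linarith
  · have h1 : ((N : ℕ) : ℝ) ≤ ((n1 + 2 ^ (12 * k) : ℕ) : ℝ) := by exact_mod_cast hN2
    push_cast at h1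
    have h2 : (2 : ℝ) ^ (12 * k) + 1 ≤ 2 ^ e := by
      have h3 : (2 : ℝ) ^ (12 * k + 1) ≤ 2 ^ e := pow_le_pow_right₀ (by norm_num) (by omega)
      have h4 : (1 : ℝ) ≤ 2 ^ (12 * k) := one_le_pow₀ (by norm_num)
      rw [pow_succ] at h3
      linarith
    linarith
  · have := hreal q hq
    linarith
  · have h1 := hreal q hq
    have h2 : c / 1536 * (Real.log y * rho y) / N ≤ (H : ℝ) / 3 / N :=
      div_le_div_of_nonneg_right hH hNpos.le
    refine h2.trans ?_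
    rw [div_div, div_le_iff₀ (by positivity)]
    have hs0 : 0 ≤ √(q : ℝ) := Real.sqrt_nonneg _
    have hs : √(q : ℝ) ^ 2 = q := Real.sq_sqrt (Nat.cast_nonneg q)
    have h3 : |(q : ℝ) - (N : ℝ) ^ 2| = |√(q : ℝ) - N| * (√(q : ℝ) + N) := by
      have h4 : (q : ℝ) - (N : ℝ) ^ 2 = (√(q : ℝ) - N) * (√(q : ℝ) + N) := by
        linear_combination -hs
      rw [h4, abs_mul, abs_of_nonneg (by positivity : (0 : ℝ) ≤ √(q : ℝ) + N)]
    by_cases hcase : √(q : ℝ) ≤ 2 * N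
    · calc (H : ℝ) ≤ |√(q : ℝ) - N| * (√(q : ℝ) + N) := h3 ▸ h1
        _ ≤ |√(q : ℝ) - N| * (3 * N) := by
            apply mul_le_mul_of_nonneg_left _ (abs_nonneg _)
            linarith
    · push Not at hcase
      have h4 : (N : ℝ) ≤ |√(q : ℝ) - N| := by
        refine le_trans ?_ (le_abs_self _)
        linarith
      calc (H : ℝ) ≤ (N : ℝ) ^ 2 := hHN
        _ ≤ |√(q : ℝ) - N| * (3 * N) := by nlinarith

/-- the primes around `N ^ 2` -/
theorem around {N : ℕ} (hN : 2 ≤ N) (n0 : ℕ) (h0 : p n0 < N ^ 2) :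
    ∃ n : ℕ, n0 ≤ n ∧ p n < N ^ 2 ∧ N ^ 2 < p (n + 1) := by
  have hinf := Nat.infinite_setOfPred_prime
  set J := Nat.count Nat.Prime (N ^ 2) with hJ
  have h1 : n0 < J := by
    by_contra h
    push Not at h
    have h2 := (Nat.count_le_iff_le_nth hinf).1 h
    exact absurd h0 (not_lt.2 h2)
  refine ⟨J - 1, by omega, ?_, ?_⟩
  · exact Nat.nth_lt_of_lt_count (by omega)
  · have h2 : N ^ 2 ≤ Nat.nth Nat.Prime J := (Nat.count_le_iff_le_nth hinf).1 le_rfl
    have h3 : J - 1 + 1 = J := by omega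
    unfold p
    rw [h3]
    refine lt_of_le_of_ne h2 ?_
    intro h4
    have h5 : (N ^ 2).Prime := by
      rw [h4]
      exact Nat.nth_mem_of_infinite hinf J
    rw [sq] at h5
    exact Nat.not_prime_mul (by omega) (by omega) h5

theorem finS : ∃ c : ℝ, 0 < c ∧
    (∀ᶠ y : ℝ in atTop, ∀ x : ℝ, y ≤ x → ∃ N : ℕ, x ≤ N ∧ (N : ℝ) ≤ x + y ∧
      ∀ n : ℕ, c * (Real.log y * rho y) ≤ |(p n : ℝ) - (N : ℝ) ^ 2| ∧
        c * (Real.log y * rho y) / N ≤ |√(p n : ℝ) - N|) ∧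
    (∃ᶠ n : ℕ in atTop, ∃ N : ℕ, √(p n : ℝ) + c * (Real.log N * rho N) / N ≤ N ∧
      (N : ℝ) + c * (Real.log N * rho N) / N ≤ √(p (n + 1) : ℝ)) := by
  obtain ⟨c, hc, hs⟩ := shortS
  have hprime : ∀ n : ℕ, (p n).Prime := fun n =>
    Nat.nth_mem_of_infinite Nat.infinite_setOfPred_prime n
  refine ⟨c / 64, by positivity, ?_, ?_⟩
  · filter_upwards [hs] with y hy
    obtain ⟨hl, hr, hy⟩ := hy
    intro x hyx
    obtain ⟨N, h1, h2, h3, h4⟩ := hy x hyx
    have hpos : 0 < Real.log y * rho y := mul_pos hl hr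
    have hNpos : (0 : ℝ) < N := by
      have : (2 : ℝ) ≤ N := by exact_mod_cast h3
      linarith
    have hle : c / 64 * (Real.log y * rho y) ≤ c * (Real.log y * rho y) := by
      apply mul_le_mul_of_nonneg_right _ hpos.le
      linarith
    refine ⟨N, h1, h2, fun n => ?_⟩
    obtain ⟨h5, h6⟩ := h4 (p n) (hprime n)
    exact ⟨hle.trans h5, (div_le_div_of_nonneg_right hle hNpos.le).trans h6⟩
  · rw [frequently_atTop]
    intro n0
    obtain ⟨y, hy, hcomp, hy2⟩ :=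
      (hs.and (rho_comp.and (eventually_ge_atTop ((p n0 : ℝ) + 1)))).exists
    obtain ⟨hl, hr, hy⟩ := hy
    obtain ⟨-, -, hcomp⟩ := hcomp
    obtain ⟨N, h1, h2, h3, h4⟩ := hy y le_rfl
    have hN2 : (2 : ℝ) ≤ N := by exact_mod_cast h3
    have hNpos : (0 : ℝ) < N := by linarith
    have hy0 : 0 < y := by
      have : (0 : ℝ) ≤ p n0 := Nat.cast_nonneg _
      linarith
    have hpn0 : p n0 < N ^ 2 := by
      have h5 : (p n0 : ℝ) < (N : ℝ) ^ 2 := by nlinarith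
      exact_mod_cast h5
    obtain ⟨n, hn0, hn1, hn2⟩ := around h3 n0 hpn0
    refine ⟨n, hn0, N, ?_, ?_⟩
    all_goals
      obtain ⟨t1, t2, t3⟩ := hcomp N (by linarith) (by linarith)
      have hle : c / 64 * (Real.log N * rho N) / N ≤ c * (Real.log y * rho y) / N := by
        apply div_le_div_of_nonneg_right _ hNpos.le
        calc c / 64 * (Real.log N * rho N) ≤ c / 64 * (64 * (Real.log y * rho y)) :=
              mul_le_mul_of_nonneg_left t3 (by positivity)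
          _ = c * (Real.log y * rho y) := by ring
    · have h5 := (h4 (p n) (hprime n)).2
      have h6 : √(p n : ℝ) < N := by
        rw [Real.sqrt_lt' hNpos]
        exact_mod_cast hn1
      rw [abs_of_neg (by linarith)] at h5
      linarith
    · have h5 := (h4 (p (n + 1)) (hprime (n + 1))).2
      have h6 : (N : ℝ) < √(p (n + 1) : ℝ) := by
        rw [Real.lt_sqrt hNpos.le]
        exact_mod_cast hn2
      rw [abs_of_pos (by linarith)] at h5
      linarith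

end Pool.Agent.SQ
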