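import Pool.Agent.SQ.EWt
import Pool.Agent.SQ.Defs
import Pool.Agent.RS.Abel

/-! SQ/H1Low.  Lower bound for the normalising constant of a good character.

`RS.abel_lower` with `s` = the nonempty subsets `S` of the allowed primes in `(z, w]`,
`u S = 1/PF f S = ∏ 2/(p-2)`, `l S = log PP S > 0`: for `1 ≤ j ≤ J`, `x = 2^j/V ≤ log S1 ≤ log w`,
`t = ⌊exp x⌋₊ ≤ w`: `x ≥ 2/V ≥ 2 (C0+1) log z`, so `z^C0 ≤ t`, `x ≥ 2`,
`log t ≥ x - log 2 ≥ x - 1 ≥ x/2` (`t ≥ exp x - 1 ≥ exp x/2`), and
`NZ χ z t ≥ c2 log t/log z ≥ c2 x/(2 log z) ≥ V x = 2^j`.  The empty set contributes `1`, and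
`Π S ≤ t` iff `log Π S ≤ x`; the primes of `NZ χ z t` are in `(z, t] ⊆ (z, w]` (a set with
`Π S ≤ t` has all its primes `≤ t`).  Transport between subsets of the subtype and of `ℕ` as in
`Pool/Agent/RS/Tot.lean` (`H1_lower` there). -/

set_option autoImplicit false

namespace Pool.Agent.SQ

open Finset
open RS (PP)
open Helper52 (pr)

/-- numeric part -/
private theorem low_num {C0 : ℕ} {c2 : ℝ} {z : ℕ} (hC0 : 1 ≤ C0) (hz : 3 ≤ z)
    {V : ℝ} (hV : 0 < V) (hV1 : V * Real.log z ≤ c2 / 2)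
    (hV2 : V * (((C0 : ℝ) + 1) * Real.log z) ≤ 1) {j : ℕ} (hj : 1 ≤ j) :
    z ^ C0 ≤ ⌊Real.exp (2 ^ j / V)⌋₊ ∧
      (2 : ℝ) ^ j ≤ c2 * (Real.log (⌊Real.exp (2 ^ j / V)⌋₊ : ℕ) / Real.log z) := by
  have hzR : (3 : ℝ) ≤ z := by exact_mod_cast hz
  have hlz : 1 ≤ Real.log z := by
    have h1 : Real.log (Real.exp 1) ≤ Real.log z :=
      Real.log_le_log (Real.exp_pos 1) (by linarith [Real.exp_one_lt_d9])
    rwa [Real.log_exp] at h1
  have hC0R : (1 : ℝ) ≤ C0 := by exact_mod_cast hC0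
  have h2j : (2 : ℝ) ≤ 2 ^ j := by
    calc (2 : ℝ) = 2 ^ 1 := by norm_num
      _ ≤ 2 ^ j := pow_le_pow_right₀ (by norm_num) hj
  set x : ℝ := 2 ^ j / V with hx
  have hxV : V * x = 2 ^ j := by rw [hx]; field_simp
  have hCl : ((C0 : ℝ) + 1) * Real.log z ≤ 1 / V := by
    rw [le_div_iff₀ hV]
    linarith
  have hx1 : 2 * (1 / V) ≤ x := by
    rw [hx, mul_one_div]
    gcongr
  have hcl1 : (2 : ℝ) ≤ ((C0 : ℝ) + 1) * Real.log z := by nlinarith
  have hx2 : (2 : ℝ) ≤ x := by linarith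
  have hx3 : (C0 : ℝ) * Real.log z ≤ x := by
    have : (C0 : ℝ) * Real.log z ≤ ((C0 : ℝ) + 1) * Real.log z := by nlinarith
    linarith
  constructor
  · apply Nat.le_floor
    push_cast
    have hz0 : (0 : ℝ) < (z : ℝ) := by linarith
    rw [← Real.exp_log (pow_pos hz0 C0), Real.log_pow]
    exact Real.exp_le_exp.mpr hx3
  · have hex : 2 ≤ Real.exp x := by
      have := Real.add_one_le_exp x
      linarith
    have hfl : Real.exp x / 2 ≤ (⌊Real.exp x⌋₊ : ℝ) := by
      have := Nat.lt_floor_add_one (Real.exp x)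
      linarith
    have hlog : x / 2 ≤ Real.log (⌊Real.exp x⌋₊ : ℕ) := by
      have h1 : Real.log (Real.exp x / 2) ≤ Real.log (⌊Real.exp x⌋₊ : ℕ) :=
        Real.log_le_log (by positivity) hfl
      rw [Real.log_div (Real.exp_pos x).ne' (by norm_num), Real.log_exp] at h1
      have h2 := Real.log_two_lt_d9
      linarith
    have hlz0 : 0 < Real.log z := by linarith
    have hc2 : 0 < c2 := by
      have := mul_pos hV hlz0
      linarith
    calc (2 : ℝ) ^ j = V * x := hxV.symm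
      _ ≤ c2 * (x / 2 / Real.log z) := by
        have e : c2 * (x / 2 / Real.log z) = c2 * x / (2 * Real.log z) := by
          rw [div_div, mul_div_assoc]
        rw [e, le_div_iff₀ (by positivity)]
        have h1 : V * x * (2 * Real.log z) = 2 * x * (V * Real.log z) := by ring
        rw [h1]
        have h2 : 2 * x * (V * Real.log z) ≤ 2 * x * (c2 / 2) :=
          mul_le_mul_of_nonneg_left hV1 (by linarith)
        linarith
      _ ≤ _ := by gcongr

open Classical in
/-- transport between sets of primes and sets in the subtype -/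
private theorem low_tr (χ : ℕ → ℝ) {z w : ℕ} {y : ℝ} (hy : 1 ≤ y) (hyw : y ≤ w) :
    NZ χ z ⌊y⌋₊ =
      ∑ S ∈ (univ.filter (fun i : {q // q ∈ pr z w} => χ (i : ℕ) = 1)).powerset.filter
        (fun S => PP (fun i : {q // q ∈ pr z w} => (i : ℕ)) S ≤ y),
        1 / PF (fun i : {q // q ∈ pr z w} => (((i : ℕ) : ℝ) - 2) / 2) S := by
  symm
  unfold NZ
  have hcast : ∀ S : Finset {q // q ∈ pr z w},
      PP (fun i : {q // q ∈ pr z w} => (i : ℕ)) S = ((∏ i ∈ S, (i : ℕ) : ℕ) : ℝ) := by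
    intro S
    unfold PP
    push_cast
    rfl
  refine Finset.sum_nbij' (fun S => S.map (Function.Embedding.subtype _))
    (fun S => S.subtype _) ?_ ?_ ?_ ?_ ?_
  · intro S hS
    rw [Finset.mem_filter, Finset.mem_powerset] at hS
    rw [Finset.mem_filter, Finset.mem_powerset]
    have hprod : (∏ i ∈ S, (i : ℕ)) ≤ ⌊y⌋₊ := by
      apply Nat.le_floor
      rw [← hcast]
      exact hS.2
    constructor
    · intro q hq
      rw [Finset.mem_map] at hq
      obtain ⟨a, ha, rfl⟩ := hq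
      have ha1 := hS.1 ha
      rw [Finset.mem_filter] at ha1
      have ha2 := Helper52.mem_pr.mp a.2
      rw [Finset.mem_filter]
      refine ⟨?_, ha1.2⟩
      have h3 : (a : ℕ) ≤ ∏ i ∈ S, (i : ℕ) :=
        Nat.le_of_dvd (Finset.prod_pos fun i _ => (Helper52.mem_pr.mp i.2).2.2.pos)
          (Finset.dvd_prod_of_mem (fun i : {q // q ∈ pr z w} => (i : ℕ)) ha)
      exact Helper52.mem_pr.mpr ⟨ha2.1, h3.trans hprod, ha2.2.2⟩
    · rw [Finset.prod_map]
      exact hprod
  · intro S hS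
    rw [Finset.mem_filter, Finset.mem_powerset] at hS
    rw [Finset.mem_filter, Finset.mem_powerset]
    have hfw : ⌊y⌋₊ ≤ w := by
      have h1 : ((⌊y⌋₊ : ℕ) : ℝ) ≤ w := (Nat.floor_le (by linarith)).trans hyw
      exact_mod_cast h1
    have hSpr : ∀ x ∈ S, x ∈ pr z w := by
      intro x hx
      have h1 := hS.1 hx
      rw [Finset.mem_filter, Helper52.mem_pr] at h1
      exact Helper52.mem_pr.mpr ⟨h1.1.1, h1.1.2.1.trans hfw, h1.1.2.2⟩
    have h4 : (S.subtype (· ∈ pr z w)).map (Function.Embedding.subtype _) = S := by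
      rw [Finset.subtype_map]
      exact Finset.filter_true_of_mem fun x hx => hSpr x hx
    constructor
    · intro a ha
      rw [Finset.mem_subtype] at ha
      rw [Finset.mem_filter]
      have h1 := hS.1 ha
      rw [Finset.mem_filter] at h1
      exact ⟨Finset.mem_univ _, h1.2⟩
    · rw [hcast]
      have h5 : (∏ i ∈ S.subtype (· ∈ pr z w), (i : ℕ)) = ∏ q ∈ S, q := by
        conv_rhs => rw [← h4]
        rw [Finset.prod_map]
        rfl
      rw [h5]
      exact (Nat.cast_le.mpr hS.2).trans (Nat.floor_le (by linarith))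
  · intro S _
    exact Finset.map_injective (Function.Embedding.subtype _) (by
      rw [Finset.subtype_map]
      refine Finset.filter_true_of_mem fun x hx => ?_
      rw [Finset.mem_map] at hx
      obtain ⟨a, _, rfl⟩ := hx
      exact a.2)
  · intro S hS
    rw [Finset.mem_filter, Finset.mem_powerset] at hS
    have hfw : ⌊y⌋₊ ≤ w := by
      have h1 : ((⌊y⌋₊ : ℕ) : ℝ) ≤ w := (Nat.floor_le (by linarith)).trans hyw
      exact_mod_cast h1
    rw [Finset.subtype_map]
    refine Finset.filter_true_of_mem fun x hx => ?_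
    have h1 := hS.1 hx
    rw [Finset.mem_filter, Helper52.mem_pr] at h1
    exact Helper52.mem_pr.mpr ⟨h1.1.1, h1.1.2.1.trans hfw, h1.1.2.2⟩
  · intro S _
    rw [Finset.prod_map]
    unfold PF
    rw [one_div, ← Finset.prod_inv_distrib]
    refine Finset.prod_congr rfl fun i _ => ?_
    rw [inv_div]
    rfl

open Classical in
theorem H1_low {C0 : ℕ} {c2 : ℝ} {χ : ℕ → ℝ} {z w : ℕ} (hC0 : 1 ≤ C0) (hz : 3 ≤ z)
    (hg : Good C0 c2 χ z) {V : ℝ} (hV : 0 < V) (hV1 : V * Real.log z ≤ c2 / 2)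
    (hV2 : V * (((C0 : ℝ) + 1) * Real.log z) ≤ 1) {S1 : ℝ} (hS1 : 1 < S1) (hS1w : S1 ≤ w) (J : ℕ)
    (hJ : 2 ^ J / V ≤ Real.log S1) :
    V * ((J : ℝ) - 1) / 4 ≤
      H1 (fun i : {q // q ∈ pr z w} => (i : ℕ)) (fun i => (((i : ℕ) : ℝ) - 2) / 2)
        (univ.filter (fun i : {q // q ∈ pr z w} => χ (i : ℕ) = 1)) S1 := by
  have hS10 : 0 < S1 := by linarith
  set p : {q // q ∈ pr z w} → ℕ := fun i => (i : ℕ) with hp
  set f : {q // q ∈ pr z w} → ℝ := fun i => (((i : ℕ) : ℝ) - 2) / 2 with hf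
  set P : Finset {q // q ∈ pr z w} :=
    univ.filter (fun i : {q // q ∈ pr z w} => χ (i : ℕ) = 1) with hP
  have hpp : ∀ i : {q // q ∈ pr z w}, z < p i ∧ p i ≤ w ∧ (p i).Prime := fun i =>
    Helper52.mem_pr.mp i.2
  have hcast : ∀ S : Finset {q // q ∈ pr z w}, PP p S = ((∏ i ∈ S, p i : ℕ) : ℝ) := by
    intro S
    unfold PP
    push_cast
    rfl
  have hPP1 : ∀ S : Finset {q // q ∈ pr z w}, 1 ≤ PP p S := fun S => by
    rw [hcast]
    exact_mod_cast (Finset.prod_pos fun i _ => (hpp i).2.2.pos)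
  have hPP2 : ∀ S : Finset {q // q ∈ pr z w}, S ≠ ∅ → 1 < PP p S := fun S hS => by
    obtain ⟨i, hi⟩ := Finset.nonempty_iff_ne_empty.mpr hS
    rw [hcast]
    have h2 : p i ∣ ∏ i ∈ S, p i := Finset.dvd_prod_of_mem _ hi
    have h3 : p i ≤ ∏ i ∈ S, p i :=
      Nat.le_of_dvd (Finset.prod_pos fun i _ => (hpp i).2.2.pos) h2
    exact_mod_cast lt_of_lt_of_le (hpp i).2.2.one_lt h3
  have hPF : ∀ S : Finset {q // q ∈ pr z w}, 0 < PF f S := fun S => by
    unfold PF
    refine Finset.prod_pos fun i _ => ?_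
    have h1 : (3 : ℝ) < (p i : ℝ) := by exact_mod_cast lt_of_le_of_lt hz (hpp i).1
    have h2 : f i = ((p i : ℝ) - 2) / 2 := rfl
    rw [h2]
    linarith
  have hlog : ∀ S : Finset {q // q ∈ pr z w}, S ≠ ∅ → 0 < Real.log (PP p S) :=
    fun S hS => Real.log_pos (hPP2 S hS)
  have hab := RS.abel_lower (P.powerset.filter (fun S => S ≠ ∅))
    (fun S => 1 / PF f S) (fun S => Real.log (PP p S))
    (fun S _ => (by have := hPF S; positivity))
    (fun S hS => hlog S (Finset.mem_filter.mp hS).2) hV J (by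
      intro j hj
      rw [Finset.mem_Icc] at hj
      have h1 : (2 : ℝ) ^ j / V ≤ Real.log S1 := by
        refine le_trans ?_ hJ
        gcongr
        · norm_num
        · exact hj.2
      have ht1 : 1 ≤ Real.exp (2 ^ j / V) := Real.one_le_exp (by positivity)
      have ht2 : Real.exp (2 ^ j / V) ≤ w := by
        refine le_trans ?_ hS1w
        rw [← Real.exp_log hS10]
        exact Real.exp_le_exp.mpr h1
      obtain ⟨h2, h3⟩ := low_num hC0 hz hV hV1 hV2 hj.1
      have h4 := hg _ h2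
      rw [low_tr χ ht1 ht2] at h4
      have h5 : ∑ S ∈ P.powerset.filter (fun S => PP p S ≤ Real.exp (2 ^ j / V)), 1 / PF f S =
          1 + ∑ S ∈ P.powerset.filter (fun S => S ≠ ∅ ∧ PP p S ≤ Real.exp (2 ^ j / V)),
            1 / PF f S := by
        have h6 : P.powerset.filter (fun S => PP p S ≤ Real.exp (2 ^ j / V)) =
            insert ∅ (P.powerset.filter
              (fun S => S ≠ ∅ ∧ PP p S ≤ Real.exp (2 ^ j / V))) := by
          ext S
          simp only [Finset.mem_filter, Finset.mem_insert]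
          by_cases hS : S = ∅
          · subst hS
            simp only [RS.PP_empty, true_or, iff_true, Finset.empty_mem_powerset, true_and]
            exact ht1
          · simp [hS]
        rw [h6, Finset.sum_insert (by simp)]
        rw [PF_empty, div_one]
      have h7 : (2 : ℝ) ^ j ≤ ∑ S ∈ P.powerset.filter
          (fun S => PP p S ≤ Real.exp (2 ^ j / V)), 1 / PF f S := h3.trans h4
      rw [h5] at h7
      have h8 : (2 : ℝ) ^ j - 1 ≤ ∑ S ∈ P.powerset.filter
          (fun S => S ≠ ∅ ∧ PP p S ≤ Real.exp (2 ^ j / V)), 1 / PF f S := by linarith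
      refine h8.trans (le_of_eq ?_)
      rw [Finset.filter_filter]
      refine Finset.sum_congr ?_ fun _ _ => rfl
      refine Finset.filter_congr fun S _ => ?_
      rw [Real.log_le_iff_le_exp (by linarith [hPP1 S])])
  refine hab.trans ?_
  unfold H1
  rw [Finset.filter_filter]
  have h6 : ∀ S : Finset {q // q ∈ pr z w}, 1 / PF f S / Real.log (PP p S) =
      1 / (PF f S * Real.log (PP p S)) := fun S => by rw [div_div]
  simp only [h6]
  refine Finset.sum_le_sum_of_subset_of_nonneg ?_ ?_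
  · intro S hS
    rw [Finset.mem_filter] at hS ⊢
    refine ⟨hS.1, hS.2.1, ?_⟩
    have h7 := hS.2.2.trans hJ
    exact (Real.log_le_log_iff (by linarith [hPP1 S]) hS10).mp h7
  · intro S hS _
    rw [Finset.mem_filter] at hS
    have := hlog S hS.2.1
    have := hPF S
    positivity

end Pool.Agent.SQ
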