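import Pool.Agent.SQ.Defs

/-! SQ/Jac.  The Jacobi symbol `n ↦ (a/n)`, `a` not a perfect square, is a real nonprincipal
character of period `4|a|`.

`ch_mul_right`: `jacobiSym.mul_right`; `ch_mul_left`: `jacobiSym.mul_left`; `ch_per`:
`jacobiSym.mod_right`.
`exists_neg`: write `|a| = m^2 c`, `c` squarefree (`Nat.sq_mul_squarefree`).  If some odd prime
`q ∣ c`: by the Chinese remainder theorem choose `n ≡ 1` mod 8 and mod every odd prime divisor
`≠ q` of `a`, and `n ≡` a quadratic nonresidue mod `q`; with quadratic reciprocity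
(`jacobiSym.quadratic_reciprocity_one_mod_four`, `jacobiSym.at_neg_one`, `jacobiSym.at_two`)
`(a/n) = (odd part of |a| / n) = (n / odd part) = (n/q)^(odd exponent) = -1`.  If `c = 1`: `a = -m^2`,
take `n ≡ 3` mod 4 coprime to `m`, e.g. `n = 4 m - 1`.  If `c = 2`: `a = ± 2 m^2`: take `n ≡ 5` mod 8
coprime to `m` (`(2/n) = -1`, `(-1/n) = 1`).
`ch_sum_zero`: let `ch a n₀ = -1`; then `n₀` is odd and coprime to `a`, hence to `P = 4|a|`, and
`n ↦ n₀ n mod P` permutes the residues, so the sum over a period equals minus itself. -/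

set_option autoImplicit false

namespace Pool.Agent.SQ

open Finset

private theorem ch_odd {a : ℤ} {n : ℕ} (h : n % 2 = 1) : ch a n = ((jacobiSym a n : ℤ) : ℝ) := by
  unfold ch; rw [if_pos h]

private theorem ch_even {a : ℤ} {n : ℕ} (h : ¬ n % 2 = 1) : ch a n = 0 := by
  unfold ch; rw [if_neg h]

theorem ch_one (a : ℤ) : ch a 1 = 1 := by
  rw [ch_odd (by norm_num), jacobiSym.one_right]
  norm_num

theorem ch_mul_right (a : ℤ) (m n : ℕ) : ch a (m * n) = ch a m * ch a n := by
  by_cases hm : m % 2 = 1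
  · by_cases hn : n % 2 = 1
    · have h : (m * n) % 2 = 1 := by rw [Nat.mul_mod, hm, hn]
      rw [ch_odd h, ch_odd hm, ch_odd hn, jacobiSym.mul_right' a (by omega) (by omega)]
      push_cast
      ring
    · have h : ¬ (m * n) % 2 = 1 := by
        have : n % 2 = 0 := by omega
        rw [Nat.mul_mod, this]; norm_num
      rw [ch_even h, ch_even hn, mul_zero]
  · have h : ¬ (m * n) % 2 = 1 := by
      have : m % 2 = 0 := by omega
      rw [Nat.mul_mod, this]; norm_num
    rw [ch_even h, ch_even hm, zero_mul]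

theorem ch_mul_left (a b : ℤ) (n : ℕ) : ch (a * b) n = ch a n * ch b n := by
  by_cases hn : n % 2 = 1
  · rw [ch_odd hn, ch_odd hn, ch_odd hn, jacobiSym.mul_left]
    push_cast
    ring
  · rw [ch_even hn, ch_even hn, zero_mul]

theorem ch_val (a : ℤ) (n : ℕ) : ch a n = 0 ∨ ch a n = 1 ∨ ch a n = -1 := by
  by_cases hn : n % 2 = 1
  · rw [ch_odd hn]
    rcases jacobiSym.trichotomy a n with h | h | h <;> rw [h] <;> norm_num
  · exact Or.inl (ch_even hn)

theorem ch_per {a : ℤ} (ha : a ≠ 0) (n : ℕ) : ch a (n + 4 * a.natAbs) = ch a n := by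
  by_cases hn : n % 2 = 1
  · have h : (n + 4 * a.natAbs) % 2 = 1 := by omega
    rw [ch_odd hn, ch_odd h, jacobiSym.mod_right a (Nat.odd_iff.2 hn),
      jacobiSym.mod_right a (Nat.odd_iff.2 h), Nat.add_mod_right]
  · have h : ¬ (n + 4 * a.natAbs) % 2 = 1 := by omega
    rw [ch_even hn, ch_even h]

/-- `ch a p ≠ 0` for odd primes not dividing `a` -/
theorem ch_ne_zero {a : ℤ} {p : ℕ} (hp : p.Prime) (h2 : p ≠ 2) (ha : ¬ (p : ℤ) ∣ a) :
    ch a p ≠ 0 := by
  have hodd : p % 2 = 1 := Nat.odd_iff.1 (hp.odd_of_ne_two h2)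
  rw [ch_odd hodd]
  have h : a.gcd p = 1 := by
    rw [Int.gcd_comm]
    exact Int.isCoprime_iff_gcd_eq_one.1 ((Nat.prime_iff_prime_int.1 hp).coprime_iff_not_dvd.2 ha)
  exact_mod_cast jacobiSym.ne_zero h

private theorem jac_ex {a : ℤ} (ha0 : a ≠ 0) (ha : ¬ IsSquare a) :
    ∃ n : ℕ, n % 2 = 1 ∧ jacobiSym a n = -1 := by
  obtain ⟨c, m, hc0, hm0, hmc, hsq⟩ := Nat.sq_mul_squarefree_of_pos (Int.natAbs_pos.2 ha0)
  obtain ⟨σ, hσ, hσa⟩ : ∃ σ : ℤ, (σ = 1 ∨ σ = -1) ∧ a = σ * ((m : ℤ) ^ 2 * c) := by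
    have h1 : (a.natAbs : ℤ) = (m : ℤ) ^ 2 * c := by
      rw [← hmc]; push_cast; ring
    rcases Int.natAbs_eq a with h2 | h2
    · exact ⟨1, Or.inl rfl, by rw [one_mul, ← h1]; exact h2⟩
    · exact ⟨-1, Or.inr rfl, by rw [← h1]; rw [neg_one_mul]; exact h2⟩
  by_cases hq : ∃ q : ℕ, q.Prime ∧ q ≠ 2 ∧ q ∣ c
  · obtain ⟨q, hqp, hq2, d, hd⟩ := hq
    have : Fact q.Prime := ⟨hqp⟩
    have hqd : ¬ q ∣ d := by
      rintro ⟨e, he⟩
      have h1 : q * q ∣ c := ⟨e, by rw [hd, he]; ring⟩
      have := hsq q h1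
      exact hqp.one_lt.ne' (Nat.isUnit_iff.1 this)
    have hd0 : 0 < d := Nat.pos_of_ne_zero (by rintro rfl; simp at hd; omega)
    have hqodd : Odd q := hqp.odd_of_ne_two hq2
    set m' : ℕ := ordCompl[q] m with hm'
    have hqm' : Nat.Coprime q m' := Nat.coprime_ordCompl hqp hm0.ne'
    have hm'0 : 0 < m' := Nat.ordCompl_pos q hm0.ne'
    have hmm : q ^ (m.factorization q) * m' = m := Nat.ordProj_mul_ordCompl_eq_self m q
    have hco : Nat.Coprime (8 * (d * m')) q := by
      apply Nat.Coprime.mul_left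
      · have : Nat.Coprime 2 q := (Nat.coprime_primes Nat.prime_two hqp).2 (Ne.symm hq2)
        exact (Nat.Coprime.pow_left 3 this)
      · exact Nat.Coprime.mul_left ((Nat.Prime.coprime_iff_not_dvd hqp).2 hqd).symm hqm'.symm
    obtain ⟨r, hr⟩ := FiniteField.exists_nonsquare (F := ZMod q) (by
      rw [ZMod.ringChar_zmod_n]; exact hq2)
    obtain ⟨n, hn1, hn2⟩ := Nat.chineseRemainder hco 1 r.val
    have hn8 : n % 8 = 1 := by
      have := (Nat.ModEq.of_mul_right (d * m') hn1)
      exact this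
    have hnd : n % (4 * d) = 1 := by
      have h1 : n ≡ 1 [MOD (4 * d)] := by
        apply Nat.ModEq.of_dvd _ hn1
        exact ⟨2 * m', by ring⟩
      have h2 : n % (4 * d) = 1 % (4 * d) := h1
      rw [h2]
      exact Nat.mod_eq_of_lt (by omega)
    have hnm' : Nat.Coprime n m' := by
      have h1 : n ≡ 1 [MOD m'] := Nat.ModEq.of_dvd ⟨8 * d, by ring⟩ hn1
      have h2 := h1.gcd_eq
      rw [Nat.gcd_one_left] at h2
      exact h2
    have hnq : (n : ZMod q) = r := by
      have h1 : ((n : ℕ) : ZMod q) = ((r.val : ℕ) : ZMod q) := (ZMod.natCast_eq_natCast_iff _ _ _).2 hn2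
      rw [h1, ZMod.natCast_val, ZMod.cast_id]
    have hodd : n % 2 = 1 := by omega
    have J1 : jacobiSym (n : ℤ) q = -1 := by
      rw [ZMod.nonsquare_iff_jacobiSym_eq_neg_one]
      push_cast
      rw [hnq]
      exact hr
    have J2 : jacobiSym (q : ℤ) n = -1 := by
      rw [← jacobiSym.quadratic_reciprocity_one_mod_four (by omega) hqodd]
      exact J1
    have hnq2 : Nat.Coprime n q := by
      rw [Nat.coprime_comm, Nat.Prime.coprime_iff_not_dvd hqp]
      intro h
      have h1 : (n : ZMod q) = 0 := (ZMod.natCast_eq_zero_iff n q).2 h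
      rw [hnq] at h1
      exact hr (h1 ▸ IsSquare.zero)
    have hnm : Nat.Coprime n m := by
      rw [← hmm]
      exact Nat.Coprime.mul_right (Nat.Coprime.pow_right _ hnq2) hnm'
    have J3 : jacobiSym ((m : ℤ) ^ 2) n = 1 := by
      apply jacobiSym.sq_one'
      rw [Int.gcd_natCast_natCast]
      exact hnm.symm
    have J4 : jacobiSym (σ * (d : ℤ)) n = 1 := by
      rw [jacobiSym.mod_right _ (Nat.odd_iff.2 hodd)]
      have h1 : (σ * (d : ℤ)).natAbs = d := by
        rw [Int.natAbs_mul]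
        rcases hσ with h | h <;> rw [h] <;> simp
      rw [h1, hnd, jacobiSym.one_right]
    refine ⟨n, hodd, ?_⟩
    have e : a = (σ * (d : ℤ)) * ((q : ℤ) * (m : ℤ) ^ 2) := by
      rw [hσa, hd]; push_cast; ring
    rw [e, jacobiSym.mul_left (σ * (d : ℤ)) ((q : ℤ) * (m : ℤ) ^ 2),
      jacobiSym.mul_left (q : ℤ) ((m : ℤ) ^ 2), J4, J2, J3]
    norm_num
  · push Not at hq
    have hc12 : c = 1 ∨ c = 2 := by
      by_cases h1 : c = 1
      · exact Or.inl h1
      · right
        obtain ⟨q, hqp, hqc⟩ := Nat.exists_prime_and_dvd h1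
        have hq2 : q = 2 := by
          by_contra h
          exact hq q hqp h hqc
        subst hq2
        obtain ⟨d, hd⟩ := hqc
        by_cases h2 : d = 1
        · rw [hd, h2]
        · exfalso
          obtain ⟨q, hqp, hqd⟩ := Nat.exists_prime_and_dvd h2
          have hq2 : q = 2 := by
            by_contra h
            exact hq q hqp h (hd ▸ Dvd.dvd.mul_left hqd 2)
          subst hq2
          obtain ⟨e, he⟩ := hqd
          have h3 : 2 * 2 ∣ c := ⟨e, by rw [hd, he]; ring⟩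
          have := hsq 2 h3
          exact absurd (Nat.isUnit_iff.1 this) (by norm_num)
    rcases hc12 with hc | hc
    · -- `a = σ m^2`
      rcases hσ with hσ | hσ
      · exfalso
        apply ha
        refine ⟨m, ?_⟩
        rw [hσa, hσ, hc]; push_cast; ring
      · refine ⟨4 * m - 1, by omega, ?_⟩
        have hodd : (4 * m - 1) % 2 = 1 := by omega
        have e : a = (-1) * (m : ℤ) ^ 2 := by rw [hσa, hσ, hc]; push_cast; ring
        have hgcd : Nat.Coprime m (4 * m - 1) := by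
          rw [Nat.coprime_iff_gcd_eq_one]
          have h1 : Nat.gcd m (4 * m - 1) ∣ 1 := by
            have d1 := Nat.gcd_dvd_left m (4 * m - 1)
            have d2 := Nat.gcd_dvd_right m (4 * m - 1)
            have d3 : Nat.gcd m (4 * m - 1) ∣ 4 * m - (4 * m - 1) :=
              Nat.dvd_sub (Dvd.dvd.mul_left d1 4) d2
            have : 4 * m - (4 * m - 1) = 1 := by omega
            rwa [this] at d3
          exact Nat.dvd_one.1 h1
        have J3 : jacobiSym ((m : ℤ) ^ 2) (4 * m - 1) = 1 := by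
          apply jacobiSym.sq_one'
          rw [Int.gcd_natCast_natCast]
          exact hgcd
        have J1 : jacobiSym (-1) (4 * m - 1) = -1 := by
          rw [jacobiSym.mod_right _ (Nat.odd_iff.2 hodd)]
          have h1 : (4 * m - 1) % (4 * (-1 : ℤ).natAbs) = 3 := by
            simp only [Int.natAbs_neg, Int.natAbs_one, mul_one]
            omega
          rw [h1]
          norm_num
        rw [e, jacobiSym.mul_left, J1, J3]
        norm_num
    · -- `a = 2 σ m^2`
      set m1 : ℕ := ordCompl[2] m with hm1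
      have h2m : Nat.Coprime 2 m1 := Nat.coprime_ordCompl Nat.prime_two hm0.ne'
      have hmm : 2 ^ (m.factorization 2) * m1 = m := Nat.ordProj_mul_ordCompl_eq_self m 2
      have hco : Nat.Coprime 8 m1 := Nat.Coprime.pow_left 3 h2m
      obtain ⟨n, hn1, hn2⟩ := Nat.chineseRemainder hco 5 1
      have hn8 : n % 8 = 5 := hn1
      have hodd : n % 2 = 1 := by omega
      have hnm1 : Nat.Coprime n m1 := by
        have h2 := hn2.gcd_eq
        rw [Nat.gcd_one_left] at h2
        exact h2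
      have hn2' : Nat.Coprime n 2 := by
        rw [Nat.coprime_comm]
        exact (Nat.Prime.coprime_iff_not_dvd Nat.prime_two).2 (by omega)
      have hnm : Nat.Coprime n m := by
        rw [← hmm]
        exact Nat.Coprime.mul_right (Nat.Coprime.pow_right _ hn2') hnm1
      have J3 : jacobiSym ((m : ℤ) ^ 2) n = 1 := by
        apply jacobiSym.sq_one'
        rw [Int.gcd_natCast_natCast]
        exact hnm.symm
      have J1 : jacobiSym (σ * 2) n = -1 := by
        rw [jacobiSym.mod_right _ (Nat.odd_iff.2 hodd)]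
        have h1 : n % (4 * (σ * 2).natAbs) = 5 := by
          have : (σ * 2).natAbs = 2 := by
            rcases hσ with h | h <;> rw [h] <;> rfl
          rw [this]
          exact hn8
        rw [h1]
        rcases hσ with h | h <;> rw [h] <;> norm_num
      refine ⟨n, hodd, ?_⟩
      have e : a = (σ * 2) * (m : ℤ) ^ 2 := by rw [hσa, hc]; push_cast; ring
      rw [e, jacobiSym.mul_left (σ * 2) ((m : ℤ) ^ 2), J1, J3]
      norm_num

theorem exists_neg {a : ℤ} (ha0 : a ≠ 0) (ha : ¬ IsSquare a) : ∃ n : ℕ, ch a n = -1 := by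
  obtain ⟨n, hn, hJ⟩ := jac_ex ha0 ha
  refine ⟨n, ?_⟩
  rw [ch_odd hn, hJ]
  norm_num

private theorem ch_mod {a : ℤ} (ha : a ≠ 0) (n : ℕ) : ch a (n % (4 * a.natAbs)) = ch a n := by
  conv_rhs => rw [← Nat.mod_add_div n (4 * a.natAbs)]
  generalize n / (4 * a.natAbs) = k
  generalize n % (4 * a.natAbs) = r
  induction k with
  | zero => simp
  | succ k ih =>
    rw [Nat.mul_succ, ← Nat.add_assoc, ch_per ha, ← ih]

theorem ch_sum_zero {a : ℤ} (ha0 : a ≠ 0) (ha : ¬ IsSquare a) :
    ∑ n ∈ range (4 * a.natAbs), ch a n = 0 := by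
  obtain ⟨n₀, hn₀⟩ := exists_neg ha0 ha
  have hodd : n₀ % 2 = 1 := by
    by_contra h
    rw [ch_even h] at hn₀
    norm_num at hn₀
  have hJ : jacobiSym a n₀ ≠ 0 := by
    intro h
    rw [ch_odd hodd, h] at hn₀
    norm_num at hn₀
  have hgcd : a.gcd n₀ = 1 := by
    by_contra h
    exact hJ (jacobiSym.eq_zero_iff.2 ⟨by omega, h⟩)
  have hco : Nat.Coprime n₀ (4 * a.natAbs) := by
    apply Nat.Coprime.mul_right
    · have : Nat.Coprime n₀ 2 := by
        rw [Nat.coprime_comm]
        exact (Nat.Prime.coprime_iff_not_dvd Nat.prime_two).2 (by omega)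
      exact Nat.Coprime.pow_right 2 this
    · rw [Int.gcd_eq_natAbs] at hgcd
      simp only [Int.natAbs_natCast] at hgcd
      exact (Nat.coprime_iff_gcd_eq_one.2 hgcd).symm
  have hP : 0 < 4 * a.natAbs := by
    have := Int.natAbs_pos.2 ha0
    omega
  have : NeZero (4 * a.natAbs) := ⟨hP.ne'⟩
  have h1 : ∑ n ∈ range (4 * a.natAbs), ch a n = ∑ x : ZMod (4 * a.natAbs), ch a x.val := by
    refine Finset.sum_bij' (fun (n : ℕ) _ => ((n : ℕ) : ZMod (4 * a.natAbs)))
      (fun (x : ZMod (4 * a.natAbs)) _ => x.val) ?_ ?_ ?_ ?_ ?_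
    · intro n _; exact mem_univ _
    · intro x _; exact mem_range.2 (ZMod.val_lt x)
    · intro n hn; exact ZMod.val_cast_of_lt (mem_range.1 hn)
    · intro x _; rw [ZMod.natCast_val, ZMod.cast_id]
    · intro n hn; rw [ZMod.val_cast_of_lt (mem_range.1 hn)]
  set u : (ZMod (4 * a.natAbs))ˣ := ZMod.unitOfCoprime n₀ hco with hu
  have h2 : ∑ x : ZMod (4 * a.natAbs), ch a x.val =
      ∑ x : ZMod (4 * a.natAbs), ch a ((u : ZMod (4 * a.natAbs)) * x).val :=
    (Equiv.sum_comp (Units.mulLeft u) (fun x : ZMod (4 * a.natAbs) => ch a x.val)).symm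
  have h3 : ∀ x : ZMod (4 * a.natAbs), ch a ((u : ZMod (4 * a.natAbs)) * x).val
      = - ch a x.val := by
    intro x
    rw [hu, ZMod.coe_unitOfCoprime]
    have h4 : ((n₀ : ZMod (4 * a.natAbs)) * x).val = (n₀ * x.val) % (4 * a.natAbs) := by
      rw [ZMod.val_mul, ZMod.val_natCast, Nat.mod_mul_mod]
    rw [h4, ch_mod ha0, ch_mul_right, hn₀]
    ring
  rw [h1]
  have h5 : ∑ x : ZMod (4 * a.natAbs), ch a x.val = - ∑ x : ZMod (4 * a.natAbs), ch a x.val := by
    conv_lhs => rw [h2]
    rw [← Finset.sum_neg_distrib]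
    exact Finset.sum_congr rfl fun x _ => h3 x
  linarith

theorem RC_ch {a : ℤ} (ha0 : a ≠ 0) (ha : ¬ IsSquare a) {Q : ℝ} (hQ : 4 * |(a : ℝ)| ≤ Q) :
    RC (ch a) Q := by
  have hPQ : ((4 * a.natAbs : ℕ) : ℝ) ≤ Q := by
    have : ((a.natAbs : ℕ) : ℝ) = |(a : ℝ)| := by
      rw [Nat.cast_natAbs, Int.cast_abs]
    push_cast
    rw [this]; exact hQ
  have hP : 0 < 4 * a.natAbs := by
    have := Int.natAbs_pos.2 ha0
    omega
  refine ⟨ch_even (by norm_num), ch_one a, ch_mul_right a, ch_val a, ?_⟩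
  intro N
  induction N using Nat.strong_induction_on with
  | _ N ih =>
    by_cases hN : N ≤ 4 * a.natAbs
    · calc |∑ n ∈ range N, ch a n| ≤ ∑ n ∈ range N, |ch a n| := abs_sum_le_sum_abs _ _
        _ ≤ ∑ n ∈ range N, (1 : ℝ) := by
          apply sum_le_sum
          intro n _
          rcases ch_val a n with h | h | h <;> rw [h] <;> norm_num
        _ = N := by simp
        _ ≤ ((4 * a.natAbs : ℕ) : ℝ) := by exact_mod_cast hN
        _ ≤ Q := hPQ
    · have h1 : ∑ n ∈ range N, ch a n = ∑ n ∈ range (N - 4 * a.natAbs), ch a n := by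
        have e : N = 4 * a.natAbs + (N - 4 * a.natAbs) := by omega
        conv_lhs => rw [e]
        rw [sum_range_add, ch_sum_zero ha0 ha, zero_add]
        apply sum_congr rfl
        intro n _
        rw [add_comm, ch_per ha0]
      rw [h1]
      exact ih _ (by omega)

end Pool.Agent.SQ
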