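import Pool.Agent.SQ.Defs

/-! SQ/JacSum.  Sums of the Jacobi symbol in the numerator: for odd squarefree `d > 1` all partial
sums of `m ↦ (m/d)` are at most `d` in absolute value. -/

set_option autoImplicit false

namespace Pool.Agent.SQ

open Finset

/-- a numerator with Jacobi symbol `-1` -/
private theorem jacsum_exists {d : ℕ} (hd : d % 2 = 1) (hsq : Squarefree d) (h1 : 1 < d) :
    ∃ a : ℕ, jacobiSym (a : ℤ) d = -1 := by
  have hp : (d.minFac).Prime := Nat.minFac_prime (by omega)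
  have : Fact (d.minFac).Prime := ⟨hp⟩
  set p := d.minFac with hpdef
  obtain ⟨e, he⟩ : p ∣ d := Nat.minFac_dvd d
  have hpe : Nat.Coprime p e := by
    rw [he] at hsq
    exact Nat.coprime_of_squarefree_mul hsq
  have hp2 : p ≠ 2 := by
    intro h2
    rw [h2] at he
    omega
  have he0 : e ≠ 0 := by
    rintro rfl
    omega
  obtain ⟨u, hu⟩ := quadraticChar_exists_neg_one (F := ZMod p) (by rwa [ZMod.ringChar_zmod_n])
  obtain ⟨a, ha1, ha2⟩ := Nat.chineseRemainder hpe u.val 1
  refine ⟨a, ?_⟩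
  have e1 : jacobiSym (a : ℤ) p = -1 := by
    rw [← jacobiSym.legendreSym.to_jacobiSym]
    unfold legendreSym
    have h3 : ((a : ℤ) : ZMod p) = u := by
      have h4 : (a : ZMod p) = (u.val : ZMod p) := (ZMod.natCast_eq_natCast_iff _ _ _).2 ha1
      rw [Int.cast_natCast, h4, ZMod.natCast_zmod_val]
    rw [h3, hu]
  have e2 : jacobiSym (a : ℤ) e = 1 := by
    have h3 : jacobiSym (a : ℤ) e = jacobiSym 1 e := by
      apply jacobiSym.mod_left'
      have h4 : (a : ℤ) % (e : ℤ) = ((a % e : ℕ) : ℤ) := (Int.natCast_mod a e).symm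
      have h5 : (1 : ℤ) % (e : ℤ) = ((1 % e : ℕ) : ℤ) := by rw [Int.natCast_mod]; norm_num
      rw [h4, h5]
      exact congrArg _ ha2
    rw [h3, jacobiSym.one_left]
  rw [he, jacobiSym.mul_right' _ hp.ne_zero he0, e1, e2]
  norm_num

private theorem jacsum_period {d : ℕ} (hd : d % 2 = 1) (hsq : Squarefree d) (h1 : 1 < d) :
    ∑ m ∈ range d, jacobiSym (m : ℤ) d = 0 := by
  obtain ⟨a, ha⟩ := jacsum_exists hd hsq h1
  have hcop : Nat.Coprime a d := by
    by_contra hc
    have : NeZero d := ⟨by omega⟩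
    have h2 : jacobiSym (a : ℤ) d = 0 := by
      rw [jacobiSym.eq_zero_iff_not_coprime]
      intro h3
      apply hc
      rwa [Int.gcd_natCast_natCast] at h3
    rw [h2] at ha
    norm_num at ha
  have : NeZero d := ⟨by omega⟩
  have hval : ∀ m : ℕ, jacobiSym ((m % d : ℕ) : ℤ) d = jacobiSym (m : ℤ) d := by
    intro m
    rw [Int.natCast_mod, ← jacobiSym.mod_left]
  have hsum : ∑ m ∈ range d, jacobiSym (m : ℤ) d =
      ∑ x : ZMod d, jacobiSym (x.val : ℤ) d := by
    symm
    refine Finset.sum_nbij' (fun x : ZMod d => x.val) (fun m : ℕ => (m : ZMod d)) ?_ ?_ ?_ ?_ ?_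
    · intro x _
      exact Finset.mem_range.2 (ZMod.val_lt x)
    · intro m _
      exact Finset.mem_univ _
    · intro x _
      exact ZMod.natCast_zmod_val x
    · intro m hm
      exact ZMod.val_cast_of_lt (Finset.mem_range.1 hm)
    · intro x _
      rfl
  rw [hsum]
  have hbij : ∑ x : ZMod d, jacobiSym (x.val : ℤ) d =
      ∑ x : ZMod d, jacobiSym (((ZMod.unitOfCoprime a hcop : ZMod d) * x).val : ℤ) d := by
    exact (Fintype.sum_equiv (Units.mulLeft (ZMod.unitOfCoprime a hcop)) _ _ fun x => rfl).symm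
  have hneg : ∑ x : ZMod d, jacobiSym (((ZMod.unitOfCoprime a hcop : ZMod d) * x).val : ℤ) d =
      - ∑ x : ZMod d, jacobiSym (x.val : ℤ) d := by
    rw [← Finset.sum_neg_distrib]
    refine Finset.sum_congr rfl fun x _ => ?_
    rw [ZMod.val_mul, ZMod.coe_unitOfCoprime, hval, Nat.cast_mul, jacobiSym.mul_left,
      ZMod.val_natCast, hval, ha, neg_one_mul]
  rw [hneg] at hbij
  omega

theorem jac_sum {d : ℕ} (hd : d % 2 = 1) (hsq : Squarefree d) (h1 : 1 < d) (N : ℕ) :
    |∑ m ∈ range N, ((jacobiSym (m : ℤ) d : ℤ) : ℝ)| ≤ d := by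
  have hper : ∀ q r : ℕ, ∑ m ∈ range (d * q + r), jacobiSym (m : ℤ) d =
      ∑ m ∈ range r, jacobiSym (m : ℤ) d := by
    intro q r
    induction q with
    | zero => rw [mul_zero, zero_add]
    | succ q ih =>
      have h2 : d * (q + 1) + r = d + (d * q + r) := by ring
      rw [h2, Finset.sum_range_add, jacsum_period hd hsq h1, zero_add, ← ih]
      refine Finset.sum_congr rfl fun m _ => ?_
      apply jacobiSym.mod_left'
      push_cast
      exact Int.add_emod_left _ _
  have h2 := hper (N / d) (N % d)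
  rw [Nat.div_add_mod] at h2
  rw [← Int.cast_sum, h2, Int.cast_sum]
  refine (Finset.abs_sum_le_sum_abs _ _).trans ?_
  have h3 : ∑ m ∈ range (N % d), |((jacobiSym (m : ℤ) d : ℤ) : ℝ)| ≤
      ∑ m ∈ range (N % d), (1 : ℝ) := by
    refine Finset.sum_le_sum fun m _ => ?_
    rcases jacobiSym.trichotomy (m : ℤ) d with h | h | h
    · rw [h]; norm_num
    · rw [h]; norm_num
    · rw [h]; norm_num
  refine h3.trans ?_
  rw [Finset.sum_const, Finset.card_range, nsmul_eq_mul, mul_one]
  exact_mod_cast (Nat.mod_lt N (by omega)).le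

end Pool.Agent.SQ
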