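import Pool.Agent.SQ.Jac
import Pool.Agent.SQ.Dich

/-! SQ/KExc.  All bad `a` lie in one square class (first part of the proof of `exc`,
`Pool/Agent/SQ/Exc.lean`): if there is a bad `a` take it as `a₀`, otherwise `a₀ = -1`. -/

set_option autoImplicit false

namespace Pool.Agent.SQ

open Finset

private theorem kexc_not_dvd {a : ℤ} {H z p : ℕ} (ha0 : a ≠ 0) (haH : |a| ≤ H) (hHz : H ≤ z)
    (hp : z < p) : ¬ (p : ℤ) ∣ a := by
  intro h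
  have h1 := Int.le_of_dvd (abs_pos.2 ha0) ((dvd_abs _ _).2 h)
  have h2 : (H : ℤ) ≤ z := by exact_mod_cast hHz
  have h3 : (z : ℤ) < p := by exact_mod_cast hp
  omega

theorem excK : ∃ (C0 : ℕ) (c2 : ℝ) (z0 : ℕ), 1 ≤ C0 ∧ 0 < c2 ∧
    ∀ z : ℕ, z0 ≤ z → ∀ H : ℕ, 1 ≤ H → (4 * (H : ℝ) ^ 2) ^ 8 ≤ z →
    ∃ a₀ : ℤ, a₀ ≠ 0 ∧ |a₀| ≤ H ∧ ∀ a : ℤ, a ≠ 0 → |a| ≤ H → ¬ IsSquare a →
      Good C0 c2 (ch a) z ∨ IsSquare (a * a₀) := by
  obtain ⟨C0, c2, z0, hC0, hc2, hd1, -⟩ := dich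
  refine ⟨C0, c2, max z0 2, hC0, hc2, fun z hz H hH hHz => ?_⟩
  have hz0 : z0 ≤ z := (le_max_left _ _).trans hz
  have hz2 : 2 ≤ z := (le_max_right _ _).trans hz
  have hH1 : (1 : ℝ) ≤ H := by exact_mod_cast hH
  have hHz' : H ≤ z := by
    have h1 : (H : ℝ) ≤ 4 * (H : ℝ) ^ 2 := by nlinarith
    have h2 : (1 : ℝ) ≤ 4 * (H : ℝ) ^ 2 := by nlinarith
    have h3 : (4 * (H : ℝ) ^ 2) ^ 1 ≤ (4 * (H : ℝ) ^ 2) ^ 8 := pow_le_pow_right₀ h2 (by norm_num)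
    rw [pow_one] at h3
    exact_mod_cast (h1.trans h3).trans hHz
  by_cases hbad : ∃ a₀ : ℤ, a₀ ≠ 0 ∧ |a₀| ≤ H ∧ ¬ IsSquare a₀ ∧ ¬ Good C0 c2 (ch a₀) z
  · obtain ⟨a₀, h0, h0H, h0s, h0g⟩ := hbad
    refine ⟨a₀, h0, h0H, fun a ha haH has => ?_⟩
    by_cases hsq : IsSquare (a * a₀)
    · exact Or.inr hsq
    · left
      have habs : ∀ b : ℤ, |b| ≤ H → 4 * |(b : ℝ)| ≤ 4 * (H : ℝ) ^ 2 := by
        intro b hb
        have h1 : |(b : ℝ)| ≤ H := by exact_mod_cast hb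
        nlinarith
      have hab : 4 * |((a * a₀ : ℤ) : ℝ)| ≤ 4 * (H : ℝ) ^ 2 := by
        have h1 : |(a : ℝ)| ≤ H := by exact_mod_cast haH
        have h2 : |(a₀ : ℝ)| ≤ H := by exact_mod_cast h0H
        push_cast
        rw [abs_mul]
        have := mul_le_mul h1 h2 (abs_nonneg _) (by linarith)
        nlinarith
      have h12 : RC (fun n => ch a n * ch a₀ n) (4 * (H : ℝ) ^ 2) := by
        have h1 := RC_ch (mul_ne_zero ha h0) hsq hab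
        have h2 : ch (a * a₀) = fun n => ch a n * ch a₀ n := funext fun n => ch_mul_left a a₀ n
        rwa [h2] at h1
      rcases hd1 z hz0 (ch a) (ch a₀) (4 * (H : ℝ) ^ 2) (RC_ch ha has (habs a haH))
        (RC_ch h0 h0s (habs a₀ h0H)) h12 hHz (fun p hp hzp =>
          ⟨ch_ne_zero hp (by omega) (kexc_not_dvd ha haH hHz' hzp),
            ch_ne_zero hp (by omega) (kexc_not_dvd h0 h0H hHz' hzp)⟩) with h | h
      · exact h
      · exact absurd h h0g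
  · refine ⟨-1, by norm_num, by simpa using (by exact_mod_cast hH : (1 : ℤ) ≤ H), ?_⟩
    intro a ha haH has
    left
    by_contra hg
    exact hbad ⟨a, ha, haH, has, hg⟩

end Pool.Agent.SQ
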