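import Pool.Agent.SQ.Jac

/-! SQ/KMany.  More than `k` primes `p ∈ (k, k^40]` with `(a/p) = 1`, for every `0 < |a| ≤ k^2`.

Let `b = |a|`, `m0 = 1` if `a` is even and `m0 = b + 1` if `a` is odd, `B = k^10`,
`f(n) = (2 b n + m0)^2 - a` for `B < n ≤ 2B`.  `f(n)` is odd and coprime to `a`
(`2bn + m0 ≡ 1` mod `b`, parity), `f(n) ≥ B^2` and `f(n) ≤ k^26`.  Every prime `p ∣ f(n)` is odd,
`p ∤ a`, and `(a/p) = 1` (`a` is a nonzero square mod `p`).  For `p ∤ 2a` and `i ≥ 1` the congruence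
`x^2 ≡ a` mod `p^i` has at most 2 solutions, so
`#{n ∈ (B, 2B] : p^i ∣ f(n)} ≤ 2 (B/p^i + 1)`, and it is `0` if `p^i > k^26`; so
`v_p(∏ f(n)) log p ≤ 2 B log p/(p-1) + 52 log k`.
Let `R` be the set of primes `p > k` dividing some `f(n)` and suppose `|R| ≤ k`:
`20 B log k ≤ ∑_n log f(n) = ∑_p v_p log p
 ≤ ∑_{p ≤ k} (2 B log p/(p-1) + 52 log k) + ∑_{p ∈ R} (2 B log p/(p-1) + 52 log k)
 ≤ 2 B (log k + C) + 52 k log k + 2 B k (log k/(k-1))·2 + 52 k log k < 20 B log k` for `k` large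
(`Helper52.mertens1` and `∑ log p/(p(p-1)) ≤ C`, or simply `log p/(p-1) ≤ 2 log p/p` and
`∑_{p ≤ k} log p/p ≤ log k + log 4`; for `p > k`: `log p/(p-1) ≤ 2 log k/k`).
Contradiction.  All `p ∈ R` are `≤ k^26 ≤ k^40`. -/

set_option autoImplicit false

namespace Pool.Agent.SQ

open Finset
open Helper52 (pr)

private def e0 (a : ℤ) : ℤ := if a % 2 = 0 then 0 else 1

private def xx (a : ℤ) (n : ℕ) : ℤ := |a| * (2 * (n : ℤ) + e0 a) + 1

private def ff (a : ℤ) (n : ℕ) : ℤ := xx a n ^ 2 - a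

private def FF (a : ℤ) (n : ℕ) : ℕ := (ff a n).natAbs

private theorem ff_odd (a : ℤ) (n : ℕ) : ¬ (2 : ℤ) ∣ ff a n := by
  obtain ⟨c, hc⟩ : ∃ c, a = 2 * c ∨ a = 2 * c + 1 := ⟨a / 2, by omega⟩
  obtain ⟨s, hs, hs'⟩ : ∃ s : ℤ, (s = 1 ∨ s = -1) ∧ |a| = s * a := by
    rcases abs_choice a with h | h
    · exact ⟨1, Or.inl rfl, by rw [h, one_mul]⟩
    · exact ⟨-1, Or.inr rfl, by rw [h]; ring⟩
  unfold ff xx e0
  rw [hs']
  rcases hc with hc | hc
  · have h1 : a % 2 = 0 := by omega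
    rw [if_pos h1]
    have h2 : (s * a * (2 * (n : ℤ) + 0) + 1) ^ 2 - a =
        2 * (2 * (s * a * n) ^ 2 + 2 * (s * a * n) - c) + 1 := by
      rw [hc]; ring
    rw [h2]; omega
  · have h1 : ¬ a % 2 = 0 := by omega
    rw [if_neg h1]
    obtain ⟨d, hd⟩ : ∃ d, s * a = 2 * d + 1 := by
      rcases hs with h | h
      · exact ⟨c, by rw [h, hc]; ring⟩
      · exact ⟨-c - 1, by rw [h, hc]; ring⟩
    have h2 : (s * a * (2 * (n : ℤ) + 1) + 1) ^ 2 - a =
        2 * (2 * (2 * d * n + d + n + 1) ^ 2 - c - 1) + 1 := by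
      rw [hd, hc]; ring
    rw [h2]; omega

private theorem prime_FF {a : ℤ} {n q : ℕ} (hq : q.Prime) (h : q ∣ FF a n) :
    q ≠ 2 ∧ ¬ (q : ℤ) ∣ a ∧ ch a q = 1 := by
  have h1 : (q : ℤ) ∣ ff a n := Int.natCast_dvd.2 h
  have h2 : q ≠ 2 := by
    rintro rfl
    exact ff_odd a n (by exact_mod_cast h1)
  have hqi : Prime (q : ℤ) := Nat.prime_iff_prime_int.1 hq
  have h3 : ¬ (q : ℤ) ∣ a := by
    intro ha
    have h4 : (q : ℤ) ∣ xx a n ^ 2 := by
      have := dvd_add h1 ha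
      unfold ff at this
      rwa [sub_add_cancel] at this
    have h5 : (q : ℤ) ∣ xx a n := hqi.dvd_of_dvd_pow h4
    have h6 : (q : ℤ) ∣ |a| * (2 * (n : ℤ) + e0 a) := Dvd.dvd.mul_right ((dvd_abs _ _).2 ha) _
    have h7 : (q : ℤ) ∣ 1 := by
      have := dvd_sub h5 h6
      unfold xx at this
      rwa [add_sub_cancel_left] at this
    exact hqi.not_isUnit (isUnit_of_dvd_one h7)
  refine ⟨h2, h3, ?_⟩
  have : Fact q.Prime := ⟨hq⟩
  have hodd : q % 2 = 1 := Nat.odd_iff.1 (hq.odd_of_ne_two h2)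
  unfold ch
  rw [if_pos hodd, ← jacobiSym.legendreSym.to_jacobiSym]
  have h8 : (a : ZMod q) ≠ 0 := by
    intro h9
    exact h3 ((ZMod.intCast_zmod_eq_zero_iff_dvd a q).1 h9)
  rw [(legendreSym.eq_one_iff q h8).2 ?_]
  · norm_num
  · refine ⟨(xx a n : ZMod q), ?_⟩
    have h9 := (ZMod.intCast_zmod_eq_zero_iff_dvd (ff a n) q).2 h1
    unfold ff at h9
    push_cast at h9
    rw [sub_eq_zero] at h9
    rw [← h9]; ring

private theorem two_cls {a : ℤ} {q i n n' : ℕ} (hq : q.Prime) (h2 : q ≠ 2)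
    (ha : ¬ (q : ℤ) ∣ a) (hi : i ≠ 0) (h : (q : ℤ) ^ i ∣ ff a n) (h' : (q : ℤ) ^ i ∣ ff a n') :
    (q : ℤ) ^ i ∣ xx a n - xx a n' ∨ (q : ℤ) ^ i ∣ xx a n + xx a n' := by
  have hqi : Prime (q : ℤ) := Nat.prime_iff_prime_int.1 hq
  have e : ff a n - ff a n' = (xx a n - xx a n') * (xx a n + xx a n') := by unfold ff; ring
  have h3 : (q : ℤ) ^ i ∣ (xx a n - xx a n') * (xx a n + xx a n') := e ▸ dvd_sub h h'
  by_cases h4 : (q : ℤ) ∣ xx a n - xx a n'
  · left
    have h5 : ¬ (q : ℤ) ∣ xx a n + xx a n' := by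
      intro h6
      have h7 : (q : ℤ) ∣ 2 * xx a n := by
        have := dvd_add h4 h6
        have e2 : xx a n - xx a n' + (xx a n + xx a n') = 2 * xx a n := by ring
        rwa [e2] at this
      rcases hqi.dvd_or_dvd h7 with h8 | h8
      · have h9 : q ∣ 2 := by exact_mod_cast h8
        exact h2 ((Nat.prime_dvd_prime_iff_eq hq Nat.prime_two).1 h9)
      · have h9 : (q : ℤ) ∣ xx a n ^ 2 := dvd_pow h8 two_ne_zero
        have h10 := dvd_sub h9 (dvd_trans (dvd_pow_self (q : ℤ) hi) h)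
        unfold ff at h10
        rw [sub_sub_cancel] at h10
        exact ha h10
    exact ((hqi.coprime_iff_not_dvd.2 h5).pow_left).dvd_of_dvd_mul_right h3
  · right
    exact ((hqi.coprime_iff_not_dvd.2 h4).pow_left).dvd_of_dvd_mul_left h3

private theorem diff_cls {a : ℤ} {q i n n' : ℕ} (hq : q.Prime) (h2 : q ≠ 2)
    (ha : ¬ (q : ℤ) ∣ a) (h : (q : ℤ) ^ i ∣ xx a n - xx a n') :
    ((q ^ i : ℕ) : ℤ) ∣ (n : ℤ) - n' := by
  have hqi : Prime (q : ℤ) := Nat.prime_iff_prime_int.1 hq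
  have e : xx a n - xx a n' = (2 * |a|) * ((n : ℤ) - n') := by unfold xx; ring
  have h3 : ¬ (q : ℤ) ∣ 2 * |a| := by
    intro h4
    rcases hqi.dvd_or_dvd h4 with h8 | h8
    · have h9 : q ∣ 2 := by exact_mod_cast h8
      exact h2 ((Nat.prime_dvd_prime_iff_eq hq Nat.prime_two).1 h9)
    · exact ha ((dvd_abs _ _).1 h8)
  have h4 : IsCoprime ((q : ℤ) ^ i) (2 * |a|) := (hqi.coprime_iff_not_dvd.2 h3).pow_left
  rw [e] at h
  push_cast
  exact h4.dvd_of_dvd_mul_left h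

private theorem card_cls {B d : ℕ} (hd : 0 < d) (N : Finset ℕ) (hN : N ⊆ Ioc B (2 * B))
    (h : ∀ n ∈ N, ∀ n' ∈ N, (d : ℤ) ∣ (n : ℤ) - n') : (N.card : ℝ) ≤ B / (d : ℝ) + 1 := by
  rcases N.eq_empty_or_nonempty with rfl | ⟨n1, h1⟩
  · rw [card_empty, Nat.cast_zero]
    positivity
  · have h2 : N ⊆ (Ioc B (2 * B)).filter (fun x => x ≡ n1 [MOD d]) := by
      intro n hn
      rw [mem_filter]
      exact ⟨hN hn, Nat.modEq_iff_dvd.2 (h n1 h1 n hn)⟩
    have h3 := card_le_card h2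
    have h4 := Nat.Ioc_filter_modEq_card B (2 * B) hd n1
    have hd' : (0 : ℚ) < (d : ℚ) := by exact_mod_cast hd
    have h5 : (((Ioc B (2 * B)).filter (fun x => x ≡ n1 [MOD d])).card : ℚ) ≤ B / (d : ℚ) + 1 := by
      have h6 : (((Ioc B (2 * B)).filter (fun x => x ≡ n1 [MOD d])).card : ℚ) =
          ((max (⌊(((2 * B : ℕ) : ℚ) - n1) / (d : ℚ)⌋ - ⌊((B : ℚ) - n1) / (d : ℚ)⌋) 0 : ℤ) : ℚ) := by
        rw [← h4]
        push_cast
        rfl
      rw [h6]
      push_cast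
      refine max_le ?_ (by positivity)
      have h7 := Int.floor_le ((2 * (B : ℚ) - n1) / (d : ℚ))
      have h8 := Int.lt_floor_add_one (((B : ℚ) - n1) / (d : ℚ))
      have h9 : (2 * (B : ℚ) - n1) / (d : ℚ) = B / (d : ℚ) + ((B : ℚ) - n1) / (d : ℚ) := by
        rw [← add_div]; ring
      rw [h9] at h7
      rw [h9]
      linarith
    have h6 : (N.card : ℚ) ≤ B / (d : ℚ) + 1 := le_trans (by exact_mod_cast h3) h5
    have h7 : (((N.card : ℚ)) : ℝ) ≤ ((B / (d : ℚ) + 1 : ℚ) : ℝ) := by exact_mod_cast h6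
    push_cast at h7
    exact h7

private theorem count_pow (a : ℤ) {q i : ℕ} (B : ℕ) (hq : q.Prime) (hi : i ≠ 0) :
    (((Ioc B (2 * B)).filter (fun n => q ^ i ∣ FF a n)).card : ℝ) ≤
      2 * (B / (q : ℝ) ^ i + 1) := by
  classical
  set N := (Ioc B (2 * B)).filter (fun n => q ^ i ∣ FF a n) with hN
  have hq0 : (0 : ℝ) < (q : ℝ) := by exact_mod_cast hq.pos
  rcases N.eq_empty_or_nonempty with h | ⟨n0, h0⟩
  · rw [h, card_empty, Nat.cast_zero]
    positivity
  · have hd0 : q ^ i ∣ FF a n0 := (mem_filter.1 h0).2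
    obtain ⟨h2, ha, -⟩ := prime_FF hq (dvd_trans (dvd_pow_self q hi) hd0)
    have hz : ∀ n ∈ N, (q : ℤ) ^ i ∣ ff a n := by
      intro n hn
      have := Int.natCast_dvd.2 (mem_filter.1 hn).2
      push_cast at this
      exact this
    set N1 := N.filter (fun n => (q : ℤ) ^ i ∣ xx a n - xx a n0) with hN1
    set N2 := N.filter (fun n => (q : ℤ) ^ i ∣ xx a n + xx a n0) with hN2
    have hsub : N ⊆ N1 ∪ N2 := by
      intro n hn
      rw [mem_union]
      rcases two_cls hq h2 ha hi (hz n hn) (hz n0 h0) with h | h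
      · exact Or.inl (mem_filter.2 ⟨hn, h⟩)
      · exact Or.inr (mem_filter.2 ⟨hn, h⟩)
    have hb1 : N1 ⊆ Ioc B (2 * B) := (filter_subset _ _).trans (filter_subset _ _)
    have hb2 : N2 ⊆ Ioc B (2 * B) := (filter_subset _ _).trans (filter_subset _ _)
    have c1 := card_cls (pow_pos hq.pos i) N1 hb1 (by
      intro n hn n' hn'
      apply diff_cls hq h2 ha
      have := dvd_sub (mem_filter.1 hn).2 (mem_filter.1 hn').2
      rwa [sub_sub_sub_cancel_right] at this)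
    have c2 := card_cls (pow_pos hq.pos i) N2 hb2 (by
      intro n hn n' hn'
      apply diff_cls hq h2 ha
      have := dvd_sub (mem_filter.1 hn).2 (mem_filter.1 hn').2
      rwa [add_sub_add_right_eq_sub] at this)
    have c3 : (N.card : ℝ) ≤ N1.card + N2.card := by
      have := (card_le_card hsub).trans (card_union_le N1 N2)
      exact_mod_cast this
    push_cast at c1 c2
    linarith

private theorem size {a : ℤ} {k n : ℕ} (hk : 7 ≤ k) (ha0 : a ≠ 0) (ha : |a| ≤ (k : ℤ) ^ 2)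
    (hn : n ∈ Ioc (k ^ 10) (2 * k ^ 10)) : (k ^ 10) ^ 2 ≤ FF a n ∧ FF a n ≤ k ^ 26 := by
  rw [mem_Ioc] at hn
  have ht : 1 ≤ |a| := Int.one_le_abs ha0
  have hab : a ≤ |a| := le_abs_self a
  have hab' : -|a| ≤ a := neg_abs_le a
  have hk7 : (7 : ℤ) ≤ k := by exact_mod_cast hk
  set B : ℤ := (k : ℤ) ^ 10 with hB
  have hB1 : 1 ≤ B := one_le_pow₀ (by linarith)
  have hn1 : B < n := by
    have : ((k ^ 10 : ℕ) : ℤ) < (n : ℤ) := by exact_mod_cast hn.1
    rwa [Nat.cast_pow] at this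
  have hn2 : (n : ℤ) ≤ 2 * B := by
    have : (n : ℤ) ≤ ((2 * k ^ 10 : ℕ) : ℤ) := by exact_mod_cast hn.2
    push_cast at this
    exact this
  have he0 : 0 ≤ e0 a ∧ e0 a ≤ 1 := by
    unfold e0
    split_ifs <;> norm_num
  generalize hs : |a| = t at *
  have hx1 : 2 * t * n ≤ xx a n := by
    unfold xx
    rw [hs]
    nlinarith [mul_nonneg (by linarith : (0 : ℤ) ≤ t) he0.1]
  have hx0 : 0 ≤ 2 * t * n := by positivity
  have hx2 : (2 * t * n) ^ 2 ≤ xx a n ^ 2 := pow_le_pow_left₀ hx0 hx1 2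
  have hx3 : xx a n ≤ 6 * (k ^ 2 * B) := by
    unfold xx
    rw [hs]
    have h1 : t * (2 * (n : ℤ) + e0 a) ≤ k ^ 2 * (2 * (2 * B) + 1) := by
      apply mul_le_mul ha (by linarith) (by linarith) (by positivity)
    have h2 : (1 : ℤ) ≤ k ^ 2 := one_le_pow₀ (by linarith)
    have h3 : (k : ℤ) ^ 2 ≤ k ^ 2 * B := le_mul_of_one_le_right (by positivity) hB1
    nlinarith
  have hx4 : xx a n ^ 2 ≤ (6 * (k ^ 2 * B)) ^ 2 := pow_le_pow_left₀ (hx0.trans hx1) hx3 2
  have hn0 : (1 : ℤ) ≤ n := by linarith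
  have hlow : B ^ 2 ≤ ff a n := by
    unfold ff
    have h1 : (n : ℤ) ^ 2 ≤ t ^ 2 * n ^ 2 := le_mul_of_one_le_left (by positivity) (one_le_pow₀ ht)
    have h2 : t ≤ t ^ 2 * n ^ 2 := by
      have h3 : t * 1 ≤ t * (t * n ^ 2) := by
        apply mul_le_mul_of_nonneg_left _ (by linarith)
        have h4 : (1 : ℤ) ≤ (n : ℤ) ^ 2 := one_le_pow₀ hn0
        nlinarith
      nlinarith
    have h3 : B ^ 2 ≤ (n : ℤ) ^ 2 := pow_le_pow_left₀ (by linarith) hn1.le 2
    have h4 : (2 * t * n) ^ 2 = 4 * (t ^ 2 * (n : ℤ) ^ 2) := by ring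
    nlinarith
  have hup : ff a n ≤ (k : ℤ) ^ 26 := by
    unfold ff
    have h1 : (6 * ((k : ℤ) ^ 2 * B)) ^ 2 = 36 * k ^ 24 := by rw [hB]; ring
    have h2 : (k : ℤ) ^ 2 ≤ k ^ 24 := pow_le_pow_right₀ (by linarith) (by norm_num)
    have h3 : 49 * (k : ℤ) ^ 24 ≤ k ^ 26 := by
      have h4 : (49 : ℤ) ≤ k ^ 2 := by nlinarith
      calc 49 * (k : ℤ) ^ 24 ≤ k ^ 2 * k ^ 24 := mul_le_mul_of_nonneg_right h4 (by positivity)
        _ = k ^ 26 := by ring
    have h5 : (0 : ℤ) ≤ k ^ 24 := by positivity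
    nlinarith
  have hpos : 0 ≤ ff a n := le_trans (by positivity) hlow
  have hcast : ((FF a n : ℕ) : ℤ) = ff a n := by
    unfold FF
    exact Int.natAbs_of_nonneg hpos
  constructor
  · have : (((k ^ 10) ^ 2 : ℕ) : ℤ) ≤ ((FF a n : ℕ) : ℤ) := by
      rw [hcast]; push_cast; exact hlow
    exact_mod_cast this
  · have : ((FF a n : ℕ) : ℤ) ≤ ((k ^ 26 : ℕ) : ℤ) := by
      rw [hcast]; push_cast; exact hup
    exact_mod_cast this

private theorem val_bound {a : ℤ} {q B X : ℕ} (hq : q.Prime) (hX : 1 ≤ X)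
    (hF : ∀ n ∈ Ioc B (2 * B), 0 < FF a n ∧ FF a n ≤ X) :
    (∑ n ∈ Ioc B (2 * B), ((FF a n).factorization q : ℝ)) * Real.log q ≤
      4 * B * (Real.log q / q) + 2 * Real.log X := by
  have hq2 : (2 : ℝ) ≤ (q : ℝ) := by exact_mod_cast hq.two_le
  have hq0 : (0 : ℝ) < (q : ℝ) := by linarith
  have hlq : 0 ≤ Real.log q := Real.log_nonneg (by linarith)
  have h1 : ∑ n ∈ Ioc B (2 * B), ((FF a n).factorization q : ℝ) =
      ∑ i ∈ Ico 1 (Nat.log q X + 1),
        (((Ioc B (2 * B)).filter (fun n => q ^ i ∣ FF a n)).card : ℝ) := by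
    have h2 : ∀ n ∈ Ioc B (2 * B), ((FF a n).factorization q : ℝ) =
        ∑ i ∈ Ico 1 (Nat.log q X + 1), if q ^ i ∣ FF a n then (1 : ℝ) else 0 := by
      intro n hn
      rw [sum_boole, Nat.factorization_eq_card_pow_dvd_of_lt hq (hF n hn).1
        (lt_of_le_of_lt (hF n hn).2 (Nat.lt_pow_succ_log_self hq.one_lt X))]
    rw [sum_congr rfl h2, sum_comm]
    refine sum_congr rfl fun i _ => ?_
    rw [sum_boole]
  have h2 : ∑ i ∈ Ico 1 (Nat.log q X + 1),
      (((Ioc B (2 * B)).filter (fun n => q ^ i ∣ FF a n)).card : ℝ) ≤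
      2 * B * ∑ i ∈ Ico 1 (Nat.log q X + 1), (1 / (q : ℝ)) ^ i + 2 * (Nat.log q X : ℝ) := by
    calc ∑ i ∈ Ico 1 (Nat.log q X + 1),
        (((Ioc B (2 * B)).filter (fun n => q ^ i ∣ FF a n)).card : ℝ)
        ≤ ∑ i ∈ Ico 1 (Nat.log q X + 1), (2 * B * (1 / (q : ℝ)) ^ i + 2) := by
          refine sum_le_sum fun i hi => ?_
          have h3 := count_pow a B hq (i := i) (by have := (mem_Ico.1 hi).1; omega)
          rw [one_div, inv_pow]
          have h4 : (B : ℝ) / (q : ℝ) ^ i = B * ((q : ℝ) ^ i)⁻¹ := div_eq_mul_inv _ _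
          rw [h4] at h3
          linarith
      _ = 2 * B * ∑ i ∈ Ico 1 (Nat.log q X + 1), (1 / (q : ℝ)) ^ i + 2 * (Nat.log q X : ℝ) := by
          rw [sum_add_distrib, ← mul_sum, sum_const, Nat.card_Ico, Nat.add_sub_cancel,
            nsmul_eq_mul]
          ring
  have h3 : ∑ i ∈ Ico 1 (Nat.log q X + 1), (1 / (q : ℝ)) ^ i ≤ 2 * (1 / (q : ℝ)) := by
    have hx : (1 : ℝ) / q ≤ 1 / 2 := by
      apply one_div_le_one_div_of_le <;> linarith
    have hx0 : (0 : ℝ) < 1 / q := by positivity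
    refine (geom_sum_Ico_le_of_lt_one hx0.le (by linarith)).trans ?_
    rw [pow_one, div_le_iff₀ (by linarith)]
    nlinarith
  have h4 : (Nat.log q X : ℝ) * Real.log q ≤ Real.log X := by
    rw [← Real.log_pow]
    refine Real.log_le_log (by positivity) ?_
    have : q ^ Nat.log q X ≤ X := Nat.pow_log_le_self q (by omega)
    exact_mod_cast this
  rw [h1]
  have hB0 : (0 : ℝ) ≤ (B : ℝ) := Nat.cast_nonneg _
  calc (∑ i ∈ Ico 1 (Nat.log q X + 1),
        (((Ioc B (2 * B)).filter (fun n => q ^ i ∣ FF a n)).card : ℝ)) * Real.log q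
      ≤ (2 * B * (2 * (1 / (q : ℝ))) + 2 * (Nat.log q X : ℝ)) * Real.log q := by
        refine mul_le_mul_of_nonneg_right (h2.trans ?_) hlq
        have := mul_le_mul_of_nonneg_left h3 (by positivity : (0 : ℝ) ≤ 2 * B)
        linarith
    _ = 4 * B * (Real.log q / q) + 2 * ((Nat.log q X : ℝ) * Real.log q) := by
        field_simp
        ring
    _ ≤ 4 * B * (Real.log q / q) + 2 * Real.log X := by linarith

open Classical in
theorem many : ∃ k0 : ℕ, ∀ k : ℕ, k0 ≤ k → ∀ a : ℤ, a ≠ 0 → |a| ≤ (k : ℤ) ^ 2 →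
    k < ((pr k (k ^ 40)).filter (fun p => ch a p = 1)).card := by
  refine ⟨7, fun k hk a ha0 ha => ?_⟩
  by_contra hcon
  rw [not_lt] at hcon
  set S := (pr k (k ^ 40)).filter (fun p => ch a p = 1) with hS
  set B : ℕ := k ^ 10 with hB
  have hk7 : (7 : ℝ) ≤ (k : ℝ) := by exact_mod_cast hk
  have hL : 1 < Real.log k := by
    have h1 : Real.log (Real.exp 1) < Real.log (k : ℝ) := by
      refine Real.log_lt_log (Real.exp_pos 1) ?_
      have := Real.exp_one_lt_three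
      linarith
    rwa [Real.log_exp] at h1
  have hF : ∀ n ∈ Ioc B (2 * B), 0 < FF a n ∧ FF a n ≤ k ^ 26 := by
    intro n hn
    have h1 := size hk ha0 ha hn
    refine ⟨lt_of_lt_of_le ?_ h1.1, h1.2⟩
    positivity
  have hdisj : Disjoint (pr 0 k) S := by
    rw [disjoint_left]
    intro q hq hq'
    have h1 := (Helper52.mem_pr.1 hq).2.1
    have h2 := (Helper52.mem_pr.1 (mem_filter.1 hq').1).1
    omega
  have hlog : ∀ n ∈ Ioc B (2 * B), Real.log (FF a n) =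
      ∑ q ∈ pr 0 k ∪ S, ((FF a n).factorization q : ℝ) * Real.log q := by
    intro n hn
    rw [Real.log_nat_eq_sum_factorization, Finsupp.sum]
    refine sum_subset ?_ ?_
    · intro q hq
      rw [Nat.support_factorization, Nat.mem_primeFactors] at hq
      have h1 := prime_FF hq.1 hq.2.1
      have h2 : q ≤ k ^ 26 := (Nat.le_of_dvd (hF n hn).1 hq.2.1).trans (hF n hn).2
      have h3 : k ^ 26 ≤ k ^ 40 := Nat.pow_le_pow_right (by omega) (by norm_num)
      rw [mem_union]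
      by_cases h4 : q ≤ k
      · exact Or.inl (Helper52.mem_pr.2 ⟨hq.1.pos, h4, hq.1⟩)
      · exact Or.inr (mem_filter.2 ⟨Helper52.mem_pr.2 ⟨by omega, by omega, hq.1⟩, h1.2.2⟩)
    · intro q _ hq
      rw [Finsupp.notMem_support_iff] at hq
      rw [hq, Nat.cast_zero, zero_mul]
  have hprime : ∀ q ∈ pr 0 k ∪ S, q.Prime := by
    intro q hq
    rcases mem_union.1 hq with h | h
    · exact (Helper52.mem_pr.1 h).2.2
    · exact (Helper52.mem_pr.1 (mem_filter.1 h).1).2.2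
  have hX : 1 ≤ k ^ 26 := Nat.one_le_pow _ _ (by omega)
  have hlogX : Real.log ((k ^ 26 : ℕ) : ℝ) = 26 * Real.log k := by
    push_cast
    rw [Real.log_pow]
    norm_num
  have hup : ∑ n ∈ Ioc B (2 * B), Real.log (FF a n) ≤
      ∑ q ∈ pr 0 k ∪ S, (4 * B * (Real.log q / q) + 52 * Real.log k) := by
    rw [sum_congr rfl hlog, sum_comm]
    refine sum_le_sum fun q hq => ?_
    rw [← sum_mul]
    refine (val_bound (hprime q hq) hX hF).trans (le_of_eq ?_)
    rw [hlogX]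
    ring
  have hlow : (B : ℝ) * (20 * Real.log k) ≤ ∑ n ∈ Ioc B (2 * B), Real.log (FF a n) := by
    have h1 : ∑ n ∈ Ioc B (2 * B), (20 * Real.log k) = (B : ℝ) * (20 * Real.log k) := by
      rw [sum_const, Nat.card_Ioc, nsmul_eq_mul]
      congr 1
      have : 2 * B - B = B := by omega
      rw [this]
    rw [← h1]
    refine sum_le_sum fun n hn => ?_
    have h2 := (size hk ha0 ha hn).1
    have h3 : Real.log (((k ^ 10) ^ 2 : ℕ) : ℝ) ≤ Real.log (FF a n) := by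
      refine Real.log_le_log ?_ (by exact_mod_cast h2)
      push_cast
      positivity
    refine le_trans (le_of_eq ?_) h3
    push_cast
    rw [Real.log_pow, Real.log_pow]
    push_cast
    ring
  rw [sum_union hdisj] at hup
  have hB0 : (0 : ℝ) < (B : ℝ) := by
    rw [hB]; push_cast; positivity
  have hcardA : ((pr 0 k).card : ℝ) ≤ k := by
    have h1 : (pr 0 k).card ≤ (Ioc 0 k).card := card_le_card (filter_subset _ _)
    rw [Nat.card_Ioc, Nat.sub_zero] at h1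
    exact_mod_cast h1
  have hA : ∑ q ∈ pr 0 k, (4 * B * (Real.log q / q) + 52 * Real.log k) ≤
      4 * B * (Real.log k + Real.log 4) + k * (52 * Real.log k) := by
    rw [sum_add_distrib, ← mul_sum, sum_const, nsmul_eq_mul]
    have h1 := Helper52.mertens1 (n := k) (by omega)
    have h2 := mul_le_mul_of_nonneg_left h1 (by positivity : (0 : ℝ) ≤ 4 * B)
    have h3 : ((pr 0 k).card : ℝ) * (52 * Real.log k) ≤ k * (52 * Real.log k) :=
      mul_le_mul_of_nonneg_right hcardA (by linarith)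
    linarith
  have hSb : ∑ q ∈ S, (4 * B * (Real.log q / q) + 52 * Real.log k) ≤
      4 * B * Real.log k + k * (52 * Real.log k) := by
    have h1 : ∀ q ∈ S, (4 * B * (Real.log q / q) + 52 * Real.log k) ≤
        4 * B * (Real.log k / k) + 52 * Real.log k := by
      intro q hq
      have h2 := (Helper52.mem_pr.1 (mem_filter.1 hq).1).1
      have h3 : (k : ℝ) ≤ (q : ℝ) := by exact_mod_cast h2.le
      have h4 : Real.log q / q ≤ Real.log k / k := by
        have he := Real.exp_one_lt_three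
        exact Real.log_div_self_antitoneOn (Set.mem_Ici.2 (by linarith))
          (Set.mem_Ici.2 (by linarith)) h3
      have := mul_le_mul_of_nonneg_left h4 (by positivity : (0 : ℝ) ≤ 4 * B)
      linarith
    have h5 : (S.card : ℝ) ≤ k := by exact_mod_cast hcon
    have h6 : 0 ≤ 4 * (B : ℝ) * (Real.log k / k) + 52 * Real.log k := by positivity
    calc ∑ q ∈ S, (4 * B * (Real.log q / q) + 52 * Real.log k)
        ≤ ∑ q ∈ S, (4 * B * (Real.log k / k) + 52 * Real.log k) := sum_le_sum h1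
      _ = S.card * (4 * B * (Real.log k / k) + 52 * Real.log k) := by
          rw [sum_const, nsmul_eq_mul]
      _ ≤ k * (4 * B * (Real.log k / k) + 52 * Real.log k) :=
          mul_le_mul_of_nonneg_right h5 h6
      _ = 4 * B * Real.log k + k * (52 * Real.log k) := by
          field_simp
  have h4 : Real.log 4 < 1.4 := by
    have h1 : Real.log 4 = 2 * Real.log 2 := by
      rw [show (4 : ℝ) = 2 ^ 2 by norm_num, Real.log_pow]
      norm_num
    have := Real.log_two_lt_d9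
    rw [h1]
    linarith
  have h5 : 104 * (k : ℝ) ≤ B := by
    rw [hB]
    push_cast
    have h6 : (104 : ℝ) ≤ (k : ℝ) ^ 9 := by
      calc (104 : ℝ) ≤ 7 ^ 9 := by norm_num
        _ ≤ (k : ℝ) ^ 9 := pow_le_pow_left₀ (by norm_num) hk7 9
    calc 104 * (k : ℝ) ≤ (k : ℝ) ^ 9 * k := mul_le_mul_of_nonneg_right h6 (by linarith)
      _ = (k : ℝ) ^ 10 := by ring
  have h6 : 104 * (k : ℝ) * Real.log k ≤ B * Real.log k :=
    mul_le_mul_of_nonneg_right h5 (by linarith)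
  have h7 : (B : ℝ) * Real.log 4 ≤ B * 1.4 := mul_le_mul_of_nonneg_left h4.le hB0.le
  have h8 : (B : ℝ) * 1 < B * Real.log k := mul_lt_mul_of_pos_left hL hB0
  nlinarith

end Pool.Agent.SQ
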