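import Pool.Agent.SQ.KCover
import Pool.Agent.SQ.KMany
import Pool.Agent.SQ.KExc

/-! SQ/KClass.  The final residue class: small primes from `coverK`, and one prime in `(k, k^40]` for
each bad pair.

`z = k^40`, `H ≤ k^2`; `a₀` from `excK`.  `Bad` = the pairs `(j, a)`, `j < K`, `|a| ≤ H`, `a ≠ 0` with
`IsSquare (a * a₀)`.  At most `2 Nat.sqrt H + 1` such `a` (`a a₀ = w^2`, and `a'/a` is a rational square:
with `a₀ = ± u^2 c`, `c` squarefree, `a = ± c m^2` with the same sign, `1 ≤ m ≤ √H`; or: `a` is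
determined by `m`), so `|Bad| ≤ K (2 √H + 1) ≤ k`.
`many a₀`: more than `k` primes `p ∈ (k, z]` with `ch a₀ p = 1`; choose an injection
`π : Bad → {such primes}`.  For `(j, a) ∈ Bad`, `p = π (j, a)`: `a a₀ = w^2`, so `a ≡ (w/a₀)^2` mod `p`
(`p ∤ a₀`) and there is `r` with `p ∣ (r + j)^2 - a`... (take `r ≡ w (a₀)⁻¹ - j`).
`n0'` by the Chinese remainder theorem: `n0' ≡ n0` mod `primorial k` (`n0` from `coverK`) and
`n0' ≡ r` mod `π (j, a)`.  `M = primorial k * ∏_{x ∈ Bad} π x ≤ 4^k (k^40)^(|Bad|)`, and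
`|Bad| ≤ K (2 √H + 1)` with `K ≤ l`, `H ≤ k l^2` gives `(k^40)^|Bad| ≤ 2^k` for `k` large.
The pairs without a prime divisor of `M` dividing `(n0' + j)^2 - a` are among those counted in
`coverK`, and are not in `Bad`; so if `a ≠ 0` is not a square then `ch a` is `Good` (`excK`). -/

set_option autoImplicit false

namespace Pool.Agent.SQ

open Finset

open Helper52 (pr)

private theorem kcl_dvd {p k : ℕ} (hp : p.Prime) (hk : p ≤ k) : p ∣ primorial k := by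
  unfold primorial
  apply dvd_prod_of_mem
  rw [mem_filter, mem_range]
  exact ⟨by omega, hp⟩

private theorem kcl_le {p k : ℕ} (hp : p.Prime) (h : p ∣ primorial k) : p ≤ k := by
  unfold primorial at h
  rw [Prime.dvd_finsetProd_iff hp.prime] at h
  obtain ⟨r, hr, hpr⟩ := h
  rw [mem_filter, mem_range] at hr
  have := (Nat.prime_dvd_prime_iff_eq hp hr.2).1 hpr
  omega

/-- the elements of one square class -/
private theorem kcl_form {a₀ : ℤ} (h0 : a₀ ≠ 0) : ∃ s : ℤ, ∃ c : ℕ, ∀ a : ℤ, a ≠ 0 →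
    IsSquare (a * a₀) → ∃ n : ℕ, 1 ≤ n ∧ (n : ℤ) ^ 2 ≤ |a| ∧ a = s * (c * (n : ℤ) ^ 2) := by
  obtain ⟨c, m, hmc, hc⟩ := Nat.sq_mul_squarefree a₀.natAbs
  have hn0 : a₀.natAbs ≠ 0 := Int.natAbs_ne_zero.2 h0
  have hc0 : c ≠ 0 := by
    rintro rfl
    simp at hmc
    exact hn0 hmc.symm
  have hm0 : m ≠ 0 := by
    rintro rfl
    simp at hmc
    exact hn0 hmc.symm
  refine ⟨a₀.sign, c, fun a ha hsq => ?_⟩
  obtain ⟨w, hw⟩ := hsq
  have h1 : a.natAbs * (m ^ 2 * c) = w.natAbs ^ 2 := by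
    rw [hmc, ← Int.natAbs_mul, hw, Int.natAbs_mul, sq]
  have h2 : m ∣ w.natAbs := by
    rw [← Nat.pow_dvd_pow_iff two_ne_zero, ← h1]
    exact ⟨a.natAbs * c, by ring⟩
  obtain ⟨w1, hw1⟩ := h2
  have h3 : a.natAbs * c = w1 ^ 2 := by
    have h4 : m ^ 2 * (a.natAbs * c) = m ^ 2 * w1 ^ 2 := by
      rw [← mul_pow, ← hw1, ← h1]
      ring
    exact Nat.eq_of_mul_eq_mul_left (by positivity) h4
  have h4 : c ∣ w1 := by
    have : c ∣ w1 ^ 2 := by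
      rw [← h3]
      exact dvd_mul_left _ _
    exact (hc.dvd_pow_iff_dvd two_ne_zero).1 this
  obtain ⟨n, hn⟩ := h4
  have h5 : a.natAbs = c * n ^ 2 := by
    have h6 : c * a.natAbs = c * (c * n ^ 2) := by
      rw [mul_comm c a.natAbs, h3, hn]
      ring
    exact Nat.eq_of_mul_eq_mul_left (Nat.pos_of_ne_zero hc0) h6
  have hn0' : n ≠ 0 := by
    rintro rfl
    rw [zero_pow two_ne_zero, mul_zero, Int.natAbs_eq_zero] at h5
    exact ha h5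
  refine ⟨n, Nat.one_le_iff_ne_zero.2 hn0', ?_, ?_⟩
  · rw [← Int.natCast_natAbs, h5]
    have : n ^ 2 ≤ c * n ^ 2 := Nat.le_mul_of_pos_left _ (Nat.pos_of_ne_zero hc0)
    exact_mod_cast this
  · have h6 : 0 ≤ a * a₀ := by
      rw [hw]
      exact mul_self_nonneg w
    have h7 : 0 < a * a₀ := lt_of_le_of_ne h6 (mul_ne_zero ha h0).symm
    have h8 : a.sign = a₀.sign := by
      rcases lt_or_gt_of_ne h0 with h | h
      · have h9 : a < 0 := by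
          by_contra hh
          push Not at hh
          nlinarith
        rw [Int.sign_eq_neg_one_of_neg h, Int.sign_eq_neg_one_of_neg h9]
      · have h9 : 0 < a := by
          by_contra hh
          push Not at hh
          nlinarith
        rw [Int.sign_eq_one_of_pos h, Int.sign_eq_one_of_pos h9]
    have h9 : (c : ℤ) * (n : ℤ) ^ 2 = (a.natAbs : ℤ) := by
      rw [h5]
      push_cast
      ring
    rw [← h8, h9]
    exact (Int.sign_mul_natAbs a).symm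

open Classical in
/-- few elements of one square class -/
private theorem kcl_card {a₀ : ℤ} (h0 : a₀ ≠ 0) (H : ℕ) :
    ((Icc (-(H : ℤ)) H).filter (fun a => a ≠ 0 ∧ IsSquare (a * a₀))).card ≤ Nat.sqrt H := by
  obtain ⟨s, c, hsc⟩ := kcl_form h0
  have hsub : (Icc (-(H : ℤ)) H).filter (fun a => a ≠ 0 ∧ IsSquare (a * a₀)) ⊆
      (Icc 1 (Nat.sqrt H)).image (fun n : ℕ => s * (c * (n : ℤ) ^ 2)) := by
    intro a ha
    rw [mem_filter, mem_Icc] at ha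
    obtain ⟨⟨h1, h2⟩, h3, h4⟩ := ha
    obtain ⟨n, hn1, hn2, hn3⟩ := hsc a h3 h4
    rw [mem_image]
    refine ⟨n, ?_, hn3.symm⟩
    rw [mem_Icc]
    refine ⟨hn1, ?_⟩
    rw [Nat.le_sqrt]
    have h5 : |a| ≤ H := abs_le.2 ⟨h1, h2⟩
    have h6 : (n : ℤ) ^ 2 ≤ H := hn2.trans h5
    have h7 : n ^ 2 ≤ H := by exact_mod_cast h6
    rwa [sq] at h7
  refine (card_le_card hsub).trans (card_image_le.trans ?_)
  rw [Nat.card_Icc]
  omega

/-- solve `(r + j)^2 = a` modulo `p` -/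
private theorem kcl_root {a₀ a : ℤ} {p : ℕ} (hp : p.Prime) (hch : ch a₀ p = 1)
    (hsq : IsSquare (a * a₀)) (j : ℕ) :
    ∃ r : ℕ, (p : ℤ) ∣ ((r : ℤ) + j) ^ 2 - a := by
  haveI : Fact p.Prime := ⟨hp⟩
  have h2 : p % 2 = 1 := by
    by_contra h
    unfold ch at hch
    rw [if_neg h] at hch
    exact zero_ne_one hch
  have h3 : jacobiSym a₀ p = 1 := by
    unfold ch at hch
    rw [if_pos h2] at hch
    exact_mod_cast hch
  rw [← jacobiSym.legendreSym.to_jacobiSym] at h3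
  have h4 : (a₀ : ZMod p) ≠ 0 := by
    intro h5
    rw [← legendreSym.eq_zero_iff] at h5
    rw [h5] at h3
    exact zero_ne_one h3
  have h5 : IsSquare (a₀ : ZMod p) := (legendreSym.eq_one_iff p h4).1 h3
  obtain ⟨y, hy⟩ := h5
  obtain ⟨w, hw⟩ := hsq
  have hw' : (a : ZMod p) * (a₀ : ZMod p) = (w : ZMod p) * w := by
    have := congrArg (Int.cast : ℤ → ZMod p) hw
    push_cast at this
    exact this
  have hy0 : y ≠ 0 := by
    rintro rfl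
    rw [mul_zero] at hy
    exact h4 hy
  have h6 : (a : ZMod p) = (w / y) * (w / y) := by
    rw [hy] at hw'
    field_simp
    rw [sq, sq, ← hw']
  refine ⟨((w : ZMod p) / y - j).val, ?_⟩
  rw [← ZMod.intCast_zmod_eq_zero_iff_dvd]
  push_cast
  rw [ZMod.natCast_zmod_val, h6]
  ring

/-- size estimates -/
private theorem kcl_size {k : ℕ} {l l2 l3 : ℝ} {b : ℕ} (hPS : PS k l l2 l3 b) {H : ℕ}
    (hHl : 2 * (H : ℝ) ≤ k * l ^ 2) {K : ℕ} (hKl : (K : ℝ) ≤ l) {n : ℕ}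
    (hn : n ≤ K * Nat.sqrt H) : 40 * l * n ≤ k * Real.log 2 ∧ n ≤ k := by
  obtain ⟨e1, -, -, -, -, f1, -, f2, -, -⟩ := hPS.facts
  have hl0 : (0 : ℝ) ≤ l := by linarith
  have hk0 : (0 : ℝ) ≤ k := Nat.cast_nonneg _
  have hS : ((Nat.sqrt H : ℕ) : ℝ) ^ 2 ≤ H := by
    have := Nat.sqrt_le' H
    exact_mod_cast this
  have hn' : (n : ℝ) ≤ l * (Nat.sqrt H : ℕ) := by
    have h1 : (n : ℝ) ≤ (K : ℝ) * (Nat.sqrt H : ℕ) := by exact_mod_cast hn
    exact h1.trans (mul_le_mul_of_nonneg_right hKl (Nat.cast_nonneg _))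
  set S : ℝ := ((Nat.sqrt H : ℕ) : ℝ) with hSdef
  have hS0 : 0 ≤ S := Nat.cast_nonneg _
  have h2 : 2 * S ^ 2 ≤ k * l ^ 2 := by linarith
  have h3 : (1000 : ℝ) ^ 2 ≤ l ^ 2 := by gcongr
  have h4 : 1000000 * l ^ 6 ≤ k := by
    have : (1000 : ℝ) ^ 2 * l ^ 6 ≤ l ^ 2 * l ^ 6 := mul_le_mul_of_nonneg_right h3 (by positivity)
    have e : l ^ 2 * l ^ 6 = l ^ 8 := by ring
    rw [e] at this
    norm_num at this
    linarith
  have h5 : (40 * l ^ 2 * S) ^ 2 ≤ (k / 2) ^ 2 := by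
    have h6 : (40 * l ^ 2 * S) ^ 2 = 800 * l ^ 4 * (2 * S ^ 2) := by ring
    rw [h6]
    have h7 : 800 * l ^ 4 * (2 * S ^ 2) ≤ 800 * l ^ 4 * (k * l ^ 2) :=
      mul_le_mul_of_nonneg_left h2 (by positivity)
    have h8 : 800 * l ^ 4 * (k * l ^ 2) = 800 * (k * l ^ 6) := by ring
    have h9 : k * (1000000 * l ^ 6) ≤ k * k := mul_le_mul_of_nonneg_left h4 hk0
    have h10 : 0 ≤ (k : ℝ) * l ^ 6 := by positivity
    nlinarith
  have h6 : 40 * l ^ 2 * S ≤ k / 2 := by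
    apply le_of_sq_le_sq _ (by positivity)
    exact h5
  have hlog : (1 : ℝ) / 2 ≤ Real.log 2 := by
    have := Real.log_two_gt_d9
    linarith
  have h7 : 40 * l * n ≤ 40 * l ^ 2 * S := by
    have : 40 * l * n ≤ 40 * l * (l * S) := mul_le_mul_of_nonneg_left hn' (by positivity)
    have e : 40 * l * (l * S) = 40 * l ^ 2 * S := by ring
    linarith
  constructor
  · have h8 : (k : ℝ) * (1 / 2) ≤ k * Real.log 2 := mul_le_mul_of_nonneg_left hlog hk0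
    linarith
  · have h9 : (n : ℝ) ≤ 40 * l * n := by
      have : (0 : ℝ) ≤ n := Nat.cast_nonneg _
      nlinarith
    have h10 : (n : ℝ) ≤ k := by linarith
    exact_mod_cast h10

private theorem kcl_H {k : ℕ} {l l2 l3 : ℝ} {b : ℕ} (hPS : PS k l l2 l3 b) {H : ℕ}
    (hHl : 2 * (H : ℝ) ≤ k * l ^ 2) : (4 * (H : ℝ) ^ 2) ^ 8 ≤ ((k ^ 40 : ℕ) : ℝ) ∧ H ≤ k ^ 2 := by
  obtain ⟨e1, -, -, -, -, f1, -, f2, -, -⟩ := hPS.facts
  have hl1 : (1 : ℝ) ≤ l := by linarith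
  have hk0 : (0 : ℝ) ≤ k := Nat.cast_nonneg _
  have hk1 : (1 : ℝ) ≤ k := le_trans (one_le_pow₀ hl1) f1
  have h1 : l ^ 2 ≤ k := (pow_le_pow_right₀ hl1 (by norm_num)).trans f1
  have h2 : l ^ 4 ≤ k := (pow_le_pow_right₀ hl1 (by norm_num)).trans f1
  constructor
  · have h3 : 4 * (H : ℝ) ^ 2 ≤ k ^ 3 := by
      have h4 : (2 * (H : ℝ)) ^ 2 ≤ (k * l ^ 2) ^ 2 := by gcongr
      have h5 : (k * l ^ 2 : ℝ) ^ 2 = k ^ 2 * l ^ 4 := by ring
      have h6 : (k : ℝ) ^ 2 * l ^ 4 ≤ k ^ 2 * k := mul_le_mul_of_nonneg_left h2 (by positivity)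
      nlinarith
    calc (4 * (H : ℝ) ^ 2) ^ 8 ≤ ((k : ℝ) ^ 3) ^ 8 := by gcongr
      _ = (k : ℝ) ^ 24 := by ring
      _ ≤ (k : ℝ) ^ 40 := pow_le_pow_right₀ hk1 (by norm_num)
      _ = ((k ^ 40 : ℕ) : ℝ) := by push_cast; ring
  · have h3 : (k : ℝ) * l ^ 2 ≤ k * k := mul_le_mul_of_nonneg_left h1 hk0
    have h4 : (H : ℝ) ≤ k ^ 2 := by
      have : (0 : ℝ) ≤ H := Nat.cast_nonneg _
      nlinarith
    exact_mod_cast h4

open Classical in
theorem classK : ∃ (C0 : ℕ) (c2 C : ℝ), 1 ≤ C0 ∧ 0 < c2 ∧ 0 < C ∧ ∃ k0 : ℕ, ∀ k : ℕ, k0 ≤ k →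
    ∀ (l l2 l3 : ℝ) (b : ℕ), PS k l l2 l3 b → ∀ H : ℕ, k ≤ H → 2 * (H : ℝ) ≤ k * l ^ 2 →
    ∀ K : ℕ, 1 ≤ K → (K : ℝ) ≤ l →
    ∃ M n0 : ℕ, 0 < M ∧ M ≤ 8 ^ k ∧ (∀ p : ℕ, p.Prime → p ∣ M → p ≤ k ^ 40) ∧
      (((range K ×ˢ Icc (-(H : ℤ)) H).filter (fun x : ℕ × ℤ => ¬ IsSquare x.2 ∧
        ∀ p : ℕ, p.Prime → p ∣ M → ¬ (p : ℤ) ∣ ((n0 : ℤ) + x.1) ^ 2 - x.2)).card : ℝ) ≤
      C * (K * (H * l2 ^ 2 / (l ^ 2 * l3))) ∧
      ∀ x ∈ range K ×ˢ Icc (-(H : ℤ)) H, ¬ IsSquare x.2 →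
        (∀ p : ℕ, p.Prime → p ∣ M → ¬ (p : ℤ) ∣ ((n0 : ℤ) + x.1) ^ 2 - x.2) →
        Good C0 c2 (ch x.2) (k ^ 40) := by
  obtain ⟨C, hC, k1, hcov⟩ := coverK
  obtain ⟨C0, c2, z0, hC0, hc2, hexc⟩ := excK
  obtain ⟨k2, hmany⟩ := many
  refine ⟨C0, c2, C, hC0, hc2, hC, max k1 (max k2 z0), fun k hk l l2 l3 b hPS H hkH hHl K hK1
    hKl => ?_⟩
  have hk1 : k1 ≤ k := (le_max_left _ _).trans hk
  have hk2 : k2 ≤ k := ((le_max_left _ _).trans (le_max_right _ _)).trans hk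
  have hz0 : z0 ≤ k := ((le_max_right _ _).trans (le_max_right _ _)).trans hk
  have hkpos : 0 < k := hPS.kpos
  obtain ⟨e1, -, -, -, -, f1, -, f2, -, -⟩ := hPS.facts
  have hl1 : (1 : ℝ) ≤ l := by linarith
  obtain ⟨hH8, hHk2⟩ := kcl_H hPS hHl
  have hKH : K ^ 2 ≤ H := by
    have h1 : (K : ℝ) ^ 2 ≤ l ^ 2 := by gcongr
    have h2 : l ^ 2 ≤ k := (pow_le_pow_right₀ hl1 (by norm_num)).trans f1
    have h3 : K ^ 2 ≤ k := by exact_mod_cast h1.trans h2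
    exact h3.trans hkH
  have hzk : z0 ≤ k ^ 40 := hz0.trans (Nat.le_self_pow (by norm_num) k)
  obtain ⟨a₀, ha0, ha0H, hex⟩ := hexc (k ^ 40) hzk H (by omega) hH8
  have ha0k : |a₀| ≤ (k : ℤ) ^ 2 := by
    have : (H : ℤ) ≤ (k : ℤ) ^ 2 := by exact_mod_cast hHk2
    exact ha0H.trans this
  have hT := hmany k hk2 a₀ ha0 ha0k
  obtain ⟨n0, hn0⟩ := hcov k hk1 l l2 l3 b hPS H hkH hHl K hKH
  -- the bad pairs
  set A := (Icc (-(H : ℤ)) H).filter (fun a => a ≠ 0 ∧ IsSquare (a * a₀)) with hA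
  set B := range K ×ˢ A with hB
  have hBcard : B.card ≤ K * Nat.sqrt H := by
    rw [hB, card_product, card_range]
    exact Nat.mul_le_mul_left _ (kcl_card ha0 H)
  obtain ⟨hsz, hBk⟩ := kcl_size hPS hHl hKl hBcard
  set T := (pr k (k ^ 40)).filter (fun p => ch a₀ p = 1) with hTdef
  have hBT : Fintype.card B ≤ Fintype.card T := by
    rw [Fintype.card_coe, Fintype.card_coe]
    omega
  obtain ⟨e⟩ := Function.Embedding.nonempty_of_card_le hBT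
  have heT : ∀ x : B, (k < (e x : ℕ) ∧ (e x : ℕ) ≤ k ^ 40 ∧ (e x : ℕ).Prime) ∧
      ch a₀ (e x : ℕ) = 1 := by
    intro x
    have hTm : ∀ p ∈ T, (k < p ∧ p ≤ k ^ 40 ∧ p.Prime) ∧ ch a₀ p = 1 := by
      intro p hp
      rw [hTdef, mem_filter, Helper52.mem_pr] at hp
      exact hp
    exact hTm _ (e x).2
  have hxB : ∀ x : B, IsSquare (x.1.2 * a₀) := by
    intro x
    have hBm : ∀ y ∈ B, IsSquare (y.2 * a₀) := by
      intro y hy
      rw [hB, mem_product, hA, mem_filter] at hy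
      exact hy.2.2.2
    exact hBm _ x.2
  choose r hr using fun x : B => kcl_root (heT x).1.2.2 (heT x).2 (hxB x) x.1.1
  obtain ⟨n1, hn1⟩ := Nat.chineseRemainderOfFinset r (fun x : B => (e x : ℕ)) univ
    (fun x _ => (heT x).1.2.2.ne_zero)
    (by
      intro x _ y _ hxy
      refine (Nat.coprime_primes (heT x).1.2.2 (heT y).1.2.2).2 ?_
      intro h
      exact hxy (e.injective (Subtype.ext h)))
  set P : ℕ := ∏ x : B, (e x : ℕ) with hP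
  have hcop : Nat.Coprime (primorial k) P := by
    rw [hP]
    refine Nat.Coprime.prod_right fun x _ => ?_
    refine Nat.Coprime.symm (((heT x).1.2.2.coprime_iff_not_dvd).2 fun h => ?_)
    have := kcl_le (heT x).1.2.2 h
    have := (heT x).1.1
    omega
  obtain ⟨n', hn'0, hn'1⟩ := Nat.chineseRemainder hcop n0 n1
  have hprim0 : 0 < primorial k := primorial_pos k
  have hP0 : 0 < P := by
    rw [hP]
    exact prod_pos fun x _ => (heT x).1.2.2.pos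
  have hPle : P ≤ 2 ^ k := by
    have h1 : P ≤ (k ^ 40) ^ B.card := by
      rw [hP]
      refine (prod_le_prod' fun x _ => (heT x).1.2.1).trans ?_
      rw [prod_const, card_univ, Fintype.card_coe]
    have h2 : (((k ^ 40) ^ B.card : ℕ) : ℝ) ≤ ((2 ^ k : ℕ) : ℝ) := by
      push_cast
      have h3 : ((k : ℝ) ^ 40) ^ B.card = Real.exp (40 * l * B.card) := by
        rw [e1, ← Real.exp_nat_mul, ← Real.exp_nat_mul]
        congr 1
        push_cast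
        ring
      have h4 : (2 : ℝ) ^ k = Real.exp (k * Real.log 2) := by
        rw [mul_comm, Real.exp_mul, Real.exp_log (by norm_num), Real.rpow_natCast]
      rw [h3, h4]
      exact Real.exp_le_exp.2 hsz
    exact h1.trans (by exact_mod_cast h2)
  have hmodk : ∀ p : ℕ, p.Prime → p ≤ k → (n' : ℤ) ≡ n0 [ZMOD p] := by
    intro p hp hpk
    have h1 : n' ≡ n0 [MOD p] := hn'0.of_dvd (kcl_dvd hp hpk)
    exact (Int.natCast_modEq_iff).2 h1
  have hmodx : ∀ x : B, (((e x : ℕ) : ℕ) : ℤ) ∣ ((n' : ℤ) + x.1.1) ^ 2 - x.1.2 := by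
    intro x
    have h1 : (e x : ℕ) ∣ P := by
      rw [hP]
      exact dvd_prod_of_mem (fun x : B => (e x : ℕ)) (mem_univ x)
    have h2 : n' ≡ n1 [MOD (e x : ℕ)] := hn'1.of_dvd h1
    have h3 : n' ≡ r x [MOD (e x : ℕ)] := h2.trans (hn1 x (mem_univ x))
    have h4 : (n' : ℤ) ≡ r x [ZMOD ((e x : ℕ) : ℤ)] := (Int.natCast_modEq_iff).2 h3
    have h5 : ((n' : ℤ) + x.1.1) ^ 2 - x.1.2 ≡ ((r x : ℤ) + x.1.1) ^ 2 - x.1.2
        [ZMOD ((e x : ℕ) : ℤ)] := ((h4.add_right _).pow 2).sub_right _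
    have h6 : ((r x : ℤ) + x.1.1) ^ 2 - x.1.2 ≡ 0 [ZMOD ((e x : ℕ) : ℤ)] :=
      (Int.modEq_zero_iff_dvd).2 (hr x)
    exact (Int.modEq_zero_iff_dvd).1 (h5.trans h6)
  refine ⟨primorial k * P, n', Nat.mul_pos hprim0 hP0, ?_, ?_, ?_, ?_⟩
  · calc primorial k * P ≤ 4 ^ k * 2 ^ k := Nat.mul_le_mul (primorial_le_four_pow k) hPle
      _ = 8 ^ k := by
          rw [← mul_pow]
          norm_num
  · intro p hp hpM
    rcases (hp.dvd_mul).1 hpM with h | h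
    · exact (kcl_le hp h).trans (Nat.le_self_pow (by norm_num) k)
    · rw [hP, Prime.dvd_finsetProd_iff hp.prime] at h
      obtain ⟨x, -, hx⟩ := h
      have := (Nat.prime_dvd_prime_iff_eq hp (heT x).1.2.2).1 hx
      rw [this]
      exact (heT x).1.2.1
  · refine le_trans ?_ hn0
    have hsub : (range K ×ˢ Icc (-(H : ℤ)) H).filter (fun x : ℕ × ℤ => ¬ IsSquare x.2 ∧
        ∀ p : ℕ, p.Prime → p ∣ primorial k * P → ¬ (p : ℤ) ∣ ((n' : ℤ) + x.1) ^ 2 - x.2) ⊆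
      (range K ×ˢ Icc (-(H : ℤ)) H).filter (fun x : ℕ × ℤ => x.2 ≠ (x.1 : ℤ) ^ 2 ∧
        ∀ p : ℕ, p.Prime → p ≤ k → ¬ (p : ℤ) ∣ ((n0 : ℤ) + x.1) ^ 2 - x.2) := by
      intro x hx
      rw [mem_filter] at hx ⊢
      obtain ⟨h1, h2, h3⟩ := hx
      refine ⟨h1, fun h => h2 ⟨(x.1 : ℤ), by rw [h, sq]⟩, fun p hp hpk hd => ?_⟩
      apply h3 p hp ((kcl_dvd hp hpk).mul_right _)
      have h5 : ((n' : ℤ) + x.1) ^ 2 - x.2 ≡ ((n0 : ℤ) + x.1) ^ 2 - x.2 [ZMOD (p : ℤ)] :=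
        (((hmodk p hp hpk).add_right _).pow 2).sub_right _
      have h6 : ((n0 : ℤ) + x.1) ^ 2 - x.2 ≡ 0 [ZMOD (p : ℤ)] := (Int.modEq_zero_iff_dvd).2 hd
      exact (Int.modEq_zero_iff_dvd).1 (h5.trans h6)
    exact_mod_cast card_le_card hsub
  · intro x hx hns hsur
    have hx2 := (mem_product.1 hx).2
    have hx1 := (mem_product.1 hx).1
    have h0 : x.2 ≠ 0 := by
      intro h
      exact hns (h ▸ ⟨0, by simp⟩)
    have habs : |x.2| ≤ H := by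
      rw [mem_Icc] at hx2
      exact abs_le.2 hx2
    rcases hex x.2 h0 habs hns with h | h
    · exact h
    · exfalso
      have hxB' : x ∈ B := by
        rw [hB, mem_product, hA, mem_filter]
        exact ⟨hx1, hx2, h0, h⟩
      refine hsur (e ⟨x, hxB'⟩ : ℕ) (heT _).1.2.2 ?_ (hmodx ⟨x, hxB'⟩)
      refine Dvd.dvd.mul_left ?_ _
      rw [hP]
      exact dvd_prod_of_mem (fun x : B => (e x : ℕ)) (mem_univ _)

end Pool.Agent.SQ
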