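import Pool.Agent.SQ.Rt

/-! SQ/KLf.  Shifted local functions `n ↦ lf p a (n + j)`.

Mean and second moment: shift of a `p`-periodic function (`lf_per`, sum over a complete residue
system).  Correlation: for `(j, a)`, `(j', a')` with `p ∤ R = (a - a' + (j-j')^2)^2 - 4 a (j-j')^2` no `n`
satisfies `(n+j)^2 ≡ a` and `(n+j')^2 ≡ a'` mod `p` (put `m = n + j`, `δ = j - j'`:
`m^2 ≡ a`, `(m - δ)^2 ≡ a'`, so `2 m δ ≡ a - a' + δ^2`, square: `4 a δ^2 ≡ (a - a' + δ^2)^2`), so the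
two pairs of residues are disjoint and the sum is `-4 p/(p-2)^2` as in `lf_cor`. -/

set_option autoImplicit false

namespace Pool.Agent.SQ

open Finset

private theorem shift_one (p : ℕ) (G : ℤ → ℝ) (h : ∀ n, G (n + p) = G n) :
    ∑ u ∈ range p, G ((u : ℤ) + 1) = ∑ u ∈ range p, G (u : ℤ) := by
  have h1 := Finset.sum_range_succ' (fun u : ℕ => G (u : ℤ)) p
  have h2 := Finset.sum_range_succ (fun u : ℕ => G (u : ℤ)) p
  have h3 : G ((p : ℕ) : ℤ) = G ((0 : ℕ) : ℤ) := by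
    have := h 0
    rw [zero_add] at this
    rw [this]
    rfl
  have h4 : ∑ u ∈ range p, G (((u + 1 : ℕ) : ℤ)) = ∑ u ∈ range p, G ((u : ℤ) + 1) := by
    refine sum_congr rfl fun u _ => ?_
    rw [Nat.cast_add, Nat.cast_one]
  rw [← h4]
  linarith

private theorem shift_sum (p : ℕ) (F : ℤ → ℝ) (h : ∀ n, F (n + p) = F n) (j : ℕ) :
    ∑ u ∈ range p, F ((u : ℤ) + j) = ∑ u ∈ range p, F (u : ℤ) := by
  induction j with
  | zero => simp
  | succ j ih =>
    rw [← ih]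
    have h1 := shift_one p (fun n => F (n + j)) (fun n => by
      rw [show n + (p : ℤ) + j = n + j + p by ring]
      exact h (n + j))
    rw [← h1]
    refine sum_congr rfl fun u _ => ?_
    rw [show (u : ℤ) + ((j + 1 : ℕ) : ℤ) = (u : ℤ) + 1 + j by push_cast; ring]

theorem lfs_mean {p : ℕ} (hp : p.Prime) (h4 : 4 ≤ p) {a : ℤ} (ha : ch a p = 1) (j : ℕ) :
    ∑ u ∈ range p, lf p a ((u : ℤ) + j) = 0 := by
  rw [shift_sum p (fun n => lf p a n) (fun n => lf_per p a n) j]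
  exact lf_mean hp h4 ha

theorem lfs_sq {p : ℕ} (hp : p.Prime) (h4 : 4 ≤ p) {a : ℤ} (ha : ch a p = 1) (j : ℕ) :
    ∑ u ∈ range p, lf p a ((u : ℤ) + j) ^ 2 = p / (((p : ℝ) - 2) / 2) := by
  rw [shift_sum p (fun n => lf p a n ^ 2) (fun n => by
    show lf p a (n + p) ^ 2 = lf p a n ^ 2
    rw [lf_per]) j]
  exact lf_sq hp h4 ha

theorem lfs_cor {p : ℕ} (hp : p.Prime) (h4 : 4 ≤ p) {a a' : ℤ} (ha : ch a p = 1)
    (ha' : ch a' p = 1) (j j' : ℕ)
    (hR : ¬ (p : ℤ) ∣ (a - a' + ((j : ℤ) - j') ^ 2) ^ 2 - 4 * a * ((j : ℤ) - j') ^ 2) :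
    |∑ u ∈ range p, lf p a ((u : ℤ) + j) * lf p a' ((u : ℤ) + j')| ≤
      p / (((p : ℝ) - 2) / 2) ^ 2 := by
  have h4' : (4 : ℝ) ≤ p := by exact_mod_cast h4
  set c : ℝ := 2 / ((p : ℝ) - 2) with hc
  have h1 : ∀ u ∈ range p, lf p a ((u : ℤ) + j) * lf p a' ((u : ℤ) + j') =
      c * lf p a ((u : ℤ) + j) + (c * lf p a' ((u : ℤ) + j') - c ^ 2) := by
    intro u _
    by_cases hA : (p : ℤ) ∣ ((u : ℤ) + j) ^ 2 - a
    · by_cases hB : (p : ℤ) ∣ ((u : ℤ) + j') ^ 2 - a'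
      · exfalso
        apply hR
        obtain ⟨x, hx⟩ := hA
        obtain ⟨y, hy⟩ := hB
        have e1 : a = ((u : ℤ) + j) ^ 2 - p * x := by linarith
        have e2 : a' = ((u : ℤ) + j') ^ 2 - p * y := by linarith
        have e3 : a - a' + ((j : ℤ) - j') ^ 2 =
            2 * ((u : ℤ) + j) * ((j : ℤ) - j') + p * (y - x) := by
          rw [e1, e2]; ring
        rw [e3]
        refine ⟨4 * ((u : ℤ) + j) * ((j : ℤ) - j') * (y - x) + p * (y - x) ^ 2 +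
          4 * x * ((j : ℤ) - j') ^ 2, ?_⟩
        rw [e1]; ring
      · unfold lf
        rw [if_pos hA, if_neg hB]
        ring
    · by_cases hB : (p : ℤ) ∣ ((u : ℤ) + j') ^ 2 - a'
      · unfold lf
        rw [if_neg hA, if_pos hB]
        ring
      · unfold lf
        rw [if_neg hA, if_neg hB]
        ring
  rw [sum_congr rfl h1, sum_add_distrib, sum_sub_distrib, ← mul_sum, ← mul_sum,
    lfs_mean hp h4 ha, lfs_mean hp h4 ha', sum_const, card_range, nsmul_eq_mul]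
  have hne : (p : ℝ) - 2 ≠ 0 := by linarith
  have e : c * 0 + (c * 0 - (p : ℝ) * c ^ 2) = - ((p : ℝ) / (((p : ℝ) - 2) / 2) ^ 2) := by
    rw [hc]
    field_simp
    ring
  rw [e, abs_neg, abs_of_nonneg (by positivity)]

end Pool.Agent.SQ
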