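import Pool.Agent.SQ.KSumF
import Pool.Agent.SQ.Choice

/-! SQ/KCover.  The residue class for `K` consecutive integers; compare `Pool/Agent/SQ/Cover.lean`.

`F` = the pairs `(j, a)`, `j < K`, `|a| ≤ H`, with `a - j^2 ∈ Fre k (2^b) (2 H)` (`K^2 ≤ H`, so
`|a - j^2| ≤ 2 H`).  `P` = primes `≤ 2^b`, `R p (j, a) = {r < p : p ∣ (r + j)^2 - a}`, which has
`(rt p a).card` elements (shift by `j` modulo `p`; `mem_rt`).  `choice` and `loc_bound`:
there is `c` with `#{(j,a) ∈ F : ∀ p ∈ P, c p ∉ R p (j,a)} ≤ 2 ∏_P (1 - 1/p) ∑_{(j,a) ∈ F} gg P a`,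
`∑_{(j,a) ∈ F} gg P a ≤ ∑_{j < K} ∑_{m ∈ Fre k (2^b) (2H)} gg P (j^2 + m) ≤ K C 2 H l2/l` (`sumFK` with
`2 H ≤ k l^2`) and `∏_P (1 - 1/p) ≤ 1/(b log 2) ≤ 512 l2/(l l3)`.
`n0` by the Chinese remainder theorem (see how SQ/Cover.lean does it): `n0 ≡ c p` mod `p ≤ 2^b`,
`n0 ≡ 0` mod the primes in `(2^b, k]`.  If no prime `p ≤ k` divides `(n0 + j)^2 - a` and `a ≠ j^2` then
no `p ∈ (2^b, k]` divides `a - j^2` and `(j, a)` is counted above. -/

set_option autoImplicit false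

namespace Pool.Agent.SQ

open Finset

open Helper52 (pr)

/-- the roots of `(r + j)^2 = a` modulo `p` -/
private noncomputable def krt (p : ℕ) (x : ℕ × ℤ) : Finset ℕ :=
  (range p).filter (fun r => (p : ℤ) ∣ ((r : ℤ) + x.1) ^ 2 - x.2)

private theorem krt_card {p : ℕ} (hp : 0 < p) (x : ℕ × ℤ) : (krt p x).card = (rt p x.2).card := by
  classical
  apply Finset.card_bij (fun r _ => (r + x.1) % p)
  · intro r hr
    unfold krt at hr
    rw [mem_filter] at hr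
    rw [mem_rt]
    refine ⟨Nat.mod_lt _ hp, ?_⟩
    have h1 : (p : ℤ) ∣ ((r : ℤ) + x.1) - (((r + x.1) % p : ℕ) : ℤ) := by
      rw [Int.natCast_mod]
      push_cast
      exact Int.dvd_self_sub_emod
    have h2 : ((((r + x.1) % p : ℕ) : ℤ)) ^ 2 - x.2 = (((r : ℤ) + x.1) ^ 2 - x.2) -
        (((r : ℤ) + x.1) - (((r + x.1) % p : ℕ) : ℤ)) *
          (((r : ℤ) + x.1) + (((r + x.1) % p : ℕ) : ℤ)) := by ring
    rw [h2]
    exact dvd_sub hr.2 (Dvd.dvd.mul_right h1 _)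
  · intro r hr r' hr' h
    unfold krt at hr hr'
    rw [mem_filter, mem_range] at hr hr'
    have h1 : r + x.1 ≡ r' + x.1 [MOD p] := h
    have h2 : r ≡ r' [MOD p] := Nat.ModEq.add_right_cancel' _ h1
    exact Nat.ModEq.eq_of_lt_of_lt h2 hr.1 hr'.1
  · intro s hs
    rw [mem_rt] at hs
    obtain ⟨r, hr⟩ : ∃ r : ℕ, r < p ∧ r + x.1 ≡ s [MOD p] := by
      refine ⟨(s + (p - x.1 % p)) % p, Nat.mod_lt _ hp, ?_⟩
      have h1 : (s + (p - x.1 % p)) % p ≡ s + (p - x.1 % p) [MOD p] := Nat.mod_modEq _ _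
      have h2 : x.1 ≡ x.1 % p [MOD p] := (Nat.mod_modEq _ _).symm
      have h3 := h1.add h2
      have h4 : s + (p - x.1 % p) + x.1 % p = s + p := by
        have := Nat.mod_lt x.1 hp
        omega
      rw [h4] at h3
      refine h3.trans ?_
      show (s + p) % p = s % p
      exact Nat.add_mod_right _ _
    refine ⟨r, ?_, ?_⟩
    · unfold krt
      rw [mem_filter, mem_range]
      refine ⟨hr.1, ?_⟩
      have h1 : (p : ℤ) ∣ (s : ℤ) - ((r + x.1 : ℕ) : ℤ) := (Nat.modEq_iff_dvd).1 hr.2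
      push_cast at h1
      have h2 : ((r : ℤ) + x.1) ^ 2 - x.2 = ((s : ℤ) ^ 2 - x.2) -
          ((s : ℤ) - ((r : ℤ) + x.1)) * ((s : ℤ) + ((r : ℤ) + x.1)) := by ring
      rw [h2]
      exact dvd_sub hs.2 (Dvd.dvd.mul_right h1 _)
    · have h1 : (r + x.1) % p = s % p := hr.2
      show (r + x.1) % p = s
      rw [h1, Nat.mod_eq_of_lt hs.1]

private theorem ksq_dvd {p n c j : ℕ} {a : ℤ} (h : n ≡ c [MOD p])
    (h2 : (p : ℤ) ∣ ((c : ℤ) + j) ^ 2 - a) : (p : ℤ) ∣ ((n : ℤ) + j) ^ 2 - a := by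
  have h1 : (p : ℤ) ∣ (c : ℤ) - n := (Nat.modEq_iff_dvd).1 h
  have h3 : ((n : ℤ) + j) ^ 2 - a = (((c : ℤ) + j) ^ 2 - a) -
      ((c : ℤ) - n) * ((c : ℤ) + j + (n + j)) := by ring
  rw [h3]
  exact dvd_sub h2 (Dvd.dvd.mul_right h1 _)

open Classical in
theorem coverK : ∃ C : ℝ, 0 < C ∧ ∃ k0 : ℕ, ∀ k : ℕ, k0 ≤ k → ∀ (l l2 l3 : ℝ) (b : ℕ),
    PS k l l2 l3 b → ∀ H : ℕ, k ≤ H → 2 * (H : ℝ) ≤ k * l ^ 2 → ∀ K : ℕ, K ^ 2 ≤ H →
    ∃ n0 : ℕ,
      (((range K ×ˢ Icc (-(H : ℤ)) H).filter (fun x : ℕ × ℤ => x.2 ≠ (x.1 : ℤ) ^ 2 ∧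
        ∀ p : ℕ, p.Prime → p ≤ k → ¬ (p : ℤ) ∣ ((n0 : ℤ) + x.1) ^ 2 - x.2)).card : ℝ) ≤
      C * (K * (H * l2 ^ 2 / (l ^ 2 * l3))) := by
  obtain ⟨C, hC, k0, hk0⟩ := sumFK
  refine ⟨2048 * C, by positivity, k0, ?_⟩
  intro k hk l l2 l3 b hPS H hkH hH K hK
  have hfac := hPS.facts
  have h2bk : 2 ^ b ≤ k := hfac.2.2.2.2.2.2.2.2.2
  set P := pr 0 (2 ^ b) with hP
  have hPp : ∀ p ∈ P, p.Prime ∧ p ≤ 2 ^ b := by
    intro p hp
    rw [hP, Helper52.mem_pr] at hp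
    exact ⟨hp.2.2, hp.2.1⟩
  set F : Finset (ℕ × ℤ) := (range K ×ˢ Icc (-(H : ℤ)) H).filter
    (fun x : ℕ × ℤ => x.2 - (x.1 : ℤ) ^ 2 ∈ Fre k (2 ^ b) (2 * H)) with hF
  obtain ⟨c, hc1, hc2⟩ := choice P (fun p hp => (hPp p hp).1.one_lt.le) F krt
    (fun p _ a => by unfold krt; exact filter_subset _ _)
  have hcrt := Nat.chineseRemainderOfFinset (fun p => if p ∈ P then c p else 0) (fun p => p)
    (pr 0 k)
    (by
      intro p hp
      rw [Helper52.mem_pr] at hp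
      exact hp.2.2.ne_zero)
    (by
      have hpp : ∀ p ∈ pr 0 k, p.Prime := by
        intro p hp
        rw [Helper52.mem_pr] at hp
        exact hp.2.2
      intro p hp r hr hne
      exact (Nat.coprime_primes (hpp p hp) (hpp r hr)).2 hne)
  obtain ⟨n0, hn0⟩ := hcrt
  have hn1 : ∀ p ∈ P, n0 ≡ c p [MOD p] := by
    intro p hp
    have h1 := hn0 p (by
      rw [Helper52.mem_pr]
      have := hPp p hp
      exact ⟨this.1.pos, this.2.trans h2bk, this.1⟩)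
    simpa [hp] using h1
  have hn2 : ∀ p ∈ pr 0 k, p ∉ P → p ∣ n0 := by
    intro p hp hpP
    have h1 := hn0 p hp
    simp only [hpP, if_false] at h1
    exact (Nat.modEq_zero_iff_dvd).1 h1
  refine ⟨n0, ?_⟩
  have hsub : (range K ×ˢ Icc (-(H : ℤ)) H).filter (fun x : ℕ × ℤ => x.2 ≠ (x.1 : ℤ) ^ 2 ∧
        ∀ p : ℕ, p.Prime → p ≤ k → ¬ (p : ℤ) ∣ ((n0 : ℤ) + x.1) ^ 2 - x.2) ⊆
        F.filter (fun x => ∀ p ∈ P, c p ∉ krt p x) := by
    intro x hx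
    rw [mem_filter] at hx
    obtain ⟨hx1, hx2, hx3⟩ := hx
    rw [mem_filter, hF, mem_filter]
    refine ⟨⟨hx1, ?_⟩, ?_⟩
    · rw [mem_product, mem_range, mem_Icc] at hx1
      unfold Fre
      rw [mem_filter, mem_Icc]
      have hj : ((x.1 : ℤ)) ^ 2 ≤ H := by
        have h1 : x.1 ^ 2 ≤ K ^ 2 := Nat.pow_le_pow_left hx1.1.le 2
        exact_mod_cast h1.trans hK
      have hj0 : (0 : ℤ) ≤ (x.1 : ℤ) ^ 2 := by positivity
      have hH0 : (0 : ℤ) ≤ (H : ℤ) := Int.natCast_nonneg H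
      refine ⟨⟨?_, ?_⟩, sub_ne_zero.2 hx2, ?_⟩
      · push_cast
        linarith [hx1.2.1]
      · push_cast
        linarith [hx1.2.2]
      · intro p hp hp1 hp2 hpa
        apply hx3 p hp hp2
        have h1 : p ∣ n0 := by
          apply hn2 p
          · rw [Helper52.mem_pr]
            exact ⟨hp.pos, hp2, hp⟩
          · intro hpP
            have := (hPp p hpP).2
            omega
        have h2 : (p : ℤ) ∣ (n0 : ℤ) := Int.natCast_dvd_natCast.2 h1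
        have h3 : ((n0 : ℤ) + x.1) ^ 2 - x.2 = (n0 : ℤ) * (n0 + 2 * x.1) -
          (x.2 - (x.1 : ℤ) ^ 2) := by ring
        rw [h3]
        exact dvd_sub (Dvd.dvd.mul_right h2 _) hpa
    · intro p hp hcp
      unfold krt at hcp
      rw [mem_filter] at hcp
      exact hx3 p (hPp p hp).1 ((hPp p hp).2.trans h2bk) (ksq_dvd (hn1 p hp) hcp.2)
  have h1 : (((range K ×ˢ Icc (-(H : ℤ)) H).filter (fun x : ℕ × ℤ => x.2 ≠ (x.1 : ℤ) ^ 2 ∧
        ∀ p : ℕ, p.Prime → p ≤ k → ¬ (p : ℤ) ∣ ((n0 : ℤ) + x.1) ^ 2 - x.2)).card : ℝ) ≤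
      ((F.filter (fun x => ∀ p ∈ P, c p ∉ krt p x)).card : ℝ) := by
    exact_mod_cast card_le_card hsub
  refine h1.trans (hc2.trans ?_)
  have h2 : ∑ x ∈ F, ∏ p ∈ P, (1 - ((krt p x).card : ℝ) / p) ≤
      ∑ x ∈ F, 2 * (∏ p ∈ P, (1 - 1 / (p : ℝ))) * gg P x.2 := by
    refine sum_le_sum fun x _ => ?_
    have h3 : ∏ p ∈ P, (1 - ((krt p x).card : ℝ) / p) =
        ∏ p ∈ P, (1 - ((rt p x.2).card : ℝ) / p) := by
      refine prod_congr rfl fun p hp => ?_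
      rw [krt_card (hPp p hp).1.pos]
    rw [h3]
    exact loc_bound (fun p hp => (hPp p hp).1) x.2
  refine h2.trans ?_
  rw [← mul_sum]
  have hgn : ∀ a : ℤ, 0 ≤ gg P a := fun a => gg_nonneg (fun p hp => (hPp p hp).1) a
  have hsum : ∑ x ∈ F, gg P x.2 ≤ K * (C * ((2 * H : ℝ) * l2 / l)) := by
    have e1 : ∑ x ∈ F, gg P x.2 = ∑ y ∈ F.image (fun x : ℕ × ℤ => (x.1, x.2 - (x.1 : ℤ) ^ 2)),
        gg P ((y.1 : ℤ) ^ 2 + y.2) := by
      rw [sum_image]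
      · refine sum_congr rfl fun x _ => ?_
        congr 1
        ring
      · intro x _ y _ hxy
        rw [Prod.mk.injEq] at hxy
        obtain ⟨e1, e2⟩ := hxy
        rw [e1] at e2
        exact Prod.ext e1 (by linarith)
    have e2 : F.image (fun x : ℕ × ℤ => (x.1, x.2 - (x.1 : ℤ) ^ 2)) ⊆
        range K ×ˢ Fre k (2 ^ b) (2 * H) := by
      intro y hy
      rw [mem_image] at hy
      obtain ⟨x, hx, rfl⟩ := hy
      rw [hF, mem_filter, mem_product] at hx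
      rw [mem_product]
      exact ⟨hx.1.1, hx.2⟩
    rw [e1]
    refine (sum_le_sum_of_subset_of_nonneg e2 (fun y _ _ => hgn _)).trans ?_
    rw [sum_product]
    have e3 : ∀ j ∈ range K, ∑ m ∈ Fre k (2 ^ b) (2 * H), gg P ((j : ℤ) ^ 2 + m) ≤
        C * ((2 * H : ℝ) * l2 / l) := by
      intro j _
      have h3 := hk0 k hk l l2 l3 b hPS (2 * H) (by omega) (by push_cast; exact hH) P hPp j
      push_cast at h3
      exact h3
    refine (sum_le_sum e3).trans ?_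
    rw [sum_const, card_range, nsmul_eq_mul]
  have h4 : ∏ p ∈ P, (1 - 1 / (p : ℝ)) ≤ 1 / (b * Real.log 2) := Helper52.prod_upper hPS.b1
  have hl := hPS.lpos
  have hl2 := hPS.l2pos
  have hl3 : 0 < l3 := by linarith [hPS.h3]
  have h5 : 1 / ((b : ℝ) * Real.log 2) ≤ 512 * l2 / (l * l3) := by
    have h6 := hPS.bl
    have h7 : 0 < l * l3 / (512 * l2) := by positivity
    have h8 := one_div_le_one_div_of_le h7 h6
    refine h8.trans (le_of_eq ?_)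
    field_simp
  have h6 : 2 * ∏ p ∈ P, (1 - 1 / (p : ℝ)) ≤ 1024 * l2 / (l * l3) := by
    have : 1024 * l2 / (l * l3) = 2 * (512 * l2 / (l * l3)) := by ring
    rw [this]
    linarith
  have hHn : (0 : ℝ) ≤ H := Nat.cast_nonneg H
  have h7 : 0 ≤ ∑ x ∈ F, gg P x.2 := sum_nonneg (fun x _ => hgn x.2)
  calc (2 * ∏ p ∈ P, (1 - 1 / (p : ℝ))) * ∑ x ∈ F, gg P x.2 ≤
      1024 * l2 / (l * l3) * (K * (C * ((2 * H : ℝ) * l2 / l))) :=
        mul_le_mul h6 hsum h7 (by positivity)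
    _ = 2048 * C * (K * (H * l2 ^ 2 / (l ^ 2 * l3))) := by
        field_simp
        ring

end Pool.Agent.SQ
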