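import Pool.Agent.SQ.KStep
import Pool.Agent.Helper83.RWR.Fin2

/-!
# SQ/KFin.  Consecutive integers far from all square roots of primes, in short intervals
-/

set_option autoImplicit false

namespace Pool.Agent.SQ

open Finset Filter
open Helper83.RWR (rho rho_le rho_comp p)

/-- the interval form -/
theorem shortK : ∃ c : ℝ, 0 < c ∧ ∀ᶠ y : ℝ in atTop, 0 < Real.log y ∧ 0 < rho y ∧
    ∀ x : ℝ, y ≤ x → ∀ K : ℕ, 1 ≤ K → (K : ℝ) ≤ Real.log (Real.log y) / 2 →
    ∃ N : ℕ, x ≤ N ∧ (N : ℝ) ≤ x + y ∧ 2 ≤ N ∧ ∀ j < K, ∀ q : ℕ, q.Prime →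
      c / K * (Real.log y * rho y) ≤ |(q : ℝ) - ((N : ℝ) + j) ^ 2| ∧
        c / K * (Real.log y * rho y) / N ≤ |√(q : ℝ) - ((N : ℝ) + j)| := by
  obtain ⟨c, hc, K0, hK0⟩ := stepK
  refine ⟨c / 3072, by positivity, ?_⟩
  have tll : Tendsto (fun y : ℝ => Real.log (Real.log y)) atTop atTop :=
    Real.tendsto_log_atTop.comp Real.tendsto_log_atTop
  filter_upwards [eventually_ge_atTop ((2 : ℝ) ^ (13 * K0 + 100)), tll.eventually_ge_atTop 10]
    with y hy hlly
  have hy0 : 0 < y := lt_of_lt_of_le (by positivity) hy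
  have hlog2 := Real.log_two_lt_d9
  have hlog2' := Real.log_two_gt_d9
  set e := Nat.log 2 ⌊y⌋₊ with he
  have hy1 : (1 : ℝ) ≤ y := (one_le_pow₀ (by norm_num)).trans hy
  have hfy : 1 ≤ ⌊y⌋₊ := Nat.le_floor (by push_cast; linarith)
  have he1 : (2 : ℝ) ^ e ≤ y := by
    have h1 : 2 ^ e ≤ ⌊y⌋₊ := Nat.pow_log_le_self 2 (by omega)
    have h2 : ((2 ^ e : ℕ) : ℝ) ≤ (⌊y⌋₊ : ℝ) := by exact_mod_cast h1
    push_cast at h2
    exact h2.trans (Nat.floor_le (by linarith))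
  have he2 : y < (2 : ℝ) ^ (e + 1) := by
    have h1 : ⌊y⌋₊ + 1 ≤ 2 ^ (e + 1) := Nat.lt_pow_succ_log_self (by norm_num) _
    have h2 : ((⌊y⌋₊ + 1 : ℕ) : ℝ) ≤ ((2 ^ (e + 1) : ℕ) : ℝ) := by exact_mod_cast h1
    push_cast at h2
    have h3 := Nat.lt_floor_add_one y
    linarith
  have heK : 13 * K0 + 99 ≤ e := by
    have h1 : (2 : ℝ) ^ (13 * K0 + 100) < (2 : ℝ) ^ (e + 1) := lt_of_le_of_lt hy he2
    have h2 := (pow_lt_pow_iff_right₀ (by norm_num : (1 : ℝ) < 2)).1 h1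
    omega
  set k := e / 13 with hk
  have hkK : K0 ≤ k := by omega
  have hk7 : 7 ≤ k := by omega
  have hlogy2 : Real.log y ≤ ((e : ℝ) + 1) * Real.log 2 := by
    have h1 := Real.log_le_log hy0 he2.le
    rw [Real.log_pow] at h1
    push_cast at h1
    exact h1
  have hlogy1 : (e : ℝ) * Real.log 2 ≤ Real.log y := by
    have h2 := Real.log_le_log (by positivity) he1
    rw [Real.log_pow] at h2
    exact h2
  have hke : (e : ℝ) ≤ 13 * k + 12 := by
    have : e ≤ 13 * k + 12 := by omega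
    exact_mod_cast this
  have hke2 : 13 * (k : ℝ) ≤ e := by
    have : 13 * k ≤ e := by omega
    exact_mod_cast this
  have hk0 : (7 : ℝ) ≤ k := by exact_mod_cast hk7
  have hky : (k : ℝ) ≤ Real.log y := by nlinarith
  have hyk : Real.log y ≤ 64 * k := by nlinarith
  have hlk : Real.log (Real.log y) / 2 ≤ Real.log k := by
    have h1 : Real.log (Real.log y) ≤ Real.log (64 * k) :=
      Real.log_le_log (by linarith) hyk
    rw [Real.log_mul (by norm_num) (by positivity)] at h1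
    have h2 : Real.log 64 ≤ 5 := by
      have e : Real.log 64 = 6 * Real.log 2 := by
        rw [show (64 : ℝ) = 2 ^ 6 by norm_num, Real.log_pow]; norm_num
      linarith
    linarith
  have h10 : (1 : ℝ) ≤ Real.log k := by linarith
  obtain ⟨k1, k2, k3, k4, -⟩ := hK0 k hkK (2 ^ k) 1 le_rfl le_rfl (by push_cast; exact h10)
  obtain ⟨r1, r2, r3⟩ := rho_le (t := y) rfl rfl rfl (by linarith) hky hyk k2 k3 k4
  refine ⟨r2, r3, fun x hyx K hK1 hKy => ?_⟩
  have hKr : (1 : ℝ) ≤ K := by exact_mod_cast hK1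
  have hKpos : (0 : ℝ) < K := by linarith
  have hx0 : 0 < x := by linarith
  set n1 := ⌈x⌉₊ with hn1
  have hxn : x ≤ n1 := Nat.le_ceil x
  have hnx : (n1 : ℝ) < x + 1 := Nat.ceil_lt_add_one hx0.le
  have hkn : 2 ^ k ≤ n1 := by
    have h3 : 2 ^ k ≤ 2 ^ e := Nat.pow_le_pow_right (by norm_num) (by omega)
    have h4 : ((2 ^ e : ℕ) : ℝ) ≤ n1 := by push_cast; linarith
    have h5 : 2 ^ e ≤ n1 := by exact_mod_cast h4
    omega
  have hlkk : Real.log k ≤ k := by
    have h := Real.add_one_le_exp (Real.log k)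
    rw [Real.exp_log (by linarith)] at h
    linarith
  obtain ⟨-, -, -, -, N, H, hN1, hN2, hN3, hN4⟩ := hK0 k hkK n1 K hkn hK1 (hKy.trans hlk)
  have hkN : k ≤ N := by
    have h1 : k < 2 ^ k := Nat.lt_two_pow_self
    omega
  have hN2' : (2 : ℕ) ≤ N := by omega
  have hN2r : (2 : ℝ) ≤ N := by exact_mod_cast hN2'
  have hNpos : (0 : ℝ) < N := by linarith
  have hKN : (K : ℝ) ≤ N := by
    have h1 : (k : ℝ) ≤ N := by exact_mod_cast hkN
    exact (hKy.trans hlk).trans (hlkk.trans h1)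
  -- `H` in terms of `y`
  have hH : c / 3072 / K * (Real.log y * rho y) ≤ (H : ℝ) / 6 := by
    calc c / 3072 / K * (Real.log y * rho y) ≤ c / 3072 / K * (512 * _) :=
          mul_le_mul_of_nonneg_left r1 (by positivity)
      _ = (c / K * _) / 6 := by ring
      _ ≤ _ := div_le_div_of_nonneg_right hN4 (by norm_num)
  have hreal : ∀ j < K, ∀ q : ℕ, q.Prime → (H : ℝ) ≤ |(q : ℝ) - ((N : ℝ) + j) ^ 2| := by
    intro j hj q hq
    have h1 := (hN3 j hj q hq).le
    have h2 : ((H : ℤ) : ℝ) ≤ ((|(q : ℤ) - ((N : ℤ) + j) ^ 2| : ℤ) : ℝ) := by exact_mod_cast h1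
    push_cast at h2
    exact h2
  have hHN : (H : ℝ) ≤ (N : ℝ) ^ 2 := by
    have h1 := hreal 0 (by omega) 2 Nat.prime_two
    have h2 : |((2 : ℕ) : ℝ) - ((N : ℝ) + (0 : ℕ)) ^ 2| ≤ (N : ℝ) ^ 2 := by
      rw [abs_le]
      push_cast
      rw [add_zero]
      constructor
      · nlinarith
      · nlinarith
    exact h1.trans h2
  have hH0 : (0 : ℝ) ≤ H := Nat.cast_nonneg H
  refine ⟨N, ?_, ?_, hN2', fun j hj q hq => ⟨?_, ?_⟩⟩
  · have : (n1 : ℝ) ≤ N := by exact_mod_cast hN1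
    linarith
  · have h1 : ((N : ℕ) : ℝ) ≤ ((n1 + 2 ^ (12 * k) : ℕ) : ℝ) := by exact_mod_cast hN2
    push_cast at h1
    have h2 : (2 : ℝ) ^ (12 * k) + 1 ≤ 2 ^ e := by
      have h3 : (2 : ℝ) ^ (12 * k + 1) ≤ 2 ^ e := pow_le_pow_right₀ (by norm_num) (by omega)
      have h4 : (1 : ℝ) ≤ 2 ^ (12 * k) := one_le_pow₀ (by norm_num)
      rw [pow_succ] at h3
      linarith
    linarith
  · have := hreal j hj q hq
    linarith
  · have h1 := hreal j hj q hq
    have hj0 : (0 : ℝ) ≤ j := Nat.cast_nonneg j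
    have hjK : (j : ℝ) ≤ K := by exact_mod_cast hj.le
    set Nj : ℝ := (N : ℝ) + j with hNj
    have hNj0 : 0 < Nj := by linarith
    have hNj2 : Nj ≤ 2 * N := by linarith
    have hNjN : (N : ℝ) ≤ Nj := by linarith
    have h2 : c / 3072 / K * (Real.log y * rho y) / N ≤ (H : ℝ) / 6 / N :=
      div_le_div_of_nonneg_right hH hNpos.le
    refine h2.trans ?_
    rw [div_div, div_le_iff₀ (by positivity)]
    have hs0 : 0 ≤ √(q : ℝ) := Real.sqrt_nonneg _
    have hs : √(q : ℝ) ^ 2 = q := Real.sq_sqrt (Nat.cast_nonneg q)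
    have h3 : |(q : ℝ) - Nj ^ 2| = |√(q : ℝ) - Nj| * (√(q : ℝ) + Nj) := by
      have h4 : (q : ℝ) - Nj ^ 2 = (√(q : ℝ) - Nj) * (√(q : ℝ) + Nj) := by
        linear_combination -hs
      rw [h4, abs_mul, abs_of_nonneg (by positivity : (0 : ℝ) ≤ √(q : ℝ) + Nj)]
    by_cases hcase : √(q : ℝ) ≤ 2 * Nj
    · calc (H : ℝ) ≤ |√(q : ℝ) - Nj| * (√(q : ℝ) + Nj) := h3 ▸ h1
        _ ≤ |√(q : ℝ) - Nj| * (6 * N) := by
            apply mul_le_mul_of_nonneg_left _ (abs_nonneg _)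
            linarith
    · push Not at hcase
      have h4 : (N : ℝ) ≤ |√(q : ℝ) - Nj| := by
        refine le_trans ?_ (le_abs_self _)
        linarith
      calc (H : ℝ) ≤ (N : ℝ) ^ 2 := hHN
        _ ≤ |√(q : ℝ) - Nj| * (6 * N) := by nlinarith

/-- the primes around `N ^ 2` -/
private theorem aroundK {N : ℕ} (hN : 2 ≤ N) : ∃ n : ℕ, p n < N ^ 2 ∧ N ^ 2 < p (n + 1) := by
  have hinf := Nat.infinite_setOfPred_prime
  set J := Nat.count Nat.Prime (N ^ 2) with hJ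
  have h1 : 0 < J := by
    by_contra h
    push Not at h
    have h2 := (Nat.count_le_iff_le_nth hinf).1 h
    rw [Nat.nth_prime_zero_eq_two] at h2
    nlinarith
  refine ⟨J - 1, ?_, ?_⟩
  · exact Nat.nth_lt_of_lt_count (by omega)
  · have h2 : N ^ 2 ≤ Nat.nth Nat.Prime J := (Nat.count_le_iff_le_nth hinf).1 le_rfl
    have h3 : J - 1 + 1 = J := by omega
    unfold p
    rw [h3]
    refine lt_of_le_of_ne h2 ?_
    intro h4
    have h5 : (N ^ 2).Prime := by
      rw [h4]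
      exact Nat.nth_mem_of_infinite hinf J
    rw [sq] at h5
    exact Nat.not_prime_mul (by omega) (by omega) h5

theorem finK : ∃ c : ℝ, 0 < c ∧
    (∀ᶠ y : ℝ in atTop, ∀ x : ℝ, y ≤ x → ∀ K : ℕ, 1 ≤ K → (K : ℝ) ≤ Real.log (Real.log y) / 2 →
      ∃ N : ℕ, x ≤ N ∧ (N : ℝ) ≤ x + y ∧ ∀ j < K, ∀ n : ℕ,
        c / K * (Real.log y * rho y) ≤ |(p n : ℝ) - ((N : ℝ) + j) ^ 2| ∧
          c / K * (Real.log y * rho y) / N ≤ |√(p n : ℝ) - ((N : ℝ) + j)|) ∧
    (∀ K : ℕ, 1 ≤ K → ∃ᶠ N : ℕ in atTop, ∀ j < K, ∃ n : ℕ,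
      √(p n : ℝ) + c / K * (Real.log N * rho N) / N ≤ (N : ℝ) + j ∧
        (N : ℝ) + j + c / K * (Real.log N * rho N) / N ≤ √(p (n + 1) : ℝ)) := by
  obtain ⟨c, hc, hs⟩ := shortK
  have hprime : ∀ n : ℕ, (p n).Prime := fun n =>
    Nat.nth_mem_of_infinite Nat.infinite_setOfPred_prime n
  refine ⟨c / 64, by positivity, ?_, ?_⟩
  · filter_upwards [hs] with y hy
    obtain ⟨hl, hr, hy⟩ := hy
    intro x hyx K hK1 hKy
    obtain ⟨N, h1, h2, h3, h4⟩ := hy x hyx K hK1 hKy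
    have hKpos : (0 : ℝ) < K := by
      have : (1 : ℝ) ≤ K := by exact_mod_cast hK1
      linarith
    have hpos : 0 < Real.log y * rho y := mul_pos hl hr
    have hNpos : (0 : ℝ) < N := by
      have : (2 : ℝ) ≤ N := by exact_mod_cast h3
      linarith
    have hle : c / 64 / K * (Real.log y * rho y) ≤ c / K * (Real.log y * rho y) := by
      apply mul_le_mul_of_nonneg_right _ hpos.le
      apply div_le_div_of_nonneg_right _ hKpos.le
      linarith
    refine ⟨N, h1, h2, fun j hj n => ?_⟩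
    obtain ⟨h5, h6⟩ := h4 j hj (p n) (hprime n)
    exact ⟨hle.trans h5, (div_le_div_of_nonneg_right hle hNpos.le).trans h6⟩
  · intro K hK1
    have hKr : (1 : ℝ) ≤ K := by exact_mod_cast hK1
    have hKpos : (0 : ℝ) < K := by linarith
    have tll : Tendsto (fun y : ℝ => Real.log (Real.log y)) atTop atTop :=
      Real.tendsto_log_atTop.comp Real.tendsto_log_atTop
    rw [frequently_atTop]
    intro n0
    obtain ⟨y, ⟨hy, hcomp⟩, hy2, hyK⟩ :=
      ((hs.and rho_comp).and ((eventually_ge_atTop ((n0 : ℝ) + 1)).and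
        (tll.eventually_ge_atTop (2 * (K : ℝ))))).exists
    obtain ⟨hl, hr, hy⟩ := hy
    obtain ⟨-, -, hcomp⟩ := hcomp
    obtain ⟨N, h1, h2, h3, h4⟩ := hy y le_rfl K hK1 (by linarith)
    have hN2 : (2 : ℝ) ≤ N := by exact_mod_cast h3
    have hNpos : (0 : ℝ) < N := by linarith
    have hn0 : (0 : ℝ) ≤ n0 := Nat.cast_nonneg _
    have hy0 : 0 < y := by linarith
    refine ⟨N, ?_, fun j hj => ?_⟩
    · have : (n0 : ℝ) ≤ N := by linarith
      exact_mod_cast this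
    obtain ⟨n, hn1, hn2⟩ := aroundK (show 2 ≤ N + j by omega)
    have hj0 : (0 : ℝ) ≤ j := Nat.cast_nonneg j
    have hNj : (0 : ℝ) < (N : ℝ) + j := by linarith
    obtain ⟨t1, t2, t3⟩ := hcomp N (by linarith) (by linarith)
    have hle : c / 64 / K * (Real.log N * rho N) / N ≤ c / K * (Real.log y * rho y) / N := by
      apply div_le_div_of_nonneg_right _ hNpos.le
      calc c / 64 / K * (Real.log N * rho N) ≤ c / 64 / K * (64 * (Real.log y * rho y)) :=
            mul_le_mul_of_nonneg_left t3 (by positivity)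
        _ = c / K * (Real.log y * rho y) := by ring
    refine ⟨n, ?_, ?_⟩
    · have h5 := (h4 j hj (p n) (hprime n)).2
      have h6 : √(p n : ℝ) < (N : ℝ) + j := by
        rw [Real.sqrt_lt' hNj]
        exact_mod_cast hn1
      rw [abs_of_neg (by linarith)] at h5
      linarith
    · have h5 := (h4 j hj (p (n + 1)) (hprime (n + 1))).2
      have h6 : (N : ℝ) + j < √(p (n + 1) : ℝ) := by
        rw [Real.lt_sqrt hNj.le]
        exact_mod_cast hn2
      rw [abs_of_pos (by linarith)] at h5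
      linarith

end Pool.Agent.SQ
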