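import Pool.Agent.SQ.Defs

/-! SQ/KJac.  Sums of Jacobi symbols of a linear polynomial modulo an odd squarefree `d`.

The summand is `d`-periodic in `m`; the sum over a full period is `0` if some prime `p ∣ d` does not
divide `u` (with `d = p e` let `m ↦ m + e j`, `j < p`, run: the sum over `j` of
`((c + u (m + e j))/p)` is `0`), and `d (c/d)` if `d ∣ u`.  Partial periods contribute at most `d` to
the sum. -/

set_option autoImplicit false

namespace Pool.Agent.SQ

open Finset

private theorem kjac_shift (f : ℕ → ℤ) (d : ℕ) (hf : ∀ m, f (m + d) = f m) (t : ℕ) :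
    ∑ m ∈ range d, f (m + t) = ∑ m ∈ range d, f m := by
  induction t with
  | zero => simp
  | succ t ih =>
    have h1 := Finset.sum_range_succ (fun m => f (m + t)) d
    have h2 := Finset.sum_range_succ' (fun m => f (m + t)) d
    have h3 : f (d + t) = f t := by rw [add_comm]; exact hf t
    have h4 : ∑ m ∈ range d, f (m + (t + 1)) = ∑ m ∈ range d, f (m + 1 + t) :=
      Finset.sum_congr rfl fun m _ => by rw [add_assoc, add_comm 1 t]
    rw [h4]
    rw [h1, h3, ih, zero_add] at h2
    linarith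

private theorem kjac_prime {p : ℕ} (hp : p.Prime) (hp2 : p ≠ 2) (A B : ℤ) (hB : ¬ (p : ℤ) ∣ B) :
    ∑ j ∈ range p, jacobiSym (A + B * (j : ℤ)) p = 0 := by
  have : Fact p.Prime := ⟨hp⟩
  have h1 : ∑ j ∈ range p, jacobiSym (A + B * (j : ℤ)) p =
      ∑ x : ZMod p, quadraticChar (ZMod p) ((A : ZMod p) + (B : ZMod p) * x) := by
    refine Finset.sum_nbij' (fun m : ℕ => (m : ZMod p)) (fun x : ZMod p => x.val) ?_ ?_ ?_ ?_ ?_
    · intro m _
      exact Finset.mem_univ _
    · intro x _
      exact Finset.mem_range.2 (ZMod.val_lt x)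
    · intro m hm
      exact ZMod.val_cast_of_lt (Finset.mem_range.1 hm)
    · intro x _
      exact ZMod.natCast_zmod_val x
    · intro m _
      rw [← jacobiSym.legendreSym.to_jacobiSym]
      unfold legendreSym
      push_cast
      rfl
  have hB' : (B : ZMod p) ≠ 0 := by
    intro h
    exact hB ((ZMod.intCast_zmod_eq_zero_iff_dvd B p).1 h)
  rw [h1]
  have h2 : ∑ x : ZMod p, quadraticChar (ZMod p) ((A : ZMod p) + (B : ZMod p) * x) =
      ∑ y : ZMod p, quadraticChar (ZMod p) y := by
    refine Fintype.sum_equiv ((Equiv.mulLeft₀ (B : ZMod p) hB').trans (Equiv.addLeft (A : ZMod p)))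
      _ _ fun x => ?_
    rfl
  rw [h2]
  exact quadraticChar_sum_zero (by rwa [ZMod.ringChar_zmod_n])

private theorem kjac_per (c u : ℤ) (d : ℕ) (m : ℕ) :
    jacobiSym (c + u * ((m + d : ℕ) : ℤ)) d = jacobiSym (c + u * (m : ℤ)) d := by
  apply jacobiSym.mod_left'
  have h : c + u * ((m + d : ℕ) : ℤ) = (c + u * (m : ℤ)) + u * (d : ℤ) := by push_cast; ring
  rw [h, Int.add_mul_emod_self_right]

private theorem kjac_period {d : ℕ} (hd : d % 2 = 1) (hsq : Squarefree d) (c u : ℤ)
    (hu : ¬ (d : ℤ) ∣ u) : ∑ m ∈ range d, jacobiSym (c + u * (m : ℤ)) d = 0 := by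
  -- a prime divisor of d not dividing u
  obtain ⟨p, hp, hpd, hpu⟩ : ∃ p : ℕ, p.Prime ∧ p ∣ d ∧ ¬ (p : ℤ) ∣ u := by
    by_contra hcon
    push Not at hcon
    apply hu
    have h1 : d ∣ u.natAbs := by
      rw [← Nat.prod_primeFactors_of_squarefree hsq]
      refine Finset.prod_primes_dvd _ (fun q hq => (Nat.prime_of_mem_primeFactors hq).prime) ?_
      intro q hq
      exact Int.natCast_dvd.1 (hcon q (Nat.prime_of_mem_primeFactors hq)
        (Nat.dvd_of_mem_primeFactors hq))
    exact Int.natCast_dvd.2 h1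
  obtain ⟨e, he⟩ := hpd
  have hpe : Nat.Coprime p e := by
    rw [he] at hsq
    exact Nat.coprime_of_squarefree_mul hsq
  have hp2 : p ≠ 2 := by
    intro h2
    rw [h2] at he
    omega
  have he0 : e ≠ 0 := by
    rintro rfl
    omega
  have hue : ¬ (p : ℤ) ∣ u * (e : ℤ) := by
    intro h
    rcases (Nat.prime_iff_prime_int.1 hp).dvd_or_dvd h with h | h
    · exact hpu h
    · exact (Nat.Prime.coprime_iff_not_dvd hp).1 hpe (Int.natCast_dvd_natCast.1 h)
  set f : ℕ → ℤ := fun m => jacobiSym (c + u * (m : ℤ)) d with hf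
  have hfper : ∀ m, f (m + d) = f m := fun m => kjac_per c u d m
  have h1 : ∀ j ∈ range p, ∑ m ∈ range d, f (m + e * j) = ∑ m ∈ range d, f m :=
    fun j _ => kjac_shift f d hfper (e * j)
  have h2 : (p : ℤ) * ∑ m ∈ range d, f m = ∑ j ∈ range p, ∑ m ∈ range d, f (m + e * j) := by
    rw [Finset.sum_congr rfl h1, Finset.sum_const, Finset.card_range, nsmul_eq_mul]
  have h3 : ∀ m ∈ range d, ∑ j ∈ range p, f (m + e * j) = 0 := by
    intro m _
    have h4 : ∀ j ∈ range p, f (m + e * j) =
        jacobiSym ((c + u * (m : ℤ)) + (u * (e : ℤ)) * (j : ℤ)) p *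
          jacobiSym (c + u * (m : ℤ)) e := by
      intro j _
      have h5 : f (m + e * j) =
          jacobiSym ((c + u * (m : ℤ)) + (u * (e : ℤ)) * (j : ℤ)) (p * e) := by
        rw [hf]
        simp only
        rw [he]
        congr 1
        push_cast
        ring
      rw [h5, jacobiSym.mul_right' _ hp.ne_zero he0]
      congr 1
      apply jacobiSym.mod_left'
      have h6 : (c + u * (m : ℤ)) + (u * (e : ℤ)) * (j : ℤ) =
          (c + u * (m : ℤ)) + (e : ℤ) * (u * (j : ℤ)) := by ring
      rw [h6, Int.add_mul_emod_self_left]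
    rw [Finset.sum_congr rfl h4, ← Finset.sum_mul, kjac_prime hp hp2 _ _ hue, zero_mul]
  rw [Finset.sum_comm, Finset.sum_congr rfl h3, Finset.sum_const_zero] at h2
  rcases mul_eq_zero.1 h2 with h | h
  · exact absurd (by exact_mod_cast h) hp.ne_zero
  · exact h

theorem jac_avg {d : ℕ} (hd : d % 2 = 1) (hsq : Squarefree d) (c u : ℤ) (N : ℕ) :
    |∑ m ∈ range N, ((jacobiSym (c + u * (m : ℤ)) d : ℤ) : ℝ) -
      N * (if (d : ℤ) ∣ u then ((jacobiSym c d : ℤ) : ℝ) else 0)| ≤ 2 * d := by
  have hd0 : (0 : ℝ) ≤ d := Nat.cast_nonneg d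
  split_ifs with hu
  · have h1 : ∀ m ∈ range N, ((jacobiSym (c + u * (m : ℤ)) d : ℤ) : ℝ) =
        ((jacobiSym c d : ℤ) : ℝ) := by
      intro m _
      congr 1
      apply jacobiSym.mod_left'
      obtain ⟨k, hk⟩ := hu
      rw [hk, mul_assoc, Int.add_mul_emod_self_left]
    rw [Finset.sum_congr rfl h1, Finset.sum_const, Finset.card_range, nsmul_eq_mul, sub_self,
      abs_zero]
    positivity
  · rw [mul_zero, sub_zero]
    have hper : ∀ q r : ℕ, ∑ m ∈ range (d * q + r), jacobiSym (c + u * (m : ℤ)) d =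
        ∑ m ∈ range r, jacobiSym (c + u * (m : ℤ)) d := by
      intro q r
      induction q with
      | zero => rw [mul_zero, zero_add]
      | succ q ih =>
        have h2 : d * (q + 1) + r = d + (d * q + r) := by ring
        rw [h2, Finset.sum_range_add, kjac_period hd hsq c u hu, zero_add, ← ih]
        refine Finset.sum_congr rfl fun m _ => ?_
        rw [add_comm d m]
        exact kjac_per c u d m
    have h2 := hper (N / d) (N % d)
    rw [Nat.div_add_mod] at h2
    rw [← Int.cast_sum, h2, Int.cast_sum]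
    refine (Finset.abs_sum_le_sum_abs _ _).trans ?_
    have h3 : ∑ m ∈ range (N % d), |((jacobiSym (c + u * (m : ℤ)) d : ℤ) : ℝ)| ≤
        ∑ m ∈ range (N % d), (1 : ℝ) := by
      refine Finset.sum_le_sum fun m _ => ?_
      rcases jacobiSym.trichotomy (c + u * (m : ℤ)) d with h | h | h
      · rw [h]; norm_num
      · rw [h]; norm_num
      · rw [h]; norm_num
    refine h3.trans ?_
    rw [Finset.sum_const, Finset.card_range, nsmul_eq_mul, mul_one]
    have h4 : ((N % d : ℕ) : ℝ) ≤ d := by exact_mod_cast (Nat.mod_lt N (by omega)).le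
    linarith

end Pool.Agent.SQ
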