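import Pool.Agent.Helper24.Selberg
import Pool.Agent.Helper24.SieveDensity
import Pool.Agent.Helper52.PrimeSums

/-! SQ/KSel.  Selberg's sieve for weights `a n ≥ 0`, `1 ≤ n ≤ t`, sifting the primes `≤ Y`, with
density `h(p) = 1/p` or (`p ∈ Ps`) `h(p) = (1/p)(1 - 1/p)`.

Use `Helper24.siftedSum_le_selberg` (compare `Pool/Agent/SQ/SelWt.lean`) for the `BoundingSieve` with
support `Icc 1 t`, weights `a`, sifting product `primorial Y`, total mass `X` and
`nu d = (1/d) ∏_{p ∣ d, p ∈ Ps} (1 - 1/p)`.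
* the sifted sum contains all primes `q ∈ (Y, t]`;
* `selG ≥ c log Y`: `h/(1-h) ≥ 1/(p+1)` for both kinds of primes (`(p-1)/(p^2-p+1) ≥ 1/(p+1)`), and
  `∑_{l ≤ Y, squarefree} 1/l ≤ ∏_{p ≤ Y} (1 + 1/p^2) * ∑_{l ≤ Y} ∏_{p ∣ l} 1/(p+1)`
  (`1/p ≤ 1/(p+1) + 1/p^2`, `Helper24.Fsum_add_le`), `∏ (1 + 1/p^2) ≤ exp 2`,
  `Helper24.log_le_two_mul_Fsum_inv`;
* `|selW d| ≤ ∏_{p ∣ d} (1 - nu p)⁻¹ ≤ 2^ω(d) ≤ d` (`Helper24.abs_selW_le`), so
  `∑_{d1, d2 ≤ Y} |selW| |selW| ≤ Y^4`, and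
  `∑_{d1, d2 ≤ Y squarefree} 2^ω(d1) 2^ω(d2)/lcm(d1,d2) ≤ ∏_{p ≤ Y} (1 + 8/p) ≤ C (log Y)^8`
  (`Helper52.mertens2` or `Helper52.prod_lower`; each squarefree `m` is the lcm of pairs with total
  weight `∏_{p ∣ m} 8`). -/

set_option autoImplicit false

namespace Pool.Agent.SQ

open Finset
open Helper52 (pr)

private noncomputable def nuF (Ps : Finset ℕ) : ArithmeticFunction ℝ :=
  ⟨fun n => ((n : ℕ) : ℝ)⁻¹ * ∏ p ∈ n.primeFactors ∩ Ps, (1 - 1 / (p : ℝ)), by simp⟩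

private theorem nuF_apply (Ps : Finset ℕ) (n : ℕ) :
    nuF Ps n = (n : ℝ)⁻¹ * ∏ p ∈ n.primeFactors ∩ Ps, (1 - 1 / (p : ℝ)) := rfl

private theorem nuF_mult (Ps : Finset ℕ) : (nuF Ps).IsMultiplicative := by
  refine ⟨by rw [nuF_apply]; simp, fun {m n} h => ?_⟩
  rw [nuF_apply, nuF_apply, nuF_apply, Nat.cast_mul, mul_inv, h.primeFactors_mul,
    Finset.union_inter_distrib_right, Finset.prod_union]
  · ring
  · exact (h.disjoint_primeFactors).mono inter_subset_left inter_subset_left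

private theorem nuF_prime (Ps : Finset ℕ) {p : ℕ} (hp : p.Prime) :
    nuF Ps p = (p : ℝ)⁻¹ * if p ∈ Ps then (1 - 1 / (p : ℝ)) else 1 := by
  rw [nuF_apply, hp.primeFactors]
  by_cases h : p ∈ Ps
  · rw [Finset.singleton_inter_of_mem h, prod_singleton, if_pos h]
  · rw [Finset.singleton_inter_of_notMem h, prod_empty, if_neg h]

private theorem nuF_pos (Ps : Finset ℕ) {p : ℕ} (hp : p.Prime) : 0 < nuF Ps p := by
  rw [nuF_prime Ps hp]
  have h1 : (1 : ℝ) < p := by exact_mod_cast hp.one_lt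
  have h2 : 1 / (p : ℝ) < 1 := by
    rw [div_lt_one (by linarith)]
    exact h1
  split_ifs
  · exact mul_pos (inv_pos.2 (by linarith)) (by linarith)
  · rw [mul_one]
    exact inv_pos.2 (by linarith)

private theorem nuF_le (Ps : Finset ℕ) {p : ℕ} (hp : p.Prime) : nuF Ps p ≤ 1 / 2 := by
  rw [nuF_prime Ps hp]
  have h1 : (2 : ℝ) ≤ p := by exact_mod_cast hp.two_le
  have h2 : (p : ℝ)⁻¹ ≤ 2⁻¹ := inv_anti₀ (by norm_num) h1
  have h3 : 0 < (p : ℝ)⁻¹ := inv_pos.2 (by linarith)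
  have h4 : 0 ≤ 1 / (p : ℝ) := by positivity
  split_ifs
  · calc (p : ℝ)⁻¹ * (1 - 1 / (p : ℝ)) ≤ (p : ℝ)⁻¹ * 1 :=
          mul_le_mul_of_nonneg_left (by linarith) h3.le
      _ ≤ 1 / 2 := by linarith
  · linarith

private theorem nuF_ratio (Ps : Finset ℕ) {p : ℕ} (hp : p.Prime) :
    1 / ((p : ℝ) + 1) ≤ nuF Ps p * (1 - nuF Ps p)⁻¹ := by
  have h0 := nuF_pos Ps hp
  have h1 := nuF_le Ps hp
  rw [← div_eq_mul_inv, div_le_div_iff₀ (by positivity) (by linarith)]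
  have h2 : (2 : ℝ) ≤ p := by exact_mod_cast hp.two_le
  have hp0 : (0 : ℝ) < p := by linarith
  have h3 : 1 ≤ nuF Ps p * ((p : ℝ) + 2) := by
    rw [nuF_prime Ps hp]
    split_ifs
    · have e : (p : ℝ)⁻¹ * (1 - 1 / (p : ℝ)) * ((p : ℝ) + 2) =
          ((p : ℝ) - 1) * ((p : ℝ) + 2) / (p : ℝ) ^ 2 := by
        field_simp
      rw [e, le_div_iff₀ (by positivity)]
      nlinarith
    · rw [mul_one, mul_add, inv_mul_cancel₀ hp0.ne']
      have : 0 ≤ (p : ℝ)⁻¹ * 2 := by positivity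
      linarith
  linarith

private theorem sqf_primorial' (Y : ℕ) : Squarefree (primorial Y) := by
  unfold primorial
  refine (Finset.squarefree_prod_of_pairwise_isCoprime ?_ ?_)
  · intro a ha b hb hab
    have ha' := (Finset.mem_filter.1 (Finset.mem_coe.1 ha)).2
    have hb' := (Finset.mem_filter.1 (Finset.mem_coe.1 hb)).2
    have := (Nat.coprime_primes ha' hb').2 hab
    simpa [Function.onFun, Nat.coprime_iff_isRelPrime] using this
  · intro a ha
    exact ((Finset.mem_filter.1 ha).2).squarefree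

private noncomputable def sk (Y t : ℕ) (a : ℕ → ℝ) (ha : ∀ n, 0 ≤ a n) (X : ℝ)
    (Ps : Finset ℕ) : BoundingSieve where
  support := Icc 1 t
  prodPrimes := primorial Y
  prodPrimes_squarefree := sqf_primorial' Y
  weights := a
  weights_nonneg := ha
  totalMass := X
  nu := nuF Ps
  nu_mult := nuF_mult Ps
  nu_pos_of_prime := fun p hp _ => nuF_pos Ps hp
  nu_lt_one_of_prime := fun p hp _ => (nuF_le Ps hp).trans_lt (by norm_num)

private theorem dvd_primorial {Y p : ℕ} (hp : p.Prime) : p ∣ primorial Y ↔ p ≤ Y := by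
  constructor
  · intro h
    unfold primorial at h
    obtain ⟨q, hq, hpq⟩ := (Prime.dvd_finsetProd_iff hp.prime _).1 h
    rw [Finset.mem_filter, Finset.mem_range] at hq
    rw [(Nat.prime_dvd_prime_iff_eq hp hq.2).1 hpq]
    omega
  · intro h
    unfold primorial
    exact Finset.dvd_prod_of_mem _ (Finset.mem_filter.2 ⟨Finset.mem_range.2 (by omega), hp⟩)

private theorem sqf_dvd {Y l : ℕ} (hl : l ∈ Helper24.sqf Y) : l ∣ primorial Y := by
  obtain ⟨⟨h1, h2⟩, h3⟩ := Helper24.mem_sqf.1 hl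
  rw [← Nat.prod_primeFactors_of_squarefree h3]
  unfold primorial
  refine Finset.prod_dvd_prod_of_subset _ _ _ fun p hp => ?_
  rw [Finset.mem_filter, Finset.mem_range]
  have h4 := Nat.le_of_dvd h1 (Nat.dvd_of_mem_primeFactors hp)
  exact ⟨by omega, Nat.prime_of_mem_primeFactors hp⟩

private theorem primeFactors_lcm' {a b : ℕ} (ha : a ≠ 0) (hb : b ≠ 0) :
    (a.lcm b).primeFactors = a.primeFactors ∪ b.primeFactors := by
  ext p
  rw [mem_union, Nat.mem_primeFactors, Nat.mem_primeFactors, Nat.mem_primeFactors]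
  have hL : a.lcm b ≠ 0 := Nat.lcm_ne_zero ha hb
  constructor
  · rintro ⟨h1, h2, _⟩
    have h3 : p ∣ a * b := h2.trans (Nat.lcm_dvd (dvd_mul_right a b) (dvd_mul_left b a))
    rcases (Nat.Prime.dvd_mul h1).1 h3 with h4 | h4
    · exact Or.inl ⟨h1, h4, ha⟩
    · exact Or.inr ⟨h1, h4, hb⟩
  · rintro (⟨h1, h2, _⟩ | ⟨h1, h2, _⟩)
    · exact ⟨h1, h2.trans (Nat.dvd_lcm_left a b), hL⟩
    · exact ⟨h1, h2.trans (Nat.dvd_lcm_right a b), hL⟩

private theorem mem_divY_sk {Y t : ℕ} {a : ℕ → ℝ} {ha : ∀ n, 0 ≤ a n} {X : ℝ} {Ps : Finset ℕ}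
    {l : ℕ} : l ∈ Helper24.divY (sk Y t a ha X Ps) Y ↔ l ∈ Helper24.sqf Y := by
  rw [Helper24.mem_divY, Helper24.mem_sqf]
  show l ∣ primorial Y ∧ l ≤ Y ↔ _
  constructor
  · rintro ⟨h1, h2⟩
    have h3 : Squarefree l := (sqf_primorial' Y).squarefree_of_dvd h1
    exact ⟨⟨Nat.pos_of_ne_zero h3.ne_zero, h2⟩, h3⟩
  · intro h
    exact ⟨sqf_dvd (Helper24.mem_sqf.2 h), h.1.2⟩

/-- the Selberg denominator is large -/
private theorem selG_ge' (Y t : ℕ) (a : ℕ → ℝ) (ha : ∀ n, 0 ≤ a n) (X : ℝ) (Ps : Finset ℕ) :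
    Real.log Y ≤ 2 * Real.exp 2 * Helper24.selG (sk Y t a ha X Ps) Y := by
  classical
  have h1 := Helper24.log_le_two_mul_Fsum_inv Y
  -- `Fsum (1/(p+1)) ≤ selG`
  have h2 : Helper24.Fsum Y (fun p => 1 / ((p : ℝ) + 1)) ≤
      Helper24.selG (sk Y t a ha X Ps) Y := by
    unfold Helper24.selG Helper24.Fsum
    have e : Helper24.divY (sk Y t a ha X Ps) Y = Helper24.sqf Y := by
      ext l
      exact mem_divY_sk
    rw [e]
    refine Finset.sum_le_sum fun l hl => ?_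
    have hd : l ∣ (sk Y t a ha X Ps).prodPrimes := (Helper24.mem_divY.1 (mem_divY_sk.2 hl)).1
    rw [BoundingSieve.selbergTerms_apply, ← BoundingSieve.prod_primeFactors_nu hd,
      ← prod_mul_distrib]
    refine prod_le_prod (fun p _ => by positivity) fun p hp => ?_
    exact nuF_ratio Ps (Nat.prime_of_mem_primeFactors hp)
  -- comparison of `1/p` and `1/(p+1)`
  set S : Finset ℕ := pr 0 Y with hS
  have hSp : ∀ p ∈ S, p.Prime := fun p hp => (Helper52.mem_pr.1 hp).2.2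
  have h3 : Helper24.Fsum Y (fun p => 1 / (p : ℝ)) ≤
      Helper24.Fsum Y (fun p => 1 / ((p : ℝ) + 1) + if p ∈ S then 1 / (p : ℝ) ^ 2 else 0) := by
    refine Helper24.Fsum_mono Y (fun p _ _ => by positivity) fun p hp hpY => ?_
    have hmem : p ∈ S := Helper52.mem_pr.2 ⟨hp.pos, hpY, hp⟩
    rw [if_pos hmem]
    have hp0 : (0 : ℝ) < p := by exact_mod_cast hp.pos
    have e : 1 / (p : ℝ) = 1 / ((p : ℝ) + 1) + 1 / ((p : ℝ) * (p + 1)) := by
      field_simp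
    rw [e]
    have : 1 / ((p : ℝ) * (p + 1)) ≤ 1 / (p : ℝ) ^ 2 := by
      refine one_div_le_one_div_of_le (by positivity) ?_
      nlinarith
    linarith
  have h4 := Helper24.Fsum_add_le Y (g := fun p => 1 / ((p : ℝ) + 1))
    (fun p _ _ => by positivity) S hSp (fun p => 1 / (p : ℝ) ^ 2) (fun p _ => by positivity)
  have h5 : ∏ p ∈ S, (1 + 1 / (p : ℝ) ^ 2) ≤ Real.exp 2 := by
    calc ∏ p ∈ S, (1 + 1 / (p : ℝ) ^ 2) ≤ ∏ p ∈ S, Real.exp (1 / (p : ℝ) ^ 2) := by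
          refine prod_le_prod (fun p _ => by positivity) fun p _ => ?_
          rw [add_comm]
          exact Real.add_one_le_exp _
      _ = Real.exp (∑ p ∈ S, 1 / (p : ℝ) ^ 2) := (Real.exp_sum _ _).symm
      _ ≤ Real.exp 2 := by
          refine Real.exp_le_exp.2 (le_trans ?_ (Helper24.sum_inv_sq_le_two Y))
          refine sum_le_sum_of_subset_of_nonneg ?_ fun _ _ _ => by positivity
          intro p hp
          rw [hS, Helper52.mem_pr] at hp
          exact mem_Icc.2 ⟨hp.1, hp.2.1⟩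
  have h6 : 0 ≤ Helper24.Fsum Y (fun p => 1 / ((p : ℝ) + 1)) :=
    sum_nonneg fun l _ => prod_nonneg fun p _ => by positivity
  calc Real.log Y ≤ 2 * Helper24.Fsum Y (fun p => 1 / (p : ℝ)) := h1
    _ ≤ 2 * ((∏ p ∈ S, (1 + 1 / (p : ℝ) ^ 2)) *
          Helper24.Fsum Y (fun p => 1 / ((p : ℝ) + 1))) := by
        linarith [h3.trans h4]
    _ ≤ 2 * (Real.exp 2 * Helper24.selG (sk Y t a ha X Ps) Y) := by
        have := mul_le_mul h5 h2 h6 (Real.exp_pos 2).le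
        linarith
    _ = _ := by ring

/-- bound for the Selberg weights -/
private theorem abs_selW_le' {Y t : ℕ} (hY : 1 ≤ Y) (a : ℕ → ℝ) (ha : ∀ n, 0 ≤ a n) (X : ℝ)
    (Ps : Finset ℕ) {d : ℕ} (hd : d ∣ primorial Y) :
    |Helper24.selW (sk Y t a ha X Ps) Y d| ≤ ∏ _p ∈ d.primeFactors, (2 : ℝ) := by
  refine (Helper24.abs_selW_le (s := sk Y t a ha X Ps) hY hd).trans ?_
  refine prod_le_prod (fun p hp => ?_) fun p hp => ?_
  · have h1 := nuF_le Ps (Nat.prime_of_mem_primeFactors hp)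
    exact inv_nonneg.2 (by show 0 ≤ 1 - nuF Ps p; linarith)
  · have h1 := nuF_le Ps (Nat.prime_of_mem_primeFactors hp)
    show (1 - nuF Ps p)⁻¹ ≤ 2
    refine (inv_anti₀ (by norm_num : (0 : ℝ) < 2⁻¹) (by linarith)).trans ?_
    norm_num

private theorem prod_two_le {d : ℕ} (hd : Squarefree d) :
    ∏ _p ∈ d.primeFactors, (2 : ℝ) ≤ (d : ℝ) := by
  have h1 : (d : ℝ) = ∏ p ∈ d.primeFactors, (p : ℝ) := by
    rw [← Nat.cast_prod, Nat.prod_primeFactors_of_squarefree hd]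
  rw [h1]
  refine prod_le_prod (fun _ _ => by norm_num) fun p hp => ?_
  exact_mod_cast (Nat.prime_of_mem_primeFactors hp).two_le

/-- Euler product for pairs of subsets -/
private theorem pair_prod (S : Finset ℕ) :
    ∑ A ∈ S.powerset, ∑ B ∈ S.powerset, (∏ _p ∈ A, (2 : ℝ)) * (∏ _p ∈ B, (2 : ℝ)) *
      ∏ p ∈ A ∪ B, 1 / (p : ℝ) = ∏ p ∈ S, (1 + 8 / (p : ℝ)) := by
  classical
  induction S using Finset.induction_on with
  | empty => simp
  | insert q S hq ih =>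
    rw [prod_insert hq, ← ih, sum_powerset_insert hq]
    have h1 : ∀ A ∈ S.powerset, q ∉ A := fun A hA h => hq (mem_powerset.1 hA h)
    simp only [sum_powerset_insert hq]
    rw [← sum_add_distrib, mul_sum]
    refine sum_congr rfl fun A hA => ?_
    rw [← sum_add_distrib, ← sum_add_distrib, ← sum_add_distrib, mul_sum]
    refine sum_congr rfl fun B hB => ?_
    have hA' := h1 A hA
    have hB' := h1 B hB
    have hAB : q ∉ A ∪ B := by
      rw [mem_union]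
      rintro (h | h)
      · exact hA' h
      · exact hB' h
    rw [prod_insert hA', prod_insert hB', union_insert, insert_union, insert_union,
      union_insert, insert_idem, prod_insert hAB]
    ring

/-- the sum over pairs of squarefree numbers -/
private theorem pair_sum (Y : ℕ) :
    ∑ d1 ∈ Helper24.sqf Y, ∑ d2 ∈ Helper24.sqf Y, (∏ _p ∈ d1.primeFactors, (2 : ℝ)) *
      (∏ _p ∈ d2.primeFactors, (2 : ℝ)) * (1 / ((d1.lcm d2 : ℕ) : ℝ)) ≤
      ∏ p ∈ pr 0 Y, (1 + 8 / (p : ℝ)) := by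
  classical
  rw [← pair_prod]
  set F : Finset ℕ → Finset ℕ → ℝ := fun A B => (∏ _p ∈ A, (2 : ℝ)) * (∏ _p ∈ B, (2 : ℝ)) *
      ∏ p ∈ A ∪ B, 1 / (p : ℝ) with hF
  have hF0 : ∀ A B, 0 ≤ F A B := fun A B => by
    simp only [hF]
    positivity
  have hinj : Set.InjOn (fun d : ℕ => d.primeFactors) (Helper24.sqf Y : Set ℕ) := by
    intro d hd e he h
    have hd' := (Helper24.mem_sqf.1 (Finset.mem_coe.1 hd)).2
    have he' := (Helper24.mem_sqf.1 (Finset.mem_coe.1 he)).2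
    have h' : d.primeFactors = e.primeFactors := h
    rw [← Nat.prod_primeFactors_of_squarefree hd', ← Nat.prod_primeFactors_of_squarefree he', h']
  have himg : (Helper24.sqf Y).image (fun d : ℕ => d.primeFactors) ⊆ (pr 0 Y).powerset := by
    intro A hA
    obtain ⟨d, hd, rfl⟩ := mem_image.1 hA
    rw [Helper24.mem_sqf] at hd
    rw [mem_powerset]
    intro p hp
    rw [Helper52.mem_pr]
    have h1 := Nat.prime_of_mem_primeFactors hp
    exact ⟨h1.pos, (Nat.le_of_dvd hd.1.1 (Nat.dvd_of_mem_primeFactors hp)).trans hd.1.2, h1⟩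
  have hle : ∀ G : Finset ℕ → ℝ, (∀ A, 0 ≤ G A) →
      ∑ d ∈ Helper24.sqf Y, G d.primeFactors ≤ ∑ A ∈ (pr 0 Y).powerset, G A := by
    intro G hG
    rw [← sum_image (g := fun d : ℕ => d.primeFactors) (f := G) hinj]
    exact sum_le_sum_of_subset_of_nonneg himg fun A _ _ => hG A
  calc ∑ d1 ∈ Helper24.sqf Y, ∑ d2 ∈ Helper24.sqf Y, (∏ _p ∈ d1.primeFactors, (2 : ℝ)) *
      (∏ _p ∈ d2.primeFactors, (2 : ℝ)) * (1 / ((d1.lcm d2 : ℕ) : ℝ))
      = ∑ d1 ∈ Helper24.sqf Y, ∑ d2 ∈ Helper24.sqf Y, F d1.primeFactors d2.primeFactors := by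
        refine sum_congr rfl fun d1 h1 => sum_congr rfl fun d2 h2 => ?_
        simp only [hF]
        congr 1
        rw [Helper24.mem_sqf] at h1 h2
        have h3 : Squarefree (d1.lcm d2) := (sqf_primorial' Y).squarefree_of_dvd
          (Nat.lcm_dvd (sqf_dvd (Helper24.mem_sqf.2 h1)) (sqf_dvd (Helper24.mem_sqf.2 h2)))
        rw [← Helper24.prod_inv_primeFactors h3, primeFactors_lcm' (by omega) (by omega)]
    _ ≤ ∑ d1 ∈ Helper24.sqf Y, ∑ B ∈ (pr 0 Y).powerset, F d1.primeFactors B :=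
        sum_le_sum fun d1 _ => hle (fun B => F d1.primeFactors B) fun B => hF0 _ _
    _ ≤ _ := hle (fun A => ∑ B ∈ (pr 0 Y).powerset, F A B) fun A =>
        sum_nonneg fun B _ => hF0 _ _

/-- `∏ (1 + 8/p)` -/
private theorem prod8 {Y : ℕ} (hY : 2 ≤ Y) :
    ∏ p ∈ pr 0 Y, (1 + 8 / (p : ℝ)) ≤ 6561 * Real.exp 64 * Real.log Y ^ 8 := by
  have hY0 : (0 : ℝ) < Y := by exact_mod_cast (by omega : 0 < Y)
  set n := Nat.log 2 Y + 1 with hn
  have hYn : Y ≤ 2 ^ n := (Nat.lt_pow_succ_log_self (by norm_num) Y).le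
  have hn1 : 1 ≤ n := by omega
  have hlogn : (n : ℝ) ≤ 3 * Real.log Y := by
    have h1 : (2 : ℕ) ^ Nat.log 2 Y ≤ Y := Nat.pow_log_le_self 2 (by omega)
    have h2 : ((2 : ℝ) ^ Nat.log 2 Y) ≤ Y := by exact_mod_cast h1
    have h3 := Real.log_le_log (by positivity) h2
    rw [Real.log_pow] at h3
    have h4 : Real.log 2 ≤ Real.log Y :=
      Real.log_le_log (by norm_num) (by exact_mod_cast hY)
    have h5 := Real.log_two_gt_d9
    have h6 : (n : ℝ) = (Nat.log 2 Y : ℝ) + 1 := by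
      rw [hn]
      push_cast
      ring
    rw [h6]
    have h7 : (0 : ℝ) ≤ (Nat.log 2 Y : ℝ) := Nat.cast_nonneg _
    have h8 : ((Nat.log 2 Y : ℝ) + 1) * Real.log 2 ≤ 2 * Real.log Y := by
      rw [add_mul, one_mul]
      linarith
    have h9 : ((Nat.log 2 Y : ℝ) + 1) * (2 / 3) ≤ ((Nat.log 2 Y : ℝ) + 1) * Real.log 2 :=
      mul_le_mul_of_nonneg_left (by linarith) (by linarith)
    linarith
  have hn0 : (0 : ℝ) < n := by exact_mod_cast hn1
  have h1 := Helper52.mertens2 hn1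
  calc ∏ p ∈ pr 0 Y, (1 + 8 / (p : ℝ)) ≤ ∏ p ∈ pr 0 Y, Real.exp (8 / (p : ℝ)) := by
        refine prod_le_prod (fun p _ => by positivity) fun p _ => ?_
        rw [add_comm]
        exact Real.add_one_le_exp _
    _ = Real.exp (∑ p ∈ pr 0 Y, 8 / (p : ℝ)) := (Real.exp_sum _ _).symm
    _ ≤ Real.exp (8 * (Real.log n + 8)) := by
        refine Real.exp_le_exp.2 ?_
        calc ∑ p ∈ pr 0 Y, 8 / (p : ℝ) = 8 * ∑ p ∈ pr 0 Y, 1 / (p : ℝ) := by
              rw [mul_sum]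
              refine sum_congr rfl fun p _ => ?_
              ring
          _ ≤ 8 * ∑ p ∈ pr 0 (2 ^ n), 1 / (p : ℝ) := by
              refine mul_le_mul_of_nonneg_left ?_ (by norm_num)
              refine sum_le_sum_of_subset_of_nonneg ?_ fun _ _ _ => by positivity
              intro p hp
              rw [Helper52.mem_pr] at hp ⊢
              exact ⟨hp.1, hp.2.1.trans hYn, hp.2.2⟩
          _ ≤ _ := mul_le_mul_of_nonneg_left h1 (by norm_num)
    _ = (n : ℝ) ^ 8 * Real.exp 64 := by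
        rw [mul_add, Real.exp_add]
        congr 1
        · rw [mul_comm, Real.exp_mul, Real.exp_log hn0]
          norm_cast
        · norm_num
    _ ≤ (3 * Real.log Y) ^ 8 * Real.exp 64 := by
        refine mul_le_mul_of_nonneg_right ?_ (Real.exp_pos _).le
        exact pow_le_pow_left₀ hn0.le hlogn 8
    _ = _ := by ring

/-- sum of the squarefree numbers up to `Y` -/
private theorem sum_sqf_le (Y : ℕ) : ∑ d ∈ Helper24.sqf Y, (d : ℝ) ≤ (Y : ℝ) ^ 2 := by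
  calc ∑ d ∈ Helper24.sqf Y, (d : ℝ) ≤ ∑ _d ∈ Helper24.sqf Y, (Y : ℝ) := by
        refine sum_le_sum fun d hd => ?_
        rw [Helper24.mem_sqf] at hd
        exact_mod_cast hd.1.2
    _ = ((Helper24.sqf Y).card : ℝ) * Y := by rw [sum_const, nsmul_eq_mul]
    _ ≤ (Y : ℝ) * Y := by
        refine mul_le_mul_of_nonneg_right ?_ (Nat.cast_nonneg _)
        have h1 : (Helper24.sqf Y).card ≤ (Icc 1 Y).card := card_le_card (filter_subset _ _)
        rw [Nat.card_Icc] at h1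
        exact_mod_cast (by omega : (Helper24.sqf Y).card ≤ Y)
    _ = _ := by ring

theorem sel_bound : ∃ C : ℝ, 0 < C ∧ ∀ (Y t : ℕ), 2 ≤ Y → ∀ (a : ℕ → ℝ), (∀ n, 0 ≤ a n) →
    ∀ (X E1 E2 : ℝ), 0 ≤ X → 0 ≤ E1 → 0 ≤ E2 → ∀ Ps : Finset ℕ,
    (∀ e : ℕ, Squarefree e → (∀ p ∈ e.primeFactors, p ≤ Y) →
      |∑ n ∈ (Icc 1 t).filter (fun n => e ∣ n), a n -
        X * (1 / (e : ℝ) * ∏ p ∈ e.primeFactors ∩ Ps, (1 - 1 / (p : ℝ)))| ≤ E1 + E2 / e) →
    ∑ q ∈ pr Y t, a q ≤ C * (X / Real.log Y + (Y : ℝ) ^ 4 * E1 + Real.log Y ^ 8 * E2) := by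
  classical
  refine ⟨2 * Real.exp 2 + 1 + 6561 * Real.exp 64, by positivity, ?_⟩
  intro Y t hY a ha X E1 E2 hX hE1 hE2 Ps hyp
  have hY1 : 1 ≤ Y := by omega
  have hlog : 0 < Real.log Y := Real.log_pos (by exact_mod_cast hY)
  have hex2 : 0 < Real.exp 2 := Real.exp_pos 2
  have hex64 : 0 < Real.exp 64 := Real.exp_pos 64
  have hmain := Helper24.siftedSum_le_selberg (s := sk Y t a ha X Ps) (Y := Y) hY1
  -- the primes are sifted
  have h1 : ∑ q ∈ pr Y t, a q ≤ (sk Y t a ha X Ps).siftedSum := by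
    unfold BoundingSieve.siftedSum
    rw [← sum_filter]
    refine sum_le_sum_of_subset_of_nonneg ?_ fun n _ _ => ha n
    intro q hq
    rw [Helper52.mem_pr] at hq
    rw [mem_filter]
    refine ⟨mem_Icc.2 ⟨hq.2.2.pos, hq.2.1⟩, ?_⟩
    show Nat.Coprime (primorial Y) q
    rw [Nat.coprime_comm, Nat.Prime.coprime_iff_not_dvd hq.2.2, dvd_primorial hq.2.2]
    omega
  -- main term
  have hG := selG_ge' Y t a ha X Ps
  have hG0 : 0 < Helper24.selG (sk Y t a ha X Ps) Y := Helper24.selG_pos hY1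
  have h2 : (sk Y t a ha X Ps).totalMass / Helper24.selG (sk Y t a ha X Ps) Y ≤
      2 * Real.exp 2 * (X / Real.log Y) := by
    show X / _ ≤ _
    rw [div_le_iff₀ hG0]
    calc X = X / Real.log Y * Real.log Y := by field_simp
      _ ≤ X / Real.log Y * (2 * Real.exp 2 * Helper24.selG (sk Y t a ha X Ps) Y) :=
          mul_le_mul_of_nonneg_left hG (by positivity)
      _ = _ := by ring
  -- error term
  have e : Helper24.divY (sk Y t a ha X Ps) Y = Helper24.sqf Y := by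
    ext l
    exact mem_divY_sk
  have h3 : ∑ d1 ∈ Helper24.divY (sk Y t a ha X Ps) Y,
      ∑ d2 ∈ Helper24.divY (sk Y t a ha X Ps) Y,
        |Helper24.selW (sk Y t a ha X Ps) Y d1| * |Helper24.selW (sk Y t a ha X Ps) Y d2| *
          |(sk Y t a ha X Ps).rem (d1.lcm d2)| ≤
      ∑ d1 ∈ Helper24.sqf Y, ∑ d2 ∈ Helper24.sqf Y, ((d1 : ℝ) * d2 * E1 +
        (∏ _p ∈ d1.primeFactors, (2 : ℝ)) * (∏ _p ∈ d2.primeFactors, (2 : ℝ)) *
          (1 / ((d1.lcm d2 : ℕ) : ℝ)) * E2) := by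
    rw [e]
    refine sum_le_sum fun d1 hd1 => sum_le_sum fun d2 hd2 => ?_
    have hP1 : d1 ∣ primorial Y := sqf_dvd hd1
    have hP2 : d2 ∣ primorial Y := sqf_dvd hd2
    have hL : d1.lcm d2 ∣ primorial Y := Nat.lcm_dvd hP1 hP2
    have hLs : Squarefree (d1.lcm d2) := (sqf_primorial' Y).squarefree_of_dvd hL
    have hs1 : Squarefree d1 := (sqf_primorial' Y).squarefree_of_dvd hP1
    have hs2 : Squarefree d2 := (sqf_primorial' Y).squarefree_of_dvd hP2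
    have hrem : |(sk Y t a ha X Ps).rem (d1.lcm d2)| ≤ E1 + E2 / ((d1.lcm d2 : ℕ) : ℝ) := by
      have h5 := hyp (d1.lcm d2) hLs fun p hp => by
        have hpp := Nat.prime_of_mem_primeFactors hp
        exact (dvd_primorial hpp).1 ((Nat.dvd_of_mem_primeFactors hp).trans hL)
      have h6 : (sk Y t a ha X Ps).rem (d1.lcm d2) =
          ∑ n ∈ (Icc 1 t).filter (fun n => d1.lcm d2 ∣ n), a n -
            X * (1 / ((d1.lcm d2 : ℕ) : ℝ) *
              ∏ p ∈ (d1.lcm d2).primeFactors ∩ Ps, (1 - 1 / (p : ℝ))) := by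
        rw [sum_filter, one_div, mul_comm X]
        rfl
      rw [h6]
      exact h5
    have hw1 := abs_selW_le' (t := t) hY1 a ha X Ps hP1
    have hw2 := abs_selW_le' (t := t) hY1 a ha X Ps hP2
    have h20 : (0 : ℝ) ≤ ∏ _p ∈ d1.primeFactors, (2 : ℝ) := by positivity
    have h21 : (0 : ℝ) ≤ ∏ _p ∈ d2.primeFactors, (2 : ℝ) := by positivity
    have hL0 : (0 : ℝ) ≤ E2 / ((d1.lcm d2 : ℕ) : ℝ) := by positivity
    calc |Helper24.selW (sk Y t a ha X Ps) Y d1| * |Helper24.selW (sk Y t a ha X Ps) Y d2| *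
          |(sk Y t a ha X Ps).rem (d1.lcm d2)|
        ≤ (∏ _p ∈ d1.primeFactors, (2 : ℝ)) * (∏ _p ∈ d2.primeFactors, (2 : ℝ)) *
          (E1 + E2 / ((d1.lcm d2 : ℕ) : ℝ)) := by
          refine mul_le_mul (mul_le_mul hw1 hw2 (abs_nonneg _) h20) hrem (abs_nonneg _) ?_
          exact mul_nonneg h20 h21
      _ = (∏ _p ∈ d1.primeFactors, (2 : ℝ)) * (∏ _p ∈ d2.primeFactors, (2 : ℝ)) * E1 +
          (∏ _p ∈ d1.primeFactors, (2 : ℝ)) * (∏ _p ∈ d2.primeFactors, (2 : ℝ)) *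
          (1 / ((d1.lcm d2 : ℕ) : ℝ)) * E2 := by ring
      _ ≤ _ := by
          refine add_le_add ?_ le_rfl
          refine mul_le_mul_of_nonneg_right ?_ hE1
          exact mul_le_mul (prod_two_le hs1) (prod_two_le hs2) h21 (Nat.cast_nonneg _)
  have h4 : ∑ d1 ∈ Helper24.sqf Y, ∑ d2 ∈ Helper24.sqf Y, ((d1 : ℝ) * d2 * E1 +
        (∏ _p ∈ d1.primeFactors, (2 : ℝ)) * (∏ _p ∈ d2.primeFactors, (2 : ℝ)) *
          (1 / ((d1.lcm d2 : ℕ) : ℝ)) * E2) ≤
      (Y : ℝ) ^ 4 * E1 + 6561 * Real.exp 64 * Real.log Y ^ 8 * E2 := by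
    have h5 : ∑ d1 ∈ Helper24.sqf Y, ∑ d2 ∈ Helper24.sqf Y, ((d1 : ℝ) * d2 * E1 +
        (∏ _p ∈ d1.primeFactors, (2 : ℝ)) * (∏ _p ∈ d2.primeFactors, (2 : ℝ)) *
          (1 / ((d1.lcm d2 : ℕ) : ℝ)) * E2) =
        (∑ d1 ∈ Helper24.sqf Y, (d1 : ℝ)) * (∑ d2 ∈ Helper24.sqf Y, (d2 : ℝ)) * E1 +
        (∑ d1 ∈ Helper24.sqf Y, ∑ d2 ∈ Helper24.sqf Y, (∏ _p ∈ d1.primeFactors, (2 : ℝ)) *
          (∏ _p ∈ d2.primeFactors, (2 : ℝ)) * (1 / ((d1.lcm d2 : ℕ) : ℝ))) * E2 := by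
      simp only [sum_add_distrib]
      rw [sum_mul_sum, sum_mul, sum_mul]
      simp only [sum_mul]
    rw [h5]
    refine add_le_add ?_ ?_
    · refine mul_le_mul_of_nonneg_right ?_ hE1
      have h6 := sum_sqf_le Y
      have h7 : 0 ≤ ∑ d ∈ Helper24.sqf Y, (d : ℝ) := sum_nonneg fun _ _ => Nat.cast_nonneg _
      calc (∑ d1 ∈ Helper24.sqf Y, (d1 : ℝ)) * (∑ d2 ∈ Helper24.sqf Y, (d2 : ℝ))
          ≤ (Y : ℝ) ^ 2 * (Y : ℝ) ^ 2 := mul_le_mul h6 h6 h7 (by positivity)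
        _ = _ := by ring
    · exact mul_le_mul_of_nonneg_right ((pair_sum Y).trans (prod8 hY)) hE2
  have h5 : 0 ≤ X / Real.log Y := by positivity
  have h6 : 0 ≤ (Y : ℝ) ^ 4 * E1 := by positivity
  have h7 : 0 ≤ Real.log Y ^ 8 * E2 := by positivity
  have h8 : ∑ q ∈ pr Y t, a q ≤ 2 * Real.exp 2 * (X / Real.log Y) +
      ((Y : ℝ) ^ 4 * E1 + 6561 * Real.exp 64 * Real.log Y ^ 8 * E2) :=
    h1.trans (hmain.trans (add_le_add h2 (h3.trans h4)))
  refine h8.trans ?_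
  have h9 : 0 ≤ Real.exp 2 * ((Y : ℝ) ^ 4 * E1) := by positivity
  have h10 : 0 ≤ Real.exp 2 * (Real.log Y ^ 8 * E2) := by positivity
  have h11 : 0 ≤ Real.exp 64 * (X / Real.log Y) := by positivity
  have h12 : 0 ≤ Real.exp 64 * ((Y : ℝ) ^ 4 * E1) := by positivity
  nlinarith

end Pool.Agent.SQ
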