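import Pool.Agent.SQ.LocG
import Pool.Agent.SQ.KTail
import Pool.Agent.SQ.KSel
import Pool.Agent.SQ.KJac

/-! SQ/KMean.  Mean value of `gg P (j^2 + q s)` over the primes `q ∈ (k, t]`.

`Y = ⌊k^(1/32)⌋`, `D0 = ⌊k^(1/8)⌋`, `a n = gg P (j^2 + n s) ≥ 0`.  For squarefree `e`:
`∑_{n ≤ t, e ∣ n} a n = ∑_{S ⊆ P} (-1)^|S|/Π S ∑_{1 ≤ m ≤ t/e} ch (j^2 + e m s) (Π S)` (`gg_expand`).
By `jac_avg` (`c = j^2`, `u = e s`; even `Π S` contribute `0`) the inner sum is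
`(t/e) (j^2/Π S) 1[Π S ∣ e s] + O(2 Π S + 2)` (`Π S` odd; natural division changes `t/e` by at most 1,
and the term `m = 0` is removed).  The `S` with `Π S ≤ D0` (at most `D0` of them) give an error `≤ 4 D0`;
the `S` with `Π S > D0` give at most `(t/e)/l^12` on the left, and as much when the main term is
completed to all `S` with `Π S ∣ e s` (`tailK`).  The main term is
`(t/e) ∏_{p ∈ P odd, p ∣ e s, p ∤ j} (1 - 1/p) = (t/e) κ ∏_{p ∣ e, p ∈ Ps} (1 - 1/p)`,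
`κ = ∏_{p ∈ P odd, p ∣ s, p ∤ j} (1 - 1/p) ≤ 1`, `Ps = {p ∈ P odd : p ∤ s, p ∤ j}` (`(j^2/p) = 1` or `0`).
So `sel_bound` applies with `X = κ t`, `E1 = 5 D0`, `E2 = 2 t/l^12`:
`∑_{q ∈ pr k t} ≤ ∑_{q ∈ pr Y t} ≤ C (t/log Y + Y^4 5 D0 + (log Y)^8 2 t/l^12) ≤ C' t/l`
(`Y^4 D0 ≤ k^(1/4)`, `t ≥ k`, `log Y ≥ l/64`). -/

set_option autoImplicit false

namespace Pool.Agent.SQ

open Finset
open Helper52 (pr)

private theorem km_ch_abs (a : ℤ) (d : ℕ) : |ch a d| ≤ 1 := by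
  unfold ch
  split_ifs
  · rcases jacobiSym.trichotomy a d with h | h | h <;> rw [h] <;> norm_num
  · norm_num

private theorem km_mult {l : ℕ} (hl : 1 ≤ l) (t : ℕ) (F : ℕ → ℝ) :
    ∑ n ∈ (Icc 1 t).filter (fun n => l ∣ n), F n = ∑ m ∈ Icc 1 (t / l), F (l * m) := by
  symm
  apply Finset.sum_bij (fun m _ => l * m)
  · intro m hm
    rw [mem_Icc] at hm
    rw [mem_filter, mem_Icc]
    refine ⟨⟨Nat.mul_pos hl hm.1, ?_⟩, Dvd.intro _ rfl⟩
    calc l * m ≤ l * (t / l) := Nat.mul_le_mul_left _ hm.2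
      _ ≤ t := Nat.mul_div_le _ _
  · intro a _ b _ h
    exact Nat.eq_of_mul_eq_mul_left hl h
  · intro n hn
    rw [mem_filter, mem_Icc] at hn
    obtain ⟨⟨h1, h2⟩, m, rfl⟩ := hn
    refine ⟨m, ?_, rfl⟩
    rw [mem_Icc]
    refine ⟨Nat.pos_of_ne_zero (by rintro rfl; simp at h1), ?_⟩
    rw [Nat.le_div_iff_mul_le hl, mul_comm]
    exact h2
  · intro m _; rfl

private theorem km_sqfree {S : Finset ℕ} (hS : ∀ p ∈ S, p.Prime) : Squarefree (∏ p ∈ S, p) := by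
  apply Finset.squarefree_prod_of_pairwise_isCoprime
  · intro a ha b hb hab
    rw [Function.onFun, ← Nat.coprime_iff_isRelPrime]
    exact (Nat.coprime_primes (hS a ha) (hS b hb)).2 hab
  · intro p hp
    exact (hS p hp).squarefree

private theorem km_root (k : ℕ) (hk : 2 ^ 32 ≤ k) : ∃ Y : ℕ, 2 ≤ Y ∧ Y ^ 32 ≤ k ∧
    k < (Y + 1) ^ 32 := by
  have h1 : Nat.findGreatest (fun y => y ^ 32 ≤ k) k ^ 32 ≤ k :=
    Nat.findGreatest_spec (P := fun y => y ^ 32 ≤ k) (m := 2)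
      (le_trans (by norm_num) hk) hk
  have h2 : 2 ≤ Nat.findGreatest (fun y => y ^ 32 ≤ k) k :=
    Nat.le_findGreatest (le_trans (by norm_num) hk) hk
  refine ⟨_, h2, h1, ?_⟩
  by_contra hcon
  push Not at hcon
  set Y := Nat.findGreatest (fun y => y ^ 32 ≤ k) k with hY
  have h3 : Y + 1 ≤ k := le_trans (Nat.le_self_pow (by norm_num) _) hcon
  exact Nat.findGreatest_is_greatest (P := fun y => y ^ 32 ≤ k) (n := k) (k := Y + 1)
    (Nat.lt_succ_self _) h3 hcon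

open Classical in
/-- the mean value of `ch (c + u m) d` -/
private noncomputable def kmc (c u : ℤ) (d : ℕ) : ℝ :=
  if d % 2 = 1 ∧ (d : ℤ) ∣ u then ((jacobiSym c d : ℤ) : ℝ) else 0

private theorem kmc_abs (c u : ℤ) (d : ℕ) : |kmc c u d| ≤ 1 := by
  unfold kmc
  split_ifs
  · rcases jacobiSym.trichotomy c d with h | h | h <;> rw [h] <;> norm_num
  · norm_num

private theorem kmc_sum {d : ℕ} (hsq : Squarefree d) (c u : ℤ) (N : ℕ) :
    |∑ m ∈ Icc 1 N, ch (c + u * (m : ℤ)) d - N * kmc c u d| ≤ 2 * d + 2 := by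
  by_cases hd : d % 2 = 1
  · have h1 := jac_avg hd hsq c u (N + 1)
    have hk : kmc c u d = if (d : ℤ) ∣ u then ((jacobiSym c d : ℤ) : ℝ) else 0 := by
      unfold kmc
      by_cases h : (d : ℤ) ∣ u
      · rw [if_pos ⟨hd, h⟩, if_pos h]
      · rw [if_neg (fun h' => h h'.2), if_neg h]
    rw [← hk] at h1
    have h2 : ∑ m ∈ Icc 1 N, ch (c + u * (m : ℤ)) d =
        ∑ m ∈ range (N + 1), ((jacobiSym (c + u * (m : ℤ)) d : ℤ) : ℝ) -
          ((jacobiSym (c + u * ((0 : ℕ) : ℤ)) d : ℤ) : ℝ) := by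
      rw [Finset.sum_range_succ', add_sub_cancel_right]
      have h4 : Icc 1 N = Ico (0 + 1) (N + 1) := by
        ext x; simp only [mem_Icc, mem_Ico]; omega
      rw [h4, ← Finset.sum_Ico_add', Nat.Ico_zero_eq_range]
      apply Finset.sum_congr rfl
      intro m _
      unfold ch
      rw [if_pos hd]
    have h3 : |((jacobiSym (c + u * ((0 : ℕ) : ℤ)) d : ℤ) : ℝ)| ≤ 1 := by
      rcases jacobiSym.trichotomy (c + u * ((0 : ℕ) : ℤ)) d with h | h | h <;> rw [h] <;> norm_num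
    have h4 := kmc_abs c u d
    rw [h2]
    push_cast at h1
    rw [abs_le] at h1 h3 h4 ⊢
    constructor <;> linarith [h1.1, h1.2, h3.1, h3.2, h4.1, h4.2]
  · have h1 : kmc c u d = 0 := by
      unfold kmc
      rw [if_neg (fun h => hd h.1)]
    have h2 : ∑ m ∈ Icc 1 N, ch (c + u * (m : ℤ)) d = 0 := by
      refine Finset.sum_eq_zero fun m _ => ?_
      unfold ch
      rw [if_neg hd]
    rw [h1, h2, mul_zero, sub_zero, abs_zero]
    positivity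

private theorem kmc_one (c u : ℤ) : kmc c u 1 = 1 := by
  unfold kmc
  rw [if_pos ⟨by norm_num, by simp⟩]
  simp

private theorem kmc_mul (c u : ℤ) {m n : ℕ} (h : m.Coprime n) :
    kmc c u (m * n) = kmc c u m * kmc c u n := by
  unfold kmc
  by_cases hm : m % 2 = 1
  · by_cases hn : n % 2 = 1
    · have h1 : (m * n) % 2 = 1 := by rw [Nat.mul_mod, hm, hn]
      have h2 : ((m * n : ℕ) : ℤ) ∣ u ↔ (m : ℤ) ∣ u ∧ (n : ℤ) ∣ u := by
        constructor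
        · intro h3
          push_cast at h3
          exact ⟨(Dvd.intro _ rfl).trans h3, (Dvd.intro_left _ rfl).trans h3⟩
        · rintro ⟨h3, h4⟩
          push_cast
          exact (Int.isCoprime_iff_gcd_eq_one.2 (by simpa using h)).mul_dvd h3 h4
      by_cases h3 : (m : ℤ) ∣ u
      · by_cases h4 : (n : ℤ) ∣ u
        · rw [if_pos ⟨h1, h2.2 ⟨h3, h4⟩⟩, if_pos ⟨hm, h3⟩, if_pos ⟨hn, h4⟩,
            jacobiSym.mul_right' c (by omega) (by omega)]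
          push_cast
          rfl
        · rw [if_neg (fun h5 => h4 (h2.1 h5.2).2),
            if_neg (show ¬ (n % 2 = 1 ∧ (n : ℤ) ∣ u) from fun h5 => h4 h5.2), mul_zero]
      · rw [if_neg (fun h5 => h3 (h2.1 h5.2).1), if_neg (fun h5 => h3 h5.2), zero_mul]
    · have h1 : ¬ (m * n) % 2 = 1 := by
        have h2 : n % 2 = 0 := by omega
        rw [Nat.mul_mod, h2]; simp
      rw [if_neg (fun h5 => h1 h5.1),
        if_neg (show ¬ (n % 2 = 1 ∧ (n : ℤ) ∣ u) from fun h5 => hn h5.1), mul_zero]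
  · have h1 : ¬ (m * n) % 2 = 1 := by
      have h2 : m % 2 = 0 := by omega
      rw [Nat.mul_mod, h2]; simp
    rw [if_neg (fun h5 => h1 h5.1), if_neg (fun h5 => hm h5.1), zero_mul]

private theorem kmc_prod (c u : ℤ) {S : Finset ℕ} (hS : ∀ p ∈ S, p.Prime) :
    kmc c u (∏ p ∈ S, p) = ∏ p ∈ S, kmc c u p := by
  classical
  induction S using Finset.induction_on with
  | empty => rw [prod_empty, prod_empty, kmc_one]
  | insert q S hq ih =>
    rw [Finset.prod_insert hq, Finset.prod_insert hq, kmc_mul,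
      ih fun p hp => hS p (Finset.mem_insert_of_mem hp)]
    refine Nat.Coprime.prod_right fun p hp => ?_
    refine (Nat.coprime_primes (hS q (Finset.mem_insert_self q S))
      (hS p (Finset.mem_insert_of_mem hp))).2 ?_
    rintro rfl
    exact hq hp

private theorem kmc_euler (c u : ℤ) {P : Finset ℕ} (hP : ∀ p ∈ P, p.Prime) :
    ∑ S ∈ P.powerset, (-1) ^ S.card * kmc c u (∏ p ∈ S, p) / ((∏ p ∈ S, p : ℕ) : ℝ) =
      ∏ p ∈ P, (1 - kmc c u p / (p : ℝ)) := by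
  have h1 : ∏ p ∈ P, (1 - kmc c u p / (p : ℝ)) = ∏ p ∈ P, (1 + (-1) * kmc c u p / (p : ℝ)) := by
    refine Finset.prod_congr rfl fun p _ => ?_
    ring
  rw [h1, Finset.prod_one_add]
  refine Finset.sum_congr rfl fun S hS => ?_
  rw [Finset.prod_div_distrib, Finset.prod_mul_distrib, Finset.prod_const,
    kmc_prod c u fun p hp => hP p (Finset.mem_powerset.1 hS hp)]
  push_cast
  rfl

open Classical in
private theorem kmc_prime (j : ℕ) (u : ℤ) {p : ℕ} (hp : p.Prime) :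
    kmc ((j : ℤ) ^ 2) u p = if p % 2 = 1 ∧ (p : ℤ) ∣ u ∧ ¬ p ∣ j then 1 else 0 := by
  unfold kmc
  by_cases h1 : p % 2 = 1 ∧ (p : ℤ) ∣ u
  · rw [if_pos h1]
    by_cases h2 : p ∣ j
    · rw [if_neg (fun h => h.2.2 h2), jacobiSym.pow_left]
      have : NeZero p := ⟨hp.ne_zero⟩
      have h3 : jacobiSym (j : ℤ) p = 0 := by
        rw [jacobiSym.eq_zero_iff_not_coprime]
        intro h4
        rw [Int.gcd_natCast_natCast] at h4
        exact hp.one_lt.ne' (Nat.eq_one_of_dvd_one (h4 ▸ Nat.dvd_gcd h2 dvd_rfl))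
      rw [h3]
      norm_num
    · have h3 : ((j : ℤ)).gcd (p : ℤ) = 1 := by
        rw [Int.gcd_natCast_natCast]
        exact ((Nat.Prime.coprime_iff_not_dvd hp).2 h2).symm
      rw [if_pos ⟨h1.1, h1.2, h2⟩, jacobiSym.sq_one' h3]
      norm_num
  · rw [if_neg h1, if_neg (fun h => h1 ⟨h.1, h.2.1⟩)]

open Classical in
private theorem km_main (j : ℕ) (s : ℤ) {P : Finset ℕ} (hP : ∀ p ∈ P, p.Prime) {e : ℕ}
    (he : e ≠ 0) :
    ∏ p ∈ P, (1 - kmc ((j : ℤ) ^ 2) ((e : ℤ) * s) p / (p : ℝ)) =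
      (∏ p ∈ P.filter (fun p : ℕ => p % 2 = 1 ∧ (p : ℤ) ∣ s ∧ ¬ p ∣ j), (1 - 1 / (p : ℝ))) *
      ∏ p ∈ e.primeFactors ∩ P.filter (fun p : ℕ => p % 2 = 1 ∧ ¬ (p : ℤ) ∣ s ∧ ¬ p ∣ j),
        (1 - 1 / (p : ℝ)) := by
  have h1 : ∏ p ∈ P, (1 - kmc ((j : ℤ) ^ 2) ((e : ℤ) * s) p / (p : ℝ)) =
      ∏ p ∈ P.filter (fun p : ℕ => p % 2 = 1 ∧ (p : ℤ) ∣ (e : ℤ) * s ∧ ¬ p ∣ j),
        (1 - 1 / (p : ℝ)) := by
    rw [Finset.prod_filter]
    refine Finset.prod_congr rfl fun p hp => ?_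
    rw [kmc_prime j _ (hP p hp)]
    split_ifs
    · rfl
    · rw [zero_div, sub_zero]
  rw [h1, ← Finset.prod_union]
  · refine Finset.prod_congr ?_ fun _ _ => rfl
    ext p
    rw [mem_union, mem_inter, mem_filter, mem_filter, mem_filter]
    constructor
    · rintro ⟨hp, h2, h3, h4⟩
      by_cases h5 : (p : ℤ) ∣ s
      · exact Or.inl ⟨hp, h2, h5, h4⟩
      · refine Or.inr ⟨?_, hp, h2, h5, h4⟩
        have hpr : Prime (p : ℤ) := Nat.prime_iff_prime_int.1 (hP p hp)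
        rcases hpr.dvd_or_dvd h3 with h6 | h6
        · exact Nat.mem_primeFactors.2 ⟨hP p hp, Int.natCast_dvd_natCast.1 h6, he⟩
        · exact absurd h6 h5
    · rintro (⟨hp, h2, h3, h4⟩ | ⟨h6, hp, h2, h3, h4⟩)
      · exact ⟨hp, h2, Dvd.dvd.mul_left h3 _, h4⟩
      · exact ⟨hp, h2, Dvd.dvd.mul_right
          (Int.natCast_dvd_natCast.2 (Nat.dvd_of_mem_primeFactors h6)) _, h4⟩
  · rw [Finset.disjoint_left]
    intro p h2 h3
    rw [mem_filter] at h2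
    rw [mem_inter, mem_filter] at h3
    exact h3.2.2.2.1 h2.2.2.1

private theorem km_card {P : Finset ℕ} (hP : ∀ p ∈ P, p.Prime) (D0 : ℕ) :
    ((P.powerset.filter (fun S => ¬ D0 < ∏ p ∈ S, p)).card : ℝ) ≤ D0 := by
  have hprime : ∀ S ∈ P.powerset, ∀ p ∈ S, p.Prime := fun S hS p hp =>
    hP p (Finset.mem_powerset.1 hS hp)
  have h1 : (P.powerset.filter (fun S => ¬ D0 < ∏ p ∈ S, p)).card ≤ (Icc 1 D0).card := by
    apply Finset.card_le_card_of_injOn (fun S => ∏ p ∈ S, p)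
    · intro S hS
      have h2 := Finset.mem_filter.1 (Finset.mem_coe.1 hS)
      have h3 : 0 < ∏ p ∈ S, p := Finset.prod_pos fun p hp => (hprime S h2.1 p hp).pos
      exact Finset.mem_coe.2 (mem_Icc.2 ⟨h3, not_lt.1 h2.2⟩)
    · intro S hS S' hS' h
      have h2 := Nat.primeFactors_prod (hprime S (Finset.mem_filter.1 hS).1)
      have h3 := Nat.primeFactors_prod (hprime S' (Finset.mem_filter.1 hS').1)
      simp only at h
      rw [← h2, ← h3, h]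
  rw [Nat.card_Icc, Nat.add_sub_cancel] at h1
  exact_mod_cast h1

/-- the sum over the multiples of `e` -/
private theorem km_dist {k : ℕ} {l l2 l3 : ℝ} {b : ℕ} (h : PS k l l2 l3 b) {P : Finset ℕ}
    (hP : ∀ p ∈ P, p.Prime ∧ p ≤ 2 ^ b) {D0 : ℕ} (hD : k ≤ (D0 + 1) ^ 8) (j : ℕ) (s : ℤ) (t : ℕ)
    {e : ℕ} (he : e ≠ 0) :
    |∑ n ∈ (Icc 1 t).filter (fun n => e ∣ n), gg P ((j : ℤ) ^ 2 + (n : ℤ) * s) -
      (t : ℝ) / e * ∏ p ∈ P, (1 - kmc ((j : ℤ) ^ 2) ((e : ℤ) * s) p / (p : ℝ))| ≤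
      5 * (D0 : ℝ) + (2 * t / l ^ 12) / e := by
  have hPp : ∀ p ∈ P, p.Prime := fun p hp => (hP p hp).1
  have he1 : 1 ≤ e := Nat.one_le_iff_ne_zero.2 he
  have her : (0 : ℝ) < e := by exact_mod_cast he1
  obtain ⟨N, hN⟩ : ∃ N, N = t / e := ⟨_, rfl⟩
  have hN1 : (N : ℝ) ≤ (t : ℝ) / e := by rw [hN]; exact Nat.cast_div_le
  have hN2 : (t : ℝ) / e ≤ (N : ℝ) + 1 := by
    rw [div_le_iff₀ her]
    have h4 : t < (N + 1) * e := by
      rw [hN, Nat.add_mul, one_mul, mul_comm]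
      have := Nat.div_add_mod t e
      have := Nat.mod_lt t (show 0 < e from he1)
      omega
    have h5 : (t : ℝ) < ((N + 1 : ℕ) : ℝ) * e := by exact_mod_cast h4
    push_cast at h5
    exact h5.le
  obtain ⟨x, hx⟩ : ∃ x : ℝ, x = (t : ℝ) / e := ⟨_, rfl⟩
  rw [← hx] at hN1 hN2
  have hx0 : 0 ≤ x := by rw [hx]; positivity
  obtain ⟨E, hE⟩ : ∃ E : ℕ → ℝ, ∀ d, E d = ∑ m ∈ Icc 1 N, ch ((j : ℤ) ^ 2 + ((e : ℤ) * s) * (m : ℤ)) d :=
    ⟨_, fun _ => rfl⟩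
  have h1 : ∑ n ∈ (Icc 1 t).filter (fun n => e ∣ n), gg P ((j : ℤ) ^ 2 + (n : ℤ) * s) =
      ∑ S ∈ P.powerset, (-1) ^ S.card * E (∏ p ∈ S, p) / ((∏ p ∈ S, p : ℕ) : ℝ) := by
    rw [km_mult he1 t (fun n => gg P ((j : ℤ) ^ 2 + (n : ℤ) * s)), ← hN]
    simp only [gg_expand]
    rw [Finset.sum_comm]
    refine Finset.sum_congr rfl fun S _ => ?_
    rw [hE, Finset.mul_sum, Finset.sum_div]
    refine Finset.sum_congr rfl fun m _ => ?_
    have h2 : (j : ℤ) ^ 2 + ((e * m : ℕ) : ℤ) * s = (j : ℤ) ^ 2 + (e : ℤ) * s * (m : ℤ) := by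
      push_cast
      ring
    rw [h2]
  rw [h1, ← hx, ← kmc_euler _ _ hPp, Finset.mul_sum, ← Finset.sum_sub_distrib]
  have hprime : ∀ S ∈ P.powerset, ∀ p ∈ S, p.Prime := fun S hS p hp =>
    hPp p (Finset.mem_powerset.1 hS hp)
  -- the terms
  have hterm : ∀ S ∈ P.powerset, |(-1) ^ S.card * E (∏ p ∈ S, p) / ((∏ p ∈ S, p : ℕ) : ℝ) -
      x * ((-1) ^ S.card * kmc ((j : ℤ) ^ 2) ((e : ℤ) * s) (∏ p ∈ S, p) /
        ((∏ p ∈ S, p : ℕ) : ℝ))| ≤
      (if D0 < ∏ p ∈ S, p then 2 * x * (1 / ((∏ p ∈ S, p : ℕ) : ℝ)) else 5) := by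
    intro S hS
    have hpos : 0 < ∏ p ∈ S, p := Finset.prod_pos fun p hp => (hprime S hS p hp).pos
    obtain ⟨d, hd⟩ : ∃ d, d = ∏ p ∈ S, p := ⟨_, rfl⟩
    have hsq : Squarefree d := by rw [hd]; exact km_sqfree (hprime S hS)
    rw [← hd] at hpos ⊢
    have hdr : (1 : ℝ) ≤ d := by exact_mod_cast hpos
    have hd0 : (0 : ℝ) < d := by linarith
    have e1 : (-1) ^ S.card * E d / (d : ℝ) -
        x * ((-1) ^ S.card * kmc ((j : ℤ) ^ 2) ((e : ℤ) * s) d / (d : ℝ)) =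
        (-1) ^ S.card * ((E d - x * kmc ((j : ℤ) ^ 2) ((e : ℤ) * s) d) / d) := by ring
    rw [e1, abs_mul, abs_pow, abs_neg, abs_one, one_pow, one_mul, abs_div, Nat.abs_cast]
    have hk := kmc_abs ((j : ℤ) ^ 2) ((e : ℤ) * s) d
    obtain ⟨c, hc⟩ : ∃ c, c = kmc ((j : ℤ) ^ 2) ((e : ℤ) * s) d := ⟨_, rfl⟩
    have hsum := kmc_sum hsq ((j : ℤ) ^ 2) ((e : ℤ) * s) N
    rw [← hE, ← hc] at hsum
    rw [← hc] at hk ⊢
    split_ifs with hlt
    · have h2 : |E d| ≤ x := by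
        rw [hE]
        refine (Finset.abs_sum_le_sum_abs _ _).trans ?_
        refine (Finset.sum_le_sum fun m _ => km_ch_abs _ _).trans ?_
        rw [Finset.sum_const, Nat.card_Icc, Nat.add_sub_cancel, nsmul_eq_mul, mul_one]
        exact hN1
      have h3 : |x * c| ≤ x := by
        rw [abs_mul, abs_of_nonneg hx0]
        exact mul_le_of_le_one_right hx0 hk
      have h4 : |E d - x * c| ≤ 2 * x := by
        refine (abs_sub _ _).trans ?_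
        linarith
      rw [mul_one_div]
      exact div_le_div_of_nonneg_right h4 hd0.le
    · rw [div_le_iff₀ hd0]
      have h2 : |(x - N) * c| ≤ 1 := by
        rw [abs_mul]
        have h3 : |x - N| ≤ 1 := by
          rw [abs_le]
          constructor <;> linarith
        exact mul_le_one₀ h3 (abs_nonneg _) hk
      have h3 : E d - x * c = (E d - N * c) - (x - N) * c := by ring
      rw [h3]
      refine (abs_sub _ _).trans ?_
      linarith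
  refine (Finset.abs_sum_le_sum_abs _ _).trans ((Finset.sum_le_sum hterm).trans ?_)
  rw [Finset.sum_ite, Finset.sum_const, nsmul_eq_mul, ← Finset.mul_sum]
  have h5 := tailK h hP hD
  have h6 := km_card hPp D0
  have h7 : 2 * x * ∑ S ∈ P.powerset.filter (fun S => D0 < ∏ p ∈ S, p),
      1 / ((∏ p ∈ S, p : ℕ) : ℝ) ≤ 2 * x * (1 / l ^ 12) :=
    mul_le_mul_of_nonneg_left h5 (by positivity)
  have h8 : 2 * x * (1 / l ^ 12) = (2 * t / l ^ 12) / e := by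
    rw [hx]
    ring
  rw [h8] at h7
  linarith

private theorem km_pow {l : ℝ} (hl : 0 < l) (t : ℝ) :
    l ^ 8 * (2 * t / l ^ 12) = 2 * t / l ^ 4 := by
  have h1 : l ^ 12 = l ^ 8 * l ^ 4 := by ring
  have h2 : l ^ 8 ≠ 0 := (pow_pos hl 8).ne'
  rw [h1, ← mul_div_assoc, mul_div_mul_left _ _ h2]

private theorem km_fac {p : ℕ} (hp : p.Prime) :
    0 ≤ 1 - 1 / (p : ℝ) ∧ 1 - 1 / (p : ℝ) ≤ 1 := by
  have h1 : (1 : ℝ) ≤ p := by exact_mod_cast hp.pos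
  have h2 : 1 / (p : ℝ) ≤ 1 := by
    rw [div_le_one (by linarith)]
    exact h1
  have h3 : 0 ≤ 1 / (p : ℝ) := by positivity
  constructor <;> linarith

private theorem km_final {C l κ : ℝ} {Y k t D0 : ℕ} (hC : 0 < C) (hY2 : 2 ≤ Y)
    (hY1 : Y ^ 32 ≤ k) (hYk : k < (Y + 1) ^ 32) (hkt : k ≤ t) (hD0 : D0 = (Y + 1) ^ 4)
    (hl : Real.log k = l) (hl1 : 1 ≤ l) (hκ : κ ≤ 1) :
    C * (κ * t / Real.log Y + (Y : ℝ) ^ 4 * (5 * D0) + Real.log Y ^ 8 * (2 * t / l ^ 12)) ≤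
      5186 * C * t / l := by
  have hYr : (2 : ℝ) ≤ Y := by exact_mod_cast hY2
  have hY0 : (0 : ℝ) < Y := by linarith
  have hlogY : 0 < Real.log Y := Real.log_pos (by linarith)
  have hkr : (Y : ℝ) ^ 32 ≤ k := by exact_mod_cast hY1
  have hkt' : (k : ℝ) ≤ t := by exact_mod_cast hkt
  have htr : (Y : ℝ) ^ 32 ≤ t := hkr.trans hkt'
  have ht0 : (0 : ℝ) ≤ t := Nat.cast_nonneg _
  have hl0 : 0 < l := by linarith
  have hk1 : (1 : ℝ) ≤ (Y : ℝ) ^ 32 := one_le_pow₀ (by linarith)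
  have hkY : l ≤ 64 * Real.log Y := by
    have h0 : Y + 1 ≤ Y ^ 2 := by
      have h2 : Y * 2 ≤ Y * Y := Nat.mul_le_mul_left _ hY2
      rw [pow_two]
      omega
    have h2 : k ≤ Y ^ 64 := by
      calc k ≤ (Y + 1) ^ 32 := hYk.le
        _ ≤ (Y ^ 2) ^ 32 := Nat.pow_le_pow_left h0 _
        _ = Y ^ 64 := by rw [← pow_mul]
    have h1 : (k : ℝ) ≤ (Y : ℝ) ^ 64 := by exact_mod_cast h2
    have h3 := Real.log_le_log (by linarith) h1
    rw [Real.log_pow, hl] at h3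
    exact h3
  have hYl : Real.log Y ≤ l := by
    rw [← hl]
    refine Real.log_le_log hY0 ?_
    exact (le_self_pow₀ (by linarith : (1 : ℝ) ≤ Y) (by norm_num : (32 : ℕ) ≠ 0)).trans hkr
  have p1 : κ * t / Real.log Y ≤ 64 * t / l := by
    rw [div_le_div_iff₀ hlogY hl0]
    calc κ * t * l ≤ 1 * t * l := by
          apply mul_le_mul_of_nonneg_right _ hl0.le
          exact mul_le_mul_of_nonneg_right hκ ht0
      _ ≤ t * (64 * Real.log Y) := by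
          rw [one_mul]
          exact mul_le_mul_of_nonneg_left hkY ht0
      _ = 64 * t * Real.log Y := by ring
  have hD0r : (D0 : ℝ) ≤ 16 * (Y : ℝ) ^ 4 := by
    rw [hD0]
    push_cast
    calc ((Y : ℝ) + 1) ^ 4 ≤ (2 * Y) ^ 4 := pow_le_pow_left₀ (by linarith) (by linarith) 4
      _ = _ := by ring
  have p2 : (Y : ℝ) ^ 4 * (5 * D0) ≤ 5120 * t / l := by
    have h1 : (Y : ℝ) ^ 4 * (5 * D0) ≤ 80 * (Y : ℝ) ^ 8 := by
      calc (Y : ℝ) ^ 4 * (5 * D0) ≤ (Y : ℝ) ^ 4 * (5 * (16 * (Y : ℝ) ^ 4)) :=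
            mul_le_mul_of_nonneg_left (by linarith) (pow_nonneg hY0.le 4)
        _ = 80 * (Y : ℝ) ^ 8 := by ring
    refine h1.trans ?_
    rw [le_div_iff₀ hl0]
    have h5 : Real.log Y ≤ Y := (Real.log_le_sub_one_of_pos (by linarith)).trans (by linarith)
    have h6 : l ≤ 64 * Y := hkY.trans (by linarith)
    calc 80 * (Y : ℝ) ^ 8 * l ≤ 80 * (Y : ℝ) ^ 8 * (64 * Y) :=
          mul_le_mul_of_nonneg_left h6 (mul_nonneg (by norm_num) (pow_nonneg hY0.le 8))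
      _ = 5120 * (Y : ℝ) ^ 9 := by ring
      _ ≤ 5120 * (Y : ℝ) ^ 32 := by
          apply mul_le_mul_of_nonneg_left _ (by norm_num)
          exact pow_le_pow_right₀ (by linarith) (by norm_num)
      _ ≤ 5120 * t := mul_le_mul_of_nonneg_left htr (by norm_num)
  have p3 : Real.log Y ^ 8 * (2 * t / l ^ 12) ≤ 2 * t / l := by
    have h1 : Real.log Y ^ 8 ≤ l ^ 8 := pow_le_pow_left₀ hlogY.le hYl 8
    calc Real.log Y ^ 8 * (2 * t / l ^ 12) ≤ l ^ 8 * (2 * t / l ^ 12) :=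
          mul_le_mul_of_nonneg_right h1
            (div_nonneg (mul_nonneg zero_le_two ht0) (pow_nonneg hl0.le 12))
      _ = 2 * t / l ^ 4 := km_pow hl0 _
      _ ≤ 2 * t / l := by
          apply div_le_div_of_nonneg_left (mul_nonneg zero_le_two ht0) hl0
          exact le_self_pow₀ hl1 (by norm_num)
  calc C * (κ * t / Real.log Y + (Y : ℝ) ^ 4 * (5 * D0) + Real.log Y ^ 8 * (2 * t / l ^ 12))
      ≤ C * (64 * t / l + 5120 * t / l + 2 * t / l) := by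
        apply mul_le_mul_of_nonneg_left _ hC.le
        exact add_le_add (add_le_add p1 p2) p3
    _ = 5186 * C * t / l := by ring

theorem meanK : ∃ C : ℝ, 0 < C ∧ ∃ k0 : ℕ, ∀ k : ℕ, k0 ≤ k → ∀ (l l2 l3 : ℝ) (b : ℕ),
    PS k l l2 l3 b → ∀ P : Finset ℕ, (∀ p ∈ P, p.Prime ∧ p ≤ 2 ^ b) →
    ∀ (j : ℕ) (s : ℤ) (t : ℕ), k ≤ t →
      ∑ q ∈ pr k t, gg P ((j : ℤ) ^ 2 + (q : ℤ) * s) ≤ C * t / l := by
  classical
  obtain ⟨C, hC, hsel⟩ := sel_bound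
  refine ⟨5186 * C, by positivity, 2 ^ 32, ?_⟩
  intro k hk l l2 l3 b hPS P hP j s t hkt
  obtain ⟨Y, hY2, hY1, hYk⟩ := km_root k hk
  have hPp : ∀ p ∈ P, p.Prime := fun p hp => (hP p hp).1
  have hYk' : Y ≤ k := le_trans (Nat.le_self_pow (by norm_num) _) hY1
  obtain ⟨D0, hD0⟩ : ∃ D0 : ℕ, D0 = (Y + 1) ^ 4 := ⟨_, rfl⟩
  have hD0k : k ≤ (D0 + 1) ^ 8 := by
    calc k ≤ (Y + 1) ^ 32 := hYk.le
      _ = D0 ^ 8 := by rw [hD0, ← pow_mul]
      _ ≤ (D0 + 1) ^ 8 := Nat.pow_le_pow_left (Nat.le_succ _) _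
  have hl1 : 1 ≤ l := by
    have := hPS.facts.2.2.2.2.2.2.2.1
    linarith
  have hl0 : 0 < l := by linarith
  have hfac : ∀ p ∈ P, 0 ≤ 1 - 1 / (p : ℝ) ∧ 1 - 1 / (p : ℝ) ≤ 1 :=
    fun p hp => km_fac (hPp p hp)
  obtain ⟨κ, hκ⟩ : ∃ κ : ℝ, κ = ∏ p ∈ P.filter (fun p : ℕ => p % 2 = 1 ∧ (p : ℤ) ∣ s ∧ ¬ p ∣ j),
    (1 - 1 / (p : ℝ)) := ⟨_, rfl⟩
  have hκ0 : 0 ≤ κ := by
    rw [hκ]
    exact Finset.prod_nonneg fun p hp => (hfac p (mem_filter.1 hp).1).1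
  have hκ1 : κ ≤ 1 := by
    rw [hκ]
    exact Finset.prod_le_one (fun p hp => (hfac p (mem_filter.1 hp).1).1)
      (fun p hp => (hfac p (mem_filter.1 hp).1).2)
  have key := hsel Y t hY2 (fun n => gg P ((j : ℤ) ^ 2 + (n : ℤ) * s))
    (fun n => gg_nonneg hPp _) (κ * t) (5 * D0) (2 * t / l ^ 12)
    (mul_nonneg hκ0 (Nat.cast_nonneg _)) (mul_nonneg (by norm_num) (Nat.cast_nonneg _))
    (div_nonneg (mul_nonneg zero_le_two (Nat.cast_nonneg _)) (pow_nonneg hl0.le 12)) (P.filter (fun p : ℕ => p % 2 = 1 ∧ ¬ (p : ℤ) ∣ s ∧ ¬ p ∣ j)) (by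
      intro e hsq _
      have he : e ≠ 0 := hsq.ne_zero
      have h1 := km_dist hPS hP hD0k j s t he
      rw [km_main j s hPp he, ← hκ] at h1
      have h2 : (t : ℝ) / e * (κ * ∏ p ∈ e.primeFactors ∩
          P.filter (fun p : ℕ => p % 2 = 1 ∧ ¬ (p : ℤ) ∣ s ∧ ¬ p ∣ j), (1 - 1 / (p : ℝ))) =
          κ * t * (1 / (e : ℝ) * ∏ p ∈ e.primeFactors ∩
          P.filter (fun p : ℕ => p % 2 = 1 ∧ ¬ (p : ℤ) ∣ s ∧ ¬ p ∣ j), (1 - 1 / (p : ℝ))) := by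
        ring
      rw [h2] at h1
      exact h1)
  have hsub : ∑ q ∈ pr k t, gg P ((j : ℤ) ^ 2 + (q : ℤ) * s) ≤
      ∑ q ∈ pr Y t, gg P ((j : ℤ) ^ 2 + (q : ℤ) * s) := by
    apply Finset.sum_le_sum_of_subset_of_nonneg
    · intro q hq
      rw [Helper52.mem_pr] at hq ⊢
      exact ⟨by omega, hq.2⟩
    · intro n _ _
      exact gg_nonneg hPp _
  refine hsub.trans (key.trans ?_)
  exact km_final hC hY2 hY1 hYk hkt hD0 hPS.hl hl1 hκ1

end Pool.Agent.SQ
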