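import Pool.Agent.SQ.KClass
import Pool.Agent.SQ.KCore

/-! SQ/KStep.  Assembly for `K` consecutive integers.

`C0, c2, C` from `classK`, `c` from `coreK`; `c1 = min 1 (c/C)`, `H = ⌊(c1/K) k l^2 l3/l2^2⌋`; for `k` large
`k ≤ H`, `2 H ≤ k l^2`, `H ≤ k^2` and `C K (H l2^2/(l^2 l3)) ≤ c k`.  `M, n0` from `classK`,
`B` = the pairs `(j, a)` with `a` not a square and no prime divisor of `M` dividing `(n0+j)^2 - a`.
`n1' = M * (n1/M + 1) + n0 % M`, `t < T = 2^(8k)` from `coreK` for the class `n1'`, `N = n1' + M t`.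
Let `j < K`, `N_j = N + j`, and let `p` be a prime with `|p - N_j^2| ≤ H`, `a = N_j^2 - p`:
* `a` a square: `p = N_j^2` or `p = (N_j - s)(N_j + s)`;
* `a` not a square, `(j, a) ∉ B`: some prime `p' ∣ M` divides `p`, but `p' ≤ k^40 < 2^k ≤ N < p`;
* `(j, a) ∈ B`: a prime `q' ≤ 2^k ≤ N < p` divides `p`. -/

set_option autoImplicit false

namespace Pool.Agent.SQ

open Finset

private theorem cube_le {k : ℕ} (hk : 1000 ≤ k) : k ^ 3 ≤ 2 ^ k := by
  set m := k / 4 with hm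
  have h1 : k ≤ 4 * m + 3 := by omega
  have h2 : 250 ≤ m := by omega
  have h3 : k ≤ 5 * m := by omega
  have h4 : m ≤ 2 ^ m := Nat.lt_two_pow_self.le
  calc k ^ 3 ≤ (5 * m) ^ 3 := Nat.pow_le_pow_left h3 3
    _ = 125 * m ^ 3 := by ring
    _ ≤ m * m ^ 3 := Nat.mul_le_mul_right _ (by omega)
    _ = m ^ 4 := by ring
    _ ≤ (2 ^ m) ^ 4 := Nat.pow_le_pow_left h4 4
    _ = 2 ^ (m * 4) := by rw [← pow_mul]
    _ ≤ 2 ^ k := Nat.pow_le_pow_right (by norm_num) (by omega)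

/-- `k ^ 40 ≤ 2 ^ k` -/
private theorem pow40_le {k : ℕ} (hk : 1000 ≤ k) : k ^ 40 ≤ 2 ^ k := by
  set m := k / 41 with hm
  have h1 : k ≤ 41 * m + 40 := by omega
  have h2 : 24 ≤ m := by omega
  -- `82 m ≤ 2 ^ m`
  have h3 : ∀ i : ℕ, 24 ≤ i → 82 * i ≤ 2 ^ i := by
    intro i hi
    induction i, hi using Nat.le_induction with
    | base => norm_num
    | succ i hi ih =>
      rw [pow_succ]
      omega
  have h4 : k ≤ 82 * m := by omega
  calc k ^ 40 ≤ (2 ^ m) ^ 40 := Nat.pow_le_pow_left (h4.trans (h3 m h2)) 40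
    _ = 2 ^ (m * 40) := by rw [← pow_mul]
    _ ≤ 2 ^ k := Nat.pow_le_pow_right (by norm_num) (by omega)

theorem stepK : ∃ c : ℝ, 0 < c ∧ ∃ k0 : ℕ, ∀ k : ℕ, k0 ≤ k → ∀ n1 K : ℕ, 2 ^ k ≤ n1 →
    1 ≤ K → (K : ℝ) ≤ Real.log k →
    1000 ≤ k ∧ 5 ≤ Real.log k ∧ 1 ≤ Real.log (Real.log k) ∧ 1 ≤ Real.log (Real.log (Real.log k)) ∧
    ∃ N H : ℕ, n1 ≤ N ∧ N ≤ n1 + 2 ^ (12 * k) ∧
      (∀ j < K, ∀ p : ℕ, p.Prime → (H : ℤ) < |(p : ℤ) - ((N : ℤ) + j) ^ 2|) ∧
      c / K * (k * Real.log k ^ 2 * Real.log (Real.log (Real.log k)) /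
        Real.log (Real.log k) ^ 2) ≤ H := by
  classical
  obtain ⟨C0, c2, C, hC0, hc2, hC, k2, hcls⟩ := classK
  obtain ⟨c, hc, k1, hcore⟩ := coreK C0 c2 hC0 hc2
  obtain ⟨k3, hps⟩ := ps_eventually
  set c1 : ℝ := min 1 (c / C) with hc1
  have hc1pos : 0 < c1 := lt_min one_pos (by positivity)
  have hc1a : c1 ≤ 1 := min_le_left _ _
  have hc1b : C * c1 ≤ c := by
    have h := min_le_right 1 (c / C)
    rw [← hc1, le_div_iff₀ hC] at h
    linarith
  obtain ⟨k4, hk4⟩ : ∃ k4 : ℕ, ∀ k : ℕ, k4 ≤ k → 2 / c1 ≤ Real.log (Real.log k) := by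
    have h := (Real.tendsto_log_atTop.comp (Real.tendsto_log_atTop.comp
      (tendsto_natCast_atTop_atTop (R := ℝ)))).eventually_ge_atTop (2 / c1)
    exact Filter.eventually_atTop.1 h
  refine ⟨c1 / 2, by positivity, max (max k1 k2) (max (max k3 k4) 1000), ?_⟩
  intro k hk n1 K hn1 hK1 hKl
  simp only [max_le_iff] at hk
  obtain ⟨⟨hk1, hk2⟩, ⟨hk3, hk4'⟩, hk1000⟩ := hk
  obtain ⟨b, hPS⟩ := hps k hk3
  have hlc := hk4 k hk4'
  set l := Real.log k with hl
  set l2 := Real.log l with hl2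
  set l3 := Real.log l2 with hl3
  obtain ⟨e1, e2, e3, g1, g2, g3, g4, g5, g6, g7⟩ := hPS.facts
  have h3 := hPS.h3
  have p1 := hPS.lpos
  have p2 := hPS.l2pos
  have hkr : (1000 : ℝ) ≤ k := by exact_mod_cast hk1000
  have hk0 : (0 : ℝ) < k := by linarith
  have hKr : (1 : ℝ) ≤ K := by exact_mod_cast hK1
  have hK0 : (0 : ℝ) < K := by linarith
  refine ⟨hk1000, by linarith, by linarith, by linarith, ?_⟩
  -- sizes
  have hl2p : l2 ^ 3 ≤ l := by
    refine le_trans ?_ g2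
    exact pow_le_pow_right₀ (by linarith) (by norm_num)
  have hlsq : l ^ 2 ≤ k := by
    refine le_trans ?_ g3
    exact pow_le_pow_right₀ (by linarith) (by norm_num)
  have hl3l2 : 2 * l3 ≤ l2 ^ 2 := by
    have ha : l3 ^ 1 ≤ l3 ^ 8 := pow_le_pow_right₀ (by linarith) (by norm_num)
    simp only [pow_one] at ha
    have hb : l3 ≤ l2 := ha.trans g1
    nlinarith
  have hl2sq0 : 0 < l2 ^ 2 := by positivity
  set X : ℝ := k * l ^ 2 * l3 / l2 ^ 2 with hX
  -- `X ≥ k l * 1000 * l2`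
  have hXlow : k * (l * (1000 * l2)) ≤ X := by
    rw [hX, le_div_iff₀ hl2sq0]
    have ha : l * (1000 * l2) * l2 ^ 2 ≤ l * l3 * l := by
      have h1 : l * 1000 ≤ l * l3 := mul_le_mul_of_nonneg_left h3 p1.le
      have h2 : l2 * l2 ^ 2 ≤ l := by
        calc l2 * l2 ^ 2 = l2 ^ 3 := by ring
          _ ≤ l := hl2p
      calc l * (1000 * l2) * l2 ^ 2 = l * 1000 * (l2 * l2 ^ 2) := by ring
        _ ≤ l * l3 * l := mul_le_mul h1 h2 (by positivity) (by positivity)
    calc (k : ℝ) * (l * (1000 * l2)) * l2 ^ 2 = k * (l * (1000 * l2) * l2 ^ 2) := by ring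
      _ ≤ k * (l * l3 * l) := mul_le_mul_of_nonneg_left ha hk0.le
      _ = k * l ^ 2 * l3 := by ring
  have hXup : 2 * X ≤ k * l ^ 2 := by
    have h1 : 2 * X = k * l ^ 2 * (2 * l3) / l2 ^ 2 := by rw [hX]; ring
    rw [h1, div_le_iff₀ hl2sq0]
    exact mul_le_mul_of_nonneg_left hl3l2 (by positivity)
  have hX0 : 0 < X := lt_of_lt_of_le (by positivity) hXlow
  have hcK : 0 < c1 / K := by positivity
  have hcK1 : c1 / K ≤ 1 := by
    rw [div_le_one hK0]
    linarith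
  set H : ℕ := ⌊c1 / K * X⌋₊ with hH
  have hcl : 2 ≤ c1 * l2 := by
    rw [div_le_iff₀ hc1pos] at hlc
    linarith
  have hc1X : 2000 * (k : ℝ) ≤ c1 / K * X := by
    have h1 : l ≤ l / K * l := by
      rw [div_mul_eq_mul_div, le_div_iff₀ hK0]
      exact mul_le_mul_of_nonneg_left hKl p1.le
    calc 2000 * (k : ℝ) = k * 1000 * 2 := by ring
      _ ≤ k * 1000 * (c1 * l2) := mul_le_mul_of_nonneg_left hcl (by positivity)
      _ ≤ k * 1000 * (c1 * l2) * (l / K) := by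
          refine le_mul_of_one_le_right (by positivity) ?_
          rw [one_le_div hK0]
          exact hKl
      _ = c1 / K * (k * (l * (1000 * l2))) := by ring
      _ ≤ c1 / K * X := mul_le_mul_of_nonneg_left hXlow hcK.le
  have hHle : (H : ℝ) ≤ c1 / K * X := Nat.floor_le (by positivity)
  have hHlt : c1 / K * X < H + 1 := Nat.lt_floor_add_one _
  have hkH : k ≤ H := by
    have : (k : ℝ) ≤ H := by linarith
    exact_mod_cast this
  have hHX : (H : ℝ) ≤ X := by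
    have : c1 / K * X ≤ 1 * X := mul_le_mul_of_nonneg_right hcK1 hX0.le
    linarith
  have hHl : 2 * (H : ℝ) ≤ k * l ^ 2 := by linarith
  have hHk2 : H ≤ k ^ 2 := by
    have : (H : ℝ) ≤ (k : ℝ) ^ 2 := by
      have h1 : (H : ℝ) ≤ k * l ^ 2 := by
        have : (0 : ℝ) ≤ H := Nat.cast_nonneg H
        linarith
      refine h1.trans ?_
      rw [sq (k : ℝ)]
      exact mul_le_mul_of_nonneg_left hlsq hk0.le
    exact_mod_cast this
  obtain ⟨M, n0, hM0, hM8, hMp, hcount, hgood⟩ := hcls k hk2 l l2 l3 b hPS H hkH hHl K hK1 hKl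
  set B : Finset (ℕ × ℤ) := (range K ×ˢ Icc (-(H : ℤ)) H).filter (fun x : ℕ × ℤ => ¬ IsSquare x.2 ∧
        ∀ p : ℕ, p.Prime → p ∣ M → ¬ (p : ℤ) ∣ ((n0 : ℤ) + x.1) ^ 2 - x.2) with hB
  have hMc : ∀ p : ℕ, p.Prime → k ^ 40 < p → Nat.Coprime M p := by
    intro p hp hpk
    rw [Nat.coprime_comm, hp.coprime_iff_not_dvd]
    intro hd
    have := hMp p hp hd
    omega
  have hKk : K ≤ k := by
    have h1 : l ≤ l ^ 2 := by nlinarith
    have h2 : (K : ℝ) ≤ k := hKl.trans (h1.trans hlsq)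
    exact_mod_cast h2
  have hBg : ∀ x ∈ B, x.1 ≤ k ∧ |x.2| ≤ (k : ℤ) ^ 2 ∧ ¬ IsSquare x.2 ∧
      Good C0 c2 (ch x.2) (k ^ 40) := by
    intro x hx
    rw [hB, mem_filter] at hx
    obtain ⟨hx1, hxs, hxM⟩ := hx
    have hx2 := hx1
    rw [mem_product, mem_range, mem_Icc] at hx2
    have hxa : |x.2| ≤ (H : ℤ) := abs_le.2 hx2.2
    refine ⟨by omega, hxa.trans (by exact_mod_cast hHk2), hxs, hgood x hx1 hxs hxM⟩
  have hBc : (B.card : ℝ) ≤ c * k := by
    refine hcount.trans ?_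
    have hb : (K : ℝ) * ((H : ℝ) * l2 ^ 2 / (l ^ 2 * l3)) ≤ c1 * k := by
      rw [mul_div_assoc', div_le_iff₀ (by positivity)]
      calc (K : ℝ) * ((H : ℝ) * l2 ^ 2) ≤ K * (c1 / K * X * l2 ^ 2) :=
            mul_le_mul_of_nonneg_left (mul_le_mul_of_nonneg_right hHle hl2sq0.le) hK0.le
        _ = c1 * (k * l ^ 2 * l3) := by
            rw [hX]
            field_simp
        _ = c1 * k * (l ^ 2 * l3) := by ring
    calc C * ((K : ℝ) * ((H : ℝ) * l2 ^ 2 / (l ^ 2 * l3))) ≤ C * (c1 * k) :=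
          mul_le_mul_of_nonneg_left hb hC.le
      _ = C * c1 * k := by ring
      _ ≤ c * k := mul_le_mul_of_nonneg_right hc1b hk0.le
  set n1' : ℕ := M * (n1 / M + 1) + n0 % M with hn1'
  obtain ⟨t, htT, ht⟩ := hcore k hk1 M (n1' : ℤ) B (2 ^ (8 * k)) hMc hBg hBc le_rfl
  -- the integer `N`
  set N : ℕ := n1' + M * t with hN
  have hn1a : n1 ≤ n1' := by
    have ha := Nat.div_add_mod n1 M
    have hb := Nat.mod_lt n1 hM0
    have hd : M * (n1 / M + 1) = M * (n1 / M) + M := by ring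
    omega
  have hn1b : n1' ≤ n1 + 2 * M := by
    have ha := Nat.mul_div_le n1 M
    have hb := Nat.mod_lt n0 hM0
    have hd : M * (n1 / M + 1) = M * (n1 / M) + M := by ring
    omega
  have hcube := cube_le hk1000
  have hM3 : M ≤ 2 ^ (3 * k) := by
    calc M ≤ 8 ^ k := hM8
      _ = 2 ^ (3 * k) := by
          rw [show (8 : ℕ) = 2 ^ 3 by norm_num, ← pow_mul]
  have hNn : n1 ≤ N := by omega
  have hNu : N ≤ n1 + 2 ^ (12 * k) := by
    have ha : M * t ≤ M * 2 ^ (8 * k) := Nat.mul_le_mul_left _ htT.le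
    have hb : 2 * M + M * 2 ^ (8 * k) ≤ 2 ^ (12 * k) := by
      have hd : 2 ≤ 2 ^ (8 * k) := by
        calc 2 = 2 ^ 1 := rfl
          _ ≤ 2 ^ (8 * k) := Nat.pow_le_pow_right (by norm_num) (by omega)
      calc 2 * M + M * 2 ^ (8 * k) ≤ 2 ^ (8 * k) * M + M * 2 ^ (8 * k) :=
            Nat.add_le_add_right (Nat.mul_le_mul_right _ hd) _
        _ = 2 * (M * 2 ^ (8 * k)) := by ring
        _ ≤ 2 * (2 ^ (3 * k) * 2 ^ (8 * k)) :=
            Nat.mul_le_mul_left _ (Nat.mul_le_mul_right _ hM3)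
        _ = 2 ^ (11 * k + 1) := by
            rw [← pow_add, mul_comm, ← pow_succ]
            congr 1
            ring
        _ ≤ 2 ^ (12 * k) := Nat.pow_le_pow_right (by norm_num) (by omega)
    omega
  refine ⟨N, H, hNn, hNu, ?_, ?_⟩
  · intro j hj p hp
    by_contra hcon
    push Not at hcon
    set Nj : ℕ := N + j with hNj
    have hNjc : ((Nj : ℕ) : ℤ) = (N : ℤ) + j := by rw [hNj]; push_cast; ring
    rw [← hNjc] at hcon
    set a : ℤ := (Nj : ℤ) ^ 2 - p with ha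
    have haH : |a| ≤ (H : ℤ) := by
      rw [ha, abs_sub_comm]
      exact hcon
    have hpa : (p : ℤ) = (Nj : ℤ) ^ 2 - a := by rw [ha]; ring
    have hNk : k ^ 3 ≤ Nj := hcube.trans (hn1.trans (hNn.trans (Nat.le_add_right _ _)))
    have hNH : 1000 * H ≤ Nj := by
      calc 1000 * H ≤ k * k ^ 2 := Nat.mul_le_mul hk1000 hHk2
        _ = k ^ 3 := by ring
        _ ≤ Nj := hNk
    have hN2k : 2 ^ k ≤ Nj := hn1.trans (hNn.trans (Nat.le_add_right _ _))
    have hNH' : (1000 : ℤ) * H ≤ Nj := by exact_mod_cast hNH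
    have hH1 : (1000 : ℤ) ≤ H := by exact_mod_cast hk1000.trans hkH
    have hpbig : (Nj : ℤ) < p := by
      rw [hpa]
      have h1 := (abs_le.1 haH).2
      nlinarith
    have hpbig' : Nj < p := by exact_mod_cast hpbig
    have hsmall : ∀ r : ℕ, r.Prime → (r : ℤ) ∣ (Nj : ℤ) ^ 2 - a → Nj < r := by
      intro r hr hd
      rw [← hpa] at hd
      have hd' : r ∣ p := by exact_mod_cast hd
      have := (Nat.prime_dvd_prime_iff_eq hr hp).1 hd'
      omega
    by_cases hsq : IsSquare a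
    · obtain ⟨r, hr⟩ := hsq
      have hr2 : r.natAbs * r.natAbs = a.natAbs := by
        rw [hr, Int.natAbs_mul]
      have hrH : r.natAbs ≤ H := by
        have h1 : a.natAbs ≤ H := by
          have h := haH
          rw [Int.abs_eq_natAbs] at h
          exact_mod_cast h
        have h2 : r.natAbs ≤ r.natAbs * r.natAbs := Nat.le_mul_self _
        exact h2.trans (hr2.le.trans h1)
      have hfac : p = (Nj - r.natAbs) * (Nj + r.natAbs) := by
        have h1 : r.natAbs ≤ Nj := by omega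
        zify [h1]
        have h3 : ((|r| : ℤ)) * |r| = r * r := abs_mul_abs_self r
        rw [hpa, hr]
        ring_nf
        rw [sq_abs]
      have h1 : Nj - r.natAbs ≠ 1 := by omega
      have h2 : Nj + r.natAbs ≠ 1 := by omega
      exact Nat.not_prime_mul h1 h2 (hfac ▸ hp)
    · by_cases hsv : (j, a) ∈ B
      · obtain ⟨r, hr, _, hr2, hrd⟩ := ht (j, a) hsv
        have h1 : (r : ℤ) ∣ (Nj : ℤ) ^ 2 - a := by
          have h2 : ((Nj : ℕ) : ℤ) = (n1' : ℤ) + M * (t : ℕ) + (j : ℕ) := by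
            rw [hNj, hN]
            push_cast
            ring
          rw [h2]
          exact hrd
        have := hsmall r hr h1
        omega
      · have h1 : ∃ r : ℕ, r.Prime ∧ r ∣ M ∧ (r : ℤ) ∣ ((n0 : ℤ) + j) ^ 2 - a := by
          by_contra hno
          push Not at hno
          exact hsv (mem_filter.2 ⟨mem_product.2 ⟨mem_range.2 hj, mem_Icc.2 (abs_le.1 haH)⟩,
            hsq, hno⟩)
        obtain ⟨r, hr, hrM, hrd⟩ := h1
        have h2 : (M : ℤ) ∣ (Nj : ℤ) - (n0 + j) := by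
          have h3 : ((Nj : ℕ) : ℤ) - (n0 + j) = M * (n1 / M + 1 + t - (n0 / M : ℕ)) := by
            have h4 := Nat.div_add_mod n0 M
            have h5 : ((n0 : ℕ) : ℤ) = M * (n0 / M : ℕ) + (n0 % M : ℕ) := by
              exact_mod_cast h4.symm
            rw [hNj, hN, hn1']
            push_cast at h5 ⊢
            linarith
          rw [h3]
          exact dvd_mul_right _ _
        have h3 : (r : ℤ) ∣ (Nj : ℤ) ^ 2 - a := by
          have h4 : (Nj : ℤ) ^ 2 - a = ((Nj : ℤ) - (n0 + j)) * (Nj + (n0 + j)) +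
              (((n0 : ℤ) + j) ^ 2 - a) := by ring
          rw [h4]
          exact dvd_add (dvd_mul_of_dvd_left ((by exact_mod_cast hrM : (r : ℤ) ∣ M).trans h2) _) hrd
        have h5 := hsmall r hr h3
        have h6 := hMp r hr hrM
        have h7 := pow40_le hk1000
        omega
  · have h1 : c1 / 2 / K * X = (c1 / K * X) / 2 := by ring
    have : c1 / 2 / K * X ≤ H := by
      rw [h1]
      linarith
    exact this

end Pool.Agent.SQ
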