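import Pool.Agent.SQ.ParS
import Pool.Agent.Helper52.Smooth

/-! SQ/SmoothS.  Few smooth numbers: `Helper52.smooth_bound` with `z = 2^b`, `A = l3/4`:
`4 A = l3 ≤ b log 2`, `A log H/log z ≥ (l3/4) l 256 l2/(l l3) = 64 l2`, so the count is
`≤ (1 + exp(12 exp(l3/2))) H exp(-64 l2)`, `exp(l3/2) = l2^(1/2)`, `12 l2^(1/2) ≤ l2`, total
`≤ 2 exp(l2) H exp(-64 l2) ≤ H/l^3`. -/

set_option autoImplicit false

namespace Pool.Agent.SQ

open Finset

theorem smoothS {k : ℕ} {l l2 l3 : ℝ} {b : ℕ} (h : PS k l l2 l3 b) {H : ℕ} (hH : k ≤ H) :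
    (((Icc 1 H).filter (fun n : ℕ => ∀ q ∈ n.primeFactors, q ≤ 2 ^ b)).card : ℝ) ≤ H / l ^ 3 := by
  obtain ⟨hk, hl, hl2, h8, h82, h83, h2b, h1b, hz4, hzk⟩ := h.facts
  have hlpos := h.lpos
  have hl2pos := h.l2pos
  have h3 := h.h3
  have hz : 4 ≤ 2 ^ b := by
    have h1 : (4 : ℝ) ≤ l ^ 4 := by
      have h2 : (1000 : ℝ) ^ 4 ≤ l ^ 4 := pow_le_pow_left₀ (by norm_num) h1b 4
      norm_num at h2
      linarith
    have h2 : (4 : ℝ) ≤ ((2 ^ b : ℕ) : ℝ) := h1.trans hz4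
    exact_mod_cast h2
  have hlogz : Real.log ((2 ^ b : ℕ) : ℝ) = b * Real.log 2 := by
    push_cast
    rw [Real.log_pow]
  have h512 : 512 * l2 ≤ l := by
    have h1 : l2 ^ 2 ≤ l2 ^ 8 := pow_le_pow_right₀ (by linarith) (by norm_num)
    nlinarith
  have hzA : 4 * (l3 / 4) ≤ Real.log ((2 ^ b : ℕ) : ℝ) := by
    rw [hlogz]
    refine le_trans ?_ h.bl
    rw [le_div_iff₀ (by positivity)]
    nlinarith
  have hH1 : 1 ≤ H := le_trans h.kpos hH
  have hb := Helper52.smooth_bound (A := l3 / 4) (by linarith) hz hzA hH1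
  refine hb.trans ?_
  -- the exponential factor
  have he2 : Real.exp (2 * (l3 / 4)) * Real.exp (2 * (l3 / 4)) = l2 := by
    rw [← Real.exp_add, hl2]
    congr 1
    ring
  have hepos := Real.exp_pos (2 * (l3 / 4))
  have he12 : 12 * Real.exp (2 * (l3 / 4)) ≤ l2 := by
    nlinarith
  have h1 : 1 + Real.exp (12 * Real.exp (2 * (l3 / 4))) ≤ 2 * l := by
    have h2 : Real.exp (12 * Real.exp (2 * (l3 / 4))) ≤ l := by
      conv_rhs => rw [hl]
      exact Real.exp_le_exp.2 he12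
    linarith
  have hlogH : l ≤ Real.log H := by
    rw [← h.hl]
    exact Real.log_le_log (by exact_mod_cast h.kpos) (by exact_mod_cast hH)
  have hbpos : 0 < (b : ℝ) * Real.log 2 := by
    have h2 : (0 : ℝ) < b := by exact_mod_cast h.b1
    exact mul_pos h2 (Real.log_pos (by norm_num))
  have h2 : 64 * l2 ≤ l3 / 4 * Real.log H / Real.log ((2 ^ b : ℕ) : ℝ) := by
    rw [hlogz, le_div_iff₀ hbpos]
    calc 64 * l2 * (b * Real.log 2) ≤ 64 * l2 * (l * l3 / (256 * l2)) :=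
          mul_le_mul_of_nonneg_left h.bu (by positivity)
      _ = l3 / 4 * l := by field_simp; ring
      _ ≤ l3 / 4 * Real.log H := mul_le_mul_of_nonneg_left hlogH (by linarith)
  have h4 : Real.exp (-(l3 / 4 * Real.log H / Real.log ((2 ^ b : ℕ) : ℝ))) ≤ 1 / l ^ 64 := by
    have h5 : Real.exp (-(64 * l2)) = 1 / l ^ 64 := by
      rw [Real.exp_neg, show (64 : ℝ) * l2 = ((64 : ℕ) : ℝ) * l2 by norm_num, Real.exp_nat_mul,
        ← hl, one_div]
    rw [← h5]
    exact Real.exp_le_exp.2 (by linarith)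
  have hHr : (0 : ℝ) ≤ H := Nat.cast_nonneg H
  calc (1 + Real.exp (12 * Real.exp (2 * (l3 / 4)))) * H *
        Real.exp (-(l3 / 4 * Real.log H / Real.log ((2 ^ b : ℕ) : ℝ)))
      ≤ (2 * l * H) * (1 / l ^ 64) :=
        mul_le_mul (mul_le_mul_of_nonneg_right h1 hHr) h4 (Real.exp_pos _).le (by positivity)
    _ ≤ H / l ^ 3 := by
        rw [mul_one_div, div_le_div_iff₀ (by positivity) (by positivity)]
        have h5 : (2 : ℝ) ≤ l ^ 60 := by
          calc (2 : ℝ) ≤ 1000 := by norm_num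
            _ ≤ l := h1b
            _ = l ^ 1 := (pow_one l).symm
            _ ≤ l ^ 60 := pow_le_pow_right₀ (by linarith) (by norm_num)
        have h6 : (0 : ℝ) ≤ H * l ^ 4 := by positivity
        calc 2 * l * H * l ^ 3 = 2 * (H * l ^ 4) := by ring
          _ ≤ l ^ 60 * (H * l ^ 4) := mul_le_mul_of_nonneg_right h5 h6
          _ = H * l ^ 64 := by ring

end Pool.Agent.SQ
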