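import Pool.Agent.SQ.ParS

/-! SQ/TailS.  Rankin: `∑_{S ⊆ P, Π S > D0} 1/Π S ≤ 1` for sets `P` of primes `≤ 2^b`,
`(D0+1)^8 ≥ k`.

`η = A/log(2^b)`, `A = l3/4`: `∑_{Π S > D0} 1/Π S ≤ (D0+1)^(-η) ∏_{p ∈ P} (1 + p^(η-1))`.
`(D0+1)^(-η) ≤ exp(-A (l/8)/(b log 2)) ≤ exp(-(l3/4) (l/8) 256 l2/(l l3)) = exp(-8 l2)`;
`p^η ≤ exp A = l2^(1/4)` and more precisely `p^η ≤ 1 + exp(A) η log p` (convexity), so
`∑_{p ≤ 2^b} p^(η-1) ≤ ∑ 1/p + exp(A) η ∑ log p/p ≤ (log b + 8) + exp(A) (A/(b log 2)) (b log 2 + 2)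
≤ l2 + l2^(1/2) + ...` (`Helper52.mertens2`, `Helper52.mertens1`; `b ≤ l`), so the product is
`≤ exp(2 l2 + small)` and the total is `≤ exp(-5 l2) ≤ 1`. -/

set_option autoImplicit false

namespace Pool.Agent.SQ

open Finset

open Helper52 (pr)

private theorem rank {P : Finset ℕ} (hP : ∀ p ∈ P, p.Prime) (D0 : ℕ) {η : ℝ} (hη : 0 ≤ η) :
    ∑ S ∈ P.powerset.filter (fun S => D0 < ∏ p ∈ S, p), 1 / ((∏ p ∈ S, p : ℕ) : ℝ) ≤
      Real.exp (-(η * Real.log ((D0 : ℝ) + 1))) *
        ∏ p ∈ P, (1 + Real.exp (η * Real.log p) / p) := by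
  rw [prod_one_add, mul_sum]
  have h1 : ∀ S ∈ P.powerset.filter (fun S => D0 < ∏ p ∈ S, p),
      1 / ((∏ p ∈ S, p : ℕ) : ℝ) ≤ Real.exp (-(η * Real.log ((D0 : ℝ) + 1))) *
        ∏ p ∈ S, Real.exp (η * Real.log p) / p := by
    intro S hS
    rw [mem_filter, mem_powerset] at hS
    have hpos : ∀ p ∈ S, (0 : ℝ) < p := by
      intro p hp
      exact_mod_cast (hP p (hS.1 hp)).pos
    rw [prod_div_distrib, ← Real.exp_sum, ← mul_sum]
    have h2 : ∑ p ∈ S, Real.log (p : ℝ) = Real.log ((∏ p ∈ S, p : ℕ) : ℝ) := by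
      push_cast
      rw [Real.log_prod]
      intro p hp
      exact (hpos p hp).ne'
    rw [h2]
    have h3 : ∏ p ∈ S, (p : ℝ) = ((∏ p ∈ S, p : ℕ) : ℝ) := by
      push_cast
      rfl
    rw [h3, ← mul_div_assoc, ← Real.exp_add]
    have hD : ((D0 : ℝ) + 1) ≤ ((∏ p ∈ S, p : ℕ) : ℝ) := by exact_mod_cast hS.2
    have hD0 : (0 : ℝ) < (D0 : ℝ) + 1 := by positivity
    apply div_le_div_of_nonneg_right _ (by positivity)
    rw [Real.one_le_exp_iff]
    have h4 : Real.log ((D0 : ℝ) + 1) ≤ Real.log ((∏ p ∈ S, p : ℕ) : ℝ) :=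
      Real.log_le_log hD0 hD
    have h5 := mul_le_mul_of_nonneg_left h4 hη
    linarith
  refine (sum_le_sum h1).trans ?_
  apply sum_le_sum_of_subset_of_nonneg (filter_subset _ _)
  intro S hS _
  rw [mem_powerset] at hS
  apply mul_nonneg (Real.exp_pos _).le
  apply prod_nonneg
  intro p hp
  positivity

private theorem exp_conv {A x : ℝ} (h0 : 0 ≤ x) (h1 : x ≤ 1) :
    Real.exp (A * x) ≤ 1 + x * Real.exp A := by
  have h2 := convexOn_exp.2 (Set.mem_univ (0 : ℝ)) (Set.mem_univ A)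
    (show 0 ≤ 1 - x by linarith) h0 (by ring)
  simp only [smul_eq_mul, mul_zero, zero_add, Real.exp_zero, mul_one] at h2
  rw [mul_comm x A] at h2
  linarith

private theorem sum_bound {b : ℕ} (hb : 1 ≤ b) {A : ℝ} :
    ∑ p ∈ pr 0 (2 ^ b), Real.exp (A / (b * Real.log 2) * Real.log p) / p ≤
      Real.log b + 8 + 3 * Real.exp A := by
  have hb1 : (1 : ℝ) ≤ b := by exact_mod_cast hb
  have hlog2 : 0 < Real.log 2 := Real.log_pos (by norm_num)
  have hB : 0 < (b : ℝ) * Real.log 2 := by positivity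
  have h1 : ∀ p ∈ pr 0 (2 ^ b), Real.exp (A / (b * Real.log 2) * Real.log p) / p ≤
      1 / (p : ℝ) + Real.exp A / (b * Real.log 2) * (Real.log p / p) := by
    intro p hp
    rw [Helper52.mem_pr] at hp
    have hp1 : (1 : ℝ) ≤ p := by exact_mod_cast hp.1
    have hp0 : (0 : ℝ) < p := by linarith
    have h2 : Real.log p ≤ b * Real.log 2 := by
      have h3 : (p : ℝ) ≤ 2 ^ b := by exact_mod_cast hp.2.1
      have h4 := Real.log_le_log hp0 h3
      rwa [Real.log_pow] at h4
    have h3 : A / (b * Real.log 2) * Real.log p = A * (Real.log p / (b * Real.log 2)) := by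
      ring
    rw [h3]
    have h4 := exp_conv (A := A) (x := Real.log p / (b * Real.log 2))
      (div_nonneg (Real.log_nonneg hp1) hB.le) ((div_le_one hB).2 h2)
    calc Real.exp (A * (Real.log p / (b * Real.log 2))) / p ≤
        (1 + Real.log p / (b * Real.log 2) * Real.exp A) / p :=
          div_le_div_of_nonneg_right h4 hp0.le
      _ = 1 / (p : ℝ) + Real.exp A / (b * Real.log 2) * (Real.log p / p) := by ring
  refine (sum_le_sum h1).trans ?_
  rw [sum_add_distrib, ← mul_sum]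
  have h2 := Helper52.mertens2 hb
  have h3 := Helper52.mertens1 (n := 2 ^ b) Nat.one_le_two_pow
  have h4 : Real.log ((2 ^ b : ℕ) : ℝ) = b * Real.log 2 := by
    push_cast
    rw [Real.log_pow]
  rw [h4] at h3
  have h5 : Real.log 4 = 2 * Real.log 2 := by
    rw [show (4 : ℝ) = 2 ^ 2 by norm_num, Real.log_pow]
    norm_num
  rw [h5] at h3
  have h6 : Real.exp A / (b * Real.log 2) * ∑ q ∈ pr 0 (2 ^ b), Real.log q / q ≤
      3 * Real.exp A := by
    calc Real.exp A / (b * Real.log 2) * ∑ q ∈ pr 0 (2 ^ b), Real.log q / q ≤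
        Real.exp A / (b * Real.log 2) * (b * Real.log 2 + 2 * Real.log 2) :=
          mul_le_mul_of_nonneg_left h3 (by positivity)
      _ ≤ Real.exp A / (b * Real.log 2) * (3 * (b * Real.log 2)) := by
          apply mul_le_mul_of_nonneg_left _ (by positivity)
          nlinarith
      _ = 3 * Real.exp A := by
          field_simp
  linarith

theorem tailS {k : ℕ} {l l2 l3 : ℝ} {b : ℕ} (h : PS k l l2 l3 b) {P : Finset ℕ}
    (hP : ∀ p ∈ P, p.Prime ∧ p ≤ 2 ^ b) {D0 : ℕ} (hD : k ≤ (D0 + 1) ^ 8) :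
    ∑ S ∈ P.powerset.filter (fun S => D0 < ∏ p ∈ S, p), 1 / ((∏ p ∈ S, p : ℕ) : ℝ) ≤ 1 := by
  have hl := h.lpos
  have hl2 := h.l2pos
  have hl3 : 0 < l3 := by linarith [h.h3]
  have hb1 : (1 : ℝ) ≤ b := by exact_mod_cast h.b1
  have hlog2 : 0 < Real.log 2 := Real.log_pos (by norm_num)
  have hB : 0 < (b : ℝ) * Real.log 2 := by positivity
  have hexp3 : Real.exp l3 = l2 := by
    rw [← h.hl3, Real.exp_log hl2]
  have hl32 : l3 ≤ l2 := by
    have := Real.add_one_le_exp l3
    linarith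
  refine (rank (η := l3 / 4 / (b * Real.log 2)) (fun p hp => (hP p hp).1) D0 (by positivity)).trans ?_
  -- the product
  have h1 : ∏ p ∈ P, (1 + Real.exp (l3 / 4 / (b * Real.log 2) * Real.log p) / p) ≤
      Real.exp (Real.log b + 8 + 3 * Real.exp (l3 / 4)) := by
    calc ∏ p ∈ P, (1 + Real.exp (l3 / 4 / (b * Real.log 2) * Real.log p) / p) ≤
        ∏ p ∈ P, Real.exp (Real.exp (l3 / 4 / (b * Real.log 2) * Real.log p) / p) := by
          apply prod_le_prod
          · intro p _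
            positivity
          · intro p _
            rw [add_comm]
            exact Real.add_one_le_exp _
      _ = Real.exp (∑ p ∈ P, Real.exp (l3 / 4 / (b * Real.log 2) * Real.log p) / p) := by
          rw [Real.exp_sum]
      _ ≤ Real.exp (Real.log b + 8 + 3 * Real.exp (l3 / 4)) := by
          apply Real.exp_le_exp.2
          refine le_trans ?_ (sum_bound h.b1)
          apply sum_le_sum_of_subset_of_nonneg
          · intro p hp
            rw [Helper52.mem_pr]
            exact ⟨(hP p hp).1.pos, (hP p hp).2, (hP p hp).1⟩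
          · intro p _ _
            positivity
  refine (mul_le_mul_of_nonneg_left h1 (Real.exp_pos _).le).trans ?_
  rw [← Real.exp_add, Real.exp_le_one_iff]
  -- exponents
  have h2 : Real.log b ≤ l2 := by
    have h3 : (b : ℝ) ≤ l := by
      have h4 := h.bu
      have h5 : l * l3 / (256 * l2) ≤ l / 256 := by
        rw [div_le_div_iff₀ (by positivity) (by norm_num)]
        have := mul_le_mul_of_nonneg_left hl32 hl.le
        nlinarith
      have h6 : (1 : ℝ) / 2 ≤ Real.log 2 := by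
        have := Real.log_two_gt_d9
        linarith
      have h7 : (b : ℝ) * (1 / 2) ≤ b * Real.log 2 := mul_le_mul_of_nonneg_left h6 (by linarith)
      linarith
    have h4 := Real.log_le_log (by linarith) h3
    rw [h.hl2] at h4
    exact h4
  have h3 : Real.exp (l3 / 4) ≤ l2 := by
    rw [← hexp3]
    apply Real.exp_le_exp.2
    linarith
  have h4 : l / 8 ≤ Real.log ((D0 : ℝ) + 1) := by
    have h5 : (k : ℝ) ≤ ((D0 : ℝ) + 1) ^ 8 := by exact_mod_cast hD
    have h6 : (0 : ℝ) < k := by exact_mod_cast h.kpos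
    have h7 := Real.log_le_log h6 h5
    rw [Real.log_pow, h.hl] at h7
    push_cast at h7
    linarith
  have h5 : 8 * l2 ≤ l3 / 4 / (b * Real.log 2) * Real.log ((D0 : ℝ) + 1) := by
    have h6 : 64 * l2 / l ≤ l3 / 4 / (b * Real.log 2) := by
      rw [div_div, div_le_div_iff₀ hl (by positivity)]
      have h7 := h.bu
      rw [le_div_iff₀ (by positivity)] at h7
      nlinarith
    calc 8 * l2 = 64 * l2 / l * (l / 8) := by
          field_simp
          norm_num
      _ ≤ l3 / 4 / (b * Real.log 2) * Real.log ((D0 : ℝ) + 1) :=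
          mul_le_mul h6 h4 (by positivity) (by positivity)
  have h6 : 1000 ≤ l2 := by linarith [h.h3]
  linarith

end Pool.Agent.SQ
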