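import Pool.Agent.SQ.KMean
import Pool.Agent.SQ.SumF

/-! SQ/KSumF.  Copy of `sumF` (`Pool/Agent/SQ/SumF.lean`) with the shift `j^2`, with `meanK` instead
of `mean` (and `gg P (j^2 + m)` bounded by the same product for smooth `|m|`). -/

set_option autoImplicit false

namespace Pool.Agent.SQ

open Finset

/-- sum over an image -/
private theorem ksf_image {ι : Type} {T : Finset ι} (g : ι → ℤ) {f : ℤ → ℝ} (hf : ∀ a, 0 ≤ f a) :
    ∑ a ∈ T.image g, f a ≤ ∑ t ∈ T, f (g t) := by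
  classical
  have h := Finset.sum_fiberwise_of_maps_to (s := T) (t := T.image g) (g := g)
    (fun x hx => Finset.mem_image_of_mem g hx) (fun t => f (g t))
  rw [← h]
  apply Finset.sum_le_sum
  intro a ha
  obtain ⟨t, ht, rfl⟩ := Finset.mem_image.mp ha
  have : f (g t) ≤ ∑ i ∈ T with g i = g t, f (g i) := by
    apply Finset.single_le_sum (f := fun i => f (g i)) (fun i _ => hf _)
    simp [ht]
  exact this

/-- the local factor bound -/
private theorem ksf_gg {k : ℕ} {l l2 l3 : ℝ} {b : ℕ} (h : PS k l l2 l3 b) {P : Finset ℕ}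
    (hP : ∀ p ∈ P, p.Prime ∧ p ≤ 2 ^ b) (a : ℤ) : gg P a ≤ Real.exp 9 * l := by
  obtain ⟨hk, hl, hl2, h38, h28, h18, h21000, hl1000, h4, h2k⟩ := h.facts
  have h1 : gg P a ≤ ∏ p ∈ P, (1 + 1 / (p : ℝ)) := gg_le (fun p hp => (hP p hp).1) a
  have hsub : P ⊆ Helper52.pr 0 (2 ^ b) := by
    intro p hp
    rw [Helper52.mem_pr]
    exact ⟨(hP p hp).1.pos, (hP p hp).2, (hP p hp).1⟩
  have h2 : ∏ p ∈ P, (1 + 1 / (p : ℝ)) ≤ ∏ p ∈ Helper52.pr 0 (2 ^ b), (1 + 1 / (p : ℝ)) := by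
    apply Finset.prod_le_prod_of_subset_of_one_le hsub
    · intro p _
      positivity
    · intro p _ _
      have : (0 : ℝ) ≤ 1 / (p : ℝ) := by positivity
      linarith
  have h3 : ∏ p ∈ Helper52.pr 0 (2 ^ b), (1 + 1 / (p : ℝ)) ≤
      (∏ p ∈ Helper52.pr 0 (2 ^ b), (1 - 1 / (p : ℝ)))⁻¹ := by
    rw [← Finset.prod_inv_distrib]
    apply Finset.prod_le_prod
    · intro p _
      positivity
    · intro p hp
      rw [Helper52.mem_pr] at hp
      have hp2 : (2 : ℝ) ≤ p := by exact_mod_cast hp.2.2.two_le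
      have hp0 : (0 : ℝ) < p := by linarith
      have hpos : 0 < 1 - 1 / (p : ℝ) := by
        have : 1 / (p : ℝ) ≤ 1 / 2 := by
          apply one_div_le_one_div_of_le <;> linarith
        linarith
      rw [le_inv_comm₀ (by positivity) hpos, inv_eq_one_div, le_div_iff₀ (by positivity)]
      have : 0 ≤ 1 / (p : ℝ) * (1 / (p : ℝ)) := by positivity
      nlinarith
  have h4' := Helper52.prod_lower (a := b) h.b1
  have hb0 : (0 : ℝ) < b := by exact_mod_cast h.b1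
  have h5 : (∏ p ∈ Helper52.pr 0 (2 ^ b), (1 - 1 / (p : ℝ)))⁻¹ ≤ (Real.exp (-9) / b)⁻¹ := by
    apply inv_anti₀ _ h4'
    positivity
  have h6 : (Real.exp (-9) / (b : ℝ))⁻¹ = Real.exp 9 * b := by
    rw [inv_div, Real.exp_neg]
    field_simp
  have h7 : (b : ℝ) ≤ l := by
    have hbu := h.bu
    have hl3 : l3 ≤ l2 := by
      have : l3 ^ 1 ≤ l3 ^ 8 := pow_le_pow_right₀ (by linarith [h.h3]) (by norm_num)
      linarith [h38]
    have hl2' := h.l2pos
    have hlp := h.lpos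
    have h8 : l * l3 / (256 * l2) ≤ l / 256 := by
      rw [div_le_div_iff₀ (by positivity) (by norm_num)]
      nlinarith [mul_le_mul_of_nonneg_left hl3 hlp.le]
    have hlog : (1 : ℝ) / 2 ≤ Real.log 2 := by
      have := Real.log_two_gt_d9
      linarith
    nlinarith
  calc gg P a ≤ Real.exp 9 * b := by linarith
    _ ≤ Real.exp 9 * l := mul_le_mul_of_nonneg_left h7 (Real.exp_pos _).le

theorem sumFK : ∃ C : ℝ, 0 < C ∧ ∃ k0 : ℕ, ∀ k : ℕ, k0 ≤ k → ∀ (l l2 l3 : ℝ) (b : ℕ),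
    PS k l l2 l3 b → ∀ H : ℕ, k ≤ H → (H : ℝ) ≤ k * l ^ 2 → ∀ P : Finset ℕ,
    (∀ p ∈ P, p.Prime ∧ p ≤ 2 ^ b) → ∀ j : ℕ,
    ∑ m ∈ Fre k (2 ^ b) H, gg P ((j : ℤ) ^ 2 + m) ≤ C * (H * l2 / l) := by
  classical
  obtain ⟨C0, hC0, k0, hmean⟩ := meanK
  refine ⟨2 * Real.exp 9 + 6 * C0, by positivity, k0, ?_⟩
  intro k hk l l2 l3 b h H hkH hHl P hP j
  obtain ⟨hke, hle, hl2e, h38, h28, h18, h21000, hl1000, h4, h2k⟩ := h.facts
  have hk0 := h.kpos
  have hlp := h.lpos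
  have hPp : ∀ p ∈ P, p.Prime := fun p hp => (hP p hp).1
  set f : ℤ → ℝ := fun a => gg P ((j : ℤ) ^ 2 + a) with hf
  have hg0 : ∀ a, 0 ≤ f a := fun a => gg_nonneg hPp _
  change ∑ m ∈ Fre k (2 ^ b) H, f m ≤ _
  set M : ℕ := H / k with hM
  -- the sets
  set Sm : Finset ℕ := (Icc 1 H).filter (fun n : ℕ => ∀ q ∈ n.primeFactors, q ≤ 2 ^ b) with hSm
  set T : Finset (Σ _ : ℕ, ℕ) := (Icc 1 M).sigma (fun s => Helper52.pr k (H / s)) with hT
  set A1 : Finset ℤ := Sm.image (fun n : ℕ => (n : ℤ)) with hA1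
  set A2 : Finset ℤ := Sm.image (fun n : ℕ => -(n : ℤ)) with hA2
  set B1 : Finset ℤ := T.image (fun x : (Σ _ : ℕ, ℕ) => (x.2 : ℤ) * (x.1 : ℤ)) with hB1
  set B2 : Finset ℤ := T.image (fun x : (Σ _ : ℕ, ℕ) => (x.2 : ℤ) * (-(x.1 : ℤ))) with hB2
  have hsub : Fre k (2 ^ b) H ⊆ (A1 ∪ A2) ∪ (B1 ∪ B2) := by
    intro a ha
    unfold Fre at ha
    rw [Finset.mem_filter, Finset.mem_Icc] at ha
    obtain ⟨⟨ha1, ha2⟩, ha0, hap⟩ := ha
    have hn1 : 1 ≤ a.natAbs := Int.natAbs_pos.mpr ha0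
    have hn2 : a.natAbs ≤ H := by omega
    by_cases hsm : ∀ q ∈ a.natAbs.primeFactors, q ≤ 2 ^ b
    · have hmem : a.natAbs ∈ Sm := by
        rw [hSm, Finset.mem_filter, Finset.mem_Icc]
        exact ⟨⟨hn1, hn2⟩, hsm⟩
      rcases Int.natAbs_eq a with h1 | h1
      · apply Finset.mem_union_left
        apply Finset.mem_union_left
        rw [hA1, Finset.mem_image]
        exact ⟨a.natAbs, hmem, h1.symm⟩
      · apply Finset.mem_union_left
        apply Finset.mem_union_right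
        rw [hA2, Finset.mem_image]
        exact ⟨a.natAbs, hmem, h1.symm⟩
    · push Not at hsm
      obtain ⟨q, hq, hqb⟩ := hsm
      have hqp : q.Prime := Nat.prime_of_mem_primeFactors hq
      have hqd : q ∣ a.natAbs := Nat.dvd_of_mem_primeFactors hq
      have hqk : k < q := by
        by_contra hcon
        exact hap q hqp hqb (by omega) (Int.natCast_dvd.mpr hqd)
      obtain ⟨s, hs⟩ := hqd
      have hs1 : 1 ≤ s := by
        rcases Nat.eq_zero_or_pos s with h0 | h0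
        · rw [h0] at hs
          omega
        · exact h0
      have hqs : q * s ≤ H := by omega
      have hsM : s ≤ M := by
        rw [hM, Nat.le_div_iff_mul_le hk0]
        calc s * k ≤ s * q := Nat.mul_le_mul_left _ hqk.le
          _ = q * s := Nat.mul_comm _ _
          _ ≤ H := hqs
      have hqt : q ≤ H / s := (Nat.le_div_iff_mul_le hs1).mpr hqs
      have hmem : (⟨s, q⟩ : Σ _ : ℕ, ℕ) ∈ T := by
        rw [hT, Finset.mem_sigma, Finset.mem_Icc, Helper52.mem_pr]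
        exact ⟨⟨hs1, hsM⟩, hqk, hqt, hqp⟩
      rcases Int.natAbs_eq a with h1 | h1
      · apply Finset.mem_union_right
        apply Finset.mem_union_left
        rw [hB1, Finset.mem_image]
        refine ⟨⟨s, q⟩, hmem, ?_⟩
        rw [h1, hs]
        push_cast
        ring
      · apply Finset.mem_union_right
        apply Finset.mem_union_right
        rw [hB2, Finset.mem_image]
        refine ⟨⟨s, q⟩, hmem, ?_⟩
        rw [h1, hs]
        push_cast
        ring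
  have hun : ∀ X Y : Finset ℤ, ∑ a ∈ X ∪ Y, f a ≤ ∑ a ∈ X, f a + ∑ a ∈ Y, f a := by
    intro X Y
    have := Finset.sum_union_inter (s₁ := X) (s₂ := Y) (f := fun a => f a)
    have h0 : 0 ≤ ∑ a ∈ X ∩ Y, f a := Finset.sum_nonneg (fun a _ => hg0 a)
    linarith
  have hstep1 : ∑ a ∈ Fre k (2 ^ b) H, f a ≤
      (∑ a ∈ A1, f a + ∑ a ∈ A2, f a) + (∑ a ∈ B1, f a + ∑ a ∈ B2, f a) := by
    calc ∑ a ∈ Fre k (2 ^ b) H, f a ≤ ∑ a ∈ (A1 ∪ A2) ∪ (B1 ∪ B2), f a :=
          Finset.sum_le_sum_of_subset_of_nonneg hsub (fun a _ _ => hg0 a)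
      _ ≤ ∑ a ∈ A1 ∪ A2, f a + ∑ a ∈ B1 ∪ B2, f a := hun _ _
      _ ≤ _ := add_le_add (hun _ _) (hun _ _)
  -- smooth part
  have hsm := smoothS h hkH
  have hSmc : (Sm.card : ℝ) ≤ H / l ^ 3 := hsm
  have hA : ∀ g : ℕ → ℤ, ∑ a ∈ Sm.image g, f a ≤ H / l ^ 3 * (Real.exp 9 * l) := by
    intro g
    calc ∑ a ∈ Sm.image g, f a ≤ ∑ n ∈ Sm, f (g n) := ksf_image g hg0
      _ ≤ ∑ _n ∈ Sm, Real.exp 9 * l := Finset.sum_le_sum (fun n _ => ksf_gg h hP _)
      _ = (Sm.card : ℝ) * (Real.exp 9 * l) := by rw [Finset.sum_const, nsmul_eq_mul]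
      _ ≤ H / l ^ 3 * (Real.exp 9 * l) := mul_le_mul_of_nonneg_right hSmc (by positivity)
  -- rough part
  have hlogk : Real.log k = l := h.hl
  have hB : ∀ e : ℤ, ∑ a ∈ T.image (fun x : (Σ _ : ℕ, ℕ) => (x.2 : ℤ) * (e * (x.1 : ℤ))), f a ≤
      C0 * H / l * (1 + 2 * l2) := by
    intro e
    have hlog2 : Real.log M ≤ 2 * l2 := by
      have hM1 : (1 : ℝ) ≤ M := by
        have : 1 ≤ M := by
          rw [hM, Nat.le_div_iff_mul_le hk0]
          omega
        exact_mod_cast this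
      have hMl : (M : ℝ) ≤ l ^ 2 := by
        have h1 : (M : ℝ) ≤ H / k := Nat.cast_div_le
        have hkr : (0 : ℝ) < k := by exact_mod_cast hk0
        have h2 : (H : ℝ) / k ≤ l ^ 2 := by
          rw [div_le_iff₀ hkr]
          linarith
        linarith
      calc Real.log M ≤ Real.log (l ^ 2) := Real.log_le_log (by linarith) hMl
        _ = 2 * l2 := by rw [Real.log_pow, h.hl2]; norm_num
    have hharm : ∑ s ∈ Icc 1 M, 1 / (s : ℝ) ≤ 1 + 2 * l2 := by
      have h1 := harmonic_le_one_add_log M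
      rw [harmonic_eq_sum_Icc] at h1
      push_cast at h1
      simp only [one_div]
      linarith
    calc ∑ a ∈ T.image (fun x : (Σ _ : ℕ, ℕ) => (x.2 : ℤ) * (e * (x.1 : ℤ))), f a
        ≤ ∑ x ∈ T, f ((x.2 : ℤ) * (e * (x.1 : ℤ))) := ksf_image _ hg0
      _ = ∑ s ∈ Icc 1 M, ∑ q ∈ Helper52.pr k (H / s), f ((q : ℤ) * (e * (s : ℤ))) := by
          rw [hT, Finset.sum_sigma]
      _ ≤ ∑ s ∈ Icc 1 M, C0 * H / l * (1 / (s : ℝ)) := by
          apply Finset.sum_le_sum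
          intro s hs
          rw [Finset.mem_Icc] at hs
          have hks : k ≤ H / s := by
            rw [Nat.le_div_iff_mul_le hs.1]
            have := (Nat.le_div_iff_mul_le hk0).mp hs.2
            rw [Nat.mul_comm]
            exact this
          have hm := hmean k hk l l2 l3 b h P hP j (e * (s : ℤ)) (H / s) hks
          have hsr : (0 : ℝ) < s := by exact_mod_cast hs.1
          have hd : ((H / s : ℕ) : ℝ) ≤ H / s := Nat.cast_div_le
          calc ∑ q ∈ Helper52.pr k (H / s), f ((q : ℤ) * (e * (s : ℤ)))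
              ≤ C0 * ((H / s : ℕ) : ℝ) / l := hm
            _ ≤ C0 * (H / s) / l := by gcongr
            _ = C0 * H / l * (1 / (s : ℝ)) := by field_simp
      _ = C0 * H / l * ∑ s ∈ Icc 1 M, 1 / (s : ℝ) := by rw [Finset.mul_sum]
      _ ≤ C0 * H / l * (1 + 2 * l2) := mul_le_mul_of_nonneg_left hharm (by positivity)
  have hB1' : ∑ a ∈ B1, f a ≤ C0 * H / l * (1 + 2 * l2) := by
    have := hB 1
    simpa only [one_mul] using this
  have hB2' : ∑ a ∈ B2, f a ≤ C0 * H / l * (1 + 2 * l2) := by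
    have := hB (-1)
    simpa only [neg_mul, one_mul] using this
  have hA1' := hA (fun n : ℕ => (n : ℤ))
  have hA2' := hA (fun n : ℕ => -(n : ℤ))
  have hfin1 : (H : ℝ) / l ^ 3 * (Real.exp 9 * l) ≤ Real.exp 9 * (H * l2 / l) := by
    have h1 : (H : ℝ) / l ^ 3 * (Real.exp 9 * l) = Real.exp 9 * (H * 1 / l) * (1 / l) := by
      field_simp
    rw [h1]
    have h2 : (1 : ℝ) / l ≤ 1 := by
      rw [div_le_one hlp]
      linarith
    have h3 : Real.exp 9 * ((H : ℝ) * 1 / l) ≤ Real.exp 9 * (H * l2 / l) := by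
      gcongr
      linarith
    calc Real.exp 9 * ((H : ℝ) * 1 / l) * (1 / l) ≤ Real.exp 9 * ((H : ℝ) * 1 / l) * 1 :=
          mul_le_mul_of_nonneg_left h2 (by positivity)
      _ ≤ _ := by linarith
  have hfin2 : C0 * H / l * (1 + 2 * l2) ≤ 3 * C0 * (H * l2 / l) := by
    have h1 : 3 * C0 * ((H : ℝ) * l2 / l) = C0 * H / l * (3 * l2) := by ring
    rw [h1]
    apply mul_le_mul_of_nonneg_left _ (by positivity)
    linarith
  have hlast : (2 * Real.exp 9 + 6 * C0) * ((H : ℝ) * l2 / l) =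
      (Real.exp 9 * (H * l2 / l) + Real.exp 9 * (H * l2 / l)) +
      (3 * C0 * (H * l2 / l) + 3 * C0 * (H * l2 / l)) := by ring
  rw [hlast]
  refine hstep1.trans ?_
  exact add_le_add (add_le_add (hA1'.trans hfin1) (hA2'.trans hfin1))
    (add_le_add (hB1'.trans hfin2) (hB2'.trans hfin2))

end Pool.Agent.SQ
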