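import Pool.Agent.SQ.Rt

/-! SQ/LocG.  `gg P a = ∏_{p ∈ P} (1 - (a/p)/p)`.

`loc_bound`: by `card_rt` the factor is `1 - (1 + χ)/p`, `χ = ch a p ∈ {0, 1, -1}`, and
`1 - (1+χ)/p ≤ (1 - 1/p)(1 - χ/p)(1 - 1/p^2)⁻¹` (`χ = 1`: `1 - 2/p ≤ 1 - 2/(p+1)`; `χ = -1`: equality;
`χ = 0`: clear); the factors on the left are `≥ 0` (`p = 2`: `χ = 0`).
`∏_{p ∈ P} (1 - 1/p^2) ≥ ∏_{n=2}^{N} (1 - 1/n^2) = (N+1)/(2N) ≥ 1/2`.
`gg_expand`: `∏ (1 + x_p) = ∑_S ∏_{p∈S} x_p` (`Finset.prod_one_add` / `Finset.prod_add`), `ch a` is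
multiplicative (prove it here: `jacobiSym.mul_right`). -/

set_option autoImplicit false

namespace Pool.Agent.SQ

open Finset

/-- `∏_{p ∈ P} (1 - (a/p)/p)` -/
noncomputable def gg (P : Finset ℕ) (a : ℤ) : ℝ := ∏ p ∈ P, (1 - ch a p / (p : ℝ))

private theorem ch_val (a : ℤ) (n : ℕ) : ch a n = 0 ∨ ch a n = 1 ∨ ch a n = -1 := by
  unfold ch
  split_ifs with h
  · rcases jacobiSym.trichotomy a n with h1 | h1 | h1 <;> rw [h1] <;> simp
  · simp

private theorem ch_one (a : ℤ) : ch a 1 = 1 := by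
  unfold ch
  simp [jacobiSym.one_right]

private theorem ch_mul (a : ℤ) (m n : ℕ) : ch a (m * n) = ch a m * ch a n := by
  unfold ch
  by_cases hm : m % 2 = 1
  · by_cases hn : n % 2 = 1
    · have h1 : (m * n) % 2 = 1 := by rw [Nat.mul_mod, hm, hn]
      rw [if_pos hm, if_pos hn, if_pos h1, jacobiSym.mul_right' a (by omega) (by omega)]
      push_cast
      rfl
    · have h1 : ¬ (m * n) % 2 = 1 := by
        have h2 : n % 2 = 0 := by omega
        rw [Nat.mul_mod, h2]; simp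
      rw [if_neg hn, if_neg h1, mul_zero]
  · have h1 : ¬ (m * n) % 2 = 1 := by
      have h2 : m % 2 = 0 := by omega
      rw [Nat.mul_mod, h2]; simp
    rw [if_neg hm, if_neg h1, zero_mul]

private theorem ch_prod (a : ℤ) (S : Finset ℕ) : ch a (∏ p ∈ S, p) = ∏ p ∈ S, ch a p := by
  classical
  induction S using Finset.induction_on with
  | empty => simp [ch_one]
  | insert q S hq ih => rw [Finset.prod_insert hq, Finset.prod_insert hq, ch_mul, ih]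

private theorem ch_div_le (a : ℤ) {p : ℕ} (hp : p.Prime) :
    ch a p / (p : ℝ) ≤ 1 ∧ -(1 / (p : ℝ)) ≤ ch a p / (p : ℝ) := by
  have hp2 : (2 : ℝ) ≤ p := by exact_mod_cast hp.two_le
  have hp0 : (0 : ℝ) < p := by linarith
  have h1 : ch a p ≤ 1 := by rcases ch_val a p with h | h | h <;> rw [h] <;> norm_num
  have h2 : -1 ≤ ch a p := by rcases ch_val a p with h | h | h <;> rw [h] <;> norm_num
  constructor
  · rw [div_le_one hp0]; linarith
  · rw [← neg_div]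
    exact div_le_div_of_nonneg_right h2 hp0.le

theorem gg_nonneg {P : Finset ℕ} (hP : ∀ p ∈ P, p.Prime) (a : ℤ) : 0 ≤ gg P a := by
  unfold gg
  refine Finset.prod_nonneg fun p hp => ?_
  have := (ch_div_le a (hP p hp)).1
  linarith

theorem gg_le {P : Finset ℕ} (hP : ∀ p ∈ P, p.Prime) (a : ℤ) :
    gg P a ≤ ∏ p ∈ P, (1 + 1 / (p : ℝ)) := by
  unfold gg
  refine Finset.prod_le_prod (fun p hp => ?_) (fun p hp => ?_)
  · have := (ch_div_le a (hP p hp)).1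
    linarith
  · have := (ch_div_le a (hP p hp)).2
    linarith

private theorem prod_sq (N : ℕ) :
    ∏ n ∈ Finset.Icc 2 (N + 1), (1 - 1 / (n : ℝ) ^ 2) = ((N : ℝ) + 2) / (2 * (N + 1)) := by
  induction N with
  | zero => simp
  | succ N ih =>
    rw [Finset.prod_Icc_succ_top (by omega), ih]
    push_cast
    have h1 : (N : ℝ) + 1 ≠ 0 := by positivity
    have h2 : (N : ℝ) + 1 + 1 ≠ 0 := by positivity
    field_simp
    ring

private theorem half_le {P : Finset ℕ} (hP : ∀ p ∈ P, p.Prime) :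
    1 / 2 ≤ ∏ p ∈ P, (1 - 1 / (p : ℝ) ^ 2) := by
  have hf : ∀ n ∈ Finset.Icc 2 (P.sup id + 1), 0 ≤ 1 - 1 / (n : ℝ) ^ 2 ∧
      1 - 1 / (n : ℝ) ^ 2 ≤ 1 := by
    intro n hn
    have h2 : (2 : ℝ) ≤ n := by exact_mod_cast (Finset.mem_Icc.1 hn).1
    have h3 : 1 / (n : ℝ) ^ 2 ≤ 1 := by
      rw [div_le_one (by positivity)]
      nlinarith
    have h4 : 0 ≤ 1 / (n : ℝ) ^ 2 := by positivity
    constructor <;> linarith
  have hsub : P ⊆ Finset.Icc 2 (P.sup id + 1) := by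
    intro p hp
    have h1 := (hP p hp).two_le
    have h2 : p ≤ P.sup id := Finset.le_sup (f := id) hp
    exact Finset.mem_Icc.2 ⟨h1, by omega⟩
  have h1 := prod_sq (P.sup id)
  rw [← Finset.prod_sdiff hsub] at h1
  have h2 : ∏ n ∈ Finset.Icc 2 (P.sup id + 1) \ P, (1 - 1 / (n : ℝ) ^ 2) ≤ 1 :=
    Finset.prod_le_one (fun n hn => (hf n (Finset.mem_sdiff.1 hn).1).1)
      (fun n hn => (hf n (Finset.mem_sdiff.1 hn).1).2)
  have h3 : 0 ≤ ∏ p ∈ P, (1 - 1 / (p : ℝ) ^ 2) :=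
    Finset.prod_nonneg fun n hn => (hf n (hsub hn)).1
  have h4 : (1 : ℝ) / 2 ≤ (((P.sup id : ℕ) : ℝ) + 2) / (2 * ((P.sup id : ℕ) + 1)) := by
    rw [div_le_div_iff₀ (by norm_num) (by positivity)]
    linarith
  calc (1 : ℝ) / 2 ≤ _ := h4
    _ = _ := h1.symm
    _ ≤ 1 * ∏ p ∈ P, (1 - 1 / (p : ℝ) ^ 2) := mul_le_mul_of_nonneg_right h2 h3
    _ = _ := one_mul _

theorem loc_bound {P : Finset ℕ} (hP : ∀ p ∈ P, p.Prime) (a : ℤ) :
    ∏ p ∈ P, (1 - ((rt p a).card : ℝ) / p) ≤ 2 * (∏ p ∈ P, (1 - 1 / (p : ℝ))) * gg P a := by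
  have h0 : ∀ p ∈ P, 0 ≤ 1 - ((rt p a).card : ℝ) / p ∧
      (1 - ((rt p a).card : ℝ) / p) * (1 - 1 / (p : ℝ) ^ 2) ≤
        (1 - 1 / (p : ℝ)) * (1 - ch a p / (p : ℝ)) ∧ 0 ≤ 1 - 1 / (p : ℝ) ^ 2 := by
    intro p hp
    rw [card_rt (hP p hp)]
    have hp2 : (2 : ℝ) ≤ p := by exact_mod_cast (hP p hp).two_le
    have hp0 : (0 : ℝ) < p := by linarith
    have h1 : ch a p ≤ 1 := by rcases ch_val a p with h | h | h <;> rw [h] <;> norm_num
    have h2 : -1 ≤ ch a p := by rcases ch_val a p with h | h | h <;> rw [h] <;> norm_num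
    refine ⟨?_, ?_, ?_⟩
    · rw [sub_nonneg, div_le_one hp0]; linarith
    · have h3 : (1 + ch a p) / (p : ℝ) ≤ 1 + ch a p :=
        div_le_self (by linarith) (by linarith)
      have h4 : (1 + ch a p) / (p : ℝ) * (1 / (p : ℝ) ^ 2) ≤ (1 + ch a p) * (1 / (p : ℝ) ^ 2) :=
        mul_le_mul_of_nonneg_right h3 (by positivity)
      have h5 : (1 - 1 / (p : ℝ)) * (1 - ch a p / (p : ℝ)) -
          (1 - (1 + ch a p) / (p : ℝ)) * (1 - 1 / (p : ℝ) ^ 2) =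
          (1 + ch a p) * (1 / (p : ℝ) ^ 2) - (1 + ch a p) / (p : ℝ) * (1 / (p : ℝ) ^ 2) := by
        field_simp
        ring
      linarith
    · have h3 : 1 / (p : ℝ) ^ 2 ≤ 1 := by
        rw [div_le_one (by positivity)]
        nlinarith
      linarith
  have h1 := half_le hP
  have h2 : 0 ≤ ∏ p ∈ P, (1 - ((rt p a).card : ℝ) / p) :=
    Finset.prod_nonneg fun p hp => (h0 p hp).1
  have h3 : (∏ p ∈ P, (1 - ((rt p a).card : ℝ) / p)) * ∏ p ∈ P, (1 - 1 / (p : ℝ) ^ 2) ≤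
      (∏ p ∈ P, (1 - 1 / (p : ℝ))) * gg P a := by
    unfold gg
    rw [← Finset.prod_mul_distrib, ← Finset.prod_mul_distrib]
    exact Finset.prod_le_prod (fun p hp => mul_nonneg (h0 p hp).1 (h0 p hp).2.2)
      (fun p hp => (h0 p hp).2.1)
  nlinarith [mul_le_mul_of_nonneg_left h1 h2]

theorem gg_expand (P : Finset ℕ) (a : ℤ) :
    gg P a = ∑ S ∈ P.powerset, (-1) ^ S.card * ch a (∏ p ∈ S, p) / ((∏ p ∈ S, p : ℕ) : ℝ) := by
  unfold gg
  have h1 : ∏ p ∈ P, (1 - ch a p / (p : ℝ)) = ∏ p ∈ P, (1 + (-1) * ch a p / (p : ℝ)) := by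
    refine Finset.prod_congr rfl fun p _ => ?_
    ring
  rw [h1, Finset.prod_one_add]
  refine Finset.sum_congr rfl fun S _ => ?_
  rw [Finset.prod_div_distrib, Finset.prod_mul_distrib, Finset.prod_const, ch_prod]
  push_cast
  rfl

end Pool.Agent.SQ
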