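import Pool.Agent.Helper24.Selberg
import Pool.Agent.Helper24.SieveDensity

/-! SQ/SelWt.  Selberg weights of level `Y`: `lam 1 = 1`, `lam e = 0` for `e > Y`, `|lam e| ≤ e`,
`∑_{d,e ≤ Y} lam d lam e/[d,e] ≤ C/log Y`.

Use `Pool/Agent/Helper24/Selberg.lean` (see also `Helper24/SieveDensity.lean`) with a `BoundingSieve`
whose density is `nu d = 1/d` and whose sifting product is the product of the primes `≤ Y`:
`selW_one`, `selW_eq_zero`, `abs_selW_le` (`∏_{p ∣ d} (1-1/p)⁻¹ ≤ ∏_{p ∣ d} p ≤ d`), `mainSum_selW`,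
and `selG ≥ ∑_{l ≤ Y, squarefree} 1/φ(l) ≥ ∑_{n ≤ Y} 1/n ≥ log Y`.  Put `lam e = 0` for `e` not
dividing the sifting product and for `e = 0`.  Alternatively define `lam` from scratch:
`lam d = d μ(d) ∑_{l ≤ Y, d ∣ l} μ(l)^2/φ(l) / G`. -/

set_option autoImplicit false

namespace Pool.Agent.SQ

open Finset

private noncomputable def nuI : ArithmeticFunction ℝ := ⟨fun n => ((n : ℕ) : ℝ)⁻¹, by simp⟩

private theorem nuI_apply (n : ℕ) : nuI n = (n : ℝ)⁻¹ := rfl

private theorem nuI_mult : nuI.IsMultiplicative := by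
  refine ⟨by rw [nuI_apply]; simp, fun {m n} _ => ?_⟩
  rw [nuI_apply, nuI_apply, nuI_apply, Nat.cast_mul, mul_inv]

private theorem sqf_primorial (Y : ℕ) : Squarefree (primorial Y) := by
  unfold primorial
  refine (Finset.squarefree_prod_of_pairwise_isCoprime ?_ ?_)
  · intro a ha b hb hab
    have ha' := (Finset.mem_filter.1 (Finset.mem_coe.1 ha)).2
    have hb' := (Finset.mem_filter.1 (Finset.mem_coe.1 hb)).2
    have := (Nat.coprime_primes ha' hb').2 hab
    simpa [Function.onFun, Nat.coprime_iff_isRelPrime] using this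
  · intro a ha
    exact ((Finset.mem_filter.1 ha).2).squarefree

private noncomputable def sv (Y : ℕ) : BoundingSieve where
  support := ∅
  prodPrimes := primorial Y
  prodPrimes_squarefree := sqf_primorial Y
  weights := fun _ => 0
  weights_nonneg := fun _ => le_refl _
  totalMass := 0
  nu := nuI
  nu_mult := nuI_mult
  nu_pos_of_prime := fun p hp _ => by
    rw [nuI_apply]
    have : (0 : ℝ) < p := by exact_mod_cast hp.pos
    positivity
  nu_lt_one_of_prime := fun p hp _ => by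
    rw [nuI_apply]
    have : (1 : ℝ) < p := by exact_mod_cast hp.one_lt
    exact inv_lt_one_of_one_lt₀ this

private theorem sv_P (Y : ℕ) : (sv Y).prodPrimes = primorial Y := rfl

private theorem sv_nu (Y n : ℕ) : (sv Y).nu n = (n : ℝ)⁻¹ := rfl

private theorem mem_divY_sv {Y l : ℕ} : l ∈ Helper24.divY (sv Y) Y ↔ l ∈ Helper24.sqf Y := by
  rw [Helper24.mem_divY, Helper24.mem_sqf, sv_P]
  constructor
  · rintro ⟨h1, h2⟩
    have h3 : Squarefree l := (sqf_primorial Y).squarefree_of_dvd h1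
    exact ⟨⟨Nat.pos_of_ne_zero h3.ne_zero, h2⟩, h3⟩
  · rintro ⟨⟨h1, h2⟩, h3⟩
    refine ⟨?_, h2⟩
    rw [← Nat.prod_primeFactors_of_squarefree h3]
    unfold primorial
    refine Finset.prod_dvd_prod_of_subset _ _ _ fun p hp => ?_
    rw [Finset.mem_filter, Finset.mem_range]
    have h4 := Nat.le_of_dvd h1 (Nat.dvd_of_mem_primeFactors hp)
    exact ⟨by omega, Nat.prime_of_mem_primeFactors hp⟩

private theorem selG_ge (Y : ℕ) : Real.log Y / 2 ≤ Helper24.selG (sv Y) Y := by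
  have h1 := Helper24.log_le_two_mul_Fsum_inv Y
  rw [Helper24.Fsum_inv_eq] at h1
  have h2 : ∑ a ∈ Helper24.sqf Y, 1 / (a : ℝ) ≤ Helper24.selG (sv Y) Y := by
    unfold Helper24.selG
    have e : Helper24.divY (sv Y) Y = Helper24.sqf Y := by
      ext l
      exact mem_divY_sv
    rw [e]
    refine Finset.sum_le_sum fun l hl => ?_
    rw [BoundingSieve.selbergTerms_apply, sv_nu, one_div]
    have hl0 : (0 : ℝ) < (l : ℝ) := by exact_mod_cast (Helper24.mem_sqf.1 hl).1.1
    have h3 : (1 : ℝ) ≤ ∏ p ∈ l.primeFactors, (1 - (sv Y).nu p)⁻¹ := by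
      have h6 := Finset.prod_le_prod (s := l.primeFactors) (f := fun _ => (1 : ℝ))
        (g := fun p => (1 - (sv Y).nu p)⁻¹) (fun _ _ => zero_le_one) fun p hp => ?_
      · rwa [Finset.prod_const_one] at h6
      rw [sv_nu]
      have hp1 : (1 : ℝ) < p := by exact_mod_cast (Nat.prime_of_mem_primeFactors hp).one_lt
      have h4 : (p : ℝ)⁻¹ < 1 := inv_lt_one_of_one_lt₀ hp1
      have h5 : 0 < (p : ℝ)⁻¹ := by positivity
      exact (one_le_inv₀ (by linarith)).2 (by linarith)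
    exact le_mul_of_one_le_right (by positivity) h3
  linarith

theorem selWt : ∃ C : ℝ, 0 < C ∧ ∀ Y : ℕ, 2 ≤ Y → ∃ lam : ℕ → ℝ, lam 1 = 1 ∧
    (∀ e, Y < e → lam e = 0) ∧ (∀ e, |lam e| ≤ (e : ℝ)) ∧
    ∑ d ∈ Icc 1 Y, ∑ e ∈ Icc 1 Y, lam d * lam e / ((Nat.lcm d e : ℕ) : ℝ) ≤ C / Real.log Y := by
  classical
  refine ⟨2, by norm_num, fun Y hY => ?_⟩
  obtain ⟨w, hw⟩ : ∃ w, w = Helper24.selW (sv Y) Y := ⟨_, rfl⟩
  obtain ⟨lam, hlam⟩ : ∃ lam : ℕ → ℝ, lam = fun e => if e ∣ primorial Y then w e else 0 :=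
    ⟨_, rfl⟩
  have hY1 : 1 ≤ Y := by omega
  have hlY : ∀ e, Y < e → lam e = 0 := fun e he => by
    rw [hlam]
    dsimp only
    split_ifs
    · rw [hw, Helper24.selW_eq_zero (by omega)]
    · rfl
  have hlP : ∀ e, ¬ e ∣ primorial Y → lam e = 0 := fun e he => by
    rw [hlam]
    exact if_neg he
  have hlw : ∀ e, e ∣ primorial Y → lam e = w e := fun e he => by
    rw [hlam]
    exact if_pos he
  refine ⟨lam, ?_, hlY, ?_, ?_⟩
  · rw [hlw 1 (one_dvd _), hw, Helper24.selW_one hY1]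
  · intro e
    by_cases he : e ∣ primorial Y
    · rw [hlw e he, hw]
      refine (Helper24.abs_selW_le hY1 he).trans ?_
      have hsq : Squarefree e := (sqf_primorial Y).squarefree_of_dvd he
      have h1 : (e : ℝ) = ∏ p ∈ e.primeFactors, (p : ℝ) := by
        rw [← Nat.cast_prod, Nat.prod_primeFactors_of_squarefree hsq]
      rw [h1]
      refine Finset.prod_le_prod (fun p hp => ?_) fun p hp => ?_
      · rw [sv_nu]
        have hp1 : (1 : ℝ) < p := by exact_mod_cast (Nat.prime_of_mem_primeFactors hp).one_lt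
        have h4 : (p : ℝ)⁻¹ < 1 := inv_lt_one_of_one_lt₀ hp1
        exact inv_nonneg.2 (by linarith)
      · rw [sv_nu]
        have hp1 : (2 : ℝ) ≤ p := by exact_mod_cast (Nat.prime_of_mem_primeFactors hp).two_le
        have h4 : (p : ℝ)⁻¹ ≤ 2⁻¹ := inv_anti₀ (by norm_num) hp1
        have h5 : (1 - (p : ℝ)⁻¹)⁻¹ ≤ 2 := by
          refine (inv_anti₀ (by norm_num : (0 : ℝ) < 2⁻¹) (by linarith)).trans ?_
          norm_num
        linarith
    · rw [hlP e he, abs_zero]
      exact Nat.cast_nonneg _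
  · have hsum : ∀ g : ℕ → ℝ, (∀ d, lam d = 0 → g d = 0) →
        ∑ d ∈ Icc 1 Y, g d = ∑ d ∈ (primorial Y).divisors, g d := by
      intro g hg
      have h1 : ∑ d ∈ (Icc 1 Y).filter (fun d => d ∣ primorial Y), g d = ∑ d ∈ Icc 1 Y, g d := by
        refine Finset.sum_filter_of_ne fun d _ hd => ?_
        by_contra h
        exact hd (hg d (hlP d h))
      have h2 : ∑ d ∈ (primorial Y).divisors.filter (fun d => d ≤ Y), g d =
          ∑ d ∈ (primorial Y).divisors, g d := by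
        refine Finset.sum_filter_of_ne fun d _ hd => ?_
        by_contra h
        exact hd (hg d (hlY d (by omega)))
      rw [← h1, ← h2]
      congr 1
      ext d
      rw [Finset.mem_filter, Finset.mem_filter, Finset.mem_Icc, Nat.mem_divisors]
      constructor
      · rintro ⟨⟨h3, h4⟩, h5⟩
        exact ⟨⟨h5, (sqf_primorial Y).ne_zero⟩, h4⟩
      · rintro ⟨⟨h3, h4⟩, h5⟩
        exact ⟨⟨Nat.pos_of_ne_zero (ne_zero_of_dvd_ne_zero h4 h3), h5⟩, h3⟩
    have hmain := Helper24.mainSum_selW (s := sv Y) hY1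
    rw [BoundingSieve.mainSum_lambdaSquared_eq_sum_sum_mul, sv_P, ← hw] at hmain
    have hq : ∑ d ∈ Icc 1 Y, ∑ e ∈ Icc 1 Y, lam d * lam e / ((Nat.lcm d e : ℕ) : ℝ) =
        (Helper24.selG (sv Y) Y)⁻¹ := by
      rw [← hmain, hsum (fun d => ∑ e ∈ Icc 1 Y, lam d * lam e / ((Nat.lcm d e : ℕ) : ℝ))
        (fun d hd => by
          refine Finset.sum_eq_zero fun e _ => ?_
          rw [hd, zero_mul, zero_div])]
      refine Finset.sum_congr rfl fun d hd => ?_
      rw [hsum (fun e => lam d * lam e / ((Nat.lcm d e : ℕ) : ℝ)) (fun e he => by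
        rw [he, mul_zero, zero_div])]
      refine Finset.sum_congr rfl fun e he => ?_
      have hd1 := Nat.dvd_of_mem_divisors hd
      have he1 := Nat.dvd_of_mem_divisors he
      have hd0 : d ≠ 0 := ne_zero_of_dvd_ne_zero (sqf_primorial Y).ne_zero hd1
      have he0 : e ≠ 0 := ne_zero_of_dvd_ne_zero (sqf_primorial Y).ne_zero he1
      rw [hlw d hd1, hlw e he1, sv_nu, sv_nu, sv_nu, inv_inv]
      have h1 : ((Nat.gcd d e : ℕ) : ℝ) * ((Nat.lcm d e : ℕ) : ℝ) = (d : ℝ) * (e : ℝ) := by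
        rw [← Nat.cast_mul, Nat.gcd_mul_lcm, Nat.cast_mul]
      have h2 : ((Nat.lcm d e : ℕ) : ℝ) ≠ 0 := by
        exact_mod_cast Nat.lcm_ne_zero hd0 he0
      have h3 : (d : ℝ) ≠ 0 := by exact_mod_cast hd0
      have h4 : (e : ℝ) ≠ 0 := by exact_mod_cast he0
      rw [div_eq_iff h2]
      field_simp
      linear_combination (-(w d * w e)) * h1
    rw [hq]
    have hlog : 0 < Real.log Y := Real.log_pos (by exact_mod_cast hY)
    refine (inv_anti₀ (by positivity) (selG_ge Y)).trans (le_of_eq ?_)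
    rw [inv_div]

end Pool.Agent.SQ
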