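import Pool.Agent.SQ.LocG
import Pool.Agent.SQ.SelWt
import Pool.Agent.SQ.JacSum

/-! SQ/Mean.  Mean value of `gg P (q s)` over the primes `q ∈ (k, t]`.

`Y = ⌊k^(1/32)⌋`, `D0 = ⌊k^(1/8)⌋`, `lam` from `selWt`, `w(n) = (∑_{e ∣ n, e ≤ Y} lam e)^2 ≥ 0`,
`w(q) = 1` for primes `q > k > Y`.  As `gg ≥ 0`:
`∑_{q ∈ pr k t} gg P (q s) ≤ ∑_{n ≤ t} w(n) gg P (n s)
 = ∑_{S ⊆ P} (-1)^|S| ch s (Π S)/Π S ∑_{n ≤ t} w(n) ch n (Π S)` (`gg_expand`, multiplicativity in the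
numerator, `jacobiSym.mul_left`).
* `S = ∅`: `∑_{n ≤ t} w(n) = ∑_{d,e ≤ Y} lam d lam e ⌊t/[d,e]⌋ ≤ t C/log Y + (∑_{e≤Y} |lam e|)^2
   ≤ t C/log Y + Y^4`;
* `S ≠ ∅`, `Π S ≤ D0`, `Π S` odd (for even `Π S` `ch` vanishes): `∑_{n ≤ t} w(n) (n/ΠS)
  = ∑ lam d lam e ∑_{m ≤ t/[d,e]} ([d,e] m/Π S)`, at most `Y^4 Π S` by `jac_sum` (`Π S` is squarefree,
  `> 1`); divided by `Π S` and summed over the at most `D0` sets: `≤ D0 Y^4 ≤ k^(1/4)`;
* `Π S > D0`: at most `∑_{n≤t} w(n) * 1` by `hτ` (`|ch| ≤ 1`).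
Total `≤ 2 (t C/log Y + Y^4) + D0 Y^4 ≤ C' t/log k` (`log Y ≥ (log k)/64`, `t ≥ k`). -/

set_option autoImplicit false

namespace Pool.Agent.SQ

open Finset
open Helper52 (pr)

private theorem mean_ch_mul (a b : ℤ) (d : ℕ) : ch (a * b) d = ch a d * ch b d := by
  unfold ch
  split_ifs
  · rw [jacobiSym.mul_left]; push_cast; ring
  · ring

private theorem mean_ch_abs (a : ℤ) (d : ℕ) : |ch a d| ≤ 1 := by
  unfold ch
  split_ifs
  · rcases jacobiSym.trichotomy a d with h | h | h <;> rw [h] <;> norm_num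
  · norm_num

private theorem mean_ch_one (a : ℤ) : ch a 1 = 1 := by
  unfold ch
  simp

/-- the weight -/
private noncomputable def mw (lam : ℕ → ℝ) (Y n : ℕ) : ℝ :=
  (∑ e ∈ (Icc 1 Y).filter (fun e => e ∣ n), lam e) ^ 2

private theorem mean_expand (lam : ℕ → ℝ) (Y t : ℕ) (F : ℕ → ℝ) :
    ∑ n ∈ Icc 1 t, mw lam Y n * F n = ∑ d ∈ Icc 1 Y, ∑ e ∈ Icc 1 Y, lam d * lam e *
      ∑ n ∈ (Icc 1 t).filter (fun n => Nat.lcm d e ∣ n), F n := by
  have h1 : ∀ n, mw lam Y n * F n = ∑ d ∈ Icc 1 Y, ∑ e ∈ Icc 1 Y,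
      lam d * lam e * (if Nat.lcm d e ∣ n then F n else 0) := by
    intro n
    unfold mw
    rw [pow_two, Finset.sum_filter, Finset.sum_mul_sum, Finset.sum_mul]
    apply Finset.sum_congr rfl
    intro d _
    rw [Finset.sum_mul]
    apply Finset.sum_congr rfl
    intro e _
    by_cases hd : d ∣ n
    · by_cases he : e ∣ n
      · rw [if_pos hd, if_pos he, if_pos (Nat.lcm_dvd hd he)]
      · rw [if_pos hd, if_neg he, if_neg (fun h => he ((Nat.dvd_lcm_right d e).trans h))]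
        ring
    · rw [if_neg hd, if_neg (fun h => hd ((Nat.dvd_lcm_left d e).trans h))]
      ring
  simp only [h1]
  rw [Finset.sum_comm]
  apply Finset.sum_congr rfl
  intro d _
  rw [Finset.sum_comm]
  apply Finset.sum_congr rfl
  intro e _
  rw [← Finset.mul_sum, Finset.sum_filter]

private theorem mean_mult {l : ℕ} (hl : 1 ≤ l) (t : ℕ) (F : ℕ → ℝ) :
    ∑ n ∈ (Icc 1 t).filter (fun n => l ∣ n), F n = ∑ m ∈ Icc 1 (t / l), F (l * m) := by
  symm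
  apply Finset.sum_bij (fun m _ => l * m)
  · intro m hm
    rw [mem_Icc] at hm
    rw [mem_filter, mem_Icc]
    refine ⟨⟨Nat.mul_pos hl hm.1, ?_⟩, Dvd.intro _ rfl⟩
    calc l * m ≤ l * (t / l) := Nat.mul_le_mul_left _ hm.2
      _ ≤ t := Nat.mul_div_le _ _
  · intro a _ b _ h
    exact Nat.eq_of_mul_eq_mul_left hl h
  · intro n hn
    rw [mem_filter, mem_Icc] at hn
    obtain ⟨⟨h1, h2⟩, m, rfl⟩ := hn
    refine ⟨m, ?_, rfl⟩
    rw [mem_Icc]
    refine ⟨Nat.pos_of_ne_zero (by rintro rfl; simp at h1), ?_⟩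
    rw [Nat.le_div_iff_mul_le hl, mul_comm]
    exact h2
  · intro m _; rfl

private theorem mean_ch_sum {d : ℕ} (hd : d % 2 = 1) (hsq : Squarefree d) (h1 : 1 < d) (N : ℕ) :
    |∑ m ∈ Icc 1 N, ch (m : ℤ) d| ≤ d := by
  have h2 : ∑ m ∈ Icc 1 N, ch (m : ℤ) d =
      ∑ m ∈ range (N + 1), ((jacobiSym (m : ℤ) d : ℤ) : ℝ) := by
    rw [Finset.sum_range_succ']
    have h3 : jacobiSym ((0 : ℕ) : ℤ) d = 0 := by
      rw [Nat.cast_zero]
      exact jacobiSym.zero_left h1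
    rw [h3, Int.cast_zero, add_zero]
    have h4 : Icc 1 N = Ico (0 + 1) (N + 1) := by
      ext x; simp only [mem_Icc, mem_Ico]; omega
    rw [h4, ← Finset.sum_Ico_add', Nat.Ico_zero_eq_range]
    apply Finset.sum_congr rfl
    intro m _
    unfold ch
    rw [if_pos hd]
  rw [h2]
  exact jac_sum hd hsq h1 (N + 1)

private theorem mean_lam_sum {lam : ℕ → ℝ} (hlam : ∀ e, |lam e| ≤ (e : ℝ)) (Y : ℕ) :
    ∑ d ∈ Icc 1 Y, ∑ e ∈ Icc 1 Y, |lam d * lam e| ≤ (Y : ℝ) ^ 4 := by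
  have h1 : ∀ d ∈ Icc 1 Y, |lam d| ≤ (Y : ℝ) := by
    intro d hd
    rw [mem_Icc] at hd
    exact (hlam d).trans (by exact_mod_cast hd.2)
  calc ∑ d ∈ Icc 1 Y, ∑ e ∈ Icc 1 Y, |lam d * lam e|
      ≤ ∑ _d ∈ Icc 1 Y, ∑ _e ∈ Icc 1 Y, (Y : ℝ) * Y := by
        apply Finset.sum_le_sum
        intro d hd
        apply Finset.sum_le_sum
        intro e he
        rw [abs_mul]
        exact mul_le_mul (h1 d hd) (h1 e he) (abs_nonneg _) (Nat.cast_nonneg _)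
    _ = (Y : ℝ) ^ 4 := by
        simp only [Finset.sum_const, Nat.card_Icc, Nat.add_sub_cancel, nsmul_eq_mul]
        ring

private theorem mean_E {lam : ℕ → ℝ} (hlam : ∀ e, |lam e| ≤ (e : ℝ)) (Y t : ℕ) {D : ℕ}
    (hsq : Squarefree D) (h1 : 1 < D) :
    |∑ n ∈ Icc 1 t, mw lam Y n * ch (n : ℤ) D| ≤ (Y : ℝ) ^ 4 * D := by
  by_cases hodd : D % 2 = 1
  · rw [mean_expand lam Y t (fun n => ch (n : ℤ) D)]
    calc |∑ d ∈ Icc 1 Y, ∑ e ∈ Icc 1 Y, lam d * lam e *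
          ∑ n ∈ (Icc 1 t).filter (fun n => Nat.lcm d e ∣ n), ch (n : ℤ) D|
        ≤ ∑ d ∈ Icc 1 Y, ∑ e ∈ Icc 1 Y, |lam d * lam e| * D := by
          refine (Finset.abs_sum_le_sum_abs _ _).trans (Finset.sum_le_sum fun d hd => ?_)
          refine (Finset.abs_sum_le_sum_abs _ _).trans (Finset.sum_le_sum fun e he => ?_)
          rw [abs_mul]
          apply mul_le_mul_of_nonneg_left _ (abs_nonneg _)
          have hl : 1 ≤ Nat.lcm d e := by
            rw [mem_Icc] at hd he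
            exact Nat.lcm_pos (by omega) (by omega)
          rw [mean_mult hl t (fun n => ch (n : ℤ) D)]
          have h2 : ∑ m ∈ Icc 1 (t / Nat.lcm d e), ch ((Nat.lcm d e * m : ℕ) : ℤ) D =
              ch ((Nat.lcm d e : ℕ) : ℤ) D * ∑ m ∈ Icc 1 (t / Nat.lcm d e), ch (m : ℤ) D := by
            rw [Finset.mul_sum]
            apply Finset.sum_congr rfl
            intro m _
            rw [Nat.cast_mul, mean_ch_mul]
          rw [h2, abs_mul]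
          calc |ch ((Nat.lcm d e : ℕ) : ℤ) D| * |∑ m ∈ Icc 1 (t / Nat.lcm d e), ch (m : ℤ) D|
              ≤ 1 * D := mul_le_mul (mean_ch_abs _ _) (mean_ch_sum hodd hsq h1 _) (abs_nonneg _)
                zero_le_one
            _ = D := one_mul _
      _ = (∑ d ∈ Icc 1 Y, ∑ e ∈ Icc 1 Y, |lam d * lam e|) * D := by
          rw [Finset.sum_mul]
          apply Finset.sum_congr rfl
          intro d _
          rw [Finset.sum_mul]
      _ ≤ _ := mul_le_mul_of_nonneg_right (mean_lam_sum hlam Y) (Nat.cast_nonneg _)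
  · have h2 : ∑ n ∈ Icc 1 t, mw lam Y n * ch (n : ℤ) D = 0 := by
      apply Finset.sum_eq_zero
      intro n _
      unfold ch
      rw [if_neg hodd, mul_zero]
    rw [h2, abs_zero]
    positivity

private theorem mean_W {lam : ℕ → ℝ} (hlam : ∀ e, |lam e| ≤ (e : ℝ)) (Y t : ℕ) :
    ∑ n ∈ Icc 1 t, mw lam Y n ≤
      t * (∑ d ∈ Icc 1 Y, ∑ e ∈ Icc 1 Y, lam d * lam e / ((Nat.lcm d e : ℕ) : ℝ)) +
        (Y : ℝ) ^ 4 := by
  have h0 := mean_expand lam Y t (fun _ => 1)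
  simp only [mul_one] at h0
  rw [h0]
  refine le_trans ?_ (add_le_add le_rfl (mean_lam_sum hlam Y))
  rw [Finset.mul_sum, ← Finset.sum_add_distrib]
  apply Finset.sum_le_sum
  intro d hd
  rw [Finset.mul_sum, ← Finset.sum_add_distrib]
  apply Finset.sum_le_sum
  intro e he
  have hl : 1 ≤ Nat.lcm d e := by
    rw [mem_Icc] at hd he
    exact Nat.lcm_pos (by omega) (by omega)
  rw [mean_mult hl t (fun _ => 1)]
  set l := Nat.lcm d e
  have hlr : (0 : ℝ) < l := by exact_mod_cast hl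
  have h1 : ∑ _m ∈ Icc 1 (t / l), (1 : ℝ) = ((t / l : ℕ) : ℝ) := by simp
  rw [h1]
  have h2 : ((t / l : ℕ) : ℝ) ≤ (t : ℝ) / l := Nat.cast_div_le
  have h3 : (t : ℝ) / l ≤ ((t / l : ℕ) : ℝ) + 1 := by
    rw [div_le_iff₀ hlr]
    have h4 : t < (t / l + 1) * l := by
      rw [Nat.add_mul, one_mul, mul_comm]
      have := Nat.div_add_mod t l
      have := Nat.mod_lt t (show 0 < l from hl)
      omega
    have h5 : (t : ℝ) < ((t / l + 1 : ℕ) : ℝ) * l := by exact_mod_cast h4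
    push_cast at h5
    exact h5.le
  set a := lam d * lam e
  set x := ((t / l : ℕ) : ℝ)
  have h6 : a * x - a * (t / l) ≤ |a| := by
    calc a * x - a * (t / l) ≤ |a * (x - t / l)| := by rw [mul_sub]; exact le_abs_self _
      _ = |a| * |x - t / l| := abs_mul _ _
      _ ≤ |a| * 1 := by
        apply mul_le_mul_of_nonneg_left _ (abs_nonneg _)
        rw [abs_le]
        constructor <;> linarith
      _ = |a| := mul_one _
  have h7 : (t : ℝ) * (a / l) = a * (t / l) := by ring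
  rw [h7]
  linarith

private theorem mean_sqfree {S : Finset ℕ} (hS : ∀ p ∈ S, p.Prime) : Squarefree (∏ p ∈ S, p) := by
  apply Finset.squarefree_prod_of_pairwise_isCoprime
  · intro a ha b hb hab
    rw [Function.onFun, ← Nat.coprime_iff_isRelPrime]
    exact (Nat.coprime_primes (hS a ha) (hS b hb)).2 hab
  · intro p hp
    exact (hS p hp).squarefree

private theorem mean_root (k : ℕ) (hk : 2 ^ 32 ≤ k) : ∃ Y : ℕ, 2 ≤ Y ∧ Y ^ 32 ≤ k ∧
    k < (Y + 1) ^ 32 := by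
  have h1 : Nat.findGreatest (fun y => y ^ 32 ≤ k) k ^ 32 ≤ k :=
    Nat.findGreatest_spec (P := fun y => y ^ 32 ≤ k) (m := 2)
      (le_trans (by norm_num) hk) hk
  have h2 : 2 ≤ Nat.findGreatest (fun y => y ^ 32 ≤ k) k :=
    Nat.le_findGreatest (le_trans (by norm_num) hk) hk
  refine ⟨_, h2, h1, ?_⟩
  by_contra hcon
  push Not at hcon
  set Y := Nat.findGreatest (fun y => y ^ 32 ≤ k) k with hY
  have h3 : Y + 1 ≤ k := le_trans (Nat.le_self_pow (by norm_num) _) hcon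
  exact Nat.findGreatest_is_greatest (P := fun y => y ^ 32 ≤ k) (n := k) (k := Y + 1)
    (Nat.lt_succ_self _) h3 hcon

private theorem mean_final {C W : ℝ} {Y k t D0 : ℕ} (hC : 0 < C) (hY2 : 2 ≤ Y) (hY1 : Y ^ 32 ≤ k)
    (hYk : k < (Y + 1) ^ 32) (hkt : k ≤ t) (hD0 : D0 = (Y + 1) ^ 4)
    (hWb : W ≤ t * (C / Real.log Y) + (Y : ℝ) ^ 4) :
    W + (D0 : ℝ) * (Y : ℝ) ^ 4 + W ≤ (128 * C + 3072) * t / Real.log k := by
  have hYr : (2 : ℝ) ≤ Y := by exact_mod_cast hY2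
  have hY0 : (0 : ℝ) < Y := by linarith
  have hY4 : (1 : ℝ) ≤ (Y : ℝ) ^ 4 := one_le_pow₀ (by linarith)
  have hY32 : (Y : ℝ) ≤ (Y : ℝ) ^ 32 := le_self_pow₀ (by linarith) (by norm_num)
  have hlogY : 0 < Real.log Y := Real.log_pos (by linarith)
  have hkr : (Y : ℝ) ^ 32 ≤ k := by exact_mod_cast hY1
  have hk1 : (1 : ℝ) < k := by linarith
  have hlogk : 0 < Real.log k := Real.log_pos hk1
  have hkt' : (k : ℝ) ≤ t := by exact_mod_cast hkt
  have ht0 : (0 : ℝ) ≤ t := by linarith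
  have hkY : Real.log k ≤ 64 * Real.log Y := by
    have h0 : Y + 1 ≤ Y ^ 2 := by
      have h2 : Y * 2 ≤ Y * Y := Nat.mul_le_mul_left _ hY2
      rw [pow_two]
      omega
    have h2 : k ≤ Y ^ 64 := by
      calc k ≤ (Y + 1) ^ 32 := hYk.le
        _ ≤ (Y ^ 2) ^ 32 := Nat.pow_le_pow_left h0 _
        _ = Y ^ 64 := by rw [← pow_mul]
    have h1 : (k : ℝ) ≤ (Y : ℝ) ^ 64 := by exact_mod_cast h2
    have h3 := Real.log_le_log (by linarith) h1
    rw [Real.log_pow] at h3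
    exact h3
  have htr : (Y : ℝ) ^ 32 ≤ t := hkr.trans hkt'
  have hmainb : (t : ℝ) * (C / Real.log Y) ≤ 64 * C * t / Real.log k := by
    rw [mul_div_assoc', div_le_div_iff₀ hlogY hlogk]
    have : (t : ℝ) * C * Real.log k ≤ t * C * (64 * Real.log Y) :=
      mul_le_mul_of_nonneg_left hkY (mul_nonneg ht0 hC.le)
    linarith
  have hD0r : (D0 : ℝ) ≤ 16 * (Y : ℝ) ^ 4 := by
    rw [hD0]
    push_cast
    calc ((Y : ℝ) + 1) ^ 4 ≤ (2 * Y) ^ 4 := pow_le_pow_left₀ (by linarith) (by linarith) 4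
      _ = _ := by ring
  have herr : 2 * (Y : ℝ) ^ 4 + D0 * (Y : ℝ) ^ 4 ≤ 3072 * t / Real.log k := by
    have h1 : 2 * (Y : ℝ) ^ 4 + D0 * (Y : ℝ) ^ 4 ≤ 48 * (Y : ℝ) ^ 8 := by
      have h2 : D0 * (Y : ℝ) ^ 4 ≤ 16 * (Y : ℝ) ^ 4 * (Y : ℝ) ^ 4 :=
        mul_le_mul_of_nonneg_right hD0r (by linarith)
      have h3 : (Y : ℝ) ^ 4 * (Y : ℝ) ^ 4 = (Y : ℝ) ^ 8 := by ring
      have h4 : (Y : ℝ) ^ 4 ≤ (Y : ℝ) ^ 8 := by
        rw [← h3]
        exact le_mul_of_one_le_left (by linarith) hY4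
      rw [mul_assoc, h3] at h2
      linarith
    refine h1.trans ?_
    rw [le_div_iff₀ hlogk]
    have h5 : Real.log Y ≤ Y := (Real.log_le_sub_one_of_pos (by linarith)).trans (by linarith)
    have h6 : Real.log k ≤ 64 * Y := hkY.trans (by linarith)
    calc 48 * (Y : ℝ) ^ 8 * Real.log k ≤ 48 * (Y : ℝ) ^ 8 * (64 * Y) :=
          mul_le_mul_of_nonneg_left h6 (mul_nonneg (by norm_num) (pow_nonneg hY0.le 8))
      _ = 3072 * (Y : ℝ) ^ 9 := by ring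
      _ ≤ 3072 * (Y : ℝ) ^ 32 := by
          apply mul_le_mul_of_nonneg_left _ (by norm_num)
          exact pow_le_pow_right₀ (by linarith) (by norm_num)
      _ ≤ 3072 * t := mul_le_mul_of_nonneg_left htr (by norm_num)
  calc W + (D0 : ℝ) * (Y : ℝ) ^ 4 + W
      ≤ 2 * (t * (C / Real.log Y)) + (2 * (Y : ℝ) ^ 4 + D0 * (Y : ℝ) ^ 4) := by linarith
    _ ≤ 2 * (64 * C * t / Real.log k) + 3072 * t / Real.log k := by linarith
    _ = (128 * C + 3072) * t / Real.log k := by ring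

theorem mean : ∃ C : ℝ, 0 < C ∧ ∃ k0 : ℕ, ∀ k : ℕ, k0 ≤ k → ∀ P : Finset ℕ, (∀ p ∈ P, p.Prime) →
    (∀ D0 : ℕ, k ≤ (D0 + 1) ^ 8 →
      ∑ S ∈ P.powerset.filter (fun S => D0 < ∏ p ∈ S, p), 1 / ((∏ p ∈ S, p : ℕ) : ℝ) ≤ 1) →
    ∀ s : ℤ, ∀ t : ℕ, k ≤ t →
      ∑ q ∈ pr k t, gg P ((q : ℤ) * s) ≤ C * t / Real.log k := by
  classical
  obtain ⟨C, hC, hsel⟩ := selWt
  refine ⟨128 * C + 3072, by positivity, 2 ^ 32, ?_⟩
  intro k hk P hP hτ s t hkt
  obtain ⟨Y, hY2, hY1, hYk⟩ := mean_root k hk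
  obtain ⟨lam, hlam1, hlam0, hlam, hmain⟩ := hsel Y hY2
  have hYk' : Y ≤ k := le_trans (Nat.le_self_pow (by norm_num) _) hY1
  have hw0 : ∀ n, 0 ≤ mw lam Y n := fun n => sq_nonneg _
  -- primes
  have hwq : ∀ q ∈ pr k t, mw lam Y q = 1 := by
    intro q hq
    rw [Helper52.mem_pr] at hq
    unfold mw
    have h1 : (Icc 1 Y).filter (fun e => e ∣ q) = {1} := by
      ext e
      rw [mem_filter, mem_Icc, mem_singleton]
      constructor
      · rintro ⟨⟨_, h2⟩, h3⟩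
        rcases (Nat.dvd_prime hq.2.2).1 h3 with h4 | h4
        · exact h4
        · omega
      · rintro rfl
        exact ⟨⟨le_rfl, by omega⟩, one_dvd _⟩
    rw [h1, sum_singleton, hlam1, one_pow]
  have hstep1 : ∑ q ∈ pr k t, gg P ((q : ℤ) * s) ≤
      ∑ n ∈ Icc 1 t, mw lam Y n * gg P ((n : ℤ) * s) := by
    calc ∑ q ∈ pr k t, gg P ((q : ℤ) * s) = ∑ q ∈ pr k t, mw lam Y q * gg P ((q : ℤ) * s) := by
          apply Finset.sum_congr rfl
          intro q hq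
          rw [hwq q hq, one_mul]
      _ ≤ _ := by
          apply Finset.sum_le_sum_of_subset_of_nonneg
          · intro q hq
            rw [Helper52.mem_pr] at hq
            rw [mem_Icc]
            exact ⟨hq.2.2.pos, hq.2.1⟩
          · intro n _ _
            exact mul_nonneg (hw0 n) (gg_nonneg hP _)
  -- expansion
  obtain ⟨W, hWdef⟩ : ∃ W : ℝ, W = ∑ n ∈ Icc 1 t, mw lam Y n := ⟨_, rfl⟩
  have hW0 : 0 ≤ W := by
    rw [hWdef]
    exact Finset.sum_nonneg fun n _ => hw0 n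
  obtain ⟨E, hE⟩ : ∃ E : Finset ℕ → ℝ, ∀ S, E S = ∑ n ∈ Icc 1 t, mw lam Y n *
    ch (n : ℤ) (∏ p ∈ S, p) := ⟨fun S => ∑ n ∈ Icc 1 t, mw lam Y n * ch (n : ℤ) (∏ p ∈ S, p),
      fun _ => rfl⟩
  have hexp : ∑ n ∈ Icc 1 t, mw lam Y n * gg P ((n : ℤ) * s) =
      ∑ S ∈ P.powerset, (-1) ^ S.card * ch s (∏ p ∈ S, p) / ((∏ p ∈ S, p : ℕ) : ℝ) * E S := by
    simp only [gg_expand, hE, Finset.mul_sum]
    rw [Finset.sum_comm]
    apply Finset.sum_congr rfl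
    intro S _
    apply Finset.sum_congr rfl
    intro n _
    rw [mean_ch_mul]
    ring
  have hEW : ∀ S, |E S| ≤ W := by
    intro S
    rw [hE, hWdef]
    refine (Finset.abs_sum_le_sum_abs _ _).trans (Finset.sum_le_sum fun n _ => ?_)
    rw [abs_mul, abs_of_nonneg (hw0 n)]
    exact mul_le_of_le_one_right (hw0 n) (mean_ch_abs _ _)
  have hcoef : ∀ S : Finset ℕ, |(-1) ^ S.card * ch s (∏ p ∈ S, p) / ((∏ p ∈ S, p : ℕ) : ℝ) * E S| ≤
      1 / ((∏ p ∈ S, p : ℕ) : ℝ) * |E S| := by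
    intro S
    rw [abs_mul, abs_div, abs_mul, abs_pow, abs_neg, abs_one, one_pow, one_mul, Nat.abs_cast]
    apply mul_le_mul_of_nonneg_right _ (abs_nonneg _)
    exact div_le_div_of_nonneg_right (mean_ch_abs _ _) (Nat.cast_nonneg _)
  obtain ⟨D0, hD0⟩ : ∃ D0 : ℕ, D0 = (Y + 1) ^ 4 := ⟨_, rfl⟩
  have hD0k : k ≤ (D0 + 1) ^ 8 := by
    calc k ≤ (Y + 1) ^ 32 := hYk.le
      _ = D0 ^ 8 := by rw [hD0, ← pow_mul]
      _ ≤ (D0 + 1) ^ 8 := Nat.pow_le_pow_left (Nat.le_succ _) _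
  have hprime : ∀ S ∈ P.powerset, ∀ p ∈ S, p.Prime := fun S hS p hp =>
    hP p (Finset.mem_powerset.1 hS hp)
  have hpos : ∀ S ∈ P.powerset, 0 < ∏ p ∈ S, p := fun S hS =>
    Finset.prod_pos fun p hp => (hprime S hS p hp).pos
  -- the three parts
  have hbound : ∀ S ∈ P.powerset, 1 / ((∏ p ∈ S, p : ℕ) : ℝ) * |E S| ≤
      (if S = ∅ then W else 0) + (if 1 ≤ ∏ p ∈ S, p ∧ ∏ p ∈ S, p ≤ D0 then (Y : ℝ) ^ 4 else 0) +
      (if D0 < ∏ p ∈ S, p then 1 / ((∏ p ∈ S, p : ℕ) : ℝ) * W else 0) := by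
    intro S hS
    have hp := hpos S hS
    have hpr : (0 : ℝ) < ((∏ p ∈ S, p : ℕ) : ℝ) := by exact_mod_cast hp
    have hn1 : (0 : ℝ) ≤ (if S = ∅ then W else 0) := by split_ifs <;> [exact hW0; exact le_rfl]
    have hY4 : (0 : ℝ) ≤ (Y : ℝ) ^ 4 := pow_nonneg (Nat.cast_nonneg _) _
    have hpn : (0 : ℝ) ≤ 1 / ((∏ p ∈ S, p : ℕ) : ℝ) := one_div_nonneg.2 (Nat.cast_nonneg _)
    have hn2 : (0 : ℝ) ≤ (if 1 ≤ ∏ p ∈ S, p ∧ ∏ p ∈ S, p ≤ D0 then (Y : ℝ) ^ 4 else 0) := by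
      split_ifs
      · exact hY4
      · exact le_rfl
    have hn3 : (0 : ℝ) ≤ (if D0 < ∏ p ∈ S, p then 1 / ((∏ p ∈ S, p : ℕ) : ℝ) * W else 0) := by
      split_ifs
      · exact mul_nonneg hpn hW0
      · exact le_rfl
    rcases Nat.lt_or_ge D0 (∏ p ∈ S, p) with h1 | h1
    · rw [if_pos h1]
      have h2 : 1 / ((∏ p ∈ S, p : ℕ) : ℝ) * |E S| ≤ 1 / ((∏ p ∈ S, p : ℕ) : ℝ) * W :=
        mul_le_mul_of_nonneg_left (hEW S) hpn
      linarith
    · rcases S.eq_empty_or_nonempty with h2 | h2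
      · rw [if_pos h2]
        have h3 : 1 / ((∏ p ∈ S, p : ℕ) : ℝ) * |E S| ≤ W := by
          rw [h2]
          simp only [Finset.prod_empty, Nat.cast_one, div_one, one_mul]
          exact hEW ∅
        linarith
      · rw [if_pos (show 1 ≤ ∏ p ∈ S, p ∧ ∏ p ∈ S, p ≤ D0 from ⟨hp, h1⟩)]
        have h3 : 1 < ∏ p ∈ S, p := by
          obtain ⟨p, hpS⟩ := h2
          have h4 : p ∣ ∏ p ∈ S, p := Finset.dvd_prod_of_mem _ hpS
          exact lt_of_lt_of_le (hprime S hS p hpS).one_lt (Nat.le_of_dvd hp h4)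
        have h4 := mean_E hlam Y t (mean_sqfree (hprime S hS)) h3
        rw [← hE] at h4
        have h5 : 1 / ((∏ p ∈ S, p : ℕ) : ℝ) * |E S| ≤ (Y : ℝ) ^ 4 := by
          calc 1 / ((∏ p ∈ S, p : ℕ) : ℝ) * |E S|
              ≤ 1 / ((∏ p ∈ S, p : ℕ) : ℝ) * ((Y : ℝ) ^ 4 * ((∏ p ∈ S, p : ℕ) : ℝ)) :=
                mul_le_mul_of_nonneg_left h4 hpn
            _ = (Y : ℝ) ^ 4 := by
                rw [mul_comm ((Y : ℝ) ^ 4), ← mul_assoc, one_div, inv_mul_cancel₀ hpr.ne', one_mul]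
        linarith
  have hcard : ((P.powerset.filter (fun S => 1 ≤ ∏ p ∈ S, p ∧ ∏ p ∈ S, p ≤ D0)).card : ℝ) ≤ D0 := by
    have h1 : (P.powerset.filter (fun S => 1 ≤ ∏ p ∈ S, p ∧ ∏ p ∈ S, p ≤ D0)).card ≤
        (Icc 1 D0).card := by
      apply Finset.card_le_card_of_injOn (fun S => ∏ p ∈ S, p)
      · intro S hS
        have := (Finset.mem_filter.1 hS).2
        exact Finset.mem_coe.2 (mem_Icc.2 this)
      · intro S hS S' hS' h
        have h2 := Nat.primeFactors_prod (hprime S (Finset.mem_filter.1 hS).1)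
        have h3 := Nat.primeFactors_prod (hprime S' (Finset.mem_filter.1 hS').1)
        simp only at h
        rw [← h2, ← h3, h]
    rw [Nat.card_Icc, Nat.add_sub_cancel] at h1
    exact_mod_cast h1
  have htot : ∑ q ∈ pr k t, gg P ((q : ℤ) * s) ≤ W + (D0 : ℝ) * (Y : ℝ) ^ 4 + W := by
    calc ∑ q ∈ pr k t, gg P ((q : ℤ) * s)
        ≤ ∑ S ∈ P.powerset, (-1) ^ S.card * ch s (∏ p ∈ S, p) / ((∏ p ∈ S, p : ℕ) : ℝ) * E S := by
          rw [← hexp]; exact hstep1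
      _ ≤ ∑ S ∈ P.powerset, ((if S = ∅ then W else 0) +
          (if 1 ≤ ∏ p ∈ S, p ∧ ∏ p ∈ S, p ≤ D0 then (Y : ℝ) ^ 4 else 0) +
          (if D0 < ∏ p ∈ S, p then 1 / ((∏ p ∈ S, p : ℕ) : ℝ) * W else 0)) := by
          apply Finset.sum_le_sum
          intro S hS
          exact ((le_abs_self _).trans (hcoef S)).trans (hbound S hS)
      _ = (∑ S ∈ P.powerset, (if S = ∅ then W else 0)) +
          (∑ S ∈ P.powerset,
            (if 1 ≤ ∏ p ∈ S, p ∧ ∏ p ∈ S, p ≤ D0 then (Y : ℝ) ^ 4 else 0)) +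
          ∑ S ∈ P.powerset, (if D0 < ∏ p ∈ S, p then 1 / ((∏ p ∈ S, p : ℕ) : ℝ) * W else 0) := by
          rw [Finset.sum_add_distrib, Finset.sum_add_distrib]
      _ ≤ W + (D0 : ℝ) * (Y : ℝ) ^ 4 + W := by
          refine add_le_add (add_le_add ?_ ?_) ?_
          · rw [Finset.sum_ite_eq' P.powerset ∅ (fun _ => W), if_pos (Finset.empty_mem_powerset P)]
          · rw [← Finset.sum_filter, Finset.sum_const, nsmul_eq_mul]
            exact mul_le_mul_of_nonneg_right hcard (by positivity)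
          · rw [← Finset.sum_filter, ← Finset.sum_mul]
            exact mul_le_of_le_one_left hW0 (hτ D0 hD0k)
  refine htot.trans (mean_final hC hY2 hY1 hYk hkt hD0 ?_)
  exact (mean_W hlam Y t).trans (add_le_add (mul_le_mul_of_nonneg_left hmain (Nat.cast_nonneg _))
    le_rfl) |> hWdef.le.trans

end Pool.Agent.SQ
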