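import Pool.Agent.SQ.Jac

/-! SQ/NegSq.  `XX (ch (-1)) 20 > 2 * 4 / 20`: `ch (-1) n` is `1, 0, -1, 0` for `n ≡ 1, 2, 3, 0` mod 4
(`jacobiSym.at_neg_one`, `ZMod.χ₄`), the sum is `1 - 1/3 + 1/5 - ... - 1/19 > 0.7`.
`NZ_congr`: `NZ` depends only on the values at the primes `> z`.
`NZ_neg_sq`: for `a = -s^2`, `s ≤ z`, `s ≠ 0` and primes `p > z ≥ 2`: `p ∤ s`,
`ch a p = ch (-1) p * ch (s^2) p = ch (-1) p` (`ch_mul_left`). -/

set_option autoImplicit false

namespace Pool.Agent.SQ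

open Finset

theorem XX_neg_one : 2 * 4 / ((20 : ℕ) : ℝ) < XX (ch (-1)) 20 := by
  have e : Icc 1 20 = ({1, 2, 3, 4, 5, 6, 7, 8, 9, 10, 11, 12, 13, 14, 15, 16, 17, 18, 19, 20} :
      Finset ℕ) := by decide
  have ho : ∀ n : ℕ, n % 4 = 1 → ch (-1) n = 1 := by
    intro n hn
    have h2 : n % 2 = 1 := by omega
    unfold ch
    rw [if_pos h2, jacobiSym.at_neg_one (Nat.odd_iff.2 h2), ZMod.χ₄_nat_one_mod_four hn]
    norm_num
  have ht : ∀ n : ℕ, n % 4 = 3 → ch (-1) n = -1 := by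
    intro n hn
    have h2 : n % 2 = 1 := by omega
    unfold ch
    rw [if_pos h2, jacobiSym.at_neg_one (Nat.odd_iff.2 h2), ZMod.χ₄_nat_three_mod_four hn]
    norm_num
  have hev : ∀ n : ℕ, n % 2 = 0 → ch (-1) n = 0 := by
    intro n hn
    unfold ch
    rw [if_neg (by omega)]
  unfold XX
  rw [e]
  rw [sum_insert (by decide)]
  rw [sum_insert (by decide)]
  rw [sum_insert (by decide)]
  rw [sum_insert (by decide)]
  rw [sum_insert (by decide)]
  rw [sum_insert (by decide)]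
  rw [sum_insert (by decide)]
  rw [sum_insert (by decide)]
  rw [sum_insert (by decide)]
  rw [sum_insert (by decide)]
  rw [sum_insert (by decide)]
  rw [sum_insert (by decide)]
  rw [sum_insert (by decide)]
  rw [sum_insert (by decide)]
  rw [sum_insert (by decide)]
  rw [sum_insert (by decide)]
  rw [sum_insert (by decide)]
  rw [sum_insert (by decide)]
  rw [sum_insert (by decide)]
  rw [sum_singleton]
  rw [ho 1 (by norm_num), ht 3 (by norm_num), ho 5 (by norm_num), ht 7 (by norm_num),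
    ho 9 (by norm_num), ht 11 (by norm_num), ho 13 (by norm_num), ht 15 (by norm_num),
    ho 17 (by norm_num), ht 19 (by norm_num), hev 2 (by norm_num), hev 4 (by norm_num),
    hev 6 (by norm_num), hev 8 (by norm_num), hev 10 (by norm_num), hev 12 (by norm_num),
    hev 14 (by norm_num), hev 16 (by norm_num), hev 18 (by norm_num), hev 20 (by norm_num)]
  norm_num

theorem NZ_congr {χ χ' : ℕ → ℝ} {z : ℕ} (h : ∀ p : ℕ, p.Prime → z < p → χ p = χ' p) (t : ℕ) :
    NZ χ z t = NZ χ' z t := by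
  unfold NZ
  refine Finset.sum_congr ?_ fun _ _ => rfl
  refine congrArg (filter _) (congrArg powerset ?_)
  refine filter_congr fun p hp => ?_
  have h1 := Helper52.mem_pr.1 hp
  rw [h p h1.2.2 h1.1]

theorem NZ_neg_sq {a : ℤ} {s z : ℕ} (hs : s ≠ 0) (hsz : s ≤ z) (hz : 2 ≤ z) (ha : a = -(s : ℤ) ^ 2)
    (t : ℕ) : NZ (ch a) z t = NZ (ch (-1)) z t := by
  refine NZ_congr (fun p hp hzp => ?_) t
  have e : a = (-1) * (s : ℤ) ^ 2 := by rw [ha]; ring
  have hodd : p % 2 = 1 := Nat.odd_iff.1 (hp.odd_of_ne_two (by omega))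
  have hps : ¬ p ∣ s := fun h1 => by
    have := Nat.le_of_dvd (Nat.pos_of_ne_zero hs) h1
    omega
  have h1 : ch ((s : ℤ) ^ 2) p = 1 := by
    unfold ch
    rw [if_pos hodd, jacobiSym.sq_one']
    · norm_num
    · rw [Int.gcd_natCast_natCast]
      exact ((hp.coprime_iff_not_dvd.2 hps).symm)
  rw [e, ch_mul_left, h1, mul_one]

end Pool.Agent.SQ
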