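import Pool.Agent.Helper52.PrimeSums

/-! SQ/ParS.  The parameters `l = log k`, `l2 = log l`, `l3 = log l2` and the exponent `b` of the
smoothness bound `2 ^ b`, `b = ⌊l l3/(256 l2 log 2)⌋`. -/

set_option autoImplicit false

namespace Pool.Agent.SQ

open Finset

/-- the parameters -/
structure PS (k : ℕ) (l l2 l3 : ℝ) (b : ℕ) : Prop where
  hl : Real.log k = l
  hl2 : Real.log l = l2
  hl3 : Real.log l2 = l3
  h3 : 1000 ≤ l3
  kpos : 0 < k
  lpos : 0 < l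
  l2pos : 0 < l2
  b1 : 1 ≤ b
  bu : (b : ℝ) * Real.log 2 ≤ l * l3 / (256 * l2)
  bl : l * l3 / (512 * l2) ≤ (b : ℝ) * Real.log 2

private theorem pars_exp {x : ℝ} (hx : 1000 ≤ x) : x ^ 8 ≤ Real.exp x := by
  have h1 : Real.exp x = (Real.exp (x / 16)) ^ 16 := by
    rw [← Real.exp_nat_mul]
    congr 1
    push_cast
    ring
  have h2 : x / 16 ≤ Real.exp (x / 16) := by
    have := Real.add_one_le_exp (x / 16)
    linarith
  have h3 : (x / 16) ^ 16 ≤ (Real.exp (x / 16)) ^ 16 := by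
    apply pow_le_pow_left₀ _ h2
    positivity
  have h4 : (1000 : ℝ) ^ 8 ≤ x ^ 8 := pow_le_pow_left₀ (by norm_num) hx 8
  have h5 : x ^ 8 ≤ (x / 16) ^ 16 := by
    have h6 : (x / 16) ^ 16 = x ^ 8 * (x ^ 8 / 16 ^ 16) := by ring
    rw [h6]
    have h7 : (1 : ℝ) ≤ x ^ 8 / 16 ^ 16 := by
      rw [le_div_iff₀ (by positivity)]
      refine le_trans ?_ h4
      norm_num
    have h8 : (0 : ℝ) ≤ x ^ 8 := by positivity
    nlinarith
  rw [h1]
  exact h5.trans h3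

private theorem pars_self {x : ℝ} (hx : 1000 ≤ x) : x ≤ x ^ 8 := by
  have h1 : (1 : ℝ) ≤ x := by linarith
  calc x = x ^ 1 := (pow_one x).symm
    _ ≤ x ^ 8 := pow_le_pow_right₀ h1 (by norm_num)

/-- growth: `exp x ≥ x ^ 8` for `x ≥ 1000` -/
theorem PS.facts {k : ℕ} {l l2 l3 : ℝ} {b : ℕ} (h : PS k l l2 l3 b) :
    (k : ℝ) = Real.exp l ∧ l = Real.exp l2 ∧ l2 = Real.exp l3 ∧
    l3 ^ 8 ≤ l2 ∧ l2 ^ 8 ≤ l ∧ l ^ 8 ≤ k ∧ 1000 ≤ l2 ∧ 1000 ≤ l ∧
    l ^ 4 ≤ ((2 ^ b : ℕ) : ℝ) ∧ 2 ^ b ≤ k := by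
  have hk0 : (0 : ℝ) < k := by exact_mod_cast h.kpos
  have e1 : (k : ℝ) = Real.exp l := by rw [← h.hl, Real.exp_log hk0]
  have e2 : l = Real.exp l2 := by rw [← h.hl2, Real.exp_log h.lpos]
  have e3 : l2 = Real.exp l3 := by rw [← h.hl3, Real.exp_log h.l2pos]
  have f3 : l3 ^ 8 ≤ l2 := by rw [e3]; exact pars_exp h.h3
  have g2 : 1000 ≤ l2 := h.h3.trans ((pars_self h.h3).trans f3)
  have f2 : l2 ^ 8 ≤ l := by
    calc l2 ^ 8 ≤ Real.exp l2 := pars_exp g2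
      _ = l := e2.symm
  have g1 : 1000 ≤ l := g2.trans ((pars_self g2).trans f2)
  have f1 : l ^ 8 ≤ k := by rw [e1]; exact pars_exp g1
  have hl3l2 : l3 ≤ l2 := (pars_self h.h3).trans f3
  have h2b : ((2 ^ b : ℕ) : ℝ) = Real.exp ((b : ℝ) * Real.log 2) := by
    rw [Real.exp_nat_mul, Real.exp_log (by norm_num)]
    push_cast
    rfl
  have hl2pos := h.l2pos
  have hlpos := h.lpos
  have hl3pos : 0 < l3 := by linarith [h.h3]
  refine ⟨e1, e2, e3, f3, f2, f1, g2, g1, ?_, ?_⟩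
  · rw [h2b]
    have h4 : l ^ 4 = Real.exp (4 * l2) := by
      have h5 : Real.exp (4 * l2) = (Real.exp l2) ^ 4 := by
        rw [← Real.exp_nat_mul]
        push_cast
        rfl
      rw [h5, ← e2]
    rw [h4, Real.exp_le_exp]
    refine le_trans ?_ h.bl
    rw [le_div_iff₀ (by positivity)]
    have h6 : l2 ^ 2 * 1000 ^ 6 ≤ l2 ^ 8 := by
      have h7 : (1000 : ℝ) ^ 6 ≤ l2 ^ 6 := pow_le_pow_left₀ (by norm_num) g2 6
      have h8 : l2 ^ 8 = l2 ^ 2 * l2 ^ 6 := by ring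
      rw [h8]
      exact mul_le_mul_of_nonneg_left h7 (by positivity)
    have h9 : l ≤ l * l3 := by nlinarith [h.h3]
    nlinarith [sq_nonneg l2]
  · have h5 : ((2 ^ b : ℕ) : ℝ) ≤ (k : ℝ) := by
      rw [h2b, e1, Real.exp_le_exp]
      refine h.bu.trans ?_
      rw [div_le_iff₀ (by positivity)]
      nlinarith
    exact_mod_cast h5

theorem ps_eventually : ∃ k0 : ℕ, ∀ k : ℕ, k0 ≤ k → ∃ b : ℕ,
    PS k (Real.log k) (Real.log (Real.log k)) (Real.log (Real.log (Real.log k))) b := by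
  refine ⟨⌈Real.exp (Real.exp (Real.exp 1000))⌉₊, fun k hk => ?_⟩
  have h1 : Real.exp (Real.exp (Real.exp 1000)) ≤ k := (Nat.le_ceil _).trans (by exact_mod_cast hk)
  have hk0 : (0 : ℝ) < k := lt_of_lt_of_le (Real.exp_pos _) h1
  have h2 : Real.exp (Real.exp 1000) ≤ Real.log k := by
    rw [Real.le_log_iff_exp_le hk0]
    exact h1
  have hl0 : 0 < Real.log k := lt_of_lt_of_le (Real.exp_pos _) h2
  have h3 : Real.exp 1000 ≤ Real.log (Real.log k) := by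
    rw [Real.le_log_iff_exp_le hl0]
    exact h2
  have hl20 : 0 < Real.log (Real.log k) := lt_of_lt_of_le (Real.exp_pos _) h3
  have h4 : 1000 ≤ Real.log (Real.log (Real.log k)) := by
    rw [Real.le_log_iff_exp_le hl20]
    exact h3
  set l := Real.log k with hl
  set l2 := Real.log l with hl2
  set l3 := Real.log l2 with hl3
  have e2 : l = Real.exp l2 := by rw [hl2, Real.exp_log hl0]
  have e3 : l2 = Real.exp l3 := by rw [hl3, Real.exp_log hl20]
  have f3 : l3 ^ 8 ≤ l2 := by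
    calc l3 ^ 8 ≤ Real.exp l3 := pars_exp h4
      _ = l2 := e3.symm
  have g2 : 1000 ≤ l2 := h4.trans ((pars_self h4).trans f3)
  have f2 : l2 ^ 8 ≤ l := by
    calc l2 ^ 8 ≤ Real.exp l2 := pars_exp g2
      _ = l := e2.symm
  have hlog2 : 0 < Real.log 2 := Real.log_pos (by norm_num)
  have hlog2' : Real.log 2 < 1 := by
    have := Real.log_two_lt_d9
    linarith
  have hl3pos : 0 < l3 := by linarith
  set x : ℝ := l * l3 / (256 * l2 * Real.log 2) with hx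
  have hx0 : 0 ≤ x := by positivity
  have hx1 : 1 ≤ x := by
    rw [hx, le_div_iff₀ (by positivity), one_mul]
    have h6 : l2 * 1000 ^ 7 ≤ l2 ^ 8 := by
      have h7 : (1000 : ℝ) ^ 7 ≤ l2 ^ 7 := pow_le_pow_left₀ (by norm_num) g2 7
      have h8 : l2 ^ 8 = l2 * l2 ^ 7 := by ring
      rw [h8]
      exact mul_le_mul_of_nonneg_left h7 (by positivity)
    have h9 : l ≤ l * l3 := by nlinarith
    have h10 : 256 * l2 * Real.log 2 ≤ 256 * l2 := by nlinarith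
    nlinarith
  have hb1 : 1 ≤ ⌊x⌋₊ := by
    rw [Nat.one_le_floor_iff]
    exact hx1
  have hbu : (⌊x⌋₊ : ℝ) ≤ x := Nat.floor_le hx0
  have hbl : x < (⌊x⌋₊ : ℝ) + 1 := Nat.lt_floor_add_one x
  have hb1' : (1 : ℝ) ≤ (⌊x⌋₊ : ℝ) := by exact_mod_cast hb1
  have hxe : x * Real.log 2 = l * l3 / (256 * l2) := by
    rw [hx]
    field_simp
  have hkpos : 0 < k := by exact_mod_cast hk0
  refine ⟨⌊x⌋₊, ⟨rfl, rfl, rfl, h4, hkpos, hl0, hl20, hb1, ?_, ?_⟩⟩
  · rw [← hxe]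
    exact mul_le_mul_of_nonneg_right hbu hlog2.le
  · have h11 : l * l3 / (512 * l2) = (x / 2) * Real.log 2 := by
      have h12 : (x / 2) * Real.log 2 = (x * Real.log 2) / 2 := by ring
      rw [h12, hxe]
      field_simp
      norm_num
    rw [h11]
    apply mul_le_mul_of_nonneg_right _ hlog2.le
    linarith

end Pool.Agent.SQ
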