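import Pool.Agent.SQ.Euler
import Pool.Agent.SQ.Mert

/-! SQ/Rankin.  Rankin's trick: `EP χ z / 2 ≤ SS χ (z ^ C0)`.

`β = 1 / log z ≤ 1/2`.  By `euler_one` and `euler` with `s = 1 - β`: for `w = z ^ C0`,
`EP χ z - SS χ w ≤ ∑_{n smooth, n > w} rr χ n / n ≤ w^(-β) ∑_{n smooth} rr χ n / n^(1-β)
 = exp(-C0) ∏_{p ≤ z} (1 - p^(β-1))⁻¹ (1 - χ p p^(β-1))⁻¹`
(`w^(-β) = exp (-C0)`).  Ratio of the last product to `EP χ z`, for each `p ≤ z`, `u = p^(β-1)`:
`(1 - 1/p)/(1 - u) ≤ exp ((u - 1/p)/(1 - u))`, `1 - u ≥ 1 - 2^(-1/2) ≥ 0.29`,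
`u - 1/p = (p^β - 1)/p ≤ (e - 1) β log p / p` (convexity, `β log p ≤ 1`); the factor with `χ p = 1` is
the same, with `χ p = 0` it is `1`, with `χ p = -1` it is `(1 + 1/p)/(1 + u) ≤ 1`.  So the ratio is
`≤ exp (12 β ∑_{p ≤ z} log p/p) ≤ exp 24` by `mert_log`.  `C0 = 25`: `exp(-25 + 24) ≤ 1/2`. -/

set_option autoImplicit false

namespace Pool.Agent.SQ

open Finset
open Helper52 (pr)

/-- chord bound for the exponential function -/
private lemma exp_chord {x : ℝ} (h0 : 0 ≤ x) (h1 : x ≤ 1) : Real.exp x - 1 ≤ 1.72 * x := by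
  have hc := convexOn_exp.2 (Set.mem_univ (0 : ℝ)) (Set.mem_univ (1 : ℝ))
    (show (0 : ℝ) ≤ 1 - x by linarith) h0 (by ring)
  simp only [smul_eq_mul, mul_zero, mul_one, zero_add, Real.exp_zero] at hc
  have he := Real.exp_one_lt_d9
  nlinarith

/-- the key bound: `(1 - u)⁻¹ ≤ (1 - v)⁻¹ * exp (6 * y)`-/
private lemma fac_one {u v y : ℝ} (hv : 0 < v) (huv : v ≤ u) (hu : u ≤ 0.71)
    (hy : u - v ≤ 1.72 * y) : (1 - u)⁻¹ ≤ (1 - v)⁻¹ * Real.exp (6 * y) := by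
  have h1 : (0 : ℝ) < 1 - u := by linarith
  have h2 : (0 : ℝ) < 1 - v := by linarith
  have h3 : (1 - v) / (1 - u) ≤ Real.exp (6 * y) := by
    have h4 : (1 - v) / (1 - u) = (u - v) / (1 - u) + 1 := by field_simp; ring
    rw [h4]
    refine (Real.add_one_le_exp _).trans (Real.exp_le_exp.2 ?_)
    rw [div_le_iff₀ h1]
    have hy0 : 0 ≤ y := by linarith
    nlinarith
  rw [div_le_iff₀ h1] at h3
  rw [inv_le_iff_one_le_mul₀ h1]
  have h5 : (1 - v)⁻¹ * (1 - v) = 1 := inv_mul_cancel₀ h2.ne'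
  calc (1 : ℝ) = (1 - v)⁻¹ * (1 - v) := h5.symm
    _ ≤ (1 - v)⁻¹ * (Real.exp (6 * y) * (1 - u)) := mul_le_mul_of_nonneg_left h3 (inv_nonneg.2 h2.le)
    _ = _ := by ring

private lemma fac_chi {u v y c : ℝ} (hc : c = 0 ∨ c = 1 ∨ c = -1) (hv : 0 < v) (huv : v ≤ u)
    (hu : u ≤ 0.71) (hy : u - v ≤ 1.72 * y) :
    (1 - c * u)⁻¹ ≤ (1 - c * v)⁻¹ * Real.exp (6 * y) := by
  have hy0 : 0 ≤ y := by linarith
  have he : 1 ≤ Real.exp (6 * y) := Real.one_le_exp (by linarith)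
  rcases hc with rfl | rfl | rfl
  · simpa using he
  · simpa using fac_one hv huv hu hy
  · have h1 : (1 - (-1) * u)⁻¹ ≤ (1 - (-1) * v)⁻¹ := by
      apply inv_anti₀ <;> linarith
    refine h1.trans ?_
    have h2 : 0 ≤ (1 - (-1) * v)⁻¹ := inv_nonneg.2 (by linarith)
    nlinarith

private lemma two_half : (2 : ℝ) ^ (-(1 / 2) : ℝ) ≤ 0.71 := by
  have h : ((2 : ℝ) ^ (-(1 / 2) : ℝ)) ^ 2 = 1 / 2 := by
    rw [← Real.rpow_natCast, ← Real.rpow_mul (by norm_num)]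
    norm_num
  have h0 : 0 ≤ (2 : ℝ) ^ (-(1 / 2) : ℝ) := by positivity
  nlinarith

/-- the local factor -/
private lemma loc {z p : ℕ} (hz : 8 ≤ z) (hp : 2 ≤ p) (hpz : p ≤ z) {c : ℝ}
    (hc : c = 0 ∨ c = 1 ∨ c = -1) :
    (1 - (p : ℝ) ^ (-(1 - 1 / Real.log z)))⁻¹ * (1 - c * (p : ℝ) ^ (-(1 - 1 / Real.log z)))⁻¹ ≤
      ((1 - 1 / (p : ℝ))⁻¹ * (1 - c / (p : ℝ))⁻¹) *
        Real.exp (12 / Real.log z * (Real.log p / p)) ∧
    0 ≤ (1 - (p : ℝ) ^ (-(1 - 1 / Real.log z)))⁻¹ *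
      (1 - c * (p : ℝ) ^ (-(1 - 1 / Real.log z)))⁻¹ := by
  have hzR : (8 : ℝ) ≤ z := by exact_mod_cast hz
  have hpR : (2 : ℝ) ≤ p := by exact_mod_cast hp
  have hpzR : (p : ℝ) ≤ z := by exact_mod_cast hpz
  have hlz : 2 ≤ Real.log z := by
    rw [Real.le_log_iff_exp_le (by linarith)]
    have he := Real.exp_one_lt_d9
    have h2 : Real.exp 2 = Real.exp 1 * Real.exp 1 := by rw [← Real.exp_add]; norm_num
    have he0 := Real.exp_pos 1
    nlinarith
  have hlp : 0 < Real.log p := Real.log_pos (by linarith)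
  have hlpz : Real.log p ≤ Real.log z := Real.log_le_log (by linarith) hpzR
  set β : ℝ := 1 / Real.log z with hβ
  have hβ0 : 0 < β := by rw [hβ]; positivity
  have hβ2 : β ≤ 1 / 2 := by
    rw [hβ]; exact one_div_le_one_div_of_le (by norm_num) hlz
  have hx1 : β * Real.log p ≤ 1 := by
    rw [hβ, one_div, inv_mul_le_iff₀ (by linarith)]; linarith
  have hx0 : 0 ≤ β * Real.log p := by positivity
  have hp0 : (0 : ℝ) < p := by linarith
  set u : ℝ := (p : ℝ) ^ (-(1 - β)) with hu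
  have hue : u = 1 / (p : ℝ) * Real.exp (β * Real.log p) := by
    rw [hu, show (-(1 - β)) = -1 + β by ring, Real.rpow_add hp0, Real.rpow_neg_one, one_div]
    congr 1
    rw [Real.rpow_def_of_pos hp0, mul_comm]
  have hv : 0 < 1 / (p : ℝ) := by positivity
  have huv : 1 / (p : ℝ) ≤ u := by
    rw [hue]
    have := Real.one_le_exp hx0
    nlinarith
  have hu7 : u ≤ 0.71 := by
    refine le_trans ?_ two_half
    calc u ≤ (p : ℝ) ^ (-(1 / 2) : ℝ) := by
          rw [hu]; exact Real.rpow_le_rpow_of_exponent_le (by linarith) (by linarith)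
      _ ≤ (2 : ℝ) ^ (-(1 / 2) : ℝ) :=
          Real.rpow_le_rpow_of_nonpos (by norm_num) hpR (by norm_num)
  have hy : u - 1 / (p : ℝ) ≤ 1.72 * (1 / (p : ℝ) * (β * Real.log p)) := by
    rw [hue]
    have := exp_chord hx0 hx1
    nlinarith
  have h1 := fac_one hv huv hu7 hy
  have h2 := fac_chi hc hv huv hu7 hy
  have hn1 : 0 ≤ (1 - u)⁻¹ := inv_nonneg.2 (by linarith)
  have hn2 : 0 ≤ (1 - c * u)⁻¹ := by
    apply inv_nonneg.2
    rcases hc with rfl | rfl | rfl <;> linarith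
  have hn3 : 0 ≤ (1 - 1 / (p : ℝ))⁻¹ := inv_nonneg.2 (by linarith)
  refine ⟨?_, mul_nonneg hn1 hn2⟩
  calc (1 - u)⁻¹ * (1 - c * u)⁻¹
      ≤ ((1 - 1 / (p : ℝ))⁻¹ * Real.exp (6 * (1 / (p : ℝ) * (β * Real.log p)))) *
        ((1 - c * (1 / (p : ℝ)))⁻¹ * Real.exp (6 * (1 / (p : ℝ) * (β * Real.log p)))) :=
        mul_le_mul h1 h2 hn2 (mul_nonneg hn3 (Real.exp_pos _).le)
    _ = ((1 - 1 / (p : ℝ))⁻¹ * (1 - c / (p : ℝ))⁻¹) *
        (Real.exp (6 * (1 / (p : ℝ) * (β * Real.log p))) *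
          Real.exp (6 * (1 / (p : ℝ) * (β * Real.log p)))) := by
        rw [mul_one_div]; ring
    _ = _ := by
        rw [← Real.exp_add]
        congr 2
        rw [hβ]; ring

theorem rankin : ∃ C0 z0 : ℕ, 1 ≤ C0 ∧ ∀ z : ℕ, z0 ≤ z → ∀ (χ : ℕ → ℝ) (Q : ℝ), RC χ Q →
    EP χ z / 2 ≤ SS χ (z ^ C0) := by
  obtain ⟨z1, hz1⟩ := mert_log
  refine ⟨25, max z1 8, by norm_num, ?_⟩
  intro z hz χ Q h
  have hz8 : 8 ≤ z := le_trans (le_max_right _ _) hz
  have hzz1 : z1 ≤ z := le_trans (le_max_left _ _) hz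
  have hm := hz1 z hzz1
  have hzR : (8 : ℝ) ≤ z := by exact_mod_cast hz8
  have hlz : 2 ≤ Real.log z := by
    rw [Real.le_log_iff_exp_le (by linarith)]
    have he := Real.exp_one_lt_d9
    have h2 : Real.exp 2 = Real.exp 1 * Real.exp 1 := by rw [← Real.exp_add]; norm_num
    have he0 := Real.exp_pos 1
    nlinarith
  set β : ℝ := 1 / Real.log z with hβ
  have hβ0 : 0 < β := by rw [hβ]; positivity
  have hβ2 : β ≤ 1 / 2 := by
    rw [hβ]; exact one_div_le_one_div_of_le (by norm_num) hlz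
  have hE := euler h (s := 1 - β) (by linarith) z
  have hE1 := euler_one h z
  set E : ℝ := ∏ p ∈ pr 0 z, ((1 - (p : ℝ) ^ (-(1 - β)))⁻¹ *
    (1 - χ p * (p : ℝ) ^ (-(1 - β)))⁻¹) with hEdef
  have hEP1 := one_le_EP h z
  -- the product comparison
  have hprod : E ≤ EP χ z * Real.exp 24 := by
    have h1 : E ≤ ∏ p ∈ pr 0 z, (((1 - 1 / (p : ℝ))⁻¹ * (1 - χ p / (p : ℝ))⁻¹) *
        Real.exp (12 / Real.log z * (Real.log p / p))) := by
      rw [hEdef]
      apply Finset.prod_le_prod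
      · intro p hp
        have hp' := Helper52.mem_pr.1 hp
        exact (loc hz8 hp'.2.2.two_le hp'.2.1 (h.val p)).2
      · intro p hp
        have hp' := Helper52.mem_pr.1 hp
        exact (loc hz8 hp'.2.2.two_le hp'.2.1 (h.val p)).1
    rw [Finset.prod_mul_distrib, ← Real.exp_sum, ← Finset.mul_sum] at h1
    refine h1.trans ?_
    have h2 : (∏ p ∈ pr 0 z, ((1 - 1 / (p : ℝ))⁻¹ * (1 - χ p / (p : ℝ))⁻¹)) = EP χ z := rfl
    rw [h2]
    apply mul_le_mul_of_nonneg_left _ (by linarith)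
    apply Real.exp_le_exp.2
    calc 12 / Real.log z * ∑ i ∈ pr 0 z, Real.log (i : ℝ) / i
        ≤ 12 / Real.log z * (2 * Real.log z) := by
          apply mul_le_mul_of_nonneg_left hm (by positivity)
      _ = 24 := by field_simp; norm_num
  have hw : ((z ^ 25 : ℕ) : ℝ) ^ (-β) = Real.exp (-25) := by
    push_cast
    rw [Real.rpow_def_of_pos (by positivity), Real.log_pow]
    congr 1
    rw [hβ]; field_simp; norm_num
  have hEP : EP χ z ≤ SS χ (z ^ 25) + Real.exp (-25) * E := by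
    refine hasSum_le_of_sum_le hE1 ?_
    intro s
    have hpt : ∀ n ∈ s, rr χ (n : ℕ) / ((n : ℕ) : ℝ) ≤
        (if (n : ℕ) ≤ z ^ 25 then rr χ (n : ℕ) / ((n : ℕ) : ℝ) else 0) +
          Real.exp (-25) * (rr χ (n : ℕ) * ((n : ℕ) : ℝ) ^ (-(1 - β))) := by
      intro n _
      have hr := rr_nonneg h (n : ℕ)
      split_ifs with hn
      · have : 0 ≤ Real.exp (-25) * (rr χ (n : ℕ) * ((n : ℕ) : ℝ) ^ (-(1 - β))) := by positivity
        linarith
      · push Not at hn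
        have hw0 : (0 : ℝ) < ((z ^ 25 : ℕ) : ℝ) := by
          have : 0 < z ^ 25 := by positivity
          exact_mod_cast this
        have hn' : ((z ^ 25 : ℕ) : ℝ) ≤ ((n : ℕ) : ℝ) := by exact_mod_cast hn.le
        have hn0 : (0 : ℝ) < ((n : ℕ) : ℝ) := lt_of_lt_of_le hw0 hn'
        have h3 : ((n : ℕ) : ℝ) ^ (-β) ≤ Real.exp (-25) := by
          rw [← hw]
          exact Real.rpow_le_rpow_of_nonpos hw0 hn' (by linarith)
        have h4 : rr χ (n : ℕ) / ((n : ℕ) : ℝ) =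
            ((n : ℕ) : ℝ) ^ (-β) * (rr χ (n : ℕ) * ((n : ℕ) : ℝ) ^ (-(1 - β))) := by
          have h5 : ((n : ℕ) : ℝ) ^ (-β) * ((n : ℕ) : ℝ) ^ (-(1 - β)) = ((n : ℕ) : ℝ)⁻¹ := by
            rw [← Real.rpow_add hn0, show -β + -(1 - β) = -1 by ring, Real.rpow_neg_one]
          rw [div_eq_mul_inv, ← h5]; ring
        rw [h4, zero_add]
        exact mul_le_mul_of_nonneg_right h3 (by positivity)
    refine (Finset.sum_le_sum hpt).trans ?_
    rw [Finset.sum_add_distrib, ← Finset.mul_sum]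
    have hA : ∑ n ∈ s, (if (n : ℕ) ≤ z ^ 25 then rr χ (n : ℕ) / ((n : ℕ) : ℝ) else 0) ≤
        SS χ (z ^ 25) := by
      rw [← Finset.sum_filter]
      have hinj : Set.InjOn (fun n : Nat.smoothNumbers (z + 1) => (n : ℕ))
          ((s.filter (fun n : Nat.smoothNumbers (z + 1) => (n : ℕ) ≤ z ^ 25) :
            Finset (Nat.smoothNumbers (z + 1))) : Set (Nat.smoothNumbers (z + 1))) :=
        fun a _ b _ hab => Subtype.ext hab
      have e1 : ∑ n ∈ s.filter (fun n : Nat.smoothNumbers (z + 1) => (n : ℕ) ≤ z ^ 25),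
            rr χ (n : ℕ) / ((n : ℕ) : ℝ) =
          ∑ m ∈ (s.filter (fun n : Nat.smoothNumbers (z + 1) => (n : ℕ) ≤ z ^ 25)).image
            (fun n : Nat.smoothNumbers (z + 1) => (n : ℕ)), rr χ m / (m : ℝ) := by
        rw [Finset.sum_image hinj]
      rw [e1, SS]
      apply Finset.sum_le_sum_of_subset_of_nonneg
      · intro m hm'
        rw [Finset.mem_image] at hm'
        obtain ⟨n, hn, rfl⟩ := hm'
        rw [Finset.mem_filter] at hn
        rw [Finset.mem_Icc]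
        refine ⟨?_, hn.2⟩
        have := Nat.ne_zero_of_mem_smoothNumbers n.2
        omega
      · intro m _ _
        exact div_nonneg (rr_nonneg h m) (Nat.cast_nonneg m)
    have hB : ∑ n ∈ s, rr χ (n : ℕ) * ((n : ℕ) : ℝ) ^ (-(1 - β)) ≤ E := by
      apply sum_le_hasSum s _ hE
      intro n _
      have hr := rr_nonneg h (n : ℕ)
      positivity
    have := mul_le_mul_of_nonneg_left hB (Real.exp_pos (-25)).le
    linarith
  have h1 : Real.exp (-25) * E ≤ Real.exp (-1) * EP χ z := by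
    calc Real.exp (-25) * E ≤ Real.exp (-25) * (EP χ z * Real.exp 24) :=
          mul_le_mul_of_nonneg_left hprod (Real.exp_pos _).le
      _ = (Real.exp (-25) * Real.exp 24) * EP χ z := by ring
      _ = _ := by rw [← Real.exp_add]; norm_num
  have h2 : Real.exp (-1) ≤ 1 / 2 := by
    rw [Real.exp_neg, one_div]
    apply inv_anti₀ (by norm_num)
    have := Real.add_one_le_exp (1 : ℝ)
    linarith
  have h3 : Real.exp (-1) * EP χ z ≤ 1 / 2 * EP χ z :=
    mul_le_mul_of_nonneg_right h2 (by linarith)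
  linarith

end Pool.Agent.SQ
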