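import Pool.Agent.SQ.Defs

/-! SQ/Rr.  The function `rr χ = 1 * χ` is multiplicative and nonnegative.

`rr χ` is the value of the arithmetic function `zeta * f`, `f` the arithmetic function with values
`χ n`. At prime powers it is the geometric sum `∑_{i ≤ k} (χ p)^i`, which is `1`, `k + 1` or
(`χ p = -1`) `0` or `1`. -/

set_option autoImplicit false

namespace Pool.Agent.SQ

open Finset
open Helper52 (pr)

variable {χ : ℕ → ℝ} {Q : ℝ}

theorem RC.map_pow (h : RC χ Q) (n k : ℕ) : χ (n ^ k) = χ n ^ k := by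
  induction k with
  | zero => rw [pow_zero, pow_zero, h.one]
  | succ k ih => rw [pow_succ, h.mul, ih, pow_succ]

theorem RC.map_prod (h : RC χ Q) (S : Finset ℕ) : χ (∏ p ∈ S, p) = ∏ p ∈ S, χ p := by
  classical
  induction S using Finset.induction_on with
  | empty => rw [prod_empty, prod_empty, h.one]
  | insert a S ha ih => rw [prod_insert ha, prod_insert ha, h.mul, ih]

theorem rr_one (h : RC χ Q) : rr χ 1 = 1 := by
  rw [rr, Nat.divisors_one, sum_singleton, h.one]

theorem rr_mul (h : RC χ Q) {m n : ℕ} (hc : Nat.Coprime m n) : rr χ (m * n) = rr χ m * rr χ n := by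
  obtain ⟨f, hf⟩ : ∃ f : ArithmeticFunction ℝ, ∀ n, f n = χ n := ⟨⟨χ, h.zero⟩, fun _ => rfl⟩
  have h1 : ∀ k : ℕ, rr χ k = ((ArithmeticFunction.zeta : ArithmeticFunction ℝ) * f) k := by
    intro k
    rw [ArithmeticFunction.coe_zeta_mul_apply]
    exact sum_congr rfl fun i _ => (hf i).symm
  have h2 : f.IsMultiplicative :=
    ⟨by rw [hf, h.one], fun {a b} _ => by rw [hf, hf, hf, h.mul]⟩
  have h3 := ArithmeticFunction.isMultiplicative_zeta.natCast (R := ℝ) |>.mul h2
  rw [h1, h1, h1, h3.map_mul_of_coprime hc]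

theorem rr_pow (h : RC χ Q) {p : ℕ} (hp : p.Prime) (k : ℕ) :
    rr χ (p ^ k) = ∑ i ∈ range (k + 1), χ p ^ i := by
  rw [rr, Nat.sum_divisors_prime_pow hp]
  exact sum_congr rfl fun i _ => h.map_pow p i

theorem rr_prime (h : RC χ Q) {p : ℕ} (hp : p.Prime) : rr χ p = 1 + χ p := by
  have h1 := rr_pow h hp 1
  rw [pow_one] at h1
  rw [h1, sum_range_succ, sum_range_one, pow_zero, pow_one]

theorem rr_nonneg (h : RC χ Q) (n : ℕ) : 0 ≤ rr χ n := by
  induction n using Nat.recOnPosPrimePosCoprime with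
  | prime_pow p n hp _ =>
    rw [rr_pow h hp]
    rcases h.val p with h1 | h1 | h1
    · rw [h1]
      exact sum_nonneg fun i _ => pow_nonneg le_rfl i
    · rw [h1]
      exact sum_nonneg fun i _ => pow_nonneg zero_le_one i
    · rw [h1, neg_one_geom_sum]
      split_ifs <;> norm_num
  | zero => rw [rr, Nat.divisors_zero, sum_empty]
  | one => rw [rr_one h]; exact zero_le_one
  | coprime a b _ _ hab ha hb => rw [rr_mul h hab]; exact mul_nonneg ha hb

/-- `rr χ n ≤ number of divisors` -/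
theorem rr_le (h : RC χ Q) (n : ℕ) : rr χ n ≤ (n.divisors.card : ℝ) := by
  have h1 : rr χ n ≤ ∑ _d ∈ n.divisors, (1 : ℝ) :=
    sum_le_sum fun d _ => (le_abs_self _).trans (h.abs_le d)
  rwa [sum_const, nsmul_eq_mul, mul_one] at h1

theorem SS_mono (h : RC χ Q) {s t : ℕ} (hst : s ≤ t) : SS χ s ≤ SS χ t := by
  refine sum_le_sum_of_subset_of_nonneg (Icc_subset_Icc le_rfl hst) ?_
  intro n _ _
  exact div_nonneg (rr_nonneg h n) (Nat.cast_nonneg n)

theorem one_le_SS (h : RC χ Q) {t : ℕ} (ht : 1 ≤ t) : 1 ≤ SS χ t := by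
  have h1 : SS χ 1 = 1 := by
    rw [SS, Icc_self, sum_singleton, rr_one h]
    norm_num
  rw [← h1]
  exact SS_mono h ht

end Pool.Agent.SQ
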