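import Pool.Agent.SQ.Euler

/-! SQ/Split.  Every `n ≤ t` is uniquely `n = s m` with `s` composed of primes `≤ z`, `m` of primes
`> z`, coprime, `s, m ≤ t`; `rr χ n = rr χ s rr χ m`.  So `SS χ t ≤ (∑_{s ≤ t smooth}) (RZ χ z t)`
(the map `n ↦ (s, m)` is injective, all terms `≥ 0`), and the first factor is `≤ EP χ z`
(`smooth_le`).  (`s = n.factorization.prod` restricted, e.g.
`∏ p ∈ n.primeFactors.filter (· ≤ z), p ^ n.factorization p`; or `Nat.smoothNumbers` API.) -/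

set_option autoImplicit false

namespace Pool.Agent.SQ

open Finset
open Helper52 (pr)

variable {χ : ℕ → ℝ} {Q : ℝ}

private lemma exists_split (z n : ℕ) : n ≠ 0 → ∃ s m : ℕ, s * m = n ∧
    (∀ q, q.Prime → q ∣ s → q ≤ z) ∧ (∀ q, q.Prime → q ∣ m → z < q) := by
  induction n using induction_on_primes with
  | zero => intro h; exact absurd rfl h
  | one =>
    intro _
    refine ⟨1, 1, rfl, ?_, ?_⟩
    · intro q hq h
      exact absurd h (Nat.Prime.not_dvd_one hq)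
    · intro q hq h
      exact absurd h (Nat.Prime.not_dvd_one hq)
  | prime_mul p a hp ih =>
    intro h0
    obtain ⟨s, m, h1, h2, h3⟩ := ih (right_ne_zero_of_mul h0)
    by_cases hpz : p ≤ z
    · refine ⟨p * s, m, by rw [mul_assoc, h1], ?_, h3⟩
      intro q hq hd
      rcases hq.dvd_mul.1 hd with h | h
      · rw [(Nat.prime_dvd_prime_iff_eq hq hp).1 h]
        exact hpz
      · exact h2 q hq h
    · refine ⟨s, p * m, by rw [mul_left_comm, h1], h2, ?_⟩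
      intro q hq hd
      rcases hq.dvd_mul.1 hd with h | h
      · rw [(Nat.prime_dvd_prime_iff_eq hq hp).1 h]
        exact not_le.1 hpz
      · exact h3 q hq h

theorem split (h : RC χ Q) (z t : ℕ) : SS χ t ≤ EP χ z * RZ χ z t := by
  classical
  have hex : ∀ n : ℕ, ∃ a : ℕ × ℕ, n ≠ 0 → a.1 * a.2 = n ∧
      (∀ q, q.Prime → q ∣ a.1 → q ≤ z) ∧ (∀ q, q.Prime → q ∣ a.2 → z < q) := by
    intro n
    by_cases hn : n = 0
    · exact ⟨(0, 0), fun h => absurd hn h⟩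
    · obtain ⟨s, m, h1⟩ := exists_split z n hn
      exact ⟨(s, m), fun _ => h1⟩
  choose g hg using hex
  set A := (Icc 1 t).filter (fun n : ℕ => ∀ q ∈ n.primeFactors, q ≤ z) with hA
  set B := (Icc 1 t).filter (fun n : ℕ => ∀ q ∈ n.primeFactors, z < q) with hB
  have hnn : ∀ n : ℕ, 0 ≤ rr χ n / n := fun n => div_nonneg (rr_nonneg h n) (Nat.cast_nonneg n)
  have h1 : SS χ t = ∑ n ∈ Icc 1 t, (rr χ (g n).1 / ((g n).1 : ℕ)) * (rr χ (g n).2 / ((g n).2 : ℕ)) := by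
    unfold SS
    apply Finset.sum_congr rfl
    intro n hn
    have hn0 : n ≠ 0 := by have := (Finset.mem_Icc.1 hn).1; omega
    obtain ⟨g1, g2, g3⟩ := hg n hn0
    have hc : Nat.Coprime (g n).1 (g n).2 := by
      apply Nat.coprime_of_dvd
      intro q hq h4 h5
      exact absurd (g2 q hq h4) (not_le.2 (g3 q hq h5))
    have h6 := rr_mul h hc
    rw [g1] at h6
    rw [h6, div_mul_div_comm]
    congr 1
    rw [← Nat.cast_mul, g1]
  have hinj : Set.InjOn g (Icc 1 t : Finset ℕ) := by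
    intro a ha b hb hab
    have ha0 : a ≠ 0 := by have := (Finset.mem_Icc.1 (Finset.mem_coe.1 ha)).1; omega
    have hb0 : b ≠ 0 := by have := (Finset.mem_Icc.1 (Finset.mem_coe.1 hb)).1; omega
    rw [← (hg a ha0).1, ← (hg b hb0).1, hab]
  have h2 : ∑ n ∈ Icc 1 t, (rr χ (g n).1 / ((g n).1 : ℕ)) * (rr χ (g n).2 / ((g n).2 : ℕ))
      = ∑ a ∈ (Icc 1 t).image g, (rr χ a.1 / (a.1 : ℕ)) * (rr χ a.2 / (a.2 : ℕ)) := by
    rw [Finset.sum_image hinj]
  have h3 : (Icc 1 t).image g ⊆ A ×ˢ B := by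
    intro a ha
    obtain ⟨n, hn, rfl⟩ := Finset.mem_image.1 ha
    have hn1 := Finset.mem_Icc.1 hn
    have hn0 : n ≠ 0 := by omega
    obtain ⟨g1, g2, g3⟩ := hg n hn0
    have h10 : (g n).1 ≠ 0 := by
      intro h; rw [h, zero_mul] at g1; exact hn0 g1.symm
    have h20 : (g n).2 ≠ 0 := by
      intro h; rw [h, mul_zero] at g1; exact hn0 g1.symm
    have hd1 : (g n).1 ≤ n := Nat.le_of_dvd (by omega) (Dvd.intro _ g1)
    have hd2 : (g n).2 ≤ n := Nat.le_of_dvd (by omega) (Dvd.intro_left _ g1)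
    rw [Finset.mem_product, hA, hB, Finset.mem_filter, Finset.mem_filter, Finset.mem_Icc,
      Finset.mem_Icc]
    refine ⟨⟨⟨by omega, by omega⟩, ?_⟩, ⟨⟨by omega, by omega⟩, ?_⟩⟩
    · intro q hq
      exact g2 q (Nat.prime_of_mem_primeFactors hq) (Nat.dvd_of_mem_primeFactors hq)
    · intro q hq
      exact g3 q (Nat.prime_of_mem_primeFactors hq) (Nat.dvd_of_mem_primeFactors hq)
  have h4 : ∑ a ∈ (Icc 1 t).image g, (rr χ a.1 / (a.1 : ℕ)) * (rr χ a.2 / (a.2 : ℕ))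
      ≤ ∑ a ∈ A ×ˢ B, (rr χ a.1 / (a.1 : ℕ)) * (rr χ a.2 / (a.2 : ℕ)) :=
    Finset.sum_le_sum_of_subset_of_nonneg h3 (fun a _ _ => mul_nonneg (hnn a.1) (hnn a.2))
  have h5 : ∑ a ∈ A ×ˢ B, (rr χ a.1 / (a.1 : ℕ)) * (rr χ a.2 / (a.2 : ℕ))
      = (∑ a ∈ A, rr χ a / (a : ℕ)) * (∑ b ∈ B, rr χ b / (b : ℕ)) := by
    rw [Finset.sum_product, Finset.sum_mul_sum]
  have h6 : ∑ a ∈ A, rr χ a / (a : ℕ) ≤ EP χ z := by
    apply smooth_le h
    intro n hn
    rw [hA, Finset.mem_filter, Finset.mem_Icc] at hn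
    exact ⟨by omega, hn.2⟩
  calc SS χ t = _ := h1
    _ = _ := h2
    _ ≤ _ := h4
    _ = _ := h5
    _ ≤ EP χ z * RZ χ z t := by
      apply mul_le_mul_of_nonneg_right h6
      exact Finset.sum_nonneg (fun b _ => hnn b)

end Pool.Agent.SQ
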