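import Pool.Agent.SQ.Cover
import Pool.Agent.SQ.CoreS
import Pool.Agent.SQ.Exc

/-! SQ/StepS.  Assembly: an integer `N` far from all `√p` in every interval of length `2^(12 k)`.

`C0, c2` from `exc`, `c` from `coreS`, `C` from `cover`; `c1 = min 1 (c/C)`.
`H = ⌊c1 k l^2 l3/l2^2⌋`; for `k` large `k ≤ H ≤ k l^2 ≤ k^2` and `C (H l2^2/(l^2 l3)) ≤ c k`.
`z = k^40 ≥ (4 H^2)^8` (`4 H^2 ≤ 4 k^4 ≤ k^5`).  `q` from `exc`, `M, n0` from `cover`; the primes
`p > z ≥ H, k` are coprime to `M`.  `B` = the survivors of `cover` that are not squares; a survivor has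
`q ∤ a` (`q ∣ n0`, `q ∣ M`), so it is `Good`.  `n1' = M * (n1/M + 1) + n0 % M` (so `n1 ≤ n1'`,
`n1' ≤ n1 + 2 M`), `t < T = 2^(8k)` from `coreS` for the class `n1'`, `N = n1' + M t`:
`N ≤ n1 + M (2^(8k) + 2) ≤ n1 + 2^(12k)` (`M ≤ 4^k H ≤ 2^(3k)`).
Let `p` be a prime with `|p - N^2| ≤ H`, `a = N^2 - p`, `|a| ≤ H`.
* `a = 0`: `p = N^2` is not a prime; `a = s^2 > 0`: `p = (N - s)(N + s)`, `s ≤ H < N - 1`;
* `a` not a square, not a survivor: some prime `p' ∣ M` (so `p' ≤ max k H`) divides `n0^2 - a`,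
  hence `N^2 - a = p`, so `p = p'`, but `p ≥ N^2 - H > max k H`;
* `a` a nonsquare survivor: a prime `q' ≤ 2^k` divides `N^2 - a = p`, but `p > 2^k` as
  `N ≥ n1 ≥ 2^k`. -/

set_option autoImplicit false

namespace Pool.Agent.SQ

open Finset

private theorem cube_le {k : ℕ} (hk : 1000 ≤ k) : k ^ 3 ≤ 2 ^ k := by
  set m := k / 4 with hm
  have h1 : k ≤ 4 * m + 3 := by omega
  have h2 : 250 ≤ m := by omega
  have h3 : k ≤ 5 * m := by omega
  have h4 : m ≤ 2 ^ m := Nat.lt_two_pow_self.le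
  calc k ^ 3 ≤ (5 * m) ^ 3 := Nat.pow_le_pow_left h3 3
    _ = 125 * m ^ 3 := by ring
    _ ≤ m * m ^ 3 := Nat.mul_le_mul_right _ (by omega)
    _ = m ^ 4 := by ring
    _ ≤ (2 ^ m) ^ 4 := Nat.pow_le_pow_left h4 4
    _ = 2 ^ (m * 4) := by rw [← pow_mul]
    _ ≤ 2 ^ k := Nat.pow_le_pow_right (by norm_num) (by omega)

theorem stepS : ∃ c : ℝ, 0 < c ∧ ∃ K : ℕ, ∀ k : ℕ, K ≤ k → ∀ n1 : ℕ, 2 ^ k ≤ n1 →
    1000 ≤ k ∧ 5 ≤ Real.log k ∧ 1 ≤ Real.log (Real.log k) ∧ 1 ≤ Real.log (Real.log (Real.log k)) ∧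
    ∃ N H : ℕ, n1 ≤ N ∧ N ≤ n1 + 2 ^ (12 * k) ∧
      (∀ p : ℕ, p.Prime → (H : ℤ) < |(p : ℤ) - (N : ℤ) ^ 2|) ∧
      c * (k * Real.log k ^ 2 * Real.log (Real.log (Real.log k)) / Real.log (Real.log k) ^ 2) ≤
        H := by
  classical
  obtain ⟨C0, c2, z0, hC0, hc2, hexc⟩ := exc
  obtain ⟨c, hc, k1, hcore⟩ := coreS C0 c2 hC0 hc2
  obtain ⟨C, hC, k2, hcov⟩ := cover
  obtain ⟨k3, hps⟩ := ps_eventually
  set c1 : ℝ := min 1 (c / C) with hc1
  have hc1pos : 0 < c1 := lt_min one_pos (by positivity)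
  have hc1a : c1 ≤ 1 := min_le_left _ _
  have hc1b : C * c1 ≤ c := by
    have h := min_le_right 1 (c / C)
    rw [← hc1, le_div_iff₀ hC] at h
    linarith
  obtain ⟨k4, hk4⟩ : ∃ k4 : ℕ, ∀ k : ℕ, k4 ≤ k → 2 / c1 ≤ Real.log k := by
    have h := (Real.tendsto_log_atTop.comp
      (tendsto_natCast_atTop_atTop (R := ℝ))).eventually_ge_atTop (2 / c1)
    exact Filter.eventually_atTop.1 h
  refine ⟨c1 / 2, by positivity, max (max k1 k2) (max (max k3 k4) (max z0 1000)), ?_⟩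
  intro k hk n1 hn1
  simp only [max_le_iff] at hk
  obtain ⟨⟨hk1, hk2⟩, ⟨hk3, hk4'⟩, hkz, hk1000⟩ := hk
  obtain ⟨b, hPS⟩ := hps k hk3
  have hlc := hk4 k hk4'
  set l := Real.log k with hl
  set l2 := Real.log l with hl2
  set l3 := Real.log l2 with hl3
  obtain ⟨e1, e2, e3, g1, g2, g3, g4, g5, g6, g7⟩ := hPS.facts
  have h3 := hPS.h3
  have p1 := hPS.lpos
  have p2 := hPS.l2pos
  have hkr : (1000 : ℝ) ≤ k := by exact_mod_cast hk1000
  have hk0 : (0 : ℝ) < k := by linarith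
  refine ⟨hk1000, by linarith, by linarith, by linarith, ?_⟩
  -- sizes
  have hl2sq : l2 ^ 2 ≤ l := by
    refine le_trans ?_ g2
    exact pow_le_pow_right₀ (by linarith) (by norm_num)
  have hlsq : l ^ 2 ≤ k := by
    refine le_trans ?_ g3
    exact pow_le_pow_right₀ (by linarith) (by norm_num)
  have hl3l2 : l3 ≤ l2 ^ 2 := by
    have ha : l3 ^ 1 ≤ l3 ^ 8 := pow_le_pow_right₀ (by linarith) (by norm_num)
    have hb : l2 ^ 1 ≤ l2 ^ 2 := pow_le_pow_right₀ (by linarith) (by norm_num)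
    simp only [pow_one] at ha hb
    linarith
  have hl2sq0 : 0 < l2 ^ 2 := by positivity
  set X : ℝ := k * l ^ 2 * l3 / l2 ^ 2 with hX
  have hXlow : k * (l * 1000) ≤ X := by
    rw [hX, le_div_iff₀ hl2sq0]
    have ha : l * 1000 * l2 ^ 2 ≤ l * l3 * l := by
      have : l * 1000 ≤ l * l3 := mul_le_mul_of_nonneg_left h3 p1.le
      exact mul_le_mul this hl2sq hl2sq0.le (by positivity)
    calc (k : ℝ) * (l * 1000) * l2 ^ 2 = k * (l * 1000 * l2 ^ 2) := by ring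
      _ ≤ k * (l * l3 * l) := mul_le_mul_of_nonneg_left ha hk0.le
      _ = k * l ^ 2 * l3 := by ring
  have hXup : X ≤ k * l ^ 2 := by
    rw [hX, div_le_iff₀ hl2sq0]
    exact mul_le_mul_of_nonneg_left hl3l2 (by positivity)
  have hX0 : 0 < X := lt_of_lt_of_le (by positivity) hXlow
  set H : ℕ := ⌊c1 * X⌋₊ with hH
  have hcl : 2 ≤ c1 * l := by
    rw [div_le_iff₀ hc1pos] at hlc
    linarith
  have hc1X : 2000 * (k : ℝ) ≤ c1 * X := by
    calc 2000 * (k : ℝ) = k * 1000 * 2 := by ring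
      _ ≤ k * 1000 * (c1 * l) := mul_le_mul_of_nonneg_left hcl (by positivity)
      _ = c1 * (k * (l * 1000)) := by ring
      _ ≤ c1 * X := mul_le_mul_of_nonneg_left hXlow hc1pos.le
  have hHle : (H : ℝ) ≤ c1 * X := Nat.floor_le (by positivity)
  have hHlt : c1 * X < H + 1 := Nat.lt_floor_add_one _
  have hkH : k ≤ H := by
    have : (k : ℝ) ≤ H := by linarith
    exact_mod_cast this
  have hHl : (H : ℝ) ≤ k * l ^ 2 := by
    have : c1 * X ≤ 1 * X := mul_le_mul_of_nonneg_right hc1a hX0.le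
    linarith
  have hHk2 : H ≤ k ^ 2 := by
    have : (H : ℝ) ≤ (k : ℝ) ^ 2 := by
      refine hHl.trans ?_
      rw [sq (k : ℝ)]
      exact mul_le_mul_of_nonneg_left hlsq hk0.le
    exact_mod_cast this
  -- the exceptional prime
  have hz : z0 ≤ k ^ 40 := hkz.trans (Nat.le_self_pow (by norm_num) k)
  have hHz : (4 * (H : ℝ) ^ 2) ^ 8 ≤ ((k ^ 40 : ℕ) : ℝ) := by
    have ha : 4 * H ^ 2 ≤ k ^ 5 := by
      calc 4 * H ^ 2 ≤ 4 * (k ^ 2) ^ 2 := Nat.mul_le_mul_left _ (Nat.pow_le_pow_left hHk2 2)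
        _ = 4 * k ^ 4 := by ring
        _ ≤ k * k ^ 4 := Nat.mul_le_mul_right _ (by omega)
        _ = k ^ 5 := by ring
    have hb : (4 * H ^ 2) ^ 8 ≤ k ^ 40 := by
      calc (4 * H ^ 2) ^ 8 ≤ (k ^ 5) ^ 8 := Nat.pow_le_pow_left ha 8
        _ = k ^ 40 := by rw [← pow_mul]
    exact_mod_cast hb
  obtain ⟨q, hq, hqH, hgood⟩ := hexc (k ^ 40) hz H (by omega) hHz
  obtain ⟨M, n0, hM0, hM4, hMp, hqM, hqn, hcount⟩ := hcov k hk2 l l2 l3 b hPS H hkH hHl q hq hqH
  set Sv : Finset ℤ := (Icc (-(H : ℤ)) H).filter (fun a : ℤ => a ≠ 0 ∧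
        ∀ p : ℕ, p.Prime → p ∣ M → ¬ (p : ℤ) ∣ (n0 : ℤ) ^ 2 - a) with hSv
  set B : Finset ℤ := Sv.filter (fun a => ¬ IsSquare a) with hB
  have hk2lt : k ^ 2 < k ^ 40 := Nat.pow_lt_pow_right (by omega) (by norm_num)
  have hklt : k < k ^ 40 := by
    calc k = k ^ 1 := (pow_one k).symm
      _ < k ^ 40 := Nat.pow_lt_pow_right (by omega) (by norm_num)
  have hMc : ∀ p : ℕ, p.Prime → k ^ 40 < p → Nat.Coprime M p := by
    intro p hp hpk
    rw [Nat.coprime_comm, hp.coprime_iff_not_dvd]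
    intro hd
    rcases hMp p hp hd with h | h
    · omega
    · subst h; omega
  have hBg : ∀ x ∈ B, |x| ≤ (k : ℤ) ^ 2 ∧ Good C0 c2 (ch x) (k ^ 40) := by
    intro x hx
    rw [hB, mem_filter, hSv, mem_filter, mem_Icc] at hx
    obtain ⟨⟨⟨hx1, hx2⟩, hx0, hxM⟩, hxs⟩ := hx
    have hxa : |x| ≤ (H : ℤ) := abs_le.2 ⟨hx1, hx2⟩
    refine ⟨hxa.trans (by exact_mod_cast hHk2), hgood x hx0 hxa hxs ?_⟩
    intro hqx
    refine hxM q hq hqM (dvd_sub ?_ hqx)
    exact dvd_pow (by exact_mod_cast hqn) (by norm_num)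
  have hBc : (B.card : ℝ) ≤ c * k := by
    have ha : (B.card : ℝ) ≤ Sv.card := by
      exact_mod_cast card_le_card (filter_subset _ _)
    refine ha.trans (hcount.trans ?_)
    have hb : (H : ℝ) * l2 ^ 2 / (l ^ 2 * l3) ≤ c1 * k := by
      rw [div_le_iff₀ (by positivity)]
      calc (H : ℝ) * l2 ^ 2 ≤ c1 * X * l2 ^ 2 := mul_le_mul_of_nonneg_right hHle hl2sq0.le
        _ = c1 * (k * l ^ 2 * l3) := by
            rw [hX]
            field_simp
        _ = c1 * k * (l ^ 2 * l3) := by ring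
    calc C * ((H : ℝ) * l2 ^ 2 / (l ^ 2 * l3)) ≤ C * (c1 * k) :=
          mul_le_mul_of_nonneg_left hb hC.le
      _ = C * c1 * k := by ring
      _ ≤ c * k := mul_le_mul_of_nonneg_right hc1b hk0.le
  set n1' : ℕ := M * (n1 / M + 1) + n0 % M with hn1'
  obtain ⟨t, htT, ht⟩ := hcore k hk1 M (n1' : ℤ) B (2 ^ (8 * k)) hMc hBg hBc le_rfl
  -- the integer `N`
  set N : ℕ := n1' + M * t with hN
  have hn1a : n1 ≤ n1' := by
    have ha := Nat.div_add_mod n1 M
    have hb := Nat.mod_lt n1 hM0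
    have hd : M * (n1 / M + 1) = M * (n1 / M) + M := by ring
    omega
  have hn1b : n1' ≤ n1 + 2 * M := by
    have ha := Nat.mul_div_le n1 M
    have hb := Nat.mod_lt n0 hM0
    have hd : M * (n1 / M + 1) = M * (n1 / M) + M := by ring
    omega
  have hcube := cube_le hk1000
  have hM3 : M ≤ 2 ^ (3 * k) := by
    calc M ≤ 4 ^ k * H := hM4
      _ ≤ 4 ^ k * 2 ^ k := Nat.mul_le_mul_left _ (hHk2.trans
          ((Nat.pow_le_pow_right (by omega) (by norm_num)).trans hcube))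
      _ = 2 ^ (3 * k) := by
          rw [show (4 : ℕ) = 2 ^ 2 by norm_num, ← pow_mul, ← pow_add]
          congr 1
          ring
  have hNn : n1 ≤ N := by omega
  have hNu : N ≤ n1 + 2 ^ (12 * k) := by
    have ha : M * t ≤ M * 2 ^ (8 * k) := Nat.mul_le_mul_left _ htT.le
    have hb : 2 * M + M * 2 ^ (8 * k) ≤ 2 ^ (12 * k) := by
      have hd : 2 ≤ 2 ^ (8 * k) := by
        calc 2 = 2 ^ 1 := rfl
          _ ≤ 2 ^ (8 * k) := Nat.pow_le_pow_right (by norm_num) (by omega)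
      calc 2 * M + M * 2 ^ (8 * k) ≤ 2 ^ (8 * k) * M + M * 2 ^ (8 * k) :=
            Nat.add_le_add_right (Nat.mul_le_mul_right _ hd) _
        _ = 2 * (M * 2 ^ (8 * k)) := by ring
        _ ≤ 2 * (2 ^ (3 * k) * 2 ^ (8 * k)) :=
            Nat.mul_le_mul_left _ (Nat.mul_le_mul_right _ hM3)
        _ = 2 ^ (11 * k + 1) := by
            rw [← pow_add, mul_comm, ← pow_succ]
            congr 1
            ring
        _ ≤ 2 ^ (12 * k) := Nat.pow_le_pow_right (by norm_num) (by omega)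
    omega
  refine ⟨N, H, hNn, hNu, ?_, ?_⟩
  · intro p hp
    by_contra hcon
    push Not at hcon
    set a : ℤ := (N : ℤ) ^ 2 - p with ha
    have haH : |a| ≤ (H : ℤ) := by
      rw [ha, abs_sub_comm]
      exact hcon
    have hpa : (p : ℤ) = (N : ℤ) ^ 2 - a := by rw [ha]; ring
    have hNk : k ^ 3 ≤ N := hcube.trans (hn1.trans hNn)
    have hNH : 1000 * H ≤ N := by
      calc 1000 * H ≤ k * k ^ 2 := Nat.mul_le_mul hk1000 hHk2
        _ = k ^ 3 := by ring
        _ ≤ N := hNk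
    have hN2k : 2 ^ k ≤ N := hn1.trans hNn
    have hNH' : (1000 : ℤ) * H ≤ N := by exact_mod_cast hNH
    have hH1 : (1000 : ℤ) ≤ H := by exact_mod_cast hk1000.trans hkH
    have hpbig : (N : ℤ) < p := by
      rw [hpa]
      have h1 := (abs_le.1 haH).2
      nlinarith
    have hpbig' : N < p := by exact_mod_cast hpbig
    have hsmall : ∀ r : ℕ, r.Prime → (r : ℤ) ∣ (N : ℤ) ^ 2 - a → N < r := by
      intro r hr hd
      rw [← hpa] at hd
      have hd' : r ∣ p := by exact_mod_cast hd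
      have := (Nat.prime_dvd_prime_iff_eq hr hp).1 hd'
      omega
    by_cases hsq : IsSquare a
    · obtain ⟨r, hr⟩ := hsq
      have hr2 : r.natAbs * r.natAbs = a.natAbs := by
        rw [hr, Int.natAbs_mul]
      have hrH : r.natAbs ≤ H := by
        have h1 : a.natAbs ≤ H := by
          have h := haH
          rw [Int.abs_eq_natAbs] at h
          exact_mod_cast h
        have h2 : r.natAbs ≤ r.natAbs * r.natAbs := Nat.le_mul_self _
        exact h2.trans (hr2.le.trans h1)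
      have hfac : p = (N - r.natAbs) * (N + r.natAbs) := by
        have h1 : r.natAbs ≤ N := by omega
        have h2 : ((r.natAbs : ℤ)) * r.natAbs = r * r := Int.natAbs_mul_self' r
        zify [h1]
        have h3 : ((|r| : ℤ)) * |r| = r * r := abs_mul_abs_self r
        rw [hpa, hr]
        ring_nf
        rw [sq_abs]
      have h1 : N - r.natAbs ≠ 1 := by omega
      have h2 : N + r.natAbs ≠ 1 := by omega
      exact Nat.not_prime_mul h1 h2 (hfac ▸ hp)
    · by_cases hsv : a ∈ Sv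
      · obtain ⟨r, hr, _, hr2, hrd⟩ := ht a (mem_filter.2 ⟨hsv, hsq⟩)
        have h1 : (r : ℤ) ∣ (N : ℤ) ^ 2 - a := by
          have h2 : ((N : ℕ) : ℤ) = (n1' : ℤ) + M * (t : ℕ) := by
            rw [hN]
            push_cast
            ring
          rw [h2]
          exact hrd
        have := hsmall r hr h1
        omega
      · have ha0 : a ≠ 0 := by
          rintro h0
          exact hsq (h0 ▸ IsSquare.zero)
        have h1 : ∃ r : ℕ, r.Prime ∧ r ∣ M ∧ (r : ℤ) ∣ (n0 : ℤ) ^ 2 - a := by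
          by_contra hno
          push Not at hno
          exact hsv (mem_filter.2 ⟨mem_Icc.2 (abs_le.1 haH), ha0, hno⟩)
        obtain ⟨r, hr, hrM, hrd⟩ := h1
        have h2 : (M : ℤ) ∣ (N : ℤ) - n0 := by
          have h3 : ((N : ℕ) : ℤ) - n0 = M * (n1 / M + 1 + t - (n0 / M : ℕ)) := by
            have h4 := Nat.div_add_mod n0 M
            have h5 : ((n0 : ℕ) : ℤ) = M * (n0 / M : ℕ) + (n0 % M : ℕ) := by
              exact_mod_cast h4.symm
            rw [hN, hn1']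
            push_cast at h5 ⊢
            linarith
          rw [h3]
          exact dvd_mul_right _ _
        have h3 : (r : ℤ) ∣ (N : ℤ) ^ 2 - a := by
          have h4 : (N : ℤ) ^ 2 - a = ((N : ℤ) - n0) * (N + n0) + ((n0 : ℤ) ^ 2 - a) := by ring
          rw [h4]
          exact dvd_add (dvd_mul_of_dvd_left ((by exact_mod_cast hrM : (r : ℤ) ∣ M).trans h2) _) hrd
        have h5 := hsmall r hr h3
        rcases hMp r hr hrM with h | h
        · omega
        · omega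
  · have : c1 / 2 * X ≤ H := by linarith
    exact this

end Pool.Agent.SQ
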